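import Mathlib

/-! # Native definitions for the topological part (block E1)

(problem MP_ba5606_gt, project CPY; definitions and small lemmas, no sorry in this file)

* `ext s` : the sequence `s 0 0 0 ...`.
* `th e h` : the function `θ_h = sup_i (1/(i+1)) sup_{j ≤ h i} e_{ij}`, `e_{ij} = e (pair i j)`.
* `bas E B` : the basic set of all functions `c` with `q < c (E n) < q'` for `(n, q, q') ∈ B`.
* `tent E B` : a continuous function which is positive exactly on `bas E B`.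
* `uu`, `phi` : the Urysohn type function, see `EUry.lean`.
* `TF F` : the tree of the closed set `F`, `UU F b y` : the set of approximations. -/

set_option autoImplicit false

namespace CPY

/-- the sequence `s 0 0 0 ...` -/
def ext (s : List ℕ) : ℕ → ℕ := fun i => s.getD i 0

section

variable {X : Type*}

/-- `θ_h = sup_i (1/(i+1)) sup_{j ≤ h i} e_{ij}` -/
noncomputable def th (e : ℕ → X → ℝ) (h : ℕ → ℕ) (x : X) : ℝ :=
  ⨆ i : ℕ, (1 / ((i : ℝ) + 1)) * ⨆ j : Fin (h i + 1), e (Nat.pair i j) x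

/-- the functions `e n` are continuous with values in `[0, 1]`, and at most one of them is positive at
any point -/
structure Dis [TopologicalSpace X] (e : ℕ → X → ℝ) : Prop where
  cont : ∀ n, Continuous (e n)
  nn : ∀ n x, 0 ≤ e n x
  le : ∀ n x, e n x ≤ 1
  dis : ∀ m n x, 0 < e m x → 0 < e n x → m = n

/-- the basic set given by the points `E n` and the list `B` -/
def bas (E : ℕ → X) (B : List (ℕ × ℚ × ℚ)) : Set (X → ℝ) :=
  {c | ∀ t ∈ B, (t.2.1 : ℝ) < c (E t.1) ∧ c (E t.1) < (t.2.2 : ℝ)}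

/-- a function which is positive exactly on `bas E B` -/
noncomputable def tent (E : ℕ → X) : List (ℕ × ℚ × ℚ) → (X → ℝ) → ℝ
  | [], _ => 1
  | t :: B, c => min (max 0 (min (c (E t.1) - (t.2.1 : ℝ)) ((t.2.2 : ℝ) - c (E t.1)))) (tent E B c)

/-- `u_m = sup {tent B / (code B + 1) | P B m' for some m' ≤ m}` -/
noncomputable def uu (E : ℕ → X) (P : List (ℕ × ℚ × ℚ) → ℕ → Prop) (m : ℕ) (c : X → ℝ) : ℝ :=
  open Classical in
  ⨆ B : List (ℕ × ℚ × ℚ),
    if ∃ m' ≤ m, P B m' then (1 / ((Encodable.encode B : ℝ) + 1)) * tent E B c else 0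

/-- `phi = sup_m (m + 1) max (0, 1 - m u_m)` -/
noncomputable def phi (E : ℕ → X) (P : List (ℕ × ℚ × ℚ) → ℕ → Prop) (c : X → ℝ) : ℝ :=
  ⨆ m : ℕ, ((m : ℝ) + 1) * max 0 (1 - (m : ℝ) * uu E P m c)

end

/-- the tree of `F`: `u`, `w`, `s` have the same length `k` and some `(b, y, v) ∈ F` satisfies
`b i = u i`, `|y i - w i| < 2^{-k}`, `v i = s i` for `i < k` -/
def TF (F : Set ((ℕ → Bool) × (ℕ → ℝ) × (ℕ → ℕ))) (u : List Bool) (w : List ℚ) (s : List ℕ) :
    Prop :=
  u.length = s.length ∧ w.length = s.length ∧ ∃ b y v, (b, y, v) ∈ F ∧ ∀ i < s.length,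
    b i = u.getD i false ∧ |y i - (w.getD i 0 : ℚ)| < (1 / 2 : ℝ) ^ s.length ∧ v i = s.getD i 0

/-- the approximations `s` of branches of `F` over `(b, y)` -/
def UU (F : Set ((ℕ → Bool) × (ℕ → ℝ) × (ℕ → ℕ))) (b : ℕ → Bool) (y : ℕ → ℝ) (s : List ℕ) : Prop :=
  ∃ u w, TF F u w s ∧ ∀ i < s.length,
    b i = u.getD i false ∧ |y i - (w.getD i 0 : ℚ)| < (1 / 2 : ℝ) ^ s.length

end CPY
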