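import Pool.Agent.CPI.Lang

/-! # Positive answers inside a structure `(N, E)` (statement)

(problem MP_ba5606_gt, project CPY; definitions, no sorry in this file)

The notions `IsRL` (real line), `IsTop`, `IsHd`, `IsCpt`, `IsCts`, `IsCp`, `IsLin`, `IsMono` are those of
`CPI/Lang.lean`. -/

universe v

namespace CPY

open STP CPI

section

variable {N : Type v} (E : N → N → Prop)

/-- For every compact Hausdorff space `X` such that `C_p(C_p(X))` is Lindelof, `C_p(X)` is Lindelof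
and `X` is `ω`-monolithic. -/
def PosArh : Prop :=
  ∃ R l, IsRL E R l ∧ ∀ X τ C σ D ρ, IsTop E X τ → IsHd E X τ → IsCpt E X τ →
    IsCp E R l X τ C σ → IsCp E R l C σ D ρ → IsLin E D ρ → IsLin E C σ ∧ IsMono E X τ

end

/-- the membership relation of `W` -/
def Em (W : Set ZFSet.{0}) : W → W → Prop := fun x y => x.1 ∈ y.1

/-- `W` is a transitive set (class) of sets, a model of ZFC, and every element of `W` is the image of
an ordinal of `W` under a function of `W` -/
structure Mod (W : Set ZFSet.{0}) : Prop where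
  trans : ∀ x ∈ W, ∀ y ∈ x, y ∈ W
  zfc : ZFC (Em W)
  wo : ∀ A ∈ W, ∃ o ∈ W, o.IsOrdinal ∧ ∃ f ∈ W, (∀ z ∈ f, ∃ x ∈ o, ∃ y, z = ZFSet.pair x y) ∧
    (∀ x ∈ o, ∃! y, ZFSet.pair x y ∈ f) ∧ ∀ y ∈ A, ∃ x ∈ o, ZFSet.pair x y ∈ f

end CPY
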