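import Pool.Agent.CPY.HPr
import Pool.Agent.LGr.Defs
import Pool.Agent.WCal.Tm
import Pool.Agent.WCal.Br

/-! # A model with positive answers: interfaces of the blocks C and D (definitions)

(problem MP_ba5606_gt, ARH Part II; helper78; no sorry in this file)

* `Cod W c`: every internal family `x a : ℕ → Bool` (`a : Θ`) is coded by one internal function `d`
  along the reals `c a`: `x a k` is the eventual value of `d (k, c a | n)`.
* `ExtC h Θ c`: the conclusion of the forcing construction (block C): `Θ` is still `ω₁` in `W`, and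
  `Cod W c`.
* `BlockC`: block C (the poset) together with block B (generic extensions).
* `BlockD`: block D (the principle `HPr`) together with block A (the ground model). The family `Φ` of
  relations on `ℕ` codes the arithmetic of the rational numbers and the closed set of the proof of
  `HPr`. -/

set_option autoImplicit false

universe u v

namespace CPY

open STP WCal WM

/-- coding of families of reals along the reals `c a` -/
def Cod (W : Type u) [WM W] {Θ : Type v} [WTy W Θ] (c : Θ → ℕ → Bool) : Prop :=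
  ∀ x : Θ × ℕ → Bool, IF W x → ∃ d : ℕ × List Bool → Bool, IF W d ∧
    ∀ a k, ∃ n₀, ∀ n ≥ n₀, d (k, ini (c a) n) = x (a, k)

/-- the codes of a type of `M` as codes of the larger model `W` -/
@[reducible] def upT {M W : Set ZFSet.{0}} [Fact (Mod M)] [Fact (Mod W)] (h : M ⊆ W) (Θ : Type v)
    [WTy M Θ] : WTy W Θ := lft (embOf h) Θ

/-- the properties of the forcing extension -/
def ExtC {M W : Set ZFSet.{0}} [Fact (Mod M)] [Fact (Mod W)] (h : M ⊆ W) (Θ : Type v)
    [WTy M Θ] [LinearOrder Θ] (c : Θ → ℕ → Bool) : Prop :=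
  @OmO W _ Θ (upT h Θ) _ ∧ @Cod W _ Θ (upT h Θ) c

/-- block C -/
def BlockC : Prop :=
  ∀ (M : Set ZFSet.{0}) [Fact (Mod M)] (Θ : Type 1) [WTy M Θ] [LinearOrder Θ] (c : Θ → ℕ → Bool),
    M.Countable → OmO M Θ → IF M (fun p : Θ × ℕ => c p.1 p.2) → Function.Injective c →
    ∃ (W : Set ZFSet.{0}) (_ : Fact (Mod W)) (h : M ⊆ W), W.Countable ∧ ExtC h Θ c

/-- the property of the ground model `M` used in block D -/
def GrD (M : Set ZFSet.{0}) [Fact (Mod M)] : Prop :=
  Std M ∧ ∃ (Θ : Type 1) (_ : WTy M Θ) (_ : LinearOrder Θ) (c : Θ → ℕ → Bool),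
    OmO M Θ ∧ IF M (fun p : Θ × ℕ => c p.1 p.2) ∧ Function.Injective c ∧
    ∀ (W : Set ZFSet.{0}) (_ : Fact (Mod W)) (h : M ⊆ W), W.Countable → ExtC h Θ c →
      @HPr W _ Θ (upT h Θ) _

/-- block D -/
def BlockD : Prop :=
  ∃ Φ : ℕ → ℕ → ℕ → ℕ → Prop, ∀ (δ : Ordinal.{0}) (_ : Fact (Mod (LGr.U Φ δ))),
    Order.IsSuccLimit δ → Ordinal.omega0 < δ → (LGr.U Φ δ).Countable → GrD (LGr.U Φ δ)

end CPY
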