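import Pool.Agent.CPY.TopDefs
import Pool.Agent.CPY.D.Hof
import Pool.Agent.LGr.Arith
import Pool.Agent.LGr.Gp
import Pool.Agent.LGr.Cc

/-! # Block D (with block A): the ground model has the property `GrD`

(problem MP_ba5606_gt, ARH Part II; no sorry in this file)

`M = U (Ph t) δ` is the ground model (`LGr/Gp.lean`), `θ` the first uncountable ordinal of `M`, `Θ = El θ` the type of the elements
of `θ`, `c : Θ → 2^ω` the enumeration of the reals of `U (Ph t) θ` (`LGr/Cc.lean`). In an extension `W` of `M` in which `Θ` is still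
`ω₁` the ordinal `θ` is the first uncountable ordinal (`isTht_of`), so `A1_real` gives the first condition of `hpr_of`. -/

set_option autoImplicit false

universe u v w

namespace CPY

open STP WCal WM LGr CPYD

private theorem dt_eq {N : Type u} [WM N] {α : Type v} {β : Type w} [WTy N α] [WTy N β] :
    IP N (fun p : α × β => cd N p.1 = cd N p.2) := by
  refine IP.of_sat (Fml.ex (fOP 1 0 0)) (fun _ => rg N α) fun p => ?_
  simp only [sat_ex, sat_fOP, cns_zero, cns_one, isOP_iff]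
  change cd N p.1 = cd N p.2 ↔ ∃ x, op (cd N p.1) (cd N p.2) = op x x
  constructor
  · intro h
    exact ⟨cd N p.2, by rw [h]⟩
  · rintro ⟨x, hx⟩
    obtain ⟨h1, h2⟩ := op_inj.1 hx
    exact h1.trans h2.symm

private theorem dt_mem {N : Type u} [WM N] {α : Type v} {β : Type w} [WTy N α] [WTy N β] :
    IP N (fun p : α × β => WM.E (cd N p.1) (cd N p.2)) := by
  refine IP.of_sat (Fml.ex (Fml.ex (Fml.an (fOP 2 1 0) (.mem 1 0)))) (fun _ => rg N α) fun p => ?_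
  simp only [sat_ex, sat_an, sat_mem, sat_fOP, cns_zero, cns_one, cns_two, isOP_iff]
  change WM.E (cd N p.1) (cd N p.2) ↔ ∃ x y, op (cd N p.1) (cd N p.2) = op x y ∧ WM.E x y
  constructor
  · intro h
    exact ⟨cd N p.1, cd N p.2, rfl, h⟩
  · rintro ⟨x, y, hx, h⟩
    obtain ⟨h1, h2⟩ := op_inj.1 hx
    rw [h1, h2]
    exact h

/-- a map which does not change the codes is internal -/
private theorem dt_if {N : Type u} [WM N] {α : Type v} {β : Type w} [WTy N α] [WTy N β] {f : α → β}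
    (h : ∀ a, cd N (f a) = cd N a) : IF N f := by
  refine IP.congr (fun p => ?_) (dt_eq (N := N) (α := α) (β := β))
  rw [← h p.1]
  exact cd_inj (N := N)

private theorem dt_nt {N : Type u} [WM N] (n : ℕ) : WCal.nt N n = ZU.nt n := by
  induction n with
  | zero => exact emp_eq
  | succ n ih =>
    refine ZU.ext fun z => ?_
    rw [ZU.nt_succ, ZU.mem_sc, ← ih]
    exact E_sc

section

variable {M : Set ZFSet.{0}} [hM : Fact (Mod M)] {θ : Ordinal.{0}}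

private theorem dt_ord (hm : θ.toZFSet ∈ M) (a : El (⟨θ.toZFSet, hm⟩ : M)) :
    ∃ α < θ, α.toZFSet = a.v.1 := Ordinal.mem_toZFSet_iff.1 a.h

private theorem dt_rank (hm : θ.toZFSet ∈ M) (a : El (⟨θ.toZFSet, hm⟩ : M)) :
    a.v.1.rank.toZFSet = a.v.1 := by
  obtain ⟨α, -, hα⟩ := dt_ord hm a
  rw [← hα, Ordinal.rank_toZFSet]

/-- the order of the elements of an ordinal of the model -/
@[reducible] noncomputable def ordE (hm : θ.toZFSet ∈ M) : LinearOrder (El (⟨θ.toZFSet, hm⟩ : M)) :=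
  LinearOrder.lift' (fun a => a.v.1.rank) fun a b h => by
    have h1 : a.v.1 = b.v.1 := by
      rw [← dt_rank hm a, ← dt_rank hm b]
      exact congrArg Ordinal.toZFSet h
    exact El.ext (Subtype.ext h1)

private theorem ordE_lt (hm : θ.toZFSet ∈ M) (a b : El (⟨θ.toZFSet, hm⟩ : M)) :
    (ordE hm).lt a b ↔ a.v.1 ∈ b.v.1 := by
  have h : (ordE hm).lt a b ↔ a.v.1.rank < b.v.1.rank := Iff.rfl
  rw [h, ← Ordinal.toZFSet_mem_toZFSet_iff, dt_rank hm a, dt_rank hm b]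

/-- the element of `θ` given by a smaller ordinal -/
private noncomputable def dt_el (hm : θ.toZFSet ∈ M) {α : Ordinal.{0}} (h : α < θ) : El (⟨θ.toZFSet, hm⟩ : M) :=
  ⟨⟨α.toZFSet, hM.out.trans _ hm _ (Ordinal.toZFSet_mem_toZFSet_iff.2 h)⟩,
    Ordinal.toZFSet_mem_toZFSet_iff.2 h⟩

theorem omO_of (hθ : IsTht M θ) : @OmO M _ (El (⟨θ.toZFSet, hθ.mem⟩ : M)) _ (ordE hθ.mem) := by
  let _ := ordE hθ.mem
  refine ⟨?_, ?_, ?_, ?_⟩
  · exact InvImage.wf (fun a : El (⟨θ.toZFSet, hθ.mem⟩ : M) => a.v.1.rank) Ordinal.lt_wf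
  · refine IP.congr (fun p => ?_) (dt_mem (N := M) (α := El (⟨θ.toZFSet, hθ.mem⟩ : M))
      (β := El (⟨θ.toZFSet, hθ.mem⟩ : M)))
    exact (ordE_lt hθ.mem p.1 p.2).symm
  · intro a
    obtain ⟨α, hα, hαa⟩ := dt_ord hθ.mem a
    rcases ctb_iff.1 (hθ.cnt hα) ⟨{x | True}, IP.const True⟩ with h1 | ⟨e, he⟩
    · refine ⟨fun _ => a, IF.const a, fun b hb => ?_⟩
      have h2 : b.v.1 ∈ a.v.1 := (ordE_lt hθ.mem b a).1 hb
      rw [← hαa] at h2
      exact absurd trivial (h1 ⟨b.v, h2⟩)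
    · have hsub : ∀ x : El (⟨α.toZFSet, hθ.lt_mem hα⟩ : M), x.v.1 ∈ θ.toZFSet := fun x =>
        Ordinal.toZFSet_subset_toZFSet_iff.2 hα.le x.h
      let ι : El (⟨α.toZFSet, hθ.lt_mem hα⟩ : M) → El (⟨θ.toZFSet, hθ.mem⟩ : M) :=
        fun x => ⟨x.v, hsub x⟩
      have hι : IF M ι := dt_if fun x => rfl
      refine ⟨fun n => ι (e n), hι.comp e.int, fun b hb => ?_⟩
      have h2 : b.v.1 ∈ a.v.1 := (ordE_lt hθ.mem b a).1 hb
      rw [← hαa] at h2
      obtain ⟨n, hn⟩ := he ⟨b.v, h2⟩ trivial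
      refine ⟨n, ?_⟩
      show ι (e n) = b
      rw [hn]
  · intro e he
    have hP : IP M (fun a : El (⟨θ.toZFSet, hθ.mem⟩ : M) => ∃ n : ℕ, e n = a) := by
      refine IP.ex ?_
      exact IP.eq (he.comp IF.snd) IF.fst
    obtain ⟨x0, hx0⟩ := exists_sub M _ hP
    obtain ⟨F, hF, hFe⟩ := df_if he
    have h1 : ZU.Ctb x0 := by
      refine ZU.ctb_of_om hF fun z hz => ?_
      obtain ⟨a, ⟨n, rfl⟩, rfl⟩ := (hx0 z).1 hz
      refine ⟨n, ?_⟩
      rw [← hFe n]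
      exact congrArg F (dt_nt n)
    obtain ⟨α, hα, h2⟩ := hθ.bdd h1 (fun z hz => by
      obtain ⟨a, -, h3⟩ := (hx0 ⟨z, hM.out.trans _ x0.2 _ hz⟩).1 hz
      have h4 : a.v.1 = z := congrArg Subtype.val h3
      rw [← h4]
      exact a.h)
    refine ⟨dt_el hθ.mem hα, fun n => (ordE_lt hθ.mem _ _).2 ?_⟩
    exact h2 _ ((hx0 _).2 ⟨e n, ⟨n, rfl⟩, rfl⟩)

end

/-- `θ` is the first uncountable ordinal of an extension in which `Θ` is still `ω₁` -/
theorem isTht_of {M W : Set ZFSet.{0}} [hM : Fact (Mod M)] [hW : Fact (Mod W)] (h : M ⊆ W)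
    {θ : Ordinal.{0}} (hm : θ.toZFSet ∈ M) (hne : Nonempty (El (⟨θ.toZFSet, hm⟩ : M)))
    (hΘ : @OmO W _ (El (⟨θ.toZFSet, hm⟩ : M)) (upT h _) (ordE hm)) : IsTht W θ := by
  let _ : WTy W (El (⟨θ.toZFSet, hm⟩ : M)) := upT h _
  let _ := ordE hm
  have hcd : ∀ a : El (⟨θ.toZFSet, hm⟩ : M), (cd W a).1 = a.v.1 := fun a => rfl
  refine ⟨h hm, isOrd_iff.2 ⟨θ, rfl⟩, fun x hx => ?_, fun A hA hc => ?_⟩
  · obtain ⟨α, hα, hαx⟩ := Ordinal.mem_toZFSet_iff.1 (show x.1 ∈ θ.toZFSet from hx)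
    obtain ⟨e, he, he'⟩ := hΘ.seg (dt_el hm hα)
    obtain ⟨F, hF, hFe⟩ := df_if he
    refine ZU.ctb_of_om hF fun z hz => ?_
    have hz1 : z.1 ∈ α.toZFSet := by
      rw [hαx]
      exact hz
    obtain ⟨β, hβ, hβz⟩ := Ordinal.mem_toZFSet_iff.1 hz1
    obtain ⟨n, hn⟩ := he' (dt_el hm (hβ.trans hα)) ((ordE_lt hm _ _).2
      (Ordinal.toZFSet_mem_toZFSet_iff.2 hβ))
    refine ⟨n, Subtype.ext ?_⟩
    have h1 := hFe n
    have h2 : (cd W n : W) = ZU.nt n := dt_nt n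
    rw [h2, hn] at h1
    rw [h1, hcd]
    exact hβz.symm
  · rcases ctb_iff.1 hc ⟨{x | True}, IP.const True⟩ with h1 | ⟨e, he⟩
    · obtain ⟨a⟩ := hne
      refine ⟨cd W a, ?_, fun z hz => absurd trivial (h1 ⟨z, hz⟩)⟩
      show (cd W a).1 ∈ θ.toZFSet
      rw [hcd]
      exact a.h
    · have hsub : ∀ x : El A, x.v.1 ∈ θ.toZFSet := fun x => hA x.v x.h
      let ι : El A → El (⟨θ.toZFSet, hm⟩ : M) :=
        fun x => ⟨⟨x.v.1, hM.out.trans _ hm _ (hsub x)⟩, hsub x⟩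
      have hι : IF W ι := dt_if fun x => rfl
      obtain ⟨a, ha⟩ := hΘ.bdd (fun n => ι (e n)) (hι.comp e.int)
      refine ⟨cd W a, ?_, fun z hz => ?_⟩
      · show (cd W a).1 ∈ θ.toZFSet
        rw [hcd]
        exact a.h
      · obtain ⟨n, hn⟩ := he ⟨z, hz⟩ trivial
        have h2 := (ordE_lt hm _ _).1 (ha n)
        rw [hn] at h2
        show z.1 ∈ (cd W a).1
        rw [hcd]
        exact h2

/-- blocks A and D -/
theorem blockD : BlockD := by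
  obtain ⟨T, t, hT, hG⟩ := exists_param (fun _ => T2c)
  refine ⟨Ph t, fun δ hδM hlim hω hcnt => ?_⟩
  have hG' : GMod T t δ := hG δ hlim hω hcnt hδM.out
  have hstd : Std (U (Ph t) δ) := std hG'.lim hG'.ph
  obtain ⟨θ, hθ⟩ := exists_tht (U (Ph t) δ)
  obtain ⟨c, hc, hinj, hcU⟩ := exists_c hG' hθ
  refine ⟨hstd, El (⟨θ.toZFSet, hθ.mem⟩ : U (Ph t) δ), inferInstance, ordE hθ.mem, c, omO_of hθ, hc,
    hinj, fun W hW h _ hE => ?_⟩
  have hΘM := omO_of hθ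
  have hne : Nonempty (El (⟨θ.toZFSet, hθ.mem⟩ : U (Ph t) δ)) := by
    refine ⟨dt_el hθ.mem (α := 0) ?_⟩
    exact lt_trans Ordinal.omega0_pos hθ.om_lt
  have hθW : IsTht W θ := isTht_of h hθ.mem hne hE.1
  have ht : IF (U (Ph t) δ) t := ift hG'.lim hG'.ph
  have hT2 : IP (U (Ph t) δ) T2 := by
    refine ip_T2 ?_
    have h1 := ipT (T := T) (t := t) hG'.lim hG'.ph 2
    rw [hT 0] at h1
    exact h1
  let j := embOf h
  let _ : LinearOrder (El (⟨θ.toZFSet, hθ.mem⟩ : U (Ph t) δ)) := ordE hθ.mem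
  have hA2M : ∀ γ : El (⟨θ.toZFSet, hθ.mem⟩ : U (Ph t) δ), ∃ b, IF (U (Ph t) δ) b ∧ Tb b t ∧
      WellFounded (Jb b) ∧ ∃ k x, Rea b k x ∧ ∀ a ≤ γ, c a ≠ x := by
    intro γ
    obtain ⟨γ', hγ'⟩ := hΘM.bdd (fun _ => γ) (IF.const γ)
    obtain ⟨e, he, he'⟩ := hΘM.seg γ'
    have hx : IF (U (Ph t) δ) (fun p : ℕ × ℕ => c (e p.1) p.2) :=
      IF.comp (g := fun p : El (⟨θ.toZFSet, hθ.mem⟩ : U (Ph t) δ) × ℕ => c p.1 p.2)
        (f := fun p : ℕ × ℕ => (e p.1, p.2)) hc ((he.comp IF.fst).pair IF.snd)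
    obtain ⟨b, y, hb, hTb, hw, ⟨m, hm1, hm2⟩, hne⟩ := exists_new hG' (x := fun n => c (e n)) hx
    refine ⟨b, hb, hTb, hw, m, y, ⟨hm1, fun n => (hm2 n).trans ?_⟩, fun a ha => ?_⟩
    · exact exists_congr fun z => and_comm
    · obtain ⟨n, hn⟩ := he' a (lt_of_le_of_lt ha (hγ' 0))
      rw [← hn]
      exact hne n
  let _ : WTy W (El (⟨θ.toZFSet, hθ.mem⟩ : U (Ph t) δ)) := upT h _
  have : Std W := Emb.std j
  have : Cmp j (El (⟨θ.toZFSet, hθ.mem⟩ : U (Ph t) δ)) := ⟨fun _ => rfl⟩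
  refine hpr_of (N := W) (t := t) (c := c) (IF.lift j ht) (IP.lift j hT2) hne hE.1.lt
    (IF.lift j hc) ?_ ?_ hE.2
  · intro b hb hTb hw k x hx
    refine (hcU x).2 (A1_real hθW hb hTb hw ⟨k, hx.1, fun n => (hx.2 n).trans ?_⟩)
    exact exists_congr fun z => and_comm
  · intro γ
    obtain ⟨b, hb, h1⟩ := hA2M γ
    exact ⟨b, IF.lift j hb, h1⟩

end CPY
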