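import Pool.Agent.WCal.ReB

/-! # Topological spaces of the model (definitions and basic lemmas)

(problem MP_ba5606_gt, ARH Part II, blocks E1, E2, F; architect helper79)

The topology is native: a space of the model is a type `X` with codes (`WTy N X`) and a native
topology
such that (`WSp`) the internal open sets form a base and the family of the internal open sets is
internal. So a set of the model is open in the model iff it is open natively; an internal function
is
continuous in the model iff it is continuous natively. Only compactness and the Lindelöf property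
have to be defined in the model.

* `WCpt N X`, `WLin N X`: compact, Lindelöf (families of open sets of the model). `WNet N A`: the
  subspace `A` has a countable network in the model. `Ty N X`: completely regular.
* `CC N X`: the continuous functions of the model with the topology of pointwise convergence. The
  code
  of `c : CC N X` is the code of the internal function `c.toFn : Fn N X (RW N)` (a graph).
* `Bv v` (`v : List (X × ℚ × ℚ)`): a basic open set of `X → ℝ`; `BB v : St N (CC N X)`.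
* `clo A : St N X`: the closure of `A : St N X`.

PROOFS.
* `isOpen_iff_W`: for an internal set `U`: open iff for all `x ∈ U` there is an internal open `V`
  with
  `x ∈ V ⊆ U`: clear.
* `mem_closure_iff_W`: `base`. `closure_int`: quantifier over `U : St N X`, `WSp.fam`.
* `cont_iff`: a function `f : X → ℝ` is continuous iff `{x | q < f x}` and `{x | f x < q}` are open
  for all
  `q : ℚ` (`OrderTopology.continuous_iff`; for real `a` the set `{x | a < f x}` is the union of the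
  sets
  `{x | q < f x}`, `a < q`). `ip_cont`: so continuity of `F : Fn N X (RW N)` is internal: the sets
  are
  internal functions of `(F, q)` (`IF.compr`, `IP.ltR`, `IR.iff_IF`, `IF.app`), `WSp.fam`, `IP.all`.
* `CC.toFn_inj`: clear. `exists_rg_cc`: `exists_sub` for the predicate of `ip_cont`.
* `CC.mem_rg`: by definition. `IR.evC`: the evaluation `CC N X × X → ℝ` is internal:
  `cd N c = cd N c.toFn` by
  definition, so the map `c ↦ c.toFn` is internal (its graph is `{p | p.1 = p.2}` on codes: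
  `IP.of_sat`), then `IF.app` and `IR.iff_IF`. `IF.ccMk`: `a ↦ c a` is internal if `(a, x) ↦ c a x`
  is `IR`:
  `IF.lam'` for `toFn` and the same equality of codes.
* `isOpen_Bv`: finite intersection of preimages of open intervals. `exists_Bv`: a neighbourhood of
  `c` in
  the product topology contains a box with finitely many coordinates (`isOpen_pi_iff`), choose
  rational
  intervals.
* `ip_Bv`: `List` quantifier: `∀ t, t ∈ v → (t.2.1 : ℝ) < c t.1 ∧ c t.1 < t.2.2` (`IP.memList`,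
  `IP.ltR`, `IR.evC`, `IR.rat`).
* instance `WSp N (CC N X)`: `base`: `exists_Bv` (`BB v`). `fam`: an internal `U` is open iff
  `∀ c ∈ U, ∃ v, c ∈ BB v ∧ ∀ c', c' ∈ BB v → c' ∈ U` (`ip_Bv`, quantifiers over `CC N X`,
  `List (X × ℚ × ℚ)`). -/

universe u v w

namespace CPY

open WCal WM

/-- a topological space of the model -/
class WSp (N : Type u) [WM N] (X : Type v) [WTy N X] [TopologicalSpace X] : Prop where
  base : ∀ (x : X) (V : Set X), IsOpen V → x ∈ V → ∃ U : St N X, IsOpen U.s ∧ x ∈ U ∧ U.s ⊆ V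
  fam : IP N (fun U : St N X => IsOpen U.s)

section

variable (N : Type u) [WM N] (X : Type v) [WTy N X] [TopologicalSpace X]

/-- compact in the model -/
def WCpt : Prop :=
  ∀ S : St N (St N X), (∀ U : St N X, U ∈ S → IsOpen U.s) → (∀ x : X, ∃ U : St N X, U ∈ S ∧ x ∈ U) →
    ∃ l : List (St N X), (∀ U ∈ l, U ∈ S) ∧ ∀ x : X, ∃ U ∈ l, x ∈ U

/-- Lindelöf in the model -/
def WLin : Prop :=
  ∀ S : St N (St N X), (∀ U : St N X, U ∈ S → IsOpen U.s) → (∀ x : X, ∃ U : St N X, U ∈ S ∧ x ∈ U) →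
    ∃ T : St N (St N X), Cnt T ∧ (∀ U : St N X, U ∈ T → U ∈ S) ∧
      ∀ x : X, ∃ U : St N X, U ∈ T ∧ x ∈ U

variable {X} in
/-- the subspace `A` has a countable network in the model -/
def WNet (A : St N X) : Prop :=
  ∃ M : ℕ → St N X, IF N M ∧
    ∀ x : X, x ∈ A → ∀ U : Set X, IsOpen U → x ∈ U →
      ∃ n, x ∈ M n ∧ ∀ y : X, y ∈ M n → y ∈ A → y ∈ U

/-- the continuous real functions of the model -/
@[ext] structure CC where
  /-- the function -/
  f : X → ℝ
  int : IR N f
  cont : Continuous f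

end

section

variable {N : Type u} [WM N] {X : Type v} [WTy N X] [TopologicalSpace X]

instance : CoeFun (CC N X) (fun _ => X → ℝ) := ⟨CC.f⟩

instance : TopologicalSpace (CC N X) := TopologicalSpace.induced CC.f inferInstance

theorem CC.continuous_f : Continuous (CC.f : CC N X → X → ℝ) := continuous_induced_dom

theorem CC.continuous_eval (x : X) : Continuous fun c : CC N X => c x :=
  (continuous_apply x).comp CC.continuous_f

variable (N X) in
/-- completely regular in the model -/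
def Ty : Prop :=
  ∀ (x : X) (U : Set X), IsOpen U → x ∈ U →
    ∃ c : CC N X, (∀ y, 0 ≤ c y ∧ c y ≤ 1) ∧ c x = 1 ∧ ∀ y, y ∉ U → c y = 0

omit [WTy N X] in
theorem cont_iff {f : X → ℝ} :
    Continuous f ↔ ∀ q : ℚ, IsOpen {x | (q : ℝ) < f x} ∧ IsOpen {x | f x < (q : ℝ)} := by
  constructor
  · intro hf q
    exact ⟨isOpen_lt continuous_const hf, isOpen_lt hf continuous_const⟩
  · intro h
    rw [OrderTopology.continuous_iff]
    intro a
    constructor
    · have h1 : f ⁻¹' Set.Ioi a = ⋃ q : {q : ℚ // a < (q : ℝ)}, {x | (q.1 : ℝ) < f x} := by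
        ext x
        simp only [Set.mem_preimage, Set.mem_Ioi, Set.mem_iUnion, Set.mem_ofPred_eq]
        constructor
        · intro h
          obtain ⟨q, hq, hq'⟩ := exists_rat_btwn h
          exact ⟨⟨q, hq⟩, hq'⟩
        · rintro ⟨q, hq⟩
          exact lt_trans q.2 hq
      rw [h1]
      exact isOpen_iUnion fun q => (h q.1).1
    · have h1 : f ⁻¹' Set.Iio a = ⋃ q : {q : ℚ // (q : ℝ) < a}, {x | f x < (q.1 : ℝ)} := by
        ext x
        simp only [Set.mem_preimage, Set.mem_Iio, Set.mem_iUnion, Set.mem_ofPred_eq]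
        constructor
        · intro h
          obtain ⟨q, hq, hq'⟩ := exists_rat_btwn h
          exact ⟨⟨q, hq'⟩, hq⟩
        · rintro ⟨q, hq⟩
          exact lt_trans hq q.2
      rw [h1]
      exact isOpen_iUnion fun q => (h q.1).2

/-- basic open sets of functions -/
def Bv {X : Type v} (v : List (X × ℚ × ℚ)) : Set (X → ℝ) :=
  {c | ∀ t ∈ v, (t.2.1 : ℝ) < c t.1 ∧ c t.1 < (t.2.2 : ℝ)}

omit [WTy N X] in
theorem isOpen_Bv {X : Type v} (v : List (X × ℚ × ℚ)) : IsOpen (Bv v) := by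
  induction v with
  | nil =>
    have h : (Bv ([] : List (X × ℚ × ℚ))) = Set.univ := by
      ext c
      simp [Bv]
    rw [h]
    exact isOpen_univ
  | cons t v ih =>
    have h : Bv (t :: v) = ({c | (t.2.1 : ℝ) < c t.1} ∩ {c | c t.1 < (t.2.2 : ℝ)}) ∩ Bv v := by
      ext c
      simp [Bv]
    rw [h]
    exact ((isOpen_lt continuous_const (continuous_apply _)).inter
      (isOpen_lt (continuous_apply _) continuous_const)).inter ih

theorem exists_Bv {V : Set (CC N X)} (hV : IsOpen V) {c : CC N X} (hc : c ∈ V) :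
    ∃ v : List (X × ℚ × ℚ), c.f ∈ Bv v ∧ ∀ c' : CC N X, c'.f ∈ Bv v → c' ∈ V := by
  classical
  obtain ⟨W, hW, rfl⟩ := isOpen_induced_iff.1 hV
  obtain ⟨I, u, hu, hI⟩ := isOpen_pi_iff.1 hW c.f hc
  have h1 : ∀ x : X, ∃ t : ℚ × ℚ, x ∈ I → ((t.1 : ℝ) < c.f x ∧ c.f x < (t.2 : ℝ)) ∧
      ∀ y : ℝ, (t.1 : ℝ) < y → y < (t.2 : ℝ) → y ∈ u x := by
    intro x
    by_cases hx : x ∈ I
    · obtain ⟨l, r, ⟨hl, hr⟩, h2⟩ := mem_nhds_iff_exists_Ioo_subset.1
        ((hu x hx).1.mem_nhds (hu x hx).2)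
      obtain ⟨a, ha, ha'⟩ := exists_rat_btwn hl
      obtain ⟨b, hb, hb'⟩ := exists_rat_btwn hr
      exact ⟨(a, b), fun _ => ⟨⟨ha', hb⟩, fun y h3 h4 => h2 ⟨ha.trans h3, h4.trans hb'⟩⟩⟩
    · exact ⟨(0, 0), fun h => absurd h hx⟩
  choose t ht using h1
  refine ⟨I.toList.map fun x => (x, t x), ?_, fun c' hc' => ?_⟩
  · intro s hs
    obtain ⟨x, hx, rfl⟩ := List.mem_map.1 hs
    exact (ht x (Finset.mem_toList.1 hx)).1
  · refine hI fun x hx => ?_
    have h2 := hc' (x, t x) (List.mem_map.2 ⟨x, Finset.mem_toList.2 hx, rfl⟩)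
    exact (ht x hx).2 _ h2.1 h2.2

theorem isOpen_CC_iff {V : Set (CC N X)} : IsOpen V ↔ ∀ c ∈ V,
    ∃ v : List (X × ℚ × ℚ), c.f ∈ Bv v ∧ ∀ c' : CC N X, c'.f ∈ Bv v → c' ∈ V := by
  constructor
  · intro hV c hc
    exact exists_Bv hV hc
  · intro h
    rw [isOpen_iff_forall_mem_open]
    intro c hc
    obtain ⟨v, hv, hv'⟩ := h c hc
    exact ⟨{c' | c'.f ∈ Bv v}, hv', (isOpen_Bv v).preimage CC.continuous_f, hv⟩

section

variable [WSp N X]

theorem isOpen_iff_W {U : Set X} :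
    IsOpen U ↔ ∀ x ∈ U, ∃ V : St N X, IsOpen V.s ∧ x ∈ V ∧ V.s ⊆ U := by
  constructor
  · intro hU x hx
    exact WSp.base x U hU hx
  · intro h
    rw [isOpen_iff_forall_mem_open]
    intro x hx
    obtain ⟨V, hV, hxV, hVU⟩ := h x hx
    exact ⟨V.s, hVU, hV, hxV⟩

theorem mem_closure_iff_W {A : Set X} {x : X} :
    x ∈ closure A ↔ ∀ U : St N X, IsOpen U.s → x ∈ U → ∃ y ∈ A, y ∈ U := by
  rw [mem_closure_iff]
  constructor
  · intro h U hU hx
    obtain ⟨y, hy, hy'⟩ := h U.s hU hx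
    exact ⟨y, hy', hy⟩
  · intro h o ho hx
    obtain ⟨U, hU, hxU, hUo⟩ := WSp.base (N := N) x o ho hx
    obtain ⟨y, hy, hy'⟩ := h U hU hxU
    exact ⟨y, hUo hy', hy⟩

theorem ip_isOpen {α : Type w} [WTy N α] {U : α → X → Prop} (hU : IP N (fun p : α × X => U p.1 p.2)) :
    IP N (fun a => IsOpen {x | U a x}) :=   IP.comp (P := fun U : St N X => IsOpen U.s) WSp.fam (IF.compr hU)

theorem ip_closure {α : Type w} [WTy N α] {A : α → X → Prop}
    (hA : IP N (fun p : α × X => A p.1 p.2)) :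
    IP N (fun p : α × X => p.2 ∈ closure {x | A p.1 x}) := by
  refine IP.congr (P := fun p : α × X => ∀ U : St N X, IsOpen U.s → p.2 ∈ U →
    ∃ y, A p.1 y ∧ y ∈ U) (fun p => mem_closure_iff_W.symm) ?_
  refine IP.all (P := fun (p : α × X) (U : St N X) => IsOpen U.s → p.2 ∈ U →
    ∃ y, A p.1 y ∧ y ∈ U) ?_
  refine IP.imp (IP.comp (P := fun U : St N X => IsOpen U.s) WSp.fam IF.snd) ?_
  refine IP.imp (IP.mem (IF.comp IF.snd IF.fst) IF.snd) ?_
  refine IP.ex (P := fun (q : (α × X) × St N X) (y : X) => A q.1.1 y ∧ y ∈ q.2) ?_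
  refine IP.and ?_ (IP.mem IF.snd (IF.comp IF.snd IF.fst))
  exact IP.comp2 (P := A) hA (IF.comp (g := fun q : (α × X) × St N X => q.1.1)
    (IF.comp IF.fst IF.fst) IF.fst) IF.snd

theorem closure_int (A : St N X) : IP N (fun x : X => x ∈ closure A.s) := by
  have h := ip_closure (N := N) (α := Unit) (A := fun _ x => x ∈ A.s) (IP.comp A.int IF.snd)
  exact h.sec ()

/-- the closure -/
def clo (A : St N X) : St N X := ⟨closure A.s, closure_int A⟩

theorem mem_clo {A : St N X} {x : X} : x ∈ clo A ↔ x ∈ closure A.s := Iff.rfl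

theorem isClosed_clo (A : St N X) : IsClosed (clo A).s := isClosed_closure

end

variable [Std N]

/-- the internal function with values in the reals of the model -/
def CC.toFn (c : CC N X) : Fn N X (RW N) :=
  ⟨fun x => ⟨c.f x, c.int.isR x⟩, IR.iff_IF.2 c.int⟩

theorem CC.toFn_inj : Function.Injective fun c : CC N X => cd N c.toFn := by
  intro c c' h
  have h1 : c.toFn = c'.toFn := cd_inj.1 h
  refine CC.ext (funext fun x => ?_)
  have h2 : (c.toFn.f x).v = (c'.toFn.f x).v := by rw [h1]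
  exact h2

variable [WSp N X]

theorem ip_cont : IP N (fun F : Fn N X (RW N) => Continuous fun x => (F x).v) := by
  refine IP.congr (P := fun F : Fn N X (RW N) => ∀ q : ℚ, IsOpen {x | (q : ℝ) < (F x).v} ∧
    IsOpen {x | (F x).v < (q : ℝ)}) (fun F => cont_iff.symm) ?_
  refine IP.all (P := fun (F : Fn N X (RW N)) (q : ℚ) => IsOpen {x | (q : ℝ) < (F x).v} ∧
    IsOpen {x | (F x).v < (q : ℝ)}) ?_
  have h1 : IR N (fun z : (Fn N X (RW N) × ℚ) × X => ((z.1.2 : ℚ) : ℝ)) :=
    IR.rat (IF.comp IF.snd IF.fst)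
  have h2 : IR N (fun z : (Fn N X (RW N) × ℚ) × X => (z.1.1 z.2).v) :=
    IR.iff_IF.1 (IF.app (IF.comp IF.fst IF.fst) IF.snd)
  exact IP.and (ip_isOpen (U := fun (z : Fn N X (RW N) × ℚ) x => (z.2 : ℝ) < (z.1 x).v)
    (IP.ltR h1 h2)) (ip_isOpen (U := fun (z : Fn N X (RW N) × ℚ) x => (z.1 x).v < (z.2 : ℝ))
    (IP.ltR h2 h1))

variable (N X) in
theorem exists_rg_cc : ∃ x : N, ∀ z, E z x ↔ ∃ c : CC N X, cd N c.toFn = z := by
  obtain ⟨x, hx⟩ := exists_sub N (fun F : Fn N X (RW N) => Continuous fun x => (F x).v) ip_cont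
  refine ⟨x, fun z => (hx z).trans ?_⟩
  constructor
  · rintro ⟨F, hF, rfl⟩
    exact ⟨⟨fun x => (F x).v, IR.iff_IF.1 F.int, hF⟩, rfl⟩
  · rintro ⟨c, rfl⟩
    exact ⟨c.toFn, c.cont, rfl⟩

noncomputable instance instWTyCC : WTy N (CC N X) where
  cd c := cd N c.toFn
  inj := CC.toFn_inj
  rg := (exists_rg_cc N X).choose
  mem_rg := (exists_rg_cc N X).choose_spec

theorem cd_cc (c : CC N X) : cd N c = cd N c.toFn := rfl

section

variable {α : Type w} [WTy N α]

theorem IF.toFn : IF N (fun c : CC N X => c.toFn) := by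
  refine IP.of_sat (STP.Fml.ex (STP.fOP 1 0 0)) (fun _ => rg N (CC N X)) fun p => ?_
  simp only [STP.sat_ex, STP.sat_fOP, STP.cns_zero, STP.cns_one, isOP_iff]
  change p.1.toFn = p.2 ↔ ∃ x, op (cd N p.1.toFn) (cd N p.2) = op x x
  constructor
  · intro h
    exact ⟨cd N p.2, by rw [h]⟩
  · rintro ⟨x, hx⟩
    obtain ⟨h1, h2⟩ := op_inj.1 hx
    exact cd_inj.1 (h1.trans h2.symm)

theorem IR.evC {c : α → CC N X} {x : α → X} (hc : IF N c) (hx : IF N x) :
    IR N (fun a => c a (x a)) :=   IR.iff_IF.1 (IF.app (IF.comp IF.toFn hc) hx)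

theorem IF.ccMk {c : α → CC N X} (h : IR N (fun p : α × X => c p.1 p.2)) : IF N c := by
  have h1 : IR N (fun q : (α × CC N X) × X => c q.1.1 q.2) :=
    IR.comp h (g := fun q : (α × CC N X) × X => (q.1.1, q.2))
      (IF.pair (IF.comp IF.fst IF.fst) IF.snd)
  have h2 : IR N (fun q : (α × CC N X) × X => q.1.2 q.2) :=
    IR.evC (IF.comp IF.snd IF.fst) IF.snd
  have h3 : IP N (fun p : α × CC N X => ∀ x, c p.1 x = p.2 x) :=
    IP.all (P := fun (p : α × CC N X) x => c p.1 x = p.2 x) (IP.eqR h1 h2)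
  refine IP.congr (fun p => ?_) h3
  constructor
  · intro h
    exact CC.ext (funext h)
  · intro h x
    rw [h]

theorem ip_Bv {c : α → CC N X} {v : α → List (X × ℚ × ℚ)} (hc : IF N c) (hv : IF N v) :
    IP N (fun a => (c a).f ∈ Bv (v a)) := by
  refine IP.all (P := fun (a : α) (t : X × ℚ × ℚ) => t ∈ v a →
    (t.2.1 : ℝ) < c a t.1 ∧ c a t.1 < (t.2.2 : ℝ)) ?_
  have h1 : IR N (fun q : α × (X × ℚ × ℚ) => c q.1 q.2.1) :=
    IR.evC (IF.comp hc IF.fst) (IF.comp IF.fst IF.snd)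
  have h2 : IF N (fun q : α × (X × ℚ × ℚ) => q.2.2.1) :=
    IF.comp (g := fun q : X × ℚ × ℚ => q.2.1) (IF.comp IF.fst IF.snd) IF.snd
  have h3 : IF N (fun q : α × (X × ℚ × ℚ) => q.2.2.2) :=
    IF.comp (g := fun q : X × ℚ × ℚ => q.2.2) (IF.comp IF.snd IF.snd) IF.snd
  exact (IP.memList IF.snd (IF.comp hv IF.fst)).imp
    ((IP.ltR (IR.rat h2) h1).and (IP.ltR h1 (IR.rat h3)))

end

/-- basic open sets of continuous functions -/
def BB (v : List (X × ℚ × ℚ)) : St N (CC N X) := ⟨{c | c.f ∈ Bv v}, ip_Bv IF.id (IF.const v)⟩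

theorem mem_BB {v : List (X × ℚ × ℚ)} {c : CC N X} : c ∈ (BB v : St N (CC N X)) ↔ c.f ∈ Bv v :=
  Iff.rfl

theorem isOpen_BB (v : List (X × ℚ × ℚ)) : IsOpen (BB v : St N (CC N X)).s :=
  (isOpen_Bv v).preimage CC.continuous_f

instance instWSpCC : WSp N (CC N X) where
  base := by
    intro c V hV hc
    obtain ⟨v, hv, hv'⟩ := exists_Bv hV hc
    exact ⟨BB v, isOpen_BB v, hv, fun c' hc' => hv' c' hc'⟩
  fam := by
    refine IP.congr (P := fun U : St N (CC N X) => ∀ c, c ∈ U → ∃ v : List (X × ℚ × ℚ),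
      c.f ∈ Bv v ∧ ∀ c' : CC N X, c'.f ∈ Bv v → c' ∈ U) (fun U => isOpen_CC_iff.symm) ?_
    refine IP.all (P := fun (U : St N (CC N X)) (c : CC N X) => c ∈ U →
      ∃ v : List (X × ℚ × ℚ), c.f ∈ Bv v ∧ ∀ c' : CC N X, c'.f ∈ Bv v → c' ∈ U) ?_
    refine IP.imp (IP.mem IF.snd IF.fst) ?_
    refine IP.ex (P := fun (p : St N (CC N X) × CC N X) (v : List (X × ℚ × ℚ)) =>
      p.2.f ∈ Bv v ∧ ∀ c' : CC N X, c'.f ∈ Bv v → c' ∈ p.1) ?_
    refine IP.and (ip_Bv (IF.comp IF.snd IF.fst) IF.snd) ?_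
    refine IP.all (P := fun (p : (St N (CC N X) × CC N X) × List (X × ℚ × ℚ)) (c' : CC N X) =>
      c'.f ∈ Bv p.2 → c' ∈ p.1.1) ?_
    exact (ip_Bv IF.snd (IF.comp IF.snd IF.fst)).imp (IP.mem IF.snd
      (IF.comp (g := fun p : (St N (CC N X) × CC N X) × List (X × ℚ × ℚ) => p.1.1)
        (IF.comp IF.fst IF.fst) IF.fst))

end

end CPY
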