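import Pool.Agent.WCal.SimpR
import Pool.Agent.CPY.ITop

/-! # Automation for topological spaces of the model

(problem MP_ba5606_gt, ARH Part II; no sorry in this file)

Additional simp lemmas (see `WCal/Simp.lean`, `WCal/SimpR.lean`): evaluation of elements of `CC N X`, elements of `CC N X` given by
their values, open sets, basic open sets. -/

set_option autoImplicit false

universe u v w x

namespace CPY

open WCal WM

variable {N : Type u} [WM N] [Std N] {X : Type v} [WTy N X] [TopologicalSpace X] [WSp N X] {α : Type w}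
  [WTy N α]

theorem IF.ccMk' {f : α → X → ℝ} {hi : ∀ a, IR N (f a)} {hc : ∀ a, Continuous (f a)}
    (h : IR N (fun p : α × X => f p.1 p.2)) : IF N (fun a => (⟨f a, hi a, hc a⟩ : CC N X)) :=
  IF.ccMk h

omit [Std N] in
theorem ip_open {U : α → St N X} (hU : IF N U) : IP N (fun a => IsOpen (U a).s) :=
  IP.comp (P := fun U : St N X => IsOpen U.s) WSp.fam hU

attribute [simp] IR.evC IF.ccMk' ip_open ip_isOpen ip_Bv

example {f : ℕ → CC N X} (hf : IF N f) {x : ℕ → X} (hx : IF N x) :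
    IP N (fun p : ℕ × CC N X => ∀ m, p.2 (x m) < |f (m + p.1) (x m)| ∧ f 3 (x 2) = 1) := by
  simp (maxDischargeDepth := 99) [hf.comp, hx.comp]

example (p' : X) (g : CC N X) : IP N (fun q : (CC N X × X × CC N X) × (CC N X × X × CC N X) =>
    (∀ x, q.2.1 x < 1 / 3 → q.1.1 x < 1 / 3) ∧ q.2.2.2 q.2.2.1 = 1 ∧ (∀ x, 0 ≤ q.2.2.2 x ∧ q.2.2.2 x ≤ 1) ∧
      ∀ x, 0 < q.2.2.2 x → q.1.1 x < 1 / 3 ∧ g p' < q.2.1 x) := by
  simp (maxDischargeDepth := 99)

example {f : ℕ → CC N X} (hf : IF N f) {x : ℕ → X} (hx : IF N x) :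
    IP N (fun v : List (X × ℚ × ℚ) => ∀ n, (f n).f ∈ Bv v ∨ ∃ U : St N X, IsOpen U.s ∧ x n ∈ U) := by
  simp (maxDischargeDepth := 99) [hf.comp, hx.comp]

end CPY
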