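import Pool.Agent.CPY.ECfg

/-! # Approximations of a closed set; the conditions `Kp` are closed (package EKp, native)

(problem MP_ba5606_gt, project CPY)

* `UU_of_mem`: `(b, y, v) ∈ F` gives `UU F b y (v 0, ..., v (k-1))`: take `u := (b 0, ..., b
  (k-1))` and rational
  numbers `w i` with `|y i - w i| < 2^{-k}` (`exists_rat_near`); the witness of `TF` is `(b, y,
  v)` itself. Useful:
  `List.length_ofFn`, `List.getD_eq_getElem`, `List.getElem_ofFn`.
* `UU_congr`: `UU F b y s` depends only on `b i`, `i < |s|` (clear from the definition).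
* `UU_lim` (closedness): let `F` be closed, `UU F b (y k) (s k)`, `k ≤ |s k|`, `y k i → y∞ i` for
  all `i`, and
  for all `i` eventually `ext (s k) i = v i`. Then `(b, y∞, v) ∈ F`. Proof: there are `(b' k, y'
  k, v' k) ∈ F` with
  `b' k i = b i`, `|y' k i - y k i| < 2 * 2^{-|s k|} ≤ 2 * 2^{-k}`, `v' k i = (s k).getD i 0 = ext
  (s k) i` for `i < |s k|`; they converge
  coordinatewise to `(b, y∞, v)` (in `Bool` and `ℕ` eventually constant), use
  `IsClosed.mem_of_tendsto`,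
  `tendsto_pi_nhds`, `Filter.Tendsto.prodMk_nhds`.
* `Kp_open`: `{φ : Y → ℝ | ¬ Kp F κ q r φ}` is open in `Y → ℝ` (product topology). Let `φ` be a
  point. If some
  `φ (κ n) ∉ {0, 1}`: the set of all `φ'` with `φ' (κ n) ∉ {0, 1}` is open (`continuous_apply`,
  finite sets are closed). Otherwise
  there is `s` with `UU F b_φ r s` and `φ (q s) < |s|`; the neighbourhood
  `{φ' | φ' (q s) < |s|, |φ' (κ n) - φ (κ n)| < 1/2 for n < |s|}` works: if `Kp φ'` then all `φ'
  (κ n) ∈ {0,1}`, so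
  `b_φ' n = b_φ n` for `n < |s|`, `UU F b_φ' r s` by `UU_congr`, contradiction.
* `not_Kp`: if `(b_φ, r, v) ∈ F` and `φ (q (v 0, ..., v (k-1)))` is bounded above (in `k`) then `¬
  Kp`. -/

set_option autoImplicit false

open Filter Topology

namespace CPY

variable {F : Set ((ℕ → Bool) × (ℕ → ℝ) × (ℕ → ℕ))}

private theorem getD_ofFn {α : Type*} (k i : ℕ) (hi : i < k) (f : ℕ → α) (d : α) :
    (List.ofFn fun j : Fin k => f j).getD i d = f i := by
  rw [List.getD_eq_getElem _ _ (by simpa using hi)]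
  simp

theorem UU_of_mem {b : ℕ → Bool} {y : ℕ → ℝ} {v : ℕ → ℕ} (h : (b, y, v) ∈ F) (k : ℕ) :
    UU F b y (List.ofFn fun i : Fin k => v i) := by
  have hp : (0 : ℝ) < (1 / 2 : ℝ) ^ k := by positivity
  have hw : ∀ i, ∃ w : ℚ, |y i - (w : ℝ)| < (1 / 2 : ℝ) ^ k := fun i => exists_rat_near (y i) hp
  choose w hw using hw
  refine ⟨List.ofFn fun i : Fin k => b i, List.ofFn fun i : Fin k => w i, ⟨by simp, by simp,
    b, y, v, h, ?_⟩, ?_⟩
  · intro i hi
    rw [List.length_ofFn] at hi ⊢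
    rw [getD_ofFn k i hi, getD_ofFn k i hi w, getD_ofFn k i hi v]
    exact ⟨rfl, hw i, rfl⟩
  · intro i hi
    rw [List.length_ofFn] at hi ⊢
    rw [getD_ofFn k i hi, getD_ofFn k i hi w]
    exact ⟨rfl, hw i⟩

theorem UU_congr {b b' : ℕ → Bool} {y : ℕ → ℝ} {s : List ℕ} (hb : ∀ i < s.length, b i = b' i)
    (h : UU F b y s) : UU F b' y s := by
  obtain ⟨u, w, ht, hi⟩ := h
  exact ⟨u, w, ht, fun i his => ⟨(hb i his).symm.trans (hi i his).1, (hi i his).2⟩⟩

theorem UU_lim (hF : IsClosed F) {b : ℕ → Bool} {y : ℕ → ℕ → ℝ} {s : ℕ → List ℕ} {y' : ℕ → ℝ}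
    {v : ℕ → ℕ} (hU : ∀ k, UU F b (y k) (s k)) (hs : ∀ k, k ≤ (s k).length)
    (hy : ∀ i, Tendsto (fun k => y k i) atTop (𝓝 (y' i)))
    (hv : ∀ i, ∀ᶠ k in atTop, ext (s k) i = v i) : (b, y', v) ∈ F := by
  have key : ∀ k, ∃ p : (ℕ → Bool) × (ℕ → ℝ) × (ℕ → ℕ), p ∈ F ∧ ∀ i < (s k).length,
      p.1 i = b i ∧ |p.2.1 i - y k i| ≤ 2 * (1 / 2 : ℝ) ^ k ∧ p.2.2 i = ext (s k) i := by
    intro k
    obtain ⟨u, w, ⟨hul, hwl, b', y'', v', hm, h1⟩, h2⟩ := hU k
    refine ⟨(b', y'', v'), hm, fun i hi => ⟨?_, ?_, ?_⟩⟩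
    · exact (h1 i hi).1.trans (h2 i hi).1.symm
    · have ha := (h1 i hi).2.1
      have hb := (h2 i hi).2
      have hc : (1 / 2 : ℝ) ^ (s k).length ≤ (1 / 2 : ℝ) ^ k :=
        pow_le_pow_of_le_one (by norm_num) (by norm_num) (hs k)
      have hd : |y'' i - y k i| ≤ |y'' i - (w.getD i 0 : ℚ)| + |y k i - (w.getD i 0 : ℚ)| := by
        rw [abs_sub_comm (y k i)]
        exact abs_sub_le _ _ _
      change |y'' i - y k i| ≤ _
      linarith
    · exact (h1 i hi).2.2
  choose p hpF hp using key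
  have hlim : Tendsto p atTop (𝓝 (b, y', v)) := by
    have hb : Tendsto (fun k => (p k).1) atTop (𝓝 b) := by
      rw [tendsto_pi_nhds]
      intro i
      apply Tendsto.congr' _ tendsto_const_nhds
      filter_upwards [eventually_gt_atTop i] with k hk
      exact (hp k i (lt_of_lt_of_le hk (hs k))).1.symm
    have hy1 : Tendsto (fun k => (p k).2.1) atTop (𝓝 y') := by
      rw [tendsto_pi_nhds]
      intro i
      have h0 : Tendsto (fun k : ℕ => 2 * (1 / 2 : ℝ) ^ k) atTop (𝓝 0) := by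
        have := (tendsto_pow_atTop_nhds_zero_of_lt_one (r := (1 / 2 : ℝ)) (by norm_num)
          (by norm_num)).const_mul 2
        simpa using this
      have h1 : Tendsto (fun k => (p k).2.1 i - y k i) atTop (𝓝 0) := by
        refine squeeze_zero_norm' ?_ h0
        filter_upwards [eventually_gt_atTop i] with k hk
        exact (hp k i (lt_of_lt_of_le hk (hs k))).2.1
      have h2 := h1.add (hy i)
      simpa using h2
    have hv1 : Tendsto (fun k => (p k).2.2) atTop (𝓝 v) := by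
      rw [tendsto_pi_nhds]
      intro i
      apply Tendsto.congr' _ tendsto_const_nhds
      filter_upwards [eventually_gt_atTop i, hv i] with k hk hk2
      rw [(hp k i (lt_of_lt_of_le hk (hs k))).2.2, hk2]
    exact hb.prodMk_nhds (hy1.prodMk_nhds hv1)
  exact hF.mem_of_tendsto hlim (Eventually.of_forall hpF)

theorem Kp_open {Y : Type*} {κ : ℕ → Y} {q : List ℕ → Y} {r : ℕ → ℝ} :
    IsOpen {φ : Y → ℝ | ¬ Kp F κ q r φ} := by
  classical
  rw [isOpen_iff_forall_mem_open]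
  intro φ hφ
  by_cases h1 : ∀ n, φ (κ n) = 0 ∨ φ (κ n) = 1
  · have h2 : ∃ s, UU F (fun n => decide (φ (κ n) = 1)) r s ∧ φ (q s) < (s.length : ℝ) := by
      by_contra hcon
      apply hφ
      refine ⟨h1, fun s hs => ?_⟩
      by_contra hlt
      exact hcon ⟨s, hs, not_le.1 hlt⟩
    obtain ⟨s, hs, hlt⟩ := h2
    refine ⟨{φ' : Y → ℝ | φ' (q s) < (s.length : ℝ)} ∩
      ⋂ n ∈ Finset.range s.length, {φ' : Y → ℝ | |φ' (κ n) - φ (κ n)| < 1 / 2}, ?_, ?_, ?_⟩
    · rintro φ' ⟨h3, h4⟩ hK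
      have h5 := hK.2 s
      apply absurd (h5 (UU_congr ?_ hs))
      · exact not_le.2 h3
      · intro n hn
        have h6 : |φ' (κ n) - φ (κ n)| < 1 / 2 := by
          have := Set.mem_iInter₂.1 h4 n (Finset.mem_range.2 hn)
          exact this
        have h7 := hK.1 n
        have h8 := h1 n
        rw [abs_lt] at h6
        have h9 : φ' (κ n) = φ (κ n) := by
          rcases h7 with h7 | h7 <;> rcases h8 with h8 | h8 <;> rw [h7, h8] at h6 ⊢ <;>
            norm_num at h6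
        simp only [h9]
    · apply IsOpen.inter
      · exact isOpen_lt (continuous_apply _) continuous_const
      · apply isOpen_biInter_finset
        intro n _
        exact isOpen_lt ((continuous_apply _).sub continuous_const).abs continuous_const
    · refine ⟨hlt, Set.mem_iInter₂.2 fun n _ => ?_⟩
      simp
  · push Not at h1
    obtain ⟨n, h2, h3⟩ := h1
    refine ⟨{φ' : Y → ℝ | φ' (κ n) ≠ 0} ∩ {φ' : Y → ℝ | φ' (κ n) ≠ 1}, ?_, ?_, h2, h3⟩
    · rintro φ' ⟨h4, h5⟩ hK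
      rcases hK.1 n with h | h
      · exact h4 h
      · exact h5 h
    · exact (isOpen_ne_fun (continuous_apply _) continuous_const).inter
        (isOpen_ne_fun (continuous_apply _) continuous_const)

open Classical in
theorem not_Kp {Y : Type*} {κ : ℕ → Y} {q : List ℕ → Y} {r : ℕ → ℝ} {φ : Y → ℝ} {v : ℕ → ℕ}
    (h : ((fun n => decide (φ (κ n) = 1)), r, v) ∈ F) {C : ℝ}
    (hC : ∀ k, φ (q (List.ofFn fun i : Fin k => v i)) ≤ C) : ¬ Kp F κ q r φ := by
  intro hK
  obtain ⟨k, hk⟩ := exists_nat_gt C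
  have h1 := hK.2 _ (UU_of_mem h k)
  rw [List.length_ofFn] at h1
  have h2 := hC k
  linarith

end CPY
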