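import Pool.Agent.CPY.ITop

/-! # Compactness and the Lindelöf property for indexed families (package IIdx)

(problem MP_ba5606_gt, ARH Part II, blocks E1, E2; architect helper79)

PROOFS.
* `WLin.idx`: let `S := {V : St N X | ∃ i, P i ∧ ∀ x, x ∈ V ↔ U i x}` (internal: `IP.ex`, `IP.all`,
  `IP.mem`, ...). It is a cover by open sets (the internal set `⟨{x | U i x}, hU.sec i⟩`). Let
  `T ⊆ S` be
  countable and a cover; `choice'` gives an internal `j : St N X → ι` such that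
  `P (j V) ∧ ∀ x, x ∈ V ↔ U (j V) x` for all `V ∈ S` (default value: if no `i` satisfies `P i` then
  `X` is
  empty and `J = ∅` works). `J := {i | ∃ V, V ∈ T ∧ j V = i}` is countable (`Cnt.image`).
* `WLin.seq`: `Cnt.enum` for `J ∪ {i₀}`.
* `WCpt.idx`: the same, with `l.map j`. `WCpt.idxOn`: `WCpt.idx` for the index type `Option ι`,
  `P' none`, `U' none x := x ∉ K`, `P' (some i) := P i`, `U' (some i) x := U i x`; internality by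
  `IF.optElim`-like rules, e.g. `U' o x ↔ (o = none ∧ x ∉ K) ∨ ∃ i, o = some i ∧ U i x`; or directly
  from `WCpt` with the family `S ∪ {Kᶜ}`. -/

universe u v w

namespace CPY

open WCal WM

variable {N : Type u} [WM N] {X : Type v} [WTy N X] [TopologicalSpace X] {ι : Type w} [WTy N ι]
  {P : ι → Prop} {U : ι → X → Prop}

omit [TopologicalSpace X] in
private theorem ip_ix (hP : IP N P) (hU : IP N (fun p : ι × X => U p.1 p.2)) :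
    IP N (fun p : St N X × ι => P p.2 ∧ ∀ x, (x ∈ p.1 ↔ U p.2 x)) :=
  IP.and (IP.comp hP IF.snd) (IP.all (P := fun (p : St N X × ι) (x : X) => (x ∈ p.1 ↔ U p.2 x))
    (IP.iff (IP.mem IF.snd (IF.comp IF.fst IF.fst)) (IP.comp2 hU (IF.comp IF.snd IF.fst) IF.snd)))

omit [WTy N ι] in
private theorem op_of {V : St N X} {i : ι} (hV : ∀ x, (x ∈ V ↔ U i x))
    (ho : IsOpen {x | U i x}) : IsOpen V.s := by
  have h1 : V.s = {x | U i x} := Set.ext hV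
  rw [h1]
  exact ho

theorem WCpt.idxOn (h : WCpt N X) {K : St N X} (hK : IsClosed K.s) (hP : IP N P)
    (hU : IP N (fun p : ι × X => U p.1 p.2)) (ho : ∀ i, P i → IsOpen {x | U i x})
    (hc : ∀ x, x ∈ K → ∃ i, P i ∧ U i x) :
    ∃ l : List ι, (∀ i ∈ l, P i) ∧ ∀ x, x ∈ K → ∃ i ∈ l, U i x := by
  have hS : IP N (fun V : St N X => (∃ i, (P i ∧ ∀ x, (x ∈ V ↔ U i x))) ∨
      ∀ x, (x ∈ V ↔ ¬ x ∈ K)) :=
    IP.or (IP.ex (P := fun (V : St N X) (i : ι) => P i ∧ ∀ x, (x ∈ V ↔ U i x)) (ip_ix hP hU))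
      (IP.all (P := fun (V : St N X) (x : X) => (x ∈ V ↔ ¬ x ∈ K))
        (IP.iff (IP.mem IF.snd IF.fst) (IP.not (IP.mem IF.snd (IF.const K)))))
  obtain ⟨l, hl, hl'⟩ := h ⟨{V : St N X | (∃ i, (P i ∧ ∀ x, (x ∈ V ↔ U i x))) ∨
      ∀ x, (x ∈ V ↔ ¬ x ∈ K)}, hS⟩ (fun V hV => by
    rcases hV with ⟨i, hi, hV⟩ | hV
    · exact op_of hV (ho i hi)
    · have h1 : V.s = K.sᶜ := Set.ext hV
      rw [h1]
      exact hK.isOpen_compl) (fun x => by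
    by_cases hx : x ∈ K
    · obtain ⟨i, hi, hix⟩ := hc x hx
      exact ⟨⟨{x | U i x}, hU.sec i⟩, Or.inl ⟨i, hi, fun x => Iff.rfl⟩, hix⟩
    · exact ⟨⟨{x | ¬ x ∈ K}, IP.not (IP.mem IF.id (IF.const K))⟩, Or.inr fun x => Iff.rfl, hx⟩)
  have hj : ∀ V : {V // V ∈ l}, ∃ o : Option ι, (∀ i, o = some i → P i ∧ ∀ x, (x ∈ V.1 ↔ U i x)) ∧
      (o = none → ∀ x, (x ∈ V.1 ↔ ¬ x ∈ K)) := by
    intro V
    rcases hl V.1 V.2 with ⟨i, hi, hV⟩ | hV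
    · refine ⟨some i, fun i' h => ?_, fun h => ?_⟩
      · obtain rfl := Option.some_inj.1 h
        exact ⟨hi, hV⟩
      · exact absurd h (by simp)
    · exact ⟨none, fun i' h => absurd h (by simp), fun _ => hV⟩
  choose j hj1 hj2 using hj
  refine ⟨l.attach.filterMap j, fun i hi => ?_, fun x hx => ?_⟩
  · obtain ⟨V, -, hV⟩ := List.mem_filterMap.1 hi
    exact (hj1 V i hV).1
  · obtain ⟨V, hV, hxV⟩ := hl' x
    rcases ho : j ⟨V, hV⟩ with _ | i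
    · exact absurd hx ((hj2 ⟨V, hV⟩ ho x).1 hxV)
    · exact ⟨i, List.mem_filterMap.2 ⟨⟨V, hV⟩, List.mem_attach l ⟨V, hV⟩, ho⟩,
        ((hj1 ⟨V, hV⟩ i ho).2 x).1 hxV⟩

theorem WCpt.idx (h : WCpt N X) (hP : IP N P) (hU : IP N (fun p : ι × X => U p.1 p.2))
    (ho : ∀ i, P i → IsOpen {x | U i x}) (hc : ∀ x, ∃ i, P i ∧ U i x) :
    ∃ l : List ι, (∀ i ∈ l, P i) ∧ ∀ x, ∃ i ∈ l, U i x := by
  obtain ⟨l, h1, h2⟩ := h.idxOn (K := ⟨Set.univ, IP.const True⟩) isClosed_univ hP hU ho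
    fun x _ => hc x
  exact ⟨l, h1, fun x => h2 x trivial⟩

theorem WLin.idx (h : WLin N X) (hP : IP N P) (hU : IP N (fun p : ι × X => U p.1 p.2))
    (ho : ∀ i, P i → IsOpen {x | U i x}) (hc : ∀ x, ∃ i, P i ∧ U i x) :
    ∃ J : St N ι, Cnt J ∧ (∀ i, i ∈ J → P i) ∧ ∀ x, ∃ i, i ∈ J ∧ U i x := by
  by_cases h0 : ∃ i, P i
  · obtain ⟨i0, -⟩ := h0
    have hS : IP N (fun V : St N X => ∃ i, (P i ∧ ∀ x, (x ∈ V ↔ U i x))) :=
      IP.ex (P := fun (V : St N X) (i : ι) => P i ∧ ∀ x, (x ∈ V ↔ U i x)) (ip_ix hP hU)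
    obtain ⟨T, hT, hTS, hTc⟩ := h ⟨{V : St N X | ∃ i, (P i ∧ ∀ x, (x ∈ V ↔ U i x))}, hS⟩
      (fun V hV => by
        obtain ⟨i, hi, hV⟩ := hV
        exact op_of hV (ho i hi)) (fun x => by
        obtain ⟨i, hi, hix⟩ := hc x
        exact ⟨⟨{x | U i x}, hU.sec i⟩, ⟨i, hi, fun x => Iff.rfl⟩, hix⟩)
    obtain ⟨j, hj, hj'⟩ := choice' (P := fun (V : St N X) (i : ι) => P i ∧ ∀ x, (x ∈ V ↔ U i x))
      (ip_ix hP hU) i0
    have hJ : IP N (fun i : ι => ∃ V : St N X, (V ∈ T ∧ j V = i)) :=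
      IP.ex (P := fun (i : ι) (V : St N X) => V ∈ T ∧ j V = i)
        (IP.and (IP.mem IF.snd (IF.const T)) (IP.eq (IF.comp hj IF.snd) IF.fst))
    refine ⟨⟨{i | ∃ V : St N X, (V ∈ T ∧ j V = i)}, hJ⟩, ?_, ?_, fun x => ?_⟩
    · exact Cnt.image hj hT fun i hi => hi
    · rintro i ⟨V, hV, rfl⟩
      exact (hj' V (hTS V hV)).1
    · obtain ⟨V, hV, hx⟩ := hTc x
      exact ⟨j V, ⟨V, hV, rfl⟩, ((hj' V (hTS V hV)).2 x).1 hx⟩
  · refine ⟨⟨{i | False}, IP.const False⟩, Or.inl fun i hi => hi, fun i hi => hi.elim,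
      fun x => ?_⟩
    obtain ⟨i, hi, -⟩ := hc x
    exact absurd ⟨i, hi⟩ h0

theorem WLin.seq (h : WLin N X) (hP : IP N P) (hU : IP N (fun p : ι × X => U p.1 p.2))
    (ho : ∀ i, P i → IsOpen {x | U i x}) (hc : ∀ x, ∃ i, P i ∧ U i x) (hne : ∃ i, P i) :
    ∃ s : ℕ → ι, IF N s ∧ (∀ n, P (s n)) ∧ ∀ x, ∃ n, U (s n) x := by
  obtain ⟨J, hJ, hJP, hJc⟩ := h.idx hP hU ho hc
  by_cases h0 : ∃ i, i ∈ J
  · obtain ⟨e, he, he'⟩ := hJ.enum h0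
    refine ⟨e, he, fun n => hJP _ ((he' _).2 ⟨n, rfl⟩), fun x => ?_⟩
    obtain ⟨i, hi, hx⟩ := hJc x
    obtain ⟨n, rfl⟩ := (he' i).1 hi
    exact ⟨n, hx⟩
  · obtain ⟨i0, hi0⟩ := hne
    refine ⟨fun _ => i0, IF.const i0, fun _ => hi0, fun x => ?_⟩
    obtain ⟨i, hi, -⟩ := hJc x
    exact absurd ⟨i, hi⟩ h0

end CPY
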