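import Pool.Agent.CPY.EDefs

/-! # The functions `θ_h` (package EThe, Mathlib only apart from `EDefs`)

(problem MP_ba5606_gt, project CPY)

`th e h x = ⨆ i, (1/(i+1)) * ⨆ j : Fin (h i + 1), e (Nat.pair i j) x`, and at every point `x` at most
one `e n x` is positive (`Dis.dis`).

KEY OBSERVATION. If all `e n x = 0` then all inner suprema are `0` and `th e h x = 0` (`th_zero`). Otherwise
there is exactly one `n = Nat.pair i j` with `0 < e n x` (`Nat.pair_unpair`); for `i' ≠ i` the inner
supremum is `0` (`Nat.pair_eq_pair`), for `i' = i` it is `e n x` if `j ≤ h i` and `0` otherwise; all terms of the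
outer supremum are `≥ 0` and it is the term of `i`. This is `th_pos`. The families are bounded by `1`
(`Dis.le`, `1/(i+1) ≤ 1`); `Fin (h i + 1)` is finite and nonempty (`ciSup_le`, `le_ciSup`,
`Set.finite_range`). `th_nonneg`, `th_le_one` follow.

`th_near`: if `0 < e (pair i j) x` and `i < m` then both values are equal; if `i ≥ m` both are in
`[0, 1/(i+1)] ⊆ [0, 1/(m+1)]`. If all `e n x = 0` both are `0`.

`th_cont`: use `continuous_iff_lower_upperSemicontinuous`-type arguments or directly: `{x | r < th e h x}` is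
everything for `r < 0`, and `⋃ i, ⋃ j ≤ h i, {x | r < (1/(i+1)) * e (pair i j) x}` for `r ≥ 0` (`th_pos`,
`th_zero`). `{x | th e h x < r}` is empty for `r ≤ 0`; for `r > 0` choose `m` with `1/(m+1) < r`; it is the
finite intersection `⋂ i < m, ⋂ j ≤ h i, {x | (1/(i+1)) * e (pair i j) x < r}` (for `i ≥ m` the value is
`≤ 1/(i+1) ≤ 1/(m+1) < r`). Alternatively: `th e h` is a uniform limit (`th_near` with `h'` arbitrary
outside an initial segment does not help directly) or locally: at `x` with `0 < e n x` the set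
`{0 < e n}` is an open neighbourhood on which `th e h` is `0` or a multiple of `e n`; at `x` with all
`e n x = 0` (value `0`): given `ε`, choose `m` with `1/(m+1) < ε`; the set where `e (pair i j) < ε` for all
`i < m`, `j ≤ h i` is an open neighbourhood of `x` on which `th e h < ε`. -/

set_option autoImplicit false

namespace CPY

variable {X : Type*} [TopologicalSpace X] {e : ℕ → X → ℝ}

theorem th_zero {h : ℕ → ℕ} {x : X} (hx : ∀ n, e n x = 0) : th e h x = 0 := by
  simp [th, hx]

private theorem inner_nonneg (he : Dis e) (h : ℕ → ℕ) (x : X) (i : ℕ) :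
    0 ≤ (1 / ((i : ℝ) + 1)) * ⨆ j : Fin (h i + 1), e (Nat.pair i j) x :=
  mul_nonneg (by positivity) (Real.iSup_nonneg fun j => he.nn _ _)

private theorem inner_bdd (h : ℕ → ℕ) (x : X) (i : ℕ) :
    BddAbove (Set.range fun j : Fin (h i + 1) => e (Nat.pair i j) x) :=
  (Set.finite_range _).bddAbove

private theorem inner_le (he : Dis e) (h : ℕ → ℕ) (x : X) (i : ℕ) :
    (1 / ((i : ℝ) + 1)) * (⨆ j : Fin (h i + 1), e (Nat.pair i j) x) ≤ 1 / ((i : ℝ) + 1) := by
  have h1 : (⨆ j : Fin (h i + 1), e (Nat.pair i j) x) ≤ 1 := ciSup_le fun j => he.le _ _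
  have h2 : (0 : ℝ) ≤ 1 / ((i : ℝ) + 1) := by positivity
  calc _ ≤ (1 / ((i : ℝ) + 1)) * 1 := mul_le_mul_of_nonneg_left h1 h2
    _ = _ := mul_one _

private theorem one_div_le_one (i : ℕ) : 1 / ((i : ℝ) + 1) ≤ 1 := by
  rw [div_le_one (by positivity)]
  have : (0 : ℝ) ≤ i := Nat.cast_nonneg i
  linarith

private theorem outer_bdd (he : Dis e) (h : ℕ → ℕ) (x : X) :
    BddAbove (Set.range fun i : ℕ =>
      (1 / ((i : ℝ) + 1)) * ⨆ j : Fin (h i + 1), e (Nat.pair i j) x) := by
  refine ⟨1, ?_⟩
  rintro _ ⟨i, rfl⟩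
  exact (inner_le he h x i).trans (one_div_le_one i)

theorem th_pos (he : Dis e) {h : ℕ → ℕ} {x : X} {i j : ℕ} (hx : 0 < e (Nat.pair i j) x) :
    th e h x = if j ≤ h i then (1 / ((i : ℝ) + 1)) * e (Nat.pair i j) x else 0 := by
  have hz : ∀ n, n ≠ Nat.pair i j → e n x = 0 := by
    intro n hn
    by_contra hne
    exact hn (he.dis _ _ x (lt_of_le_of_ne (he.nn _ _) (Ne.symm hne)) hx)
  have hin : ∀ i', i' ≠ i → (⨆ j' : Fin (h i' + 1), e (Nat.pair i' j') x) = 0 := by
    intro i' hi'
    have h1 : ∀ j' : Fin (h i' + 1), e (Nat.pair i' j') x = 0 := fun j' =>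
      hz _ fun hc => hi' (Nat.pair_eq_pair.1 hc).1
    simp only [h1, ciSup_const]
  have hc : (⨆ j' : Fin (h i + 1), e (Nat.pair i j') x) =
      if j ≤ h i then e (Nat.pair i j) x else 0 := by
    split_ifs with hj
    · refine le_antisymm (ciSup_le fun j' => ?_)
        (le_ciSup (inner_bdd h x i) (⟨j, Nat.lt_succ_of_le hj⟩ : Fin (h i + 1)))
      by_cases h2 : (j' : ℕ) = j
      · rw [h2]
      · rw [hz _ fun hc => h2 (Nat.pair_eq_pair.1 hc).2]
        exact hx.le
    · have h1 : ∀ j' : Fin (h i + 1), e (Nat.pair i j') x = 0 := fun j' =>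
        hz _ fun hc => hj (by
          have := (Nat.pair_eq_pair.1 hc).2
          have h3 := j'.2
          omega)
      simp only [h1, ciSup_const]
  have hr : (if j ≤ h i then (1 / ((i : ℝ) + 1)) * e (Nat.pair i j) x else 0) =
      (1 / ((i : ℝ) + 1)) * ⨆ j' : Fin (h i + 1), e (Nat.pair i j') x := by
    rw [hc]
    split_ifs
    · rfl
    · rw [mul_zero]
  rw [hr]
  refine le_antisymm (ciSup_le fun i' => ?_) (le_ciSup (outer_bdd he h x) i)
  by_cases h2 : i' = i
  · subst h2
    exact le_rfl
  · rw [hin i' h2, mul_zero]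
    exact inner_nonneg he h x i

theorem th_nonneg (he : Dis e) (h : ℕ → ℕ) (x : X) : 0 ≤ th e h x :=
  Real.iSup_nonneg fun i => inner_nonneg he h x i

theorem th_le_one (he : Dis e) (h : ℕ → ℕ) (x : X) : th e h x ≤ 1 :=
  ciSup_le fun i => (inner_le he h x i).trans (one_div_le_one i)

private theorem dich (he : Dis e) (x : X) :
    (∀ n, e n x = 0) ∨ ∃ i j, 0 < e (Nat.pair i j) x := by
  by_cases hx : ∀ n, e n x = 0
  · exact Or.inl hx
  · push Not at hx
    obtain ⟨n, hn⟩ := hx
    refine Or.inr ⟨n.unpair.1, n.unpair.2, ?_⟩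
    rw [Nat.pair_unpair]
    exact lt_of_le_of_ne (he.nn _ _) (Ne.symm hn)

theorem th_near (he : Dis e) {h h' : ℕ → ℕ} {m : ℕ} (hh : ∀ i < m, h i = h' i) (x : X) :
    |th e h x - th e h' x| ≤ 1 / ((m : ℝ) + 1) := by
  have hm : (0 : ℝ) ≤ 1 / ((m : ℝ) + 1) := by positivity
  rcases dich he x with hx | ⟨i, j, hx⟩
  · rw [th_zero hx, th_zero hx, sub_zero, abs_zero]
    exact hm
  · rw [th_pos he hx, th_pos he hx]
    rcases lt_or_ge i m with hi | hi
    · rw [hh i hi, sub_self, abs_zero]
      exact hm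
    · have h1 : (1 / ((i : ℝ) + 1)) * e (Nat.pair i j) x ≤ 1 / ((m : ℝ) + 1) := by
        have h2 : (1 / ((i : ℝ) + 1)) ≤ 1 / ((m : ℝ) + 1) := by
          have : (m : ℝ) ≤ i := by exact_mod_cast hi
          exact one_div_le_one_div_of_le (by positivity) (by linarith)
        calc (1 / ((i : ℝ) + 1)) * e (Nat.pair i j) x ≤ (1 / ((i : ℝ) + 1)) * 1 :=
              mul_le_mul_of_nonneg_left (he.le _ _) (by positivity)
          _ ≤ _ := by rw [mul_one]; exact h2
      have h0 : 0 ≤ (1 / ((i : ℝ) + 1)) * e (Nat.pair i j) x :=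
        mul_nonneg (by positivity) (he.nn _ _)
      split_ifs
      · rw [sub_self, abs_zero]
        exact hm
      · rw [sub_zero, abs_of_nonneg h0]
        exact h1
      · rw [zero_sub, abs_neg, abs_of_nonneg h0]
        exact h1
      · rw [sub_self, abs_zero]
        exact hm

theorem th_cont (he : Dis e) (h : ℕ → ℕ) : Continuous (th e h) := by
  rw [continuous_iff_continuousAt]
  intro x
  rcases dich he x with hx | ⟨i, j, hx⟩
  · rw [Metric.continuousAt_iff']
    intro ε hε
    obtain ⟨m, hm⟩ := exists_nat_one_div_lt hε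
    have h1 : ∀ᶠ y in nhds x, ∀ i ∈ Finset.range m, ∀ j ∈ Finset.range (h i + 1),
        e (Nat.pair i j) y < ε := by
      rw [Filter.eventually_all_finset]
      intro i _
      rw [Filter.eventually_all_finset]
      intro j _
      have h2 : Filter.Tendsto (e (Nat.pair i j)) (nhds x) (nhds 0) := by
        have := (he.cont (Nat.pair i j)).tendsto x
        rwa [hx] at this
      exact h2.eventually (gt_mem_nhds hε)
    filter_upwards [h1] with y hy
    rw [th_zero hx, Real.dist_eq, sub_zero, abs_of_nonneg (th_nonneg he h y)]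
    rcases dich he y with hy0 | ⟨i, j, hy0⟩
    · rw [th_zero hy0]
      exact hε
    · rw [th_pos he hy0]
      split_ifs with hj
      · rcases lt_or_ge i m with hi | hi
        · have h3 := hy i (Finset.mem_range.2 hi) j (Finset.mem_range.2 (Nat.lt_succ_of_le hj))
          calc (1 / ((i : ℝ) + 1)) * e (Nat.pair i j) y ≤ 1 * e (Nat.pair i j) y :=
                mul_le_mul_of_nonneg_right (one_div_le_one i) (he.nn _ _)
            _ < ε := by rw [one_mul]; exact h3
        · have h2 : (1 / ((i : ℝ) + 1)) ≤ 1 / ((m : ℝ) + 1) := by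
            have : (m : ℝ) ≤ i := by exact_mod_cast hi
            exact one_div_le_one_div_of_le (by positivity) (by linarith)
          calc (1 / ((i : ℝ) + 1)) * e (Nat.pair i j) y ≤ (1 / ((i : ℝ) + 1)) * 1 :=
                mul_le_mul_of_nonneg_left (he.le _ _) (by positivity)
            _ < ε := by rw [mul_one]; exact lt_of_le_of_lt h2 hm
      · exact hε
  · have h1 : ∀ᶠ y in nhds x, 0 < e (Nat.pair i j) y :=
      ((he.cont (Nat.pair i j)).tendsto x).eventually (lt_mem_nhds hx)
    have h2 : ContinuousAt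
        (fun y => if j ≤ h i then (1 / ((i : ℝ) + 1)) * e (Nat.pair i j) y else 0) x := by
      by_cases hj : j ≤ h i
      · simp only [if_pos hj]
        exact (continuous_const.mul (he.cont _)).continuousAt
      · simp only [if_neg hj]
        exact continuousAt_const
    refine h2.congr ?_
    filter_upwards [h1] with y hy
    rw [th_pos he hy]

/-- the value as a condition without suprema (for `0 ≤ r`) -/
theorem lt_th_iff (he : Dis e) {h : ℕ → ℕ} {x : X} {r : ℝ} :
    r < th e h x ↔ r < 0 ∨ ∃ i j, j ≤ h i ∧ r < (1 / ((i : ℝ) + 1)) * e (Nat.pair i j) x := by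
  constructor
  · intro hr
    rcases dich he x with hx | ⟨i, j, hx⟩
    · rw [th_zero hx] at hr
      exact Or.inl hr
    · rw [th_pos he hx] at hr
      split_ifs at hr with hj
      · exact Or.inr ⟨i, j, hj, hr⟩
      · exact Or.inl hr
  · rintro (hr | ⟨i, j, hj, hr⟩)
    · exact lt_of_lt_of_le hr (th_nonneg he h x)
    · rcases (he.nn (Nat.pair i j) x).eq_or_lt with h0 | h0
      · rw [← h0, mul_zero] at hr
        exact lt_of_lt_of_le hr (th_nonneg he h x)
      · rw [th_pos he h0, if_pos hj]
        exact hr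

end CPY
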