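import Pool.Agent.CPY.EKp
import Pool.Agent.CPY.EThe

/-! # Local boundedness of the requirements (package ELoc, native; uses `EThe`, `EKp` as black boxes)

(problem MP_ba5606_gt, project CPY; step 10 of `/team-store/ARH2.md`, section E1)

Let `c : X → ℝ` be continuous and suppose that there are no `B`, `m` with `PP B m` and `c ∈ bas (pts s) B`. For `k : ℕ` let
`B_k` be a list with entries `(n, q, q')`, `n < k`, `c (pts n) - 1/(k+1) < q < c (pts n) < q' < c (pts n) + 1/(k+1)`; as `PP B_k k` fails there are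
`a_k ≤ γ` and `t_k` with `UU F b (r a_k) t_k`, `|t_k| > k` and `|q_{a_k,t_k} (pts n) - c (pts n)| < 1/(k+1)` for `n < k` (`choose`).
Let `h_k := ext t_k`. So (1) `f_{a_k} (p) + θ_{h_k} (p) → c p` for every `p = pts n`, in particular for `p = D n, z n, zs n, x (s n), y (s n)`.

(2) `p = z (pair i j)`: `e_{ij} p = 1 > 0`, so `g p < 1/3` and `f_{a_k} p = 0`, and `θ_{h_k} p = 1/(i+1)` if `j ≤ h_k i`, `0` otherwise
(`th_pos`). This converges, so for all `i`, `j` the truth value of `j ≤ h_k i` is eventually constant in `k`.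

(3) For every `i` the sequence `h_k i` is eventually constant. Otherwise for every `j` eventually `j ≤ h_k i` (if for some `j` eventually
`¬ j ≤ h_k i`, then `h_k i` is eventually determined by the finitely many eventually constant truth values of `j' ≤ h_k i`, `j' ≤ j`).
Then `c (z (pair i j)) = 1/(i+1)` for all `j`. But `c (zs i) = lim (f_{a_k} (zs i) + θ_{h_k} (zs i)) = 0`: `g (zs i) ≤ 1/3` (otherwise
`{g > 1/3}` is an open neighbourhood of `zs i` and contains some `z (pair i j)`), so `f_a (zs i) = 0`; and all `e n (zs i) = 0`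
(otherwise `{e n > 0}` is an open neighbourhood of `zs i`, it contains `z (pair i j)` for infinitely many `j`, and
`e (pair i j) > 0` there, so `n = pair i j` for infinitely many `j`), so `θ (zs i) = 0` (`th_zero`). As `c` is continuous,
`{p | c p < 1/(i+1)}` is an open neighbourhood of `zs i` which contains no `z (pair i j)`: contradiction to `zs_acc`.

(4) Let `v i` be the eventual value of `h_k i`. By `th_near` `θ_{h_k} p → θ_v p` for all `p` (for every `m` eventually `h_k = v` below `m`,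
so `|θ_{h_k} p - θ_v p| ≤ 1/(m+1)`). So `f_{a_k} p → c p - θ_v p` for all `p = pts n`. For `p = D n`: `r a_k n → y' n := c (D n) - θ_v (D n)`.
By `UU_lim` `(b, y', v) ∈ F`, so by `hFs` there is `n` with `y' m = f_{s n} (D m)` for all `m`. The continuous functions `c - θ_v` (`th_cont`) and
`f_{s n}` agree on `D m` for all `m`, so on the closure, in particular at `x (s n)`, `y (s n)`. There
`f_{a_k} (x (s n)) → c - θ_v = f_{s n} (x (s n))`, and the same for `y`. But `a_k ≤ γ < s n`, so `f_{a_k} (x (s n)) = f_{a_k} (y (s n))` (`K.eq`),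
hence `f_{s n} (x (s n)) = f_{s n} (y (s n))` (`tendsto_nhds_unique`), contradiction to `K.ne`. -/

set_option autoImplicit false

open Filter Topology

namespace CPY

namespace Cfg

variable {X : Type*} [TopologicalSpace X] {Θ : Type*} [LinearOrder Θ] (K : Cfg X Θ)

theorem g_zs (i : ℕ) : K.g (K.zs i) ≤ 1 / 3 := by
  by_contra hn
  rw [not_le] at hn
  obtain ⟨j, hj⟩ := (K.zs_acc i {p | 1 / 3 < K.g p} (isOpen_lt continuous_const K.gc) hn).nonempty
  have h1 : 1 / 3 < K.g (K.z (Nat.pair i j)) := hj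
  have h2 := K.eg (Nat.pair i j) (K.z (Nat.pair i j)) (by rw [K.ez]; exact one_pos)
  linarith

theorem e_zs (n i : ℕ) : K.e n (K.zs i) = 0 := by
  by_contra hn
  have hp : 0 < K.e n (K.zs i) := lt_of_le_of_ne (K.dis.nn n _) (Ne.symm hn)
  obtain ⟨j, hj, j', hj', hne⟩ := (K.zs_acc i {p | 0 < K.e n p}
    (isOpen_lt continuous_const (K.dis.cont n)) hp).nontrivial
  have key : ∀ j, 0 < K.e n (K.z (Nat.pair i j)) → n = Nat.pair i j := fun j hj =>
    K.dis.dis n (Nat.pair i j) _ hj (by rw [K.ez]; exact one_pos)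
  exact hne (Nat.pair_eq_pair.1 ((key j hj).symm.trans (key j' hj'))).2

/-- step (3) -/
theorem ev_const {c : X → ℝ} (hc : Continuous c) {a : ℕ → Θ} {h : ℕ → ℕ → ℕ} (i : ℕ)
    (hz : ∀ n, Tendsto (fun k => K.f (a k) (K.z n) + th K.e (h k) (K.z n)) atTop (𝓝 (c (K.z n))))
    (hzs : ∀ n, Tendsto (fun k => K.f (a k) (K.zs n) + th K.e (h k) (K.zs n)) atTop
      (𝓝 (c (K.zs n)))) : ∃ v, ∀ᶠ k in atTop, h k i = v := by
  have hδ : (0 : ℝ) < 1 / ((i : ℝ) + 1) := Nat.one_div_pos_of_nat
  have hval : ∀ j k, K.f (a k) (K.z (Nat.pair i j)) + th K.e (h k) (K.z (Nat.pair i j)) =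
      if j ≤ h k i then 1 / ((i : ℝ) + 1) else 0 := by
    intro j k
    have h1 : 0 < K.e (Nat.pair i j) (K.z (Nat.pair i j)) := by rw [K.ez]; exact one_pos
    rw [K.fg _ _ (K.eg _ _ h1).le, zero_add, th_pos K.dis h1, K.ez, mul_one]
  have hT : ∀ j, Tendsto (fun k => if j ≤ h k i then 1 / ((i : ℝ) + 1) else 0) atTop
      (𝓝 (c (K.z (Nat.pair i j)))) := by
    intro j
    have h1 := hz (Nat.pair i j)
    simp only [hval] at h1
    exact h1
  have hev : ∀ j, (∀ᶠ k in atTop, j ≤ h k i) ∨ ∀ᶠ k in atTop, ¬ j ≤ h k i := by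
    intro j
    rcases lt_or_ge (1 / ((i : ℝ) + 1) / 2) (c (K.z (Nat.pair i j))) with h1 | h1
    · left
      filter_upwards [(tendsto_order.1 (hT j)).1 _ h1] with k hk
      by_contra h2
      rw [if_neg h2] at hk
      linarith
    · right
      filter_upwards [(tendsto_order.1 (hT j)).2 (1 / ((i : ℝ) + 1)) (by linarith)] with k hk
      intro h2
      rw [if_pos h2] at hk
      exact lt_irrefl _ hk
  have hex : ∃ j, ∀ᶠ k in atTop, ¬ j ≤ h k i := by
    by_contra hn
    rw [not_exists] at hn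
    have h1 : ∀ j, c (K.z (Nat.pair i j)) = 1 / ((i : ℝ) + 1) := by
      intro j
      have h2 : ∀ᶠ k in atTop, j ≤ h k i := (hev j).resolve_right (hn j)
      refine tendsto_nhds_unique (hT j) (tendsto_const_nhds.congr' ?_)
      filter_upwards [h2] with k hk
      rw [if_pos hk]
    have h3 : c (K.zs i) = 0 := by
      refine tendsto_nhds_unique (hzs i) ?_
      have h4 : ∀ k, K.f (a k) (K.zs i) + th K.e (h k) (K.zs i) = 0 := fun k => by
        rw [K.fg _ _ (K.g_zs i), th_zero fun n => K.e_zs n i, add_zero]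
      simp only [h4]
      exact tendsto_const_nhds
    obtain ⟨j, hj⟩ := (K.zs_acc i {p | c p < 1 / ((i : ℝ) + 1)} (isOpen_lt hc continuous_const)
      (by change c (K.zs i) < _; rw [h3]; exact hδ)).nonempty
    have h5 : c (K.z (Nat.pair i j)) < 1 / ((i : ℝ) + 1) := hj
    rw [h1] at h5
    exact lt_irrefl _ h5
  classical
  have h1 := Nat.find_spec hex
  have h2 : ∀ j < Nat.find hex, ¬ ∀ᶠ k in atTop, ¬ j ≤ h k i := fun j hj => Nat.find_min hex hj
  generalize Nat.find hex = w at h1 h2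
  cases w with
  | zero =>
    obtain ⟨k, hk⟩ := h1.exists
    exact absurd (Nat.zero_le _) hk
  | succ v =>
    refine ⟨v, ?_⟩
    filter_upwards [h1, (hev v).resolve_right (h2 v (Nat.lt_succ_self v))] with k hk hk'
    omega

theorem loc {F : Set ((ℕ → Bool) × (ℕ → ℝ) × (ℕ → ℕ))} (hF : IsClosed F) {b : ℕ → Bool} {γ : Θ}
    {s : ℕ → Θ} (hs : ∀ n, γ < s n)
    (hFs : ∀ y v, (b, y, v) ∈ F → ∃ n, y = K.r (s n)) {c : X → ℝ} (hc : Continuous c) :
    ∃ B m, K.PP F b γ s B m ∧ c ∈ bas (K.pts s) B := by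
  by_contra H
  have H1 : ∀ B m, c ∈ bas (K.pts s) B → ¬ K.PP F b γ s B m := fun B m h1 h2 => H ⟨B, m, h2, h1⟩
  have hε : ∀ k : ℕ, (0 : ℝ) < 1 / ((k : ℝ) + 1) := fun k => Nat.one_div_pos_of_nat
  have key : ∀ k : ℕ, ∃ a t, a ≤ γ ∧ UU F b (K.r a) t ∧ k < t.length ∧
      ∀ n < k, c (K.pts s n) - 1 / ((k : ℝ) + 1) ≤ K.q a t (K.pts s n) ∧
        K.q a t (K.pts s n) ≤ c (K.pts s n) + 1 / ((k : ℝ) + 1) := by
    intro k
    have h1 : ∀ n, ∃ q : ℚ, c (K.pts s n) - 1 / ((k : ℝ) + 1) < q ∧ (q : ℝ) < c (K.pts s n) :=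
      fun n => exists_rat_btwn (by linarith [hε k])
    have h2 : ∀ n, ∃ q : ℚ, c (K.pts s n) < q ∧ (q : ℝ) < c (K.pts s n) + 1 / ((k : ℝ) + 1) :=
      fun n => exists_rat_btwn (by linarith [hε k])
    choose q hq using h1
    choose q' hq' using h2
    have h3 : c ∈ bas (K.pts s) ((List.range k).map fun n => (n, q n, q' n)) := by
      intro t ht
      obtain ⟨n, -, rfl⟩ := List.mem_map.1 ht
      exact ⟨(hq n).2, (hq' n).1⟩
    have h4 := H1 _ k h3
    unfold PP at h4
    push Not at h4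
    obtain ⟨a, ha, t, hU, hb, hk⟩ := h4
    refine ⟨a, t, ha, hU, hk, fun n hn => ?_⟩
    have h5 := hb (n, q n, q' n) (List.mem_map.2 ⟨n, List.mem_range.2 hn, rfl⟩)
    exact ⟨(hq n).1.le.trans h5.1.le, h5.2.le.trans (hq' n).2.le⟩
  choose a t ha hU hk hq using key
  have hlim : Tendsto (fun k : ℕ => 1 / ((k : ℝ) + 1)) atTop (𝓝 0) :=
    tendsto_one_div_add_atTop_nhds_zero_nat
  have h1 : ∀ n, Tendsto (fun k => K.f (a k) (K.pts s n) + th K.e (ext (t k)) (K.pts s n)) atTop
      (𝓝 (c (K.pts s n))) := by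
    intro n
    have e1 : Tendsto (fun k : ℕ => c (K.pts s n) - 1 / ((k : ℝ) + 1)) atTop
        (𝓝 (c (K.pts s n))) := by
      simpa using tendsto_const_nhds.sub hlim
    have e2 : Tendsto (fun k : ℕ => c (K.pts s n) + 1 / ((k : ℝ) + 1)) atTop
        (𝓝 (c (K.pts s n))) := by
      simpa using tendsto_const_nhds.add hlim
    refine tendsto_of_tendsto_of_tendsto_of_le_of_le' e1 e2 ?_ ?_
    · filter_upwards [eventually_gt_atTop n] with k hk'
      exact (hq k n hk').1
    · filter_upwards [eventually_gt_atTop n] with k hk'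
      exact (hq k n hk').2
  have hD : ∀ n, K.pts s (Nat.pair 0 n) = K.D n := fun n => by
    unfold pts
    rw [Nat.unpair_pair]
    rfl
  have hz : ∀ n, K.pts s (Nat.pair 1 n) = K.z n := fun n => by
    unfold pts
    rw [Nat.unpair_pair]
    rfl
  have hzs : ∀ n, K.pts s (Nat.pair 2 n) = K.zs n := fun n => by
    unfold pts
    rw [Nat.unpair_pair]
    rfl
  have hx : ∀ n, K.pts s (Nat.pair 3 n) = K.x (s n) := fun n => by
    unfold pts
    rw [Nat.unpair_pair]
    rfl
  have hy : ∀ n, K.pts s (Nat.pair 4 n) = K.y (s n) := fun n => by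
    unfold pts
    rw [Nat.unpair_pair]
    rfl
  have hvex : ∀ i, ∃ v, ∀ᶠ k in atTop, ext (t k) i = v := fun i =>
    K.ev_const hc (a := a) (h := fun k => ext (t k)) i (fun n => hz n ▸ h1 (Nat.pair 1 n))
      (fun n => hzs n ▸ h1 (Nat.pair 2 n))
  choose v hv using hvex
  have hth : ∀ p, Tendsto (fun k => th K.e (ext (t k)) p) atTop (𝓝 (th K.e v p)) := by
    intro p
    rw [Metric.tendsto_nhds]
    intro ε hε'
    obtain ⟨m, hm⟩ := exists_nat_one_div_lt hε'
    have h2 : ∀ᶠ k in atTop, ∀ i ∈ Finset.range m, ext (t k) i = v i :=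
      (Filter.eventually_all_finset _).2 fun i _ => hv i
    filter_upwards [h2] with k hk'
    rw [Real.dist_eq]
    exact (th_near K.dis (fun i hi => hk' i (Finset.mem_range.2 hi)) p).trans_lt hm
  have hf : ∀ n, Tendsto (fun k => K.f (a k) (K.pts s n)) atTop
      (𝓝 (c (K.pts s n) - th K.e v (K.pts s n))) := by
    intro n
    have h2 := (h1 n).sub (hth (K.pts s n))
    simp only [add_sub_cancel_right] at h2
    exact h2
  have hmem : (b, (fun n => c (K.D n) - th K.e v (K.D n)), v) ∈ F := by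
    refine UU_lim hF (y := fun k => K.r (a k)) (s := t) hU (fun k => (hk k).le) (fun i => ?_) hv
    have h2 := hf (Nat.pair 0 i)
    rw [hD i] at h2
    exact h2
  obtain ⟨n, hn⟩ := hFs _ _ hmem
  have hEq : Set.EqOn (fun p => c p - th K.e v p) (K.f (s n)) (closure (Set.range K.D)) := by
    refine Set.EqOn.closure ?_ (hc.sub (th_cont K.dis v)) (K.fc (s n))
    rintro _ ⟨m, rfl⟩
    exact congrFun hn m
  have h2 := hf (Nat.pair 3 n)
  rw [hx n] at h2
  have h3 := hf (Nat.pair 4 n)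
  rw [hy n] at h3
  have h4 : ∀ k, K.f (a k) (K.x (s n)) = K.f (a k) (K.y (s n)) := fun k =>
    K.eq (s n) (a k) ((ha k).trans_lt (hs n))
  simp only [h4] at h2
  have h5 := tendsto_nhds_unique h2 h3
  have h6 : c (K.x (s n)) - th K.e v (K.x (s n)) = K.f (s n) (K.x (s n)) := hEq (K.xD (s n))
  have h7 : c (K.y (s n)) - th K.e v (K.y (s n)) = K.f (s n) (K.y (s n)) := hEq (K.yD (s n))
  rw [h6, h7] at h5
  exact K.ne (s n) h5

end Cfg

end CPY
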