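import Pool.Agent.CPY.ThetaN

/-! # The function `Th` is a continuous function of the model (package ThetaF)

(problem MP_ba5606_gt, ARH Part II, blocks E1, E2; architect helper79)

PROOFS.
* `ip_TS`: for rational `q` and `c : CC N X`: `(q : ℝ) ∈ TS v c` iff `0 < q` and there is `n` with
  `(n : ℝ) < q` and for all
  `t`: `t ∈ v n → t.2.1 + 1/q < c t.1 ∧ c t.1 < t.2.2 - 1/q`; for `0 < q` the two inequalities say
  `1 < q * (c t.1 - t.2.1)` and `1 < q * (t.2.2 - c t.1)`, so the predicate is internal by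
  `IP.memList`,
  `IP.ltR`, `IR.mul`, `IR.sub`, `IR.rat`, `IR.nat`, `IR.evC`.
* `ir_Th`: by definition of `IR` and `lt_Th_iff`:
  `(r : ℝ) < Th v c ↔ ∃ q : ℚ, r < q ∧ (q : ℝ) ∉ TS v c`.
* `exists_theta`: `P := ⟨fun c => Th v c.f, ir_Th, Th_cont CC.continuous_f⟩`, `Th_nonneg`,
  `Th_small`. -/

universe u v w

namespace CPY

open WCal WM

variable {N : Type u} [WM N] [Std N] {X : Type v} [WTy N X] [TopologicalSpace X] [WSp N X]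

private theorem tf_ineq {q a x : ℝ} (hq : 0 < q) : a + 1 / q < x ↔ 1 < q * (x - a) := by
  rw [← lt_sub_iff_add_lt', div_lt_iff₀ hq, mul_comm]

private theorem tf_ineq' {q b x : ℝ} (hq : 0 < q) : x < b - 1 / q ↔ 1 < q * (b - x) := by
  rw [lt_sub_comm, div_lt_iff₀ hq, mul_comm]

theorem ip_TS {v : ℕ → List (X × ℚ × ℚ)} (hv : IF N v) :
    IP N (fun p : CC N X × ℚ => (p.2 : ℝ) ∈ TS v p.1.f) := by
  have key : IP N (fun p : CC N X × ℚ => (((0 : ℚ) : ℝ) < (p.2 : ℝ)) ∧ ∃ n : ℕ,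
      ((n : ℝ) < (p.2 : ℝ)) ∧ ∀ t : X × ℚ × ℚ, t ∈ v n →
        (((1 : ℚ) : ℝ) < (p.2 : ℝ) * (p.1 t.1 - (t.2.1 : ℝ)) ∧
          ((1 : ℚ) : ℝ) < (p.2 : ℝ) * ((t.2.2 : ℝ) - p.1 t.1))) := by
    refine IP.and (IP.ltR (IR.rat (IF.const 0)) (IR.rat IF.snd)) ?_
    refine IP.ex (P := fun (p : CC N X × ℚ) (n : ℕ) =>
      ((n : ℝ) < (p.2 : ℝ)) ∧ ∀ t : X × ℚ × ℚ, t ∈ v n →
        (((1 : ℚ) : ℝ) < (p.2 : ℝ) * (p.1 t.1 - (t.2.1 : ℝ)) ∧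
          ((1 : ℚ) : ℝ) < (p.2 : ℝ) * ((t.2.2 : ℝ) - p.1 t.1))) ?_
    have g1 : IF N (fun z : (CC N X × ℚ) × ℕ => z.1.2) :=
      IF.comp (g := fun p : CC N X × ℚ => p.2) IF.snd IF.fst
    refine IP.and (IP.ltR (IR.nat IF.snd) (IR.rat g1)) ?_
    refine IP.all (P := fun (p : (CC N X × ℚ) × ℕ) (t : X × ℚ × ℚ) => t ∈ v p.2 →
        (((1 : ℚ) : ℝ) < (p.1.2 : ℝ) * (p.1.1 t.1 - (t.2.1 : ℝ)) ∧
          ((1 : ℚ) : ℝ) < (p.1.2 : ℝ) * ((t.2.2 : ℝ) - p.1.1 t.1))) ?_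
    have h0 : IF N (fun z : ((CC N X × ℚ) × ℕ) × (X × ℚ × ℚ) => z.1) := IF.fst
    have h1 : IF N (fun z : ((CC N X × ℚ) × ℕ) × (X × ℚ × ℚ) => z.2) := IF.snd
    have h2 : IF N (fun z : ((CC N X × ℚ) × ℕ) × (X × ℚ × ℚ) => z.1.1) :=
      IF.comp (g := fun p : (CC N X × ℚ) × ℕ => p.1) IF.fst h0
    have h3 : IF N (fun z : ((CC N X × ℚ) × ℕ) × (X × ℚ × ℚ) => z.1.2) :=
      IF.comp (g := fun p : (CC N X × ℚ) × ℕ => p.2) IF.snd h0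
    have h4 : IF N (fun z : ((CC N X × ℚ) × ℕ) × (X × ℚ × ℚ) => z.1.1.1) :=
      IF.comp (g := fun p : CC N X × ℚ => p.1) IF.fst h2
    have h5 : IF N (fun z : ((CC N X × ℚ) × ℕ) × (X × ℚ × ℚ) => z.1.1.2) :=
      IF.comp (g := fun p : CC N X × ℚ => p.2) IF.snd h2
    have h6 : IF N (fun z : ((CC N X × ℚ) × ℕ) × (X × ℚ × ℚ) => z.2.1) :=
      IF.comp (g := fun p : X × ℚ × ℚ => p.1) IF.fst h1
    have h7 : IF N (fun z : ((CC N X × ℚ) × ℕ) × (X × ℚ × ℚ) => z.2.2) :=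
      IF.comp (g := fun p : X × ℚ × ℚ => p.2) IF.snd h1
    have h8 : IF N (fun z : ((CC N X × ℚ) × ℕ) × (X × ℚ × ℚ) => z.2.2.1) :=
      IF.comp (g := fun p : ℚ × ℚ => p.1) IF.fst h7
    have h9 : IF N (fun z : ((CC N X × ℚ) × ℕ) × (X × ℚ × ℚ) => z.2.2.2) :=
      IF.comp (g := fun p : ℚ × ℚ => p.2) IF.snd h7
    have e : IR N (fun z : ((CC N X × ℚ) × ℕ) × (X × ℚ × ℚ) => z.1.1.1 z.2.1) :=
      IR.evC h4 h6
    refine IP.imp (IP.memList h1 (IF.comp hv h3)) (IP.and ?_ ?_)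
    · exact IP.ltR (IR.rat (IF.const 1)) (IR.mul (IR.rat h5) (IR.sub e (IR.rat h8)))
    · exact IP.ltR (IR.rat (IF.const 1)) (IR.mul (IR.rat h5) (IR.sub (IR.rat h9) e))
  refine IP.congr (fun p => ?_) key
  have e0 : (((0 : ℚ) : ℝ) < (p.2 : ℝ)) ↔ (0 : ℝ) < (p.2 : ℝ) := by rw [Rat.cast_zero]
  rw [Rat.cast_one]
  constructor
  · rintro ⟨h1, n, h2, h3⟩
    have hq : (0 : ℝ) < (p.2 : ℝ) := e0.1 h1
    refine ⟨hq, n, h2, fun t ht => ?_⟩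
    obtain ⟨h4, h5⟩ := h3 t ht
    exact ⟨(tf_ineq hq).2 h4, (tf_ineq' hq).2 h5⟩
  · rintro ⟨hq, n, h2, h3⟩
    refine ⟨e0.2 hq, n, h2, fun t ht => ?_⟩
    obtain ⟨h4, h5⟩ := h3 t ht
    exact ⟨(tf_ineq hq).1 h4, (tf_ineq' hq).1 h5⟩

theorem ir_Th {v : ℕ → List (X × ℚ × ℚ)} (hv : IF N v)
    (hc : ∀ c : CC N X, ∃ n, c.f ∈ Bv (v n)) : IR N (fun c : CC N X => Th v c.f) := by
  have key : IP N (fun p : CC N X × ℚ => ∃ q : ℚ, ((p.2 : ℝ) < (q : ℝ)) ∧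
      ¬ ((q : ℝ) ∈ TS v p.1.f)) := by
    refine IP.ex (P := fun (p : CC N X × ℚ) (q : ℚ) => ((p.2 : ℝ) < (q : ℝ)) ∧
      ¬ ((q : ℝ) ∈ TS v p.1.f)) ?_
    have h1 : IF N (fun z : (CC N X × ℚ) × ℚ => z.1.1) :=
      IF.comp (g := fun p : CC N X × ℚ => p.1) IF.fst IF.fst
    have h2 : IF N (fun z : (CC N X × ℚ) × ℚ => z.1.2) :=
      IF.comp (g := fun p : CC N X × ℚ => p.2) IF.snd IF.fst
    exact IP.and (IP.ltR (IR.rat h2) (IR.rat IF.snd))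
      (IP.not (IP.comp (ip_TS hv) (IF.pair h1 IF.snd)))
  exact IP.congr (fun p => (lt_Th_iff (hc p.1)).symm) key

/-- if the basic sets `Bv (v n)` cover the space of continuous functions then there is a continuous
function `P` on it with `{P < m} ⊆ ⋃ n < m, Bv (v n)` -/
theorem exists_theta {v : ℕ → List (X × ℚ × ℚ)} (hv : IF N v)
    (hc : ∀ c : CC N X, ∃ n, c.f ∈ Bv (v n)) :
    ∃ P : CC N (CC N X), (∀ c, 0 ≤ P c) ∧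
      ∀ (c : CC N X) (m : ℕ), P c < m → ∃ n < m, c.f ∈ Bv (v n) := by
  refine ⟨⟨fun c => Th v c.f, ir_Th hv hc, Th_cont CC.continuous_f hc⟩, fun c => ?_,
    fun c m hm => ?_⟩
  · exact Th_nonneg
  · exact Th_small (hc c) hm

end CPY
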