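import Pool.Agent.CPY.EDefs

/-! # The configuration of the proof of Q2 (definitions)

(problem MP_ba5606_gt, project CPY; no sorry in this file) -/

set_option autoImplicit false

namespace CPY

/-- The data produced by steps 3-7 of `/team-store/ARH2.md`, section E1 (`Θ` is the set of ordinals below `ω_1` of
the model): `g` separates, the functions `e n` live in `{g < 1/3}`, the functions `f a` vanish on `{g ≤ 1/3}`,
and `f a` separates the points `x a`, `y a` of the closure of `{D n}`, which are not separated by the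
functions `f b` with `b < a`. -/
structure Cfg (X : Type*) [TopologicalSpace X] (Θ : Type*) [LinearOrder Θ] where
  e : ℕ → X → ℝ
  g : X → ℝ
  z : ℕ → X
  zs : ℕ → X
  D : ℕ → X
  f : Θ → X → ℝ
  x : Θ → X
  y : Θ → X
  dis : Dis e
  gc : Continuous g
  ez : ∀ n, e n (z n) = 1
  eg : ∀ n p, 0 < e n p → g p < 1 / 3
  zs_acc : ∀ i U, IsOpen U → zs i ∈ U → {j | z (Nat.pair i j) ∈ U}.Infinite
  fc : ∀ a, Continuous (f a)
  f0 : ∀ a p, 0 ≤ f a p
  f1 : ∀ a p, f a p ≤ 1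
  fg : ∀ a p, g p ≤ 1 / 3 → f a p = 0
  xD : ∀ a, x a ∈ closure (Set.range D)
  yD : ∀ a, y a ∈ closure (Set.range D)
  xg : ∀ a, 1 / 3 < g (x a)
  yg : ∀ a, 1 / 3 < g (y a)
  ne : ∀ a, f a (x a) ≠ f a (y a)
  eq : ∀ a b, b < a → f b (x a) = f b (y a)

namespace Cfg

variable {X : Type*} [TopologicalSpace X] {Θ : Type*} [LinearOrder Θ] (K : Cfg X Θ)

/-- the values of `f a` at the points `D n` -/
def r (a : Θ) : ℕ → ℝ := fun n => K.f a (K.D n)

/-- the functions `q_{a,s} = f_a + θ_{s 0 0 ...}` -/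
noncomputable def q (a : Θ) (s : List ℕ) : X → ℝ := fun p => K.f a p + th K.e (ext s) p

/-- the countable set of points -/
def pts (s : ℕ → Θ) (n : ℕ) : X :=
  match n.unpair.1 with
  | 0 => K.D n.unpair.2
  | 1 => K.z n.unpair.2
  | 2 => K.zs n.unpair.2
  | 3 => K.x (s n.unpair.2)
  | _ => K.y (s n.unpair.2)

/-- `B`, `m`: all `(a, s)` with `a ≤ γ`, `s` an approximation over `(b, r_a)` and `q_{a,s} ∈ bas B` satisfy
`|s| ≤ m` -/
def PP (F : Set ((ℕ → Bool) × (ℕ → ℝ) × (ℕ → ℕ))) (b : ℕ → Bool) (γ : Θ) (s : ℕ → Θ)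
    (B : List (ℕ × ℚ × ℚ)) (m : ℕ) : Prop :=
  ∀ a ≤ γ, ∀ t, UU F b (K.r a) t → K.q a t ∈ bas (K.pts s) B → t.length ≤ m

end Cfg

/-- the closed conditions `K_a`: `φ` has the values `0`, `1` at the points `κ n`, which code a real `b`,
and `φ (q s) ≥ |s|` for all approximations `s` over `(b, r)` -/
def Kp {Y : Type*} (F : Set ((ℕ → Bool) × (ℕ → ℝ) × (ℕ → ℕ))) (κ : ℕ → Y) (q : List ℕ → Y)
    (r : ℕ → ℝ) (φ : Y → ℝ) : Prop :=
  open Classical in
  (∀ n, φ (κ n) = 0 ∨ φ (κ n) = 1) ∧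
    ∀ s, UU F (fun n => decide (φ (κ n) = 1)) r s → (s.length : ℝ) ≤ φ (q s)

end CPY
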