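import Pool.Agent.CPY.EDefs

/-! # The Urysohn type function `phi` (package EUry, Mathlib only apart from `EDefs`)

(problem MP_ba5606_gt, project CPY)

The space is `X → ℝ` with the product topology.

* `tent_nonneg`, `tent_le_one`, `tent_pos_iff`, `tent_cont`: induction on the list `B` (the minimum of
  nonnegative numbers is positive iff both are; `continuous_apply`, `Continuous.min`, `Continuous.max`).
* the family in `uu` has values in `[0, 1]`: `uu_nonneg`, `uu_le_one`; `uu` is monotone in `m`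
  (`uu_mono`, `ciSup_mono`: if `∃ m' ≤ m, P B m'` then `∃ m' ≤ m2, P B m'`); `uu_pos`: if `P B m'`, `m' ≤ m` and `c ∈ bas E B` then
  `(1/(encode B + 1)) * tent E B c ≤ uu E P m c` (`le_ciSup`).
* `uu_zero`: if no `B` with `P B m'` for some `m' ≤ m` contains `c` then `uu E P m c = 0` (all terms are `0`).
* `uu_cont`: every `uu E P m` is continuous. Lower semicontinuity: a supremum of continuous functions. Upper
  semicontinuity: let `uu E P m c < r`. All terms of index `B` with `1/(encode B + 1) < r/2` (all but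
  finitely many `B`) are `< r/2` everywhere (`tent ≤ 1`); for the finitely many others the term is
  continuous and `< r` at `c` (choose `r' < r` above `uu E P m c` to keep the strict inequality for the
  supremum). Or: `uu` is the uniform limit of the suprema over the finitely many `B` with `encode B < N`
  (`Encodable` injective): the difference is at most `1/(N+1)`.
* `phi_cont`: let `c ∈ S`, `P B m0`, `c ∈ bas E B`, `δ := (1/(encode B + 1)) * tent E B c / 2 > 0`. The set
  `V := {c' | δ < (1/(encode B + 1)) * tent E B c'}` is an open neighbourhood of `c`, and for `c' ∈ V`,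
  `m ≥ max m0 ⌈1/δ⌉` one has `uu E P m c' ≥ δ`, so `1 - m * uu E P m c' ≤ 0` and the term of `m` is `0`. So
  on `V` `phi` is the maximum of finitely many continuous functions (all terms are `≥ 0`).
* `phi_nonneg` (term `m = 0` is `1 ≥ 0`), `phi_ge`: the term of `m` is `(m+1) * max 0 (1 - 0) = m + 1` by `uu_zero`; the
  family is bounded at `c` by the argument above (`hc`). -/

set_option autoImplicit false

namespace CPY

variable {X : Type*} {E : ℕ → X} {P : List (ℕ × ℚ × ℚ) → ℕ → Prop}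

theorem tent_nonneg (B : List (ℕ × ℚ × ℚ)) (c : X → ℝ) : 0 ≤ tent E B c := by
  induction B with
  | nil => exact zero_le_one
  | cons t B ih => exact le_min (le_max_left _ _) ih

theorem tent_le_one (B : List (ℕ × ℚ × ℚ)) (c : X → ℝ) : tent E B c ≤ 1 := by
  induction B with
  | nil => exact le_refl _
  | cons t B ih => exact (min_le_right _ _).trans ih

theorem tent_pos_iff {B : List (ℕ × ℚ × ℚ)} {c : X → ℝ} : 0 < tent E B c ↔ c ∈ bas E B := by
  induction B with
  | nil =>
    constructor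
    · intro _ t ht
      exact absurd ht List.not_mem_nil
    · intro _
      exact zero_lt_one
  | cons t B ih =>
    have h1 : c ∈ bas E (t :: B) ↔ ((t.2.1 : ℝ) < c (E t.1) ∧ c (E t.1) < (t.2.2 : ℝ)) ∧
        c ∈ bas E B := by
      unfold bas
      rw [Set.mem_ofPred_eq, Set.mem_ofPred_eq, List.forall_mem_cons]
    rw [h1, ← ih, tent, lt_min_iff, lt_max_iff, lt_min_iff, sub_pos, sub_pos]
    constructor
    · rintro ⟨h2 | h2, h3⟩
      · exact absurd h2 (lt_irrefl _)
      · exact ⟨h2, h3⟩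
    · rintro ⟨h2, h3⟩
      exact ⟨Or.inr h2, h3⟩

theorem tent_cont (B : List (ℕ × ℚ × ℚ)) : Continuous (tent E B) := by
  induction B with
  | nil => exact continuous_const
  | cons t B ih =>
    have h1 : Continuous fun c : X → ℝ => c (E t.1) := continuous_apply _
    exact (continuous_const.max ((h1.sub continuous_const).min (continuous_const.sub h1))).min ih

open Classical in
/-- the terms of the supremum `uu` -/
private noncomputable def ut (E : ℕ → X) (P : List (ℕ × ℚ × ℚ) → ℕ → Prop) (m : ℕ)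
    (B : List (ℕ × ℚ × ℚ)) (c : X → ℝ) : ℝ :=
  if ∃ m' ≤ m, P B m' then (1 / ((Encodable.encode B : ℝ) + 1)) * tent E B c else 0

private theorem uu_eq (m : ℕ) (c : X → ℝ) : uu E P m c = ⨆ B, ut E P m B c := rfl

private theorem ut_nonneg (m : ℕ) (B : List (ℕ × ℚ × ℚ)) (c : X → ℝ) : 0 ≤ ut E P m B c := by
  unfold ut
  split_ifs
  · exact mul_nonneg (by positivity) (tent_nonneg B c)
  · exact le_refl _

private theorem ut_le (m : ℕ) (B : List (ℕ × ℚ × ℚ)) (c : X → ℝ) :
    ut E P m B c ≤ 1 / ((Encodable.encode B : ℝ) + 1) := by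
  unfold ut
  split_ifs
  · exact mul_le_of_le_one_right (by positivity) (tent_le_one B c)
  · positivity

private theorem ut_le_one (m : ℕ) (B : List (ℕ × ℚ × ℚ)) (c : X → ℝ) : ut E P m B c ≤ 1 := by
  refine (ut_le m B c).trans ?_
  rw [div_le_one (by positivity)]
  linarith [Nat.cast_nonneg (α := ℝ) (Encodable.encode B)]

private theorem ut_bdd (m : ℕ) (c : X → ℝ) : BddAbove (Set.range fun B => ut E P m B c) := by
  refine ⟨1, ?_⟩
  rintro _ ⟨B, rfl⟩
  exact ut_le_one m B c

private theorem ut_cont (m : ℕ) (B : List (ℕ × ℚ × ℚ)) : Continuous (ut E P m B) := by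
  unfold ut
  split_ifs
  · exact continuous_const.mul (tent_cont B)
  · exact continuous_const

private theorem sup_cont {ι Y : Type*} [TopologicalSpace Y] [Nonempty ι] (f : ι → Y → ℝ) (c : Y)
    (hb : ∀ᶠ c' in nhds c, BddAbove (Set.range fun i => f i c'))
    (h : ∀ ε > 0, ∀ᶠ c' in nhds c, ∀ i, |f i c' - f i c| ≤ ε) :
    ContinuousAt (fun c' => ⨆ i, f i c') c := by
  have hbc := hb.self_of_nhds
  refine Metric.tendsto_nhds.2 fun ε hε => ?_
  filter_upwards [hb, h (ε / 2) (half_pos hε)] with c' hb' h'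
  rw [Real.dist_eq, abs_lt]
  constructor
  · have h1 : ⨆ i, f i c ≤ (⨆ i, f i c') + ε / 2 := by
      refine ciSup_le fun i => ?_
      have h2 := (abs_le.1 (h' i)).1
      have h3 := le_ciSup hb' i
      linarith
    linarith
  · have h1 : ⨆ i, f i c' ≤ (⨆ i, f i c) + ε / 2 := by
      refine ciSup_le fun i => ?_
      have h2 := (abs_le.1 (h' i)).2
      have h3 := le_ciSup hbc i
      linarith
    linarith

theorem uu_nonneg (m : ℕ) (c : X → ℝ) : 0 ≤ uu E P m c := by
  rw [uu_eq]
  exact Real.iSup_nonneg fun B => ut_nonneg m B c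

theorem uu_pos {m m' : ℕ} (hm : m' ≤ m) {B : List (ℕ × ℚ × ℚ)} (hB : P B m') (c : X → ℝ) :
    (1 / ((Encodable.encode B : ℝ) + 1)) * tent E B c ≤ uu E P m c := by
  rw [uu_eq]
  have h1 := le_ciSup (ut_bdd (E := E) (P := P) m c) B
  have h2 : ut E P m B c = (1 / ((Encodable.encode B : ℝ) + 1)) * tent E B c := by
    unfold ut
    rw [if_pos ⟨m', hm, hB⟩]
  rw [← h2]
  exact h1

theorem uu_zero {m : ℕ} {c : X → ℝ} (h : ∀ B, ∀ m' ≤ m, P B m' → c ∉ bas E B) :
    uu E P m c = 0 := by
  rw [uu_eq]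
  have h1 : ∀ B, ut E P m B c = 0 := by
    intro B
    unfold ut
    split_ifs with h2
    · obtain ⟨m', hm, hB⟩ := h2
      have h3 : ¬ 0 < tent E B c := fun h4 => h B m' hm hB (tent_pos_iff.1 h4)
      have h4 : tent E B c = 0 := le_antisymm (not_lt.1 h3) (tent_nonneg B c)
      rw [h4, mul_zero]
    · rfl
  simp only [h1]
  exact ciSup_const

theorem uu_cont (m : ℕ) : Continuous (uu E P m) := by
  rw [continuous_iff_continuousAt]
  intro c
  refine sup_cont (ut E P m) c (Filter.Eventually.of_forall fun c' => ut_bdd m c') ?_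
  intro ε hε
  obtain ⟨N, hN⟩ := exists_nat_gt (1 / ε)
  have hN0 : (0 : ℝ) < N := lt_trans (by positivity) hN
  have hfin : {B : List (ℕ × ℚ × ℚ) | Encodable.encode B < N}.Finite :=
    (Set.finite_lt_nat N).preimage Encodable.encode_injective.injOn
  have h1 : ∀ᶠ c' in nhds c, ∀ B ∈ {B : List (ℕ × ℚ × ℚ) | Encodable.encode B < N},
      |ut E P m B c' - ut E P m B c| ≤ ε := by
    rw [Filter.eventually_all_finite hfin]
    intro B _
    have h2 := Metric.tendsto_nhds.1 ((ut_cont (E := E) (P := P) m B).tendsto c) ε hε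
    filter_upwards [h2] with c' h3
    rw [Real.dist_eq] at h3
    exact h3.le
  filter_upwards [h1] with c' h2 B
  by_cases hB : Encodable.encode B < N
  · exact h2 B hB
  · have h3 := ut_nonneg (E := E) (P := P) m B c
    have h4 := ut_nonneg (E := E) (P := P) m B c'
    have h5 := ut_le (E := E) (P := P) m B c
    have h6 := ut_le (E := E) (P := P) m B c'
    have h7 : 1 / ((Encodable.encode B : ℝ) + 1) ≤ ε := by
      have h8 : (N : ℝ) ≤ (Encodable.encode B : ℝ) := by
        exact_mod_cast not_lt.1 hB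
      rw [div_le_iff₀ (by positivity)]
      rw [div_lt_iff₀ hε] at hN
      nlinarith
    rw [abs_le]
    constructor <;> linarith

private theorem pt_nonneg (m : ℕ) (c : X → ℝ) :
    0 ≤ ((m : ℝ) + 1) * max 0 (1 - (m : ℝ) * uu E P m c) :=
  mul_nonneg (by positivity) (le_max_left _ _)

private theorem pt_le (m : ℕ) (c : X → ℝ) :
    ((m : ℝ) + 1) * max 0 (1 - (m : ℝ) * uu E P m c) ≤ (m : ℝ) + 1 := by
  refine mul_le_of_le_one_right (by positivity) (max_le zero_le_one ?_)
  have h1 := mul_nonneg (Nat.cast_nonneg (α := ℝ) m) (uu_nonneg (E := E) (P := P) m c)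
  linarith

private theorem pt_zero {m M : ℕ} {c : X → ℝ} {B : List (ℕ × ℚ × ℚ)} {δ : ℝ} (hδ : 0 < δ)
    (hc : δ ≤ (1 / ((Encodable.encode B : ℝ) + 1)) * tent E B c) {m0 : ℕ} (hB : P B m0)
    (hM : m0 ≤ M) (hM' : 1 / δ ≤ M) (hm : M ≤ m) :
    ((m : ℝ) + 1) * max 0 (1 - (m : ℝ) * uu E P m c) = 0 := by
  have h1 : δ ≤ uu E P m c := hc.trans (uu_pos (hM.trans hm) hB c)
  have h2 : (M : ℝ) ≤ m := by exact_mod_cast hm
  have h3 : 1 ≤ (m : ℝ) * δ := by
    rw [div_le_iff₀ hδ] at hM'
    nlinarith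
  have h4 : 1 ≤ (m : ℝ) * uu E P m c :=
    h3.trans (mul_le_mul_of_nonneg_left h1 (Nat.cast_nonneg m))
  rw [max_eq_left (by linarith), mul_zero]

private theorem pt_bdd {c : X → ℝ} (hc : ∃ B m, P B m ∧ c ∈ bas E B) :
    BddAbove (Set.range fun m : ℕ => ((m : ℝ) + 1) * max 0 (1 - (m : ℝ) * uu E P m c)) := by
  obtain ⟨B, m0, hB, hcB⟩ := hc
  have hδ : 0 < (1 / ((Encodable.encode B : ℝ) + 1)) * tent E B c :=
    mul_pos (by positivity) (tent_pos_iff.2 hcB)
  obtain ⟨M', hM'⟩ := exists_nat_ge (1 / ((1 / ((Encodable.encode B : ℝ) + 1)) * tent E B c))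
  have h0 : (M' : ℝ) ≤ ((max m0 M' : ℕ) : ℝ) := by exact_mod_cast le_max_right m0 M'
  refine ⟨((max m0 M' : ℕ) : ℝ) + 1, ?_⟩
  rintro _ ⟨m, rfl⟩
  by_cases hm : max m0 M' ≤ m
  · have h1 := pt_zero (E := E) (P := P) hδ (le_refl _) hB (le_max_left m0 M') (hM'.trans h0) hm
    dsimp only
    rw [h1]
    positivity
  · have h1 := pt_le (E := E) (P := P) m c
    have h2 : (m : ℝ) ≤ ((max m0 M' : ℕ) : ℝ) := by exact_mod_cast (not_le.1 hm).le
    dsimp only
    linarith

theorem phi_nonneg (c : X → ℝ) : 0 ≤ phi E P c := by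
  unfold phi
  exact Real.iSup_nonneg fun m => pt_nonneg m c

theorem phi_cont {S : Set (X → ℝ)} (hS : ∀ c ∈ S, ∃ B m, P B m ∧ c ∈ bas E B) :
    ContinuousOn (phi E P) S := by
  intro c hcS
  obtain ⟨B, m0, hB, hcB⟩ := hS c hcS
  have hδ : 0 < (1 / ((Encodable.encode B : ℝ) + 1)) * tent E B c :=
    mul_pos (by positivity) (tent_pos_iff.2 hcB)
  set δ := (1 / ((Encodable.encode B : ℝ) + 1)) * tent E B c / 2 with hδd
  have hδ0 : 0 < δ := half_pos hδ
  obtain ⟨M', hM'⟩ := exists_nat_ge (1 / δ)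
  have h0 : (M' : ℝ) ≤ ((max m0 M' : ℕ) : ℝ) := by exact_mod_cast le_max_right m0 M'
  have hV : ∀ᶠ c' in nhds c, δ < (1 / ((Encodable.encode B : ℝ) + 1)) * tent E B c' := by
    have h1 : Continuous fun c' => (1 / ((Encodable.encode B : ℝ) + 1)) * tent E B c' :=
      continuous_const.mul (tent_cont B)
    exact h1.continuousAt.eventually (lt_mem_nhds (half_lt_self hδ))
  apply ContinuousAt.continuousWithinAt
  refine sup_cont (fun (m : ℕ) c' => ((m : ℝ) + 1) * max 0 (1 - (m : ℝ) * uu E P m c')) c ?_ ?_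
  · filter_upwards [hV] with c' h1
    apply pt_bdd
    refine ⟨B, m0, hB, tent_pos_iff.1 ?_⟩
    have h2 : 0 < (1 / ((Encodable.encode B : ℝ) + 1)) * tent E B c' := hδ0.trans h1
    exact pos_of_mul_pos_right h2 (by positivity)
  · intro ε hε
    have h1 : ∀ᶠ c' in nhds c, ∀ m ∈ {m : ℕ | m < max m0 M'},
        |((m : ℝ) + 1) * max 0 (1 - (m : ℝ) * uu E P m c') -
          ((m : ℝ) + 1) * max 0 (1 - (m : ℝ) * uu E P m c)| ≤ ε := by
      rw [Filter.eventually_all_finite (Set.finite_lt_nat _)]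
      intro m _
      have h2 : Continuous fun c' => ((m : ℝ) + 1) * max 0 (1 - (m : ℝ) * uu E P m c') :=
        continuous_const.mul (continuous_const.max
          (continuous_const.sub (continuous_const.mul (uu_cont m))))
      have h3 := Metric.tendsto_nhds.1 (h2.tendsto c) ε hε
      filter_upwards [h3] with c' h4
      rw [Real.dist_eq] at h4
      exact h4.le
    filter_upwards [h1, hV] with c' h2 h3 m
    by_cases hm : m < max m0 M'
    · exact h2 m hm
    · have h4 := pt_zero (E := E) (P := P) hδ0 h3.le hB (le_max_left m0 M') (hM'.trans h0)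
        (not_lt.1 hm)
      have h5 := pt_zero (E := E) (P := P) hδ0 (half_lt_self hδ).le hB (le_max_left m0 M')
        (hM'.trans h0) (not_lt.1 hm)
      rw [h4, h5, sub_zero, abs_zero]
      exact hε.le

theorem phi_ge {c : X → ℝ} (hc : ∃ B m, P B m ∧ c ∈ bas E B) {m : ℕ}
    (h : ∀ B, ∀ m' ≤ m, P B m' → c ∉ bas E B) : (m : ℝ) + 1 ≤ phi E P c := by
  have h1 := le_ciSup (pt_bdd hc) m
  rw [uu_zero h, mul_zero, sub_zero, max_eq_right zero_le_one, mul_one] at h1
  exact h1

/-- `phi` as a condition without real suprema (for the internal part) -/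
theorem lt_phi_iff {c : X → ℝ} (hc : ∃ B m, P B m ∧ c ∈ bas E B) {r : ℝ} :
    r < phi E P c ↔ ∃ m : ℕ, r < ((m : ℝ) + 1) * max 0 (1 - (m : ℝ) * uu E P m c) := by
  unfold phi
  exact lt_ciSup_iff (pt_bdd hc)

/-- `uu` as a condition without real suprema (for the internal part) -/
theorem lt_uu_iff {m : ℕ} {c : X → ℝ} {r : ℝ} :
    r < uu E P m c ↔ r < 0 ∨ ∃ B, (∃ m' ≤ m, P B m') ∧
      r < (1 / ((Encodable.encode B : ℝ) + 1)) * tent E B c := by
  rw [uu_eq, lt_ciSup_iff (ut_bdd m c)]
  constructor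
  · rintro ⟨B, hB⟩
    unfold ut at hB
    split_ifs at hB with h1
    · exact Or.inr ⟨B, h1, hB⟩
    · exact Or.inl hB
  · rintro (hr | ⟨B, h1, hB⟩)
    · exact ⟨[], hr.trans_le (ut_nonneg m [] c)⟩
    · refine ⟨B, ?_⟩
      unfold ut
      rw [if_pos h1]
      exact hB

end CPY
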