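import Pool.Agent.CPY.FTop
import Pool.Agent.WCal.FinB

/-! # Functions, countable sets and finite sets: relational and typed notions

(problem MP_ba5606_gt, project CPY, block F; no sorry in this file) -/

set_option autoImplicit false

universe u v w

namespace CPY

open STP CPI WCal WM

variable {N : Type u} [WM N] {α : Type v} {β : Type w} [WTy N α] [WTy N β]

theorem val_iff {f x y : N} : Val E f x y ↔ E (op x y) f := by
  constructor
  · rintro ⟨p, hp, h⟩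
    rwa [isOP_iff.1 h] at hp
  · exact fun h => ⟨op x y, h, isOP_op x y⟩

/-- the value of a relation at codes is an internal predicate -/
theorem IP_val (f : N) : IP N (fun p : α × β => Val E f (cd N p.1) (cd N p.2)) :=
  ⟨f, fun _ => val_iff⟩

theorem val_cd (f : Fn N α β) (a : α) (y : N) : Val E (cd N f) (cd N a) y ↔ y = cd N (f a) := by
  rw [val_iff, cd_fn]
  constructor
  · rintro ⟨b, hb⟩
    obtain ⟨h1, rfl⟩ := op_inj.1 hb
    rw [cd_inj.1 h1]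
  · rintro rfl
    exact ⟨a, rfl⟩

theorem val_cd' {f : Fn N α β} {x y : N} (h : Val E (cd N f) x y) :
    ∃ a, x = cd N a ∧ y = cd N (f a) := by
  rw [val_iff, cd_fn] at h
  obtain ⟨a, ha⟩ := h
  exact ⟨a, op_inj.1 ha⟩

theorem isFun_cd (f : Fn N α β) : IsFun E (cd N f) (rg N α) := by
  refine ⟨?_, ?_, ?_⟩
  · intro p hp
    obtain ⟨a, rfl⟩ := (cd_fn N f p).1 hp
    exact ⟨_, _, cd_mem a, isOP_op _ _⟩
  · intro x hx
    obtain ⟨a, rfl⟩ := E_rg.1 hx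
    exact ⟨_, (val_cd f a _).2 rfl⟩
  · intro x y z hy hz
    obtain ⟨a, rfl, rfl⟩ := val_cd' hy
    exact ((val_cd f a z).1 hz).symm

/-- a function of the model between codes is the code of an internal function -/
theorem exists_fn {f : N} (h : IsFun E f (rg N α)) (h' : ∀ x y, Val E f x y → E y (rg N β)) :
    ∃ g : Fn N α β, f = cd N g := by
  have h1 : ∀ a : α, ∃ b : β, Val E f (cd N a) (cd N b) := by
    intro a
    obtain ⟨y, hy⟩ := h.2.1 _ (cd_mem a)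
    obtain ⟨b, rfl⟩ := E_rg.1 (h' _ _ hy)
    exact ⟨b, hy⟩
  obtain ⟨g, hg, hg'⟩ := choice (IP_val f) h1
  refine ⟨⟨g, hg⟩, ?_⟩
  rw [ext_iff']
  intro z
  rw [cd_fn]
  constructor
  · intro hz
    obtain ⟨x, y, hx, hxy⟩ := h.1 z hz
    obtain ⟨a, rfl⟩ := E_rg.1 hx
    refine ⟨a, ?_⟩
    rw [isOP_iff.1 hxy, h.2.2 _ _ _ ⟨z, hz, hxy⟩ (hg' a)]
  · rintro ⟨a, rfl⟩
    exact val_iff.1 (hg' a)

theorem isCnt_cd {S : St N α} : IsCnt E (cd N S) ↔ Cnt S := by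
  constructor
  · rintro ⟨w, f, hw, hf, h⟩
    by_cases he : ∀ a, a ∉ S
    · exact Or.inl he
    push Not at he
    obtain ⟨a0, ha0⟩ := he
    obtain ⟨g, hg, hg'⟩ := choice' (P := fun (n : ℕ) (a : α) => Val E f (cd N n) (cd N a))
      (IP_val f) a0
    refine Or.inr ⟨⟨g, hg⟩, fun a ha => ?_⟩
    obtain ⟨n, hn, hn'⟩ := h _ (cd_mem_cd.2 ha)
    rw [isOm_iff.1 hw] at hn
    obtain ⟨n, rfl⟩ := E_om.1 hn
    exact ⟨n, cd_inj.1 (hf.2.2 _ _ _ (hg' n ⟨a, hn'⟩) hn')⟩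
  · rintro (h | ⟨e, he⟩)
    · refine ⟨om N, cd N (⟨fun n => n, IF.id⟩ : Fn N ℕ ℕ), isOm_iff.2 rfl, isFun_cd _, ?_⟩
      intro y hy
      obtain ⟨a, ha, -⟩ := (cd_st N S y).1 hy
      exact absurd ha (h a)
    · refine ⟨om N, cd N e, isOm_iff.2 rfl, isFun_cd e, ?_⟩
      intro y hy
      obtain ⟨a, ha, rfl⟩ := (cd_st N S y).1 hy
      obtain ⟨n, rfl⟩ := he a ha
      exact ⟨nt N n, E_om.2 ⟨n, rfl⟩, (val_cd e n _).2 rfl⟩

theorem isFin_cd {S : St N α} : IsFin E (cd N S) ↔ S.s.Finite := by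
  constructor
  · rintro ⟨w, hw, a, ha, f, hf, h⟩
    rw [isOm_iff.1 hw] at ha
    obtain ⟨n, rfl⟩ := E_om.1 ha
    have h1 : ∀ b : S.s, ∃ m : Fin n, Val E f (nt N m) (cd N b.1) := by
      intro b
      obtain ⟨z, hz, hz'⟩ := h _ (cd_mem_cd.2 b.2)
      obtain ⟨m, hm, rfl⟩ := E_nt.1 hz
      exact ⟨⟨m, hm⟩, hz'⟩
    choose g hg using h1
    have h2 : Function.Injective g := by
      intro b c hbc
      have h3 := hg c
      rw [← hbc] at h3
      exact Subtype.ext (cd_inj.1 (hf.2.2 _ _ _ (hg b) h3))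
    exact Set.finite_coe_iff.1 (Finite.of_injective g h2)
  · intro h
    obtain ⟨l, hl⟩ : ∃ l : List α, ∀ a, a ∈ S.s ↔ a ∈ l := by
      refine ⟨h.toFinset.toList, fun a => ?_⟩
      simp
    refine ⟨om N, isOm_iff.2 rfl, nt N l.length, E_om.2 ⟨_, rfl⟩, cd N l, ⟨?_, ?_, ?_⟩, ?_⟩
    · intro p hp
      obtain ⟨i, a, hia, rfl⟩ := (cd_list l p).1 hp
      refine ⟨_, _, E_nt.2 ⟨i, ?_, rfl⟩, isOP_op _ _⟩
      exact (List.getElem?_eq_some_iff.1 hia).1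
    · intro x hx
      obtain ⟨i, hi, rfl⟩ := E_nt.1 hx
      exact ⟨cd N l[i], val_iff.2 ((cd_list l _).2 ⟨i, l[i], List.getElem?_eq_getElem hi, rfl⟩)⟩
    · intro x y z hy hz
      rw [val_iff, cd_list] at hy hz
      obtain ⟨i, a, hia, h1⟩ := hy
      obtain ⟨j, b, hjb, h2⟩ := hz
      obtain ⟨rfl, rfl⟩ := op_inj.1 h1
      obtain ⟨h3, rfl⟩ := op_inj.1 h2
      rw [nt_inj h3] at hia
      rw [hia] at hjb
      rw [Option.some.inj hjb]
    · intro y hy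
      obtain ⟨a, ha, rfl⟩ := (cd_st N S y).1 hy
      obtain ⟨i, hi, hia⟩ := List.getElem_of_mem ((hl a).1 ha)
      refine ⟨nt N i, E_nt.2 ⟨i, hi, rfl⟩, val_iff.2 ((cd_list l _).2 ⟨i, a, ?_, rfl⟩)⟩
      rw [List.getElem?_eq_getElem hi, hia]

end CPY
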