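import Pool.Agent.CPY.FReal
import Pool.Agent.CPY.ITop

/-! # Continuous functions and the space `C_p(X)`: relational and typed notions

(problem MP_ba5606_gt, project CPY, block F; no sorry in this file) -/

set_option autoImplicit false

universe u v

namespace CPY

open STP CPI WCal WM

section

variable {N : Type u} [WM N] {X : Type v} [WTy N X] [TopologicalSpace X] {Xs τ : N}

theorem Rep.wsp (h : Rep X Xs τ) : WSp N X := ⟨h.base, h.fam⟩

theorem Rep.wlin (h : Rep X Xs τ) : IsLin E Xs τ ↔ WLin N X := by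
  rw [h.isLin_iff]
  constructor
  · intro h1 S hS hc
    obtain ⟨T, h2, h3, h4⟩ := h1 S hS hc
    exact ⟨T, h3, h2, h4⟩
  · intro h1 S hS hc
    obtain ⟨T, h2, h3, h4⟩ := h1 S hS hc
    exact ⟨T, h3, h2, h4⟩

theorem Rep.wcpt (h : Rep X Xs τ) (hc : IsCpt E Xs τ) : WCpt N X := by
  intro S hS hcov
  obtain ⟨T, h2, h3, h4⟩ := h.isCpt_iff.1 hc S hS hcov
  have h5 : ∀ U, U ∈ h3.toFinset.toList ↔ U ∈ T.s := fun U => by simp
  refine ⟨h3.toFinset.toList, fun U hU => h2 U ((h5 U).1 hU), fun x => ?_⟩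
  obtain ⟨U, hU, hx⟩ := h4 x
  exact ⟨U, (h5 U).2 hU, hx⟩

/-- the set of the codes of the internal open sets is a topology of the model -/
theorem isTop_of_wsp [WSp N X] {T : N}
    (hT : ∀ z, E z T ↔ ∃ p : St N X, IsOpen p.s ∧ cd N p = z) : IsTop E (rg N X) T := by
  refine ⟨?_, ?_, ?_, ?_⟩
  · intro U hU
    obtain ⟨p, -, rfl⟩ := (hT U).1 hU
    exact cd_sub_rg p
  · refine (hT _).2 ⟨⟨Set.univ, IP.const True⟩, isOpen_univ, ?_⟩
    rw [ext_iff']
    intro z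
    rw [cd_st, E_rg]
    constructor
    · rintro ⟨a, -, ha⟩
      exact ⟨a, ha⟩
    · rintro ⟨a, ha⟩
      exact ⟨a, trivial, ha⟩
  · intro S u hS hu
    obtain ⟨F, rfl⟩ : ∃ F : St N (St N X), S = cd N F := by
      refine exists_st2 fun z hz => ?_
      obtain ⟨p, -, rfl⟩ := (hT z).1 (hS z hz)
      exact cd_mem p
    have hF : ∀ p ∈ F, IsOpen p.s := by
      intro p hp
      obtain ⟨q, hq, h⟩ := (hT _).1 (hS _ (cd_mem_cd.2 hp))
      rwa [← cd_inj.1 h]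
    obtain ⟨p, rfl, hp⟩ : ∃ p : St N X, u = cd N p ∧ ∀ x, x ∈ p ↔ E (cd N x) u := by
      refine exists_st fun z hz => ?_
      obtain ⟨y, hy, hzy⟩ := (hu z).1 hz
      obtain ⟨q, -, rfl⟩ := (cd_st N F y).1 hy
      exact cd_sub_rg q z hzy
    refine (hT _).2 ⟨p, ?_, rfl⟩
    have h1 : p.s = ⋃ q ∈ F.s, q.s := by
      ext x
      have h2 : x ∈ p ↔ ∃ y, E y (cd N F) ∧ E (cd N x) y := (hp x).trans (hu _)
      refine h2.trans ?_
      rw [Set.mem_iUnion₂]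
      constructor
      · rintro ⟨y, hy, hxy⟩
        obtain ⟨q, hq, rfl⟩ := (cd_st N F y).1 hy
        exact ⟨q, hq, cd_mem_cd.1 hxy⟩
      · rintro ⟨q, hq, hx⟩
        exact ⟨cd N q, cd_mem_cd.2 hq, cd_mem_cd.2 hx⟩
    rw [h1]
    exact isOpen_biUnion hF
  · intro U V W hU hV hW
    obtain ⟨p, hp, rfl⟩ := (hT U).1 hU
    obtain ⟨q, hq, rfl⟩ := (hT V).1 hV
    obtain ⟨r, rfl, hr⟩ : ∃ r : St N X, W = cd N r ∧ ∀ x, x ∈ r ↔ E (cd N x) W :=
      exists_st fun z hz => cd_sub_rg p z ((hW z).1 hz).1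
    refine (hT _).2 ⟨r, ?_, rfl⟩
    have h1 : r.s = p.s ∩ q.s := by
      ext x
      have h2 : x ∈ r ↔ E (cd N x) (cd N p) ∧ E (cd N x) (cd N q) := (hr x).trans (hW _)
      rw [cd_mem_cd, cd_mem_cd] at h2
      exact h2
    rw [h1]
    exact hp.inter hq

end

variable {N : Type u} [WM N] [Std N] {X : Type v} [WTy N X] [TopologicalSpace X] [WSp N X]
  {Xs τ C σ : N}

/-- the continuous functions of the model -/
theorem Rep.isCts_iff (h : Rep X Xs τ) (g : N) :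
    IsCts E (Rs N) (Ls N) Xs τ g ↔ ∃ c : CC N X, g = cd N c := by
  constructor
  · rintro ⟨hf, hv, hr⟩
    rw [h.pts] at hf
    obtain ⟨G, rfl⟩ := exists_fn hf hv
    have hG : ∀ (x : X) y, Val E (cd N G) (cd N x) y ↔ y = cd N (G x) := val_cd G
    refine ⟨⟨fun x => (G x).v, IR.iff_IF.1 G.int, cont_iff.2 fun q => ⟨?_, ?_⟩⟩, rfl⟩
    · obtain ⟨U, hU, hU'⟩ := (hr (cd N (rq N q)) (cd_mem _)).2
      obtain ⟨p, hp, rfl⟩ := (h.op U).1 hU
      have h1 : p.s = {x | (q : ℝ) < (G x).v} := by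
        ext x
        have h2 : x ∈ p ↔ _ := cd_mem_cd.symm.trans (hU' (cd N x))
        refine h2.trans ⟨?_, fun h3 => ⟨_, (hG x _).2 rfl, val_Ls.2 h3⟩⟩
        rintro ⟨y, hy, hy'⟩
        rw [(hG x y).1 hy, val_Ls] at hy'
        exact hy'
      rwa [← h1]
    · obtain ⟨U, hU, hU'⟩ := (hr (cd N (rq N q)) (cd_mem _)).1
      obtain ⟨p, hp, rfl⟩ := (h.op U).1 hU
      have h1 : p.s = {x | (G x).v < (q : ℝ)} := by
        ext x
        have h2 : x ∈ p ↔ _ := cd_mem_cd.symm.trans (hU' (cd N x))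
        refine h2.trans ⟨?_, fun h3 => ⟨_, (hG x _).2 rfl, val_Ls.2 h3⟩⟩
        rintro ⟨y, hy, hy'⟩
        rw [(hG x y).1 hy, val_Ls] at hy'
        exact hy'
      rwa [← h1]
  · rintro ⟨c, rfl⟩
    have hG : ∀ (x : X) y, Val E (cd N c) (cd N x) y ↔ y = cd N (c.toFn x) := val_cd c.toFn
    refine ⟨?_, ?_, ?_⟩
    · rw [h.pts]
      exact isFun_cd c.toFn
    · intro x y hxy
      obtain ⟨a, -, rfl⟩ := val_cd' (f := c.toFn) hxy
      exact cd_mem _
    · intro r hr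
      obtain ⟨a, rfl⟩ := E_rg.1 hr
      constructor
      · let p : St N X := ⟨{x | c x < a.v}, IP.ltR c.int (IR.const a.h)⟩
        refine ⟨cd N p, (h.open_iff p).1 (isOpen_lt c.cont continuous_const), fun z => ?_⟩
        constructor
        · intro hz
          obtain ⟨x, hx, rfl⟩ := (cd_st N p z).1 hz
          exact ⟨_, (hG x _).2 rfl, val_Ls.2 hx⟩
        · rintro ⟨y, hy, hy'⟩
          obtain ⟨x, rfl, rfl⟩ := val_cd' (f := c.toFn) hy
          have h1 : x ∈ p := val_Ls.1 hy'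
          exact cd_mem_cd.2 h1
      · let p : St N X := ⟨{x | a.v < c x}, IP.ltR (IR.const a.h) c.int⟩
        refine ⟨cd N p, (h.open_iff p).1 (isOpen_lt continuous_const c.cont), fun z => ?_⟩
        constructor
        · intro hz
          obtain ⟨x, hx, rfl⟩ := (cd_st N p z).1 hz
          exact ⟨_, (hG x _).2 rfl, val_Ls.2 hx⟩
        · rintro ⟨y, hy, hy'⟩
          obtain ⟨x, rfl, rfl⟩ := val_cd' (f := c.toFn) hy
          have h1 : x ∈ p := val_Ls.1 hy'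
          exact cd_mem_cd.2 h1

/-- `{c | c x < r}` -/
def lo (x : X) (r : RW N) : St N (CC N X) :=
  ⟨{c | c x < r.v}, IP.ltR (IR.evC IF.id (IF.const x)) (IR.const r.h)⟩

/-- `{c | r < c x}` -/
def hi (x : X) (r : RW N) : St N (CC N X) :=
  ⟨{c | r.v < c x}, IP.ltR (IR.const r.h) (IR.evC IF.id (IF.const x))⟩

theorem mem_cd_lo {x : X} {r : RW N} {g : N} : E g (cd N (lo x r)) ↔
    E g (rg N (CC N X)) ∧ ∃ y, Val E g (cd N x) y ∧ Val E (Ls N) y (cd N r) := by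
  constructor
  · intro hg
    obtain ⟨c, hc, rfl⟩ := (cd_st N _ g).1 hg
    exact ⟨cd_mem c, cd N (c.toFn x), (val_cd c.toFn x _).2 rfl, val_Ls.2 hc⟩
  · rintro ⟨hg, y, hy, hy'⟩
    obtain ⟨c, rfl⟩ := E_rg.1 hg
    rw [(val_cd c.toFn x y).1 hy, val_Ls] at hy'
    have h1 : c ∈ lo x r := hy'
    exact cd_mem_cd.2 h1

theorem mem_cd_hi {x : X} {r : RW N} {g : N} : E g (cd N (hi x r)) ↔
    E g (rg N (CC N X)) ∧ ∃ y, Val E g (cd N x) y ∧ Val E (Ls N) (cd N r) y := by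
  constructor
  · intro hg
    obtain ⟨c, hc, rfl⟩ := (cd_st N _ g).1 hg
    exact ⟨cd_mem c, cd N (c.toFn x), (val_cd c.toFn x _).2 rfl, val_Ls.2 hc⟩
  · rintro ⟨hg, y, hy, hy'⟩
    obtain ⟨c, rfl⟩ := E_rg.1 hg
    rw [(val_cd c.toFn x y).1 hy, val_Ls] at hy'
    have h1 : c ∈ hi x r := hy'
    exact cd_mem_cd.2 h1

theorem isPw_iff {T : N} : IsPw E (Rs N) (Ls N) (rg N X) (rg N (CC N X)) T ↔
    ∀ (x : X) (r : RW N), E (cd N (lo x r)) T ∧ E (cd N (hi x r)) T := by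
  constructor
  · intro h x r
    exact ⟨(h (cd N x) (cd N r) (cd N (lo x r)) (cd_mem x) (cd_mem r)).1 fun g => mem_cd_lo,
      (h (cd N x) (cd N r) (cd N (hi x r)) (cd_mem x) (cd_mem r)).2 fun g => mem_cd_hi⟩
  · intro h x r U hx hr
    obtain ⟨x, rfl⟩ := E_rg.1 hx
    obtain ⟨r, rfl⟩ := E_rg.1 hr
    constructor
    · intro h1
      have h2 : U = cd N (lo x r) := ext_iff'.2 fun g => (h1 g).trans mem_cd_lo.symm
      rw [h2]
      exact (h x r).1
    · intro h1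
      have h2 : U = cd N (hi x r) := ext_iff'.2 fun g => (h1 g).trans mem_cd_hi.symm
      rw [h2]
      exact (h x r).2

/-- the boxes belong to every topology which contains the subbasic sets -/
theorem box_mem {T : N} (hT : IsTop E (rg N (CC N X)) T)
    (hp : ∀ (x : X) (r : RW N), E (cd N (lo x r)) T ∧ E (cd N (hi x r)) T)
    (v : List (X × ℚ × ℚ)) : E (cd N (BB v : St N (CC N X))) T := by
  induction v with
  | nil =>
    have h1 : cd N (BB ([] : List (X × ℚ × ℚ)) : St N (CC N X)) = rg N (CC N X) := by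
      rw [ext_iff']
      intro z
      rw [cd_st, E_rg]
      constructor
      · rintro ⟨c, -, hc⟩
        exact ⟨c, hc⟩
      · rintro ⟨c, hc⟩
        exact ⟨c, fun t ht => absurd ht List.not_mem_nil, hc⟩
    rw [h1]
    exact hT.2.1
  | cons t v ih =>
    have h1 := (hp t.1 (rq N t.2.2)).1
    have h2 := (hp t.1 (rq N t.2.1)).2
    have h3 : ∃ W : St N (CC N X), (∀ c, c ∈ W ↔ c ∈ lo t.1 (rq N t.2.2) ∧ c ∈ hi t.1 (rq N t.2.1))
        ∧ E (cd N W) T := by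
      let W : St N (CC N X) := ⟨{c | c ∈ lo t.1 (rq N t.2.2) ∧ c ∈ hi t.1 (rq N t.2.1)},
        IP.and (IP.mem IF.id (IF.const _)) (IP.mem IF.id (IF.const _))⟩
      refine ⟨W, fun c => Iff.rfl, hT.2.2.2 _ _ _ h1 h2 fun z => ?_⟩
      constructor
      · intro hz
        obtain ⟨c, hc, rfl⟩ := (cd_st N W z).1 hz
        exact ⟨cd_mem_cd.2 hc.1, cd_mem_cd.2 hc.2⟩
      · rintro ⟨hz, hz'⟩
        obtain ⟨c, hc, rfl⟩ := (cd_st N _ z).1 hz
        have h4 : c ∈ W := ⟨hc, cd_mem_cd.1 hz'⟩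
        exact cd_mem_cd.2 h4
    obtain ⟨W, hW, hW'⟩ := h3
    refine hT.2.2.2 _ _ _ hW' ih fun z => ?_
    have h5 : ∀ c : CC N X, c ∈ (BB (t :: v) : St N (CC N X)) ↔
        c ∈ W ∧ c ∈ (BB v : St N (CC N X)) := by
      intro c
      rw [hW, mem_BB, mem_BB]
      have h6 : c.f ∈ Bv (t :: v) ↔ ((t.2.1 : ℝ) < c.f t.1 ∧ c.f t.1 < (t.2.2 : ℝ)) ∧
          c.f ∈ Bv v := List.forall_mem_cons
      rw [h6]
      exact and_congr_left fun _ => and_comm
    constructor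
    · intro hz
      obtain ⟨c, hc, rfl⟩ := (cd_st N _ z).1 hz
      exact ⟨cd_mem_cd.2 ((h5 c).1 hc).1, cd_mem_cd.2 ((h5 c).1 hc).2⟩
    · rintro ⟨hz, hz'⟩
      obtain ⟨c, hc, rfl⟩ := (cd_st N _ z).1 hz
      exact cd_mem_cd.2 ((h5 c).2 ⟨hc, cd_mem_cd.1 hz'⟩)

/-- the space `C_p(X)` of the model is represented by the type `CC N X` -/
theorem Rep.cp (h : Rep X Xs τ) (hc : IsCp E (Rs N) (Ls N) Xs τ C σ) : Rep (CC N X) C σ := by
  obtain ⟨hC, hT, hp, hmin⟩ := hc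
  have h0 : C = rg N (CC N X) := by
    rw [ext_iff']
    intro g
    rw [hC, h.isCts_iff, E_rg]
    exact ⟨fun ⟨c, hc⟩ => ⟨c, hc.symm⟩, fun ⟨c, hc⟩ => ⟨c, hc.symm⟩⟩
  subst h0
  obtain rfl := h.pts
  refine ⟨rfl, WSp.base, fun U => ?_⟩
  obtain ⟨T, hT'⟩ := exists_sub N (fun p : St N (CC N X) => IsOpen p.s) WSp.fam
  have h1 : Sub E σ T := by
    refine hmin T (isTop_of_wsp hT') (isPw_iff.2 fun x r => ⟨?_, ?_⟩)
    · exact (hT' _).2 ⟨_, isOpen_lt (CC.continuous_eval x) continuous_const, rfl⟩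
    · exact (hT' _).2 ⟨_, isOpen_lt continuous_const (CC.continuous_eval x), rfl⟩
  constructor
  · intro hU
    obtain ⟨p, hp, rfl⟩ := (hT' U).1 (h1 U hU)
    exact ⟨p, hp, rfl⟩
  · rintro ⟨p, ho, rfl⟩
    obtain ⟨S, hS⟩ := exists_below σ (cd N p)
    have h2 : E (un S) σ := hT.2.2.1 S (un S) (fun z hz => ((hS z).1 hz).1) fun z => E_un
    have h3 : un S = cd N p := by
      rw [ext_iff']
      intro z
      rw [E_un]
      constructor
      · rintro ⟨w, hw, hz⟩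
        exact ((hS w).1 hw).2 z hz
      · intro hz
        obtain ⟨c, hc, rfl⟩ := (cd_st N p z).1 hz
        obtain ⟨v, hv, hv'⟩ := exists_Bv ho hc
        refine ⟨cd N (BB v : St N (CC N X)), (hS _).2 ⟨box_mem hT (isPw_iff.1 hp) v, ?_⟩,
          cd_mem_cd.2 hv⟩
        exact sub_cd.2 fun c' hc' => hv' c' hc'
    rwa [← h3]

end CPY
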