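import Pool.Agent.CPY.FCp

/-! # The final theorem from the typed theorem

(problem MP_ba5606_gt, project CPY, block F; no sorry in this file)

`TArh N`: the positive answer in the typed calculus (blocks E1, E2). `posArh_of`: it implies the
statement `PosArh` about the relation `E` of the model. -/

set_option autoImplicit false

universe u v

namespace CPY

open STP CPI WCal WM

/-- the positive answers to both questions, in the typed calculus -/
def TArh (N : Type u) [WM N] [Std N] : Prop :=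
  ∀ (X : Type u) [WTy N X] [TopologicalSpace X] [WSp N X] [T2Space X], WCpt N X →
    WLin N (CC N (CC N X)) → WLin N (CC N X) ∧ ∀ A : St N X, Cnt A → WNet N (clo A)

section

variable {N : Type u} [WM N] [Std N] {X : Type v} [WTy N X] [TopologicalSpace X] [WSp N X]
  {Xs τ C σ : N}

omit [Std N] in
theorem Rep.mono (h : Rep X Xs τ) (hn : ∀ A : St N X, Cnt A → WNet N (clo A)) :
    IsMono E Xs τ := by
  refine h.isMono fun A hA c hc => ?_
  obtain ⟨M, hM, hM'⟩ := hn A hA
  have h1 : ∀ y, y ∈ c ↔ y ∈ clo A := by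
    intro y
    have h2 : y ∈ c.s ↔ y ∈ closure A.s := by rw [hc]
    exact h2
  have h3 : IP N (fun p : ℕ × X => p.2 ∈ M p.1 ∧ p.2 ∈ c) :=
    IP.and (IP.mem IF.snd (IF.comp hM IF.fst)) (IP.mem IF.snd (IF.const c))
  let K : ℕ → St N X := fun n => ⟨{y | y ∈ M n ∧ y ∈ c}, h3.sec n⟩
  have hK : IF N K := IF.compr' h3
  let F : St N (St N X) := ⟨{m | ∃ n, K n = m}, IP.ex (IP.eq (IF.comp hK IF.snd) IF.fst)⟩
  refine ⟨F, Cnt.range hK fun m hm => hm, fun x hx U hU hxU => ?_⟩
  obtain ⟨n, hn, hn'⟩ := hM' x ((h1 x).1 hx) U.s hU hxU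
  exact ⟨K n, ⟨n, rfl⟩, ⟨hn, hx⟩, fun y hy => ⟨hy.2, hn' y hy.1 ((h1 y).1 hy.2)⟩⟩

end

/-- the positive answers to both questions inside `(N, E)` -/
theorem posArh_of {N : Type u} [WM N] [Std N] (h : TArh N) : PosArh (E : N → N → Prop) := by
  refine ⟨Rs N, Ls N, isRL, ?_⟩
  intro X τ C σ D ρ hX ht hc hC hD hl
  let _ := elTop X τ
  have hR : Rep (El X) X τ := Rep.of_top hX
  have i1 : WSp N (El X) := hR.wsp
  have i2 : T2Space (El X) := hR.t2 ht
  have hR2 : Rep (CC N (El X)) C σ := hR.cp hC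
  have hR3 : Rep (CC N (CC N (El X))) D ρ := hR2.cp hD
  obtain ⟨h1, h2⟩ := h (El X) (hR.wcpt hc) (hR3.wlin.1 hl)
  exact ⟨hR2.wlin.2 h1, hR.mono h2⟩

end CPY
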