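import Pool.Agent.CPY.FCnt

/-! # Covering properties, separation and networks: relational and typed notions

(problem MP_ba5606_gt, project CPY, block F; no sorry in this file) -/

set_option autoImplicit false

universe u v

namespace CPY

open STP CPI WCal WM

variable {N : Type u} [WM N] {X : Type v} [WTy N X]

/-- every set of codes of internal sets is the code of an internal family -/
theorem exists_st2 {S : N} (h : Sub E S (rg N (St N X))) : ∃ F : St N (St N X), S = cd N F :=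
  (exists_st h).imp fun _ h => h.1

theorem sub_cd {p q : St N X} : Sub E (cd N p) (cd N q) ↔ ∀ x ∈ p, x ∈ q := by
  constructor
  · intro h x hx
    exact cd_mem_cd.1 (h _ (cd_mem_cd.2 hx))
  · intro h z hz
    obtain ⟨x, hx, rfl⟩ := (cd_st N p z).1 hz
    exact cd_mem_cd.2 (h x hx)

theorem isCov_cd {F : St N (St N X)} :
    IsCov E (rg N X) (cd N F) ↔ ∀ x : X, ∃ U ∈ F, x ∈ U := by
  constructor
  · intro h x
    obtain ⟨u, hu, hx⟩ := h _ (cd_mem x)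
    obtain ⟨U, hU, rfl⟩ := (cd_st N F u).1 hu
    exact ⟨U, hU, cd_mem_cd.1 hx⟩
  · intro h z hz
    obtain ⟨x, rfl⟩ := E_rg.1 hz
    obtain ⟨U, hU, hx⟩ := h x
    exact ⟨_, cd_mem_cd.2 hU, cd_mem_cd.2 hx⟩

theorem cd_sub_rg (p : St N X) : Sub E (cd N p) (rg N X) := by
  intro z hz
  obtain ⟨x, -, rfl⟩ := (cd_st N p z).1 hz
  exact cd_mem x

variable [TopologicalSpace X] {Xs τ : N}

theorem Rep.sub_tau (h : Rep X Xs τ) {F : St N (St N X)} :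
    Sub E (cd N F) τ ↔ ∀ U ∈ F, IsOpen U.s := by
  constructor
  · intro h1 U hU
    exact (h.open_iff U).2 (h1 _ (cd_mem_cd.2 hU))
  · intro h1 z hz
    obtain ⟨U, hU, rfl⟩ := (cd_st N F z).1 hz
    exact (h.open_iff U).1 (h1 U hU)

theorem Rep.tau_sub (h : Rep X Xs τ) {S : N} (hS : Sub E S τ) : Sub E S (rg N (St N X)) := by
  intro z hz
  obtain ⟨p, -, rfl⟩ := (h.op z).1 (hS z hz)
  exact cd_mem p

/-- the property of Lindelof in terms of internal families -/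
theorem Rep.isLin_iff (h : Rep X Xs τ) : IsLin E Xs τ ↔
    ∀ F : St N (St N X), (∀ U ∈ F, IsOpen U.s) → (∀ x, ∃ U ∈ F, x ∈ U) →
      ∃ F' : St N (St N X), (∀ U ∈ F', U ∈ F) ∧ Cnt F' ∧ ∀ x, ∃ U ∈ F', x ∈ U := by
  constructor
  · intro hl F hF hc
    obtain ⟨S', h1, h2, h3⟩ := hl (cd N F) (h.sub_tau.2 hF) (by rw [h.pts]; exact isCov_cd.2 hc)
    obtain ⟨F', rfl⟩ := exists_st2 (h.tau_sub fun z hz => h.sub_tau.2 hF z (h1 z hz))
    rw [h.pts] at h3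
    exact ⟨F', sub_cd.1 h1, isCnt_cd.1 h2, isCov_cd.1 h3⟩
  · intro hl S hS hc
    obtain ⟨F, rfl⟩ := exists_st2 (h.tau_sub hS)
    rw [h.pts] at hc
    obtain ⟨F', h1, h2, h3⟩ := hl F (h.sub_tau.1 hS) (isCov_cd.1 hc)
    exact ⟨cd N F', sub_cd.2 h1, isCnt_cd.2 h2, by rw [h.pts]; exact isCov_cd.2 h3⟩

/-- compactness in terms of internal families -/
theorem Rep.isCpt_iff (h : Rep X Xs τ) : IsCpt E Xs τ ↔
    ∀ F : St N (St N X), (∀ U ∈ F, IsOpen U.s) → (∀ x, ∃ U ∈ F, x ∈ U) →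
      ∃ F' : St N (St N X), (∀ U ∈ F', U ∈ F) ∧ F'.s.Finite ∧ ∀ x, ∃ U ∈ F', x ∈ U := by
  constructor
  · intro hl F hF hc
    obtain ⟨S', h1, h2, h3⟩ := hl (cd N F) (h.sub_tau.2 hF) (by rw [h.pts]; exact isCov_cd.2 hc)
    obtain ⟨F', rfl⟩ := exists_st2 (h.tau_sub fun z hz => h.sub_tau.2 hF z (h1 z hz))
    rw [h.pts] at h3
    exact ⟨F', sub_cd.1 h1, isFin_cd.1 h2, isCov_cd.1 h3⟩
  · intro hl S hS hc
    obtain ⟨F, rfl⟩ := exists_st2 (h.tau_sub hS)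
    rw [h.pts] at hc
    obtain ⟨F', h1, h2, h3⟩ := hl F (h.sub_tau.1 hS) (isCov_cd.1 hc)
    exact ⟨cd N F', sub_cd.2 h1, isFin_cd.2 h2, by rw [h.pts]; exact isCov_cd.2 h3⟩

theorem Rep.t2 (h : Rep X Xs τ) (hd : IsHd E Xs τ) : T2Space X := by
  refine ⟨fun x y hxy => ?_⟩
  obtain ⟨U, V, hU, hV, hx, hy, hz⟩ := hd (cd N x) (cd N y) (by rw [h.pts]; exact cd_mem x)
    (by rw [h.pts]; exact cd_mem y) (fun hc => hxy (cd_inj.1 hc))
  obtain ⟨p, hp, rfl⟩ := (h.op U).1 hU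
  obtain ⟨q, hq, rfl⟩ := (h.op V).1 hV
  refine ⟨p.s, q.s, hp, hq, cd_mem_cd.1 hx, cd_mem_cd.1 hy, Set.disjoint_left.2 fun z h1 h2 => ?_⟩
  exact hz (cd N z) ⟨cd_mem_cd.2 h1, cd_mem_cd.2 h2⟩

/-- monolithic spaces in terms of internal families -/
theorem Rep.isMono (h : Rep X Xs τ)
    (hm : ∀ A : St N X, Cnt A → ∀ c : St N X, c.s = closure A.s →
      ∃ M : St N (St N X), Cnt M ∧ ∀ x ∈ c, ∀ U : St N X, IsOpen U.s → x ∈ U →
        ∃ m ∈ M, x ∈ m ∧ ∀ y ∈ m, y ∈ c ∧ y ∈ U) : IsMono E Xs τ := by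
  intro a c ha hcnt hcl
  rw [h.pts] at ha
  obtain ⟨A, rfl, -⟩ := exists_st ha
  have hc : Sub E c (rg N X) := by
    intro z hz
    rw [← h.pts]
    exact ((hcl z).1 hz).1
  obtain ⟨C, rfl, -⟩ := exists_st hc
  have h1 : C.s = closure A.s := by
    ext x
    have h2 : x ∈ C ↔ ∀ U, E U τ → E (cd N x) U → ∃ a, E a (cd N A) ∧ E a U := by
      rw [← cd_mem_cd (N := N), hcl, h.pts]
      exact ⟨fun h => h.2, fun h => ⟨cd_mem x, h⟩⟩
    refine h2.trans ⟨fun h3 => ?_, fun h3 => ?_⟩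
    · rw [mem_closure_iff]
      intro V hV hx
      obtain ⟨U, hU, hxU, hUV⟩ := h.base x V hV hx
      obtain ⟨z, hz, hz'⟩ := h3 _ ((h.open_iff U).1 hU) (cd_mem_cd.2 hxU)
      obtain ⟨y, hy, rfl⟩ := (cd_st N A z).1 hz
      exact ⟨y, hUV (cd_mem_cd.1 hz'), hy⟩
    · intro u hu hx
      obtain ⟨U, hU, rfl⟩ := (h.op u).1 hu
      obtain ⟨y, hy, hy'⟩ := mem_closure_iff.1 h3 U.s hU (cd_mem_cd.1 hx)
      exact ⟨cd N y, cd_mem_cd.2 hy', cd_mem_cd.2 hy⟩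
  obtain ⟨M, hM, hM'⟩ := hm A (isCnt_cd.1 hcnt) C h1
  let M' : St N (St N X) := ⟨{m | m ∈ M ∧ ∀ y ∈ m, y ∈ C}, IP.and (IP.mem IF.id (IF.const M))
    (IP.congr (fun m => (sub_cd (p := m) (q := C)).trans Iff.rfl)
      (IP.of_sat (fSub 0 1) (cns (cd N C) fun _ => cd N C) fun m => by simp [sub_cd]))⟩
  refine ⟨cd N M', isCnt_cd.2 (Cnt.mono (fun m hm => hm.1) hM), ?_, ?_⟩
  · intro z hz
    obtain ⟨m, hm, rfl⟩ := (cd_st N M' z).1 hz
    exact sub_cd.2 hm.2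
  · intro u z hu hz hzc
    obtain ⟨U, hU, rfl⟩ := (h.op u).1 hu
    obtain ⟨x, hx, rfl⟩ := (cd_st N C z).1 hzc
    obtain ⟨m, hm, hxm, hm'⟩ := hM' x hx U hU (cd_mem_cd.1 hz)
    have h2 : m ∈ M' := ⟨hm, fun y hy => (hm' y hy).1⟩
    exact ⟨cd N m, cd_mem_cd.2 h2, cd_mem_cd.2 hxm, sub_cd.2 fun y hy => (hm' y hy).2⟩

end CPY
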