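import Pool.Agent.CPY.FLin
import Pool.Agent.WCal.ReA

/-! # The real line of the model

(problem MP_ba5606_gt, project CPY, block F; no sorry in this file) -/

set_option autoImplicit false

universe u v

namespace CPY

open STP CPI WCal WM

variable {N : Type u} [WM N] [Std N]

theorem ir_v : IR N (fun x : RW N => x.v) := IR.iff_IF.1 IF.id

theorem ip_lt : IP N (fun p : RW N × RW N => p.1.v < p.2.v) :=
  IP.ltR (IR.comp ir_v IF.fst) (IR.comp ir_v IF.snd)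

variable (N) in
/-- the set of the codes of the real numbers -/
noncomputable def Rs : N := rg N (RW N)

variable (N) in
/-- the order of the real numbers -/
noncomputable def Ls : N := (exists_sub N (fun p : RW N × RW N => p.1.v < p.2.v) ip_lt).choose

theorem E_Ls {z : N} : E z (Ls N) ↔ ∃ x y : RW N, x.v < y.v ∧ z = op (cd N x) (cd N y) := by
  refine ((exists_sub N (fun p : RW N × RW N => p.1.v < p.2.v) ip_lt).choose_spec z).trans ?_
  constructor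
  · rintro ⟨p, hp, rfl⟩
    exact ⟨p.1, p.2, hp, rfl⟩
  · rintro ⟨x, y, h, rfl⟩
    exact ⟨(x, y), h, rfl⟩

theorem val_Ls {x y : RW N} : Val E (Ls N) (cd N x) (cd N y) ↔ x.v < y.v := by
  rw [val_iff, E_Ls]
  constructor
  · rintro ⟨a, b, h, h'⟩
    obtain ⟨h1, h2⟩ := op_inj.1 h'
    rw [cd_inj.1 h1, cd_inj.1 h2]
    exact h
  · exact fun h => ⟨x, y, h, rfl⟩

theorem val_Ls' {x y : N} (h : Val E (Ls N) x y) :
    ∃ a b : RW N, x = cd N a ∧ y = cd N b ∧ a.v < b.v := by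
  rw [val_iff, E_Ls] at h
  obtain ⟨a, b, h, h'⟩ := h
  obtain ⟨h1, h2⟩ := op_inj.1 h'
  exact ⟨a, b, h1, h2, h⟩

variable (N) in
/-- a rational number as a real number of the model -/
def rq (q : ℚ) : RW N := ⟨q, isR_rat q⟩

theorem if_rq : IF N (rq N) := IR.iff_IF.2 (IR.rat IF.id)

omit [Std N] in
theorem if_qe : IF N (fun n : ℕ => qe.symm n) := by
  obtain ⟨s, hs⟩ := (IF.id : IF N (fun n : ℕ => n))
  refine ⟨s, fun p => ?_⟩
  have h1 : qe.symm p.1 = p.2 ↔ p.1 = qe p.2 := Equiv.symm_apply_eq qe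
  exact h1.trans (hs (p.1, qe p.2))

theorem isRL : IsRL E (Rs N) (Ls N) := by
  refine ⟨⟨_, cd_mem (rq N 0)⟩, ?_, ?_, ?_, ?_, ?_, ?_, ?_⟩
  · intro x y h
    obtain ⟨a, b, rfl, rfl, -⟩ := val_Ls' h
    exact ⟨cd_mem a, cd_mem b⟩
  · intro x h
    obtain ⟨a, b, rfl, h1, h2⟩ := val_Ls' h
    rw [cd_inj.1 h1] at h2
    exact lt_irrefl _ h2
  · intro x y z h h'
    obtain ⟨a, b, rfl, rfl, h2⟩ := val_Ls' h
    obtain ⟨b', c, h1, rfl, h3⟩ := val_Ls' h'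
    rw [← cd_inj.1 h1] at h3
    exact val_Ls.2 (h2.trans h3)
  · intro x y hx hy
    obtain ⟨a, rfl⟩ := E_rg.1 hx
    obtain ⟨b, rfl⟩ := E_rg.1 hy
    rcases lt_trichotomy a.v b.v with h | h | h
    · exact Or.inl (val_Ls.2 h)
    · exact Or.inr (Or.inl (by rw [RW.ext h]))
    · exact Or.inr (Or.inr (val_Ls.2 h))
  · intro x hx
    obtain ⟨a, rfl⟩ := E_rg.1 hx
    obtain ⟨q, hq⟩ := exists_rat_lt a.v
    obtain ⟨q', hq'⟩ := exists_rat_gt a.v
    exact ⟨⟨_, (val_Ls (x := rq N q)).2 hq⟩, ⟨_, (val_Ls (y := rq N q')).2 hq'⟩⟩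
  · let D : St N (RW N) := ⟨{x | ∃ q : ℚ, rq N q = x}, IP.ex (IP.eq (IF.comp if_rq IF.snd) IF.fst)⟩
    refine ⟨cd N D, cd_sub_rg D, isCnt_cd.2 ?_, ?_⟩
    · have h1 : IF N (fun n : ℕ => rq N (qe.symm n)) := by
        exact IF.comp if_rq if_qe
      refine Cnt.range h1 ?_
      rintro _ ⟨q, rfl⟩
      exact ⟨qe q, by rw [Equiv.symm_apply_apply]⟩
    · intro x y h
      obtain ⟨a, b, rfl, rfl, h2⟩ := val_Ls' h
      obtain ⟨q, hq, hq'⟩ := exists_rat_btwn h2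
      have h3 : rq N q ∈ D := ⟨q, rfl⟩
      exact ⟨cd N (rq N q), cd_mem_cd.2 h3, val_Ls.2 hq, val_Ls.2 hq'⟩
  · intro A hA hne hb
    obtain ⟨S, rfl, -⟩ := exists_st (X := RW N) hA
    obtain ⟨z, hz⟩ := hne
    obtain ⟨a0, ha0, rfl⟩ := (cd_st N S z).1 hz
    obtain ⟨b, hb, hb'⟩ := hb
    obtain ⟨b, rfl⟩ := E_rg.1 hb
    have h1 : ∀ a ∈ S, a.v ≤ b.v := fun a ha => not_lt.1 fun hc =>
      hb' _ (cd_mem_cd.2 ha) (val_Ls.2 hc)
    let T : Set ℝ := RW.v '' S.s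
    have hT : BddAbove T := ⟨b.v, by rintro _ ⟨a, ha, rfl⟩; exact h1 a ha⟩
    have hT' : T.Nonempty := ⟨_, a0, ha0, rfl⟩
    have h2 : IP N (fun q : ℚ => (q : ℝ) < sSup T) := by
      refine IP.congr (P := fun q : ℚ => ∃ a : RW N, a ∈ S ∧ (q : ℝ) < a.v) ?_ ?_
      · intro q
        constructor
        · rintro ⟨a, ha, h⟩
          exact h.trans_le (le_csSup hT ⟨a, ha, rfl⟩)
        · intro h
          obtain ⟨_, ⟨a, ha, rfl⟩, h⟩ := exists_lt_of_lt_csSup hT' h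
          exact ⟨a, ha, h⟩
      · exact IP.ex (IP.and (IP.mem IF.snd (IF.const S))
          (IP.ltR (IR.rat IF.fst) (IR.comp ir_v IF.snd)))
    refine ⟨cd N (⟨sSup T, h2⟩ : RW N), cd_mem _, ?_, ?_⟩
    · intro z hz h
      obtain ⟨a, ha, rfl⟩ := (cd_st N S z).1 hz
      exact absurd (val_Ls.1 h) (not_lt.2 (le_csSup hT ⟨a, ha, rfl⟩))
    · intro z hz h h'
      obtain ⟨c, rfl⟩ := E_rg.1 hz
      have h3 : c.v < sSup T := val_Ls.1 h'
      refine absurd h3 (not_lt.2 (csSup_le hT' ?_))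
      rintro _ ⟨a, ha, rfl⟩
      exact not_lt.1 fun hc => h _ (cd_mem_cd.2 ha) (val_Ls.2 hc)

end CPY
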