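import Pool.Agent.CPY.Lang
import Pool.Agent.WCal.Cho

/-! # From the relational topology to the native one

(problem MP_ba5606_gt, project CPY, block F; no sorry in this file)

`Rep X Xs τ`: the pair `(Xs, τ)` of elements of the model represents the typed space `X`. A
topological space `(X, τ)` of the model is represented by the type `El X` with the native topology
generated by `τ`. -/

set_option autoImplicit false

universe u v

namespace CPY

open STP CPI WCal WM

variable {N : Type u} [WM N]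

/-- The pair `(Xs, τ)` of elements of `N` represents the typed space `X`: `Xs` is the set of the
codes of the points, and `τ` is the set of the codes of the internal open sets, which form a base. -/
structure Rep (X : Type v) [WTy N X] [TopologicalSpace X] (Xs τ : N) : Prop where
  pts : Xs = rg N X
  base : ∀ x (V : Set X), IsOpen V → x ∈ V → ∃ U : St N X, IsOpen U.s ∧ x ∈ U ∧ U.s ⊆ V
  op : ∀ U, E U τ ↔ ∃ p : St N X, IsOpen p.s ∧ U = cd N p

section

variable {X : Type v} [WTy N X] {Xs τ : N}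

/-- a subset of the set of the codes is the code of an internal set -/
theorem exists_st {U : N} (h : Sub E U (rg N X)) :
    ∃ p : St N X, U = cd N p ∧ ∀ x, x ∈ p ↔ E (cd N x) U := by
  let p : St N X := ⟨{x | E (cd N x) U}, U, fun _ => Iff.rfl⟩
  refine ⟨p, ?_, fun _ => Iff.rfl⟩
  rw [ext_iff']
  intro z
  rw [cd_st]
  constructor
  · intro hz
    obtain ⟨x, rfl⟩ := E_rg.1 (h z hz)
    exact ⟨x, hz, rfl⟩
  · rintro ⟨x, hx, rfl⟩
    exact hx

theorem cd_mem_cd {x : X} {p : St N X} : E (cd N x) (cd N p) ↔ x ∈ p := by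
  rw [cd_st]
  constructor
  · rintro ⟨y, hy, h⟩
    rwa [← cd_inj.1 h]
  · exact fun h => ⟨x, h, rfl⟩

variable [TopologicalSpace X]

theorem Rep.open_iff (h : Rep X Xs τ) (p : St N X) : IsOpen p.s ↔ E (cd N p) τ := by
  rw [h.op]
  constructor
  · exact fun h1 => ⟨p, h1, rfl⟩
  · rintro ⟨q, hq, h1⟩
    rwa [cd_inj.1 h1]

/-- the family of the internal open sets is internal -/
theorem Rep.fam (h : Rep X Xs τ) : IP N (fun p : St N X => IsOpen p.s) := ⟨τ, h.open_iff⟩

end

/-- the set of all members of `τ` which are subsets of `u` -/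
theorem exists_below (τ u : N) : ∃ S : N, ∀ z, E z S ↔ E z τ ∧ Sub E z u := by
  refine sepF (fSub 0 1) (cns u fun _ => u) τ (fun z => Sub E z u) fun z _ => ?_
  simp

/-- the native topology given by `τ` on the elements of `X` -/
@[reducible] def elTop (X τ : N) : TopologicalSpace (El X) :=
  TopologicalSpace.generateFrom {s | ∃ U, E U τ ∧ s = {x | E x.v U}}

theorem elTop_basis {X τ : N} (h : IsTop E X τ) :
    @TopologicalSpace.IsTopologicalBasis (El X) (elTop X τ)
      {s | ∃ U, E U τ ∧ s = {x | E x.v U}} := by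
  let _ := elTop X τ
  refine ⟨?_, ?_, rfl⟩
  · rintro _ ⟨U, hU, rfl⟩ _ ⟨V, hV, rfl⟩ x hx
    obtain ⟨W, hW⟩ : ∃ W : N, ∀ z, E z W ↔ E z U ∧ E z V :=
      sepF (.mem 0 1) (cns V fun _ => V) U (fun z => E z V) fun z _ => by simp
    refine ⟨{x | E x.v W}, ⟨W, h.2.2.2 U V W hU hV hW, rfl⟩, ?_, ?_⟩
    · exact (hW _).2 hx
    · intro y hy
      exact (hW _).1 hy
  · refine Set.eq_univ_of_forall fun x => ?_
    exact ⟨{x | E x.v X}, ⟨X, h.2.1, rfl⟩, x.h⟩

/-- a topological space of the model is represented by the type of its elements -/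
theorem Rep.of_top {X τ : N} (h : IsTop E X τ) : @Rep N _ (El X) _ (elTop X τ) X τ := by
  let _ := elTop X τ
  have hb := elTop_basis h
  refine ⟨rfl, ?_, ?_⟩
  · intro x V hV hx
    obtain ⟨_, ⟨U, hU, rfl⟩, hxU, hUV⟩ := hb.exists_subset_of_mem_open hx hV
    exact ⟨⟨{x | E x.v U}, U, fun _ => Iff.rfl⟩, hb.isOpen ⟨U, hU, rfl⟩, hxU, hUV⟩
  · intro U
    constructor
    · intro hU
      obtain ⟨p, hp, hp'⟩ := exists_st (X := El X) (h.1 U hU)
      refine ⟨p, hb.isOpen ⟨U, hU, ?_⟩, hp⟩
      ext x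
      exact hp' x
    · rintro ⟨p, hp, rfl⟩
      obtain ⟨S, hS⟩ := exists_below τ (cd N p)
      have h1 : E (un S) τ := h.2.2.1 S (un S) (fun z hz => ((hS z).1 hz).1) fun z => E_un
      have h2 : un S = cd N p := by
        rw [ext_iff']
        intro z
        rw [E_un]
        constructor
        · rintro ⟨w, hw, hz⟩
          exact ((hS w).1 hw).2 z hz
        · intro hz
          obtain ⟨x, hx, rfl⟩ := (cd_st N p z).1 hz
          obtain ⟨_, ⟨U, hU, rfl⟩, hxU, hUV⟩ := hb.exists_subset_of_mem_open hx hp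
          refine ⟨U, (hS U).2 ⟨hU, fun y hy => ?_⟩, hxU⟩
          exact (cd_st N p y).2 ⟨⟨y, h.1 U hU y hy⟩, hUV hy, rfl⟩
      rwa [← h2]

end CPY
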