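import Pool.Agent.CPY.ITop
import Pool.Agent.CPY.ECfg

/-! # The first uncountable ordinal of the model and the principle H (definitions)

(problem MP_ba5606_gt, project CPY; definitions, no sorry in this file)

`OmO N Θ`: the `N`-type `Θ` is a well-order, its order is internal, its initial segments are countable in `N`
and countable subsets of `N` are bounded (so `Θ` is isomorphic to `ω₁` of the model).

`HPr N Θ`: the combinatorial principle which is true in the forcing extension (block D) and which implies the positive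
answer to the second question (block E1); see `/team-store/ARH2.md`. -/

set_option autoImplicit false

universe u v w

namespace CPY

open WCal STP WM

/-- `Θ` is isomorphic to the first uncountable ordinal of the model -/
structure OmO (N : Type u) [WM N] (Θ : Type v) [WTy N Θ] [LinearOrder Θ] : Prop where
  wf : WellFounded fun a b : Θ => a < b
  lt : IP N (fun p : Θ × Θ => p.1 < p.2)
  seg : ∀ a : Θ, ∃ e : ℕ → Θ, IF N e ∧ ∀ b < a, ∃ n, e n = b
  bdd : ∀ e : ℕ → Θ, IF N e → ∃ a, ∀ n, e n < a

/-- the principle H -/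
def HPr (N : Type u) [WM N] (Θ : Type v) [WTy N Θ] [LinearOrder Θ] : Prop :=
  ∀ r : Θ → ℕ → ℝ, IR N (fun p : Θ × ℕ => r p.1 p.2) → (∀ a n, 0 ≤ r a n ∧ r a n ≤ 1) →
    Function.Injective r →
    ∃ F : Set ((ℕ → Bool) × (ℕ → ℝ) × (ℕ → ℕ)), IsClosed F ∧
      IP N (fun t : List Bool × List ℚ × List ℕ => TF F t.1 t.2.1 t.2.2) ∧
      (∀ b : ℕ → Bool, IF N b → ∃ (a : Θ) (v : ℕ → ℕ), IF N v ∧ (b, r a, v) ∈ F) ∧
      ∀ γ : Θ, ∃ (b : ℕ → Bool) (s : ℕ → Θ), IF N b ∧ IF N s ∧ (∀ n, γ < s n) ∧
        ∀ y v, (b, y, v) ∈ F → ∃ n, y = r (s n)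

end CPY
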