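import Pool.Agent.CPY.IIdx
import Pool.Agent.CPY.SimpC

/-! # Block E2: definitions (tests, kernel codes, hulls)

(problem MP_ba5606_gt, ARH Part II, block E2: `C_p(X)` is Lindelöf; architect helper79)

* `TE N X`: tests `F : List (CC N X × ℚ × ℚ)`; `tcl F`: the closed set of all `x` with
  `p ≤ d x ≤ q` for
  `(d, p, q) ∈ F`; `top F`: the open set `p < d x < q`.
* `KC N X`: kernel codes `c : List (TE N X × ℚ × ℚ)`; `Nk c`: the set of all `g` with `a < g < b`
  on `tcl F` for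
  all `(F, a, b) ∈ c`.
* `ovT T F`, `ovK T c`: all functions in `F`, in `c` belong to `T`.
* `KD N X`: a neighbourhood assignment `Φ` and a Skolem function `h`: if `Nk c` is contained in some
  `Bv (Φ g)` then it is contained in `Bv (Φ (h c))`.
* `D.Cl T`: `T` is closed under `h`; `D.hull S`: the least closed set which contains `S`.
* `sg d b`: the internal set of all `d a`, `a < b`.

The lemmas `ip_tcl`, ..., `ip_ovK`, `ip_Cl` say that all this is internal. PROOFS: quantifiers over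
lists by `IP.memList` (`∀ t, t ∈ F → ...`), inequalities by `IP.ltR`, `IP.leR`, `IR.evC`, `IR.rat`,
membership by `IP.mem`. `ip_Cl`: `∀ c, ovK T c → h c ∈ T`. `sg`: `IP.ex`, `IP.and`, `IP.eq`. -/

universe u v w

namespace CPY

open WCal WM

section

variable (N : Type u) [WM N] (X : Type v) [WTy N X] [TopologicalSpace X]

/-- tests -/
abbrev TE : Type v := List (CC N X × ℚ × ℚ)

/-- kernel codes -/
abbrev KC : Type v := List (TE N X × ℚ × ℚ)

end

section

variable {N : Type u} [WM N] {X : Type v} [WTy N X] [TopologicalSpace X]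

/-- the closed set of a test -/
def tcl (F : TE N X) : Set X :=
  {x | ∀ t ∈ F, (t.2.1 : ℝ) ≤ t.1 x ∧ t.1 x ≤ (t.2.2 : ℝ)}

/-- the open set of a test -/
def top (F : TE N X) : Set X :=
  {x | ∀ t ∈ F, (t.2.1 : ℝ) < t.1 x ∧ t.1 x < (t.2.2 : ℝ)}

/-- the set of functions with the kernel code `c` -/
def Nk (c : KC N X) : Set (CC N X) :=
  {g | ∀ s ∈ c, ∀ x ∈ tcl s.1, (s.2.1 : ℝ) < g x ∧ g x < (s.2.2 : ℝ)}

theorem isClosed_tcl (F : TE N X) : IsClosed (tcl F) := by
  have h : tcl F = ⋂ t ∈ {t | t ∈ F}, {x | (t.2.1 : ℝ) ≤ t.1 x ∧ t.1 x ≤ (t.2.2 : ℝ)} := by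
    ext x
    simp only [tcl, Set.mem_iInter]
    exact Iff.rfl
  rw [h]
  exact isClosed_biInter fun t _ => (isClosed_le continuous_const t.1.cont).inter
    (isClosed_le t.1.cont continuous_const)

theorem isOpen_top (F : TE N X) : IsOpen (top F) := by
  have h : top F = ⋂ t ∈ {t | t ∈ F}, {x | (t.2.1 : ℝ) < t.1 x ∧ t.1 x < (t.2.2 : ℝ)} := by
    ext x
    simp only [top, Set.mem_iInter]
    exact Iff.rfl
  rw [h]
  exact (List.finite_toSet F).isOpen_biInter fun t _ => (isOpen_lt continuous_const t.1.cont).inter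
    (isOpen_lt t.1.cont continuous_const)

theorem top_sub_tcl (F : TE N X) : top F ⊆ tcl F :=
  fun _ hx t ht => ⟨(hx t ht).1.le, (hx t ht).2.le⟩

variable [Std N] [WSp N X]

/-- all functions in the test belong to `T` -/
def ovT (T : St N (CC N X)) (F : TE N X) : Prop := ∀ t ∈ F, t.1 ∈ T

/-- all functions in the kernel code belong to `T` -/
def ovK (T : St N (CC N X)) (c : KC N X) : Prop :=
  ∀ s ∈ c, ovT T s.1

section

variable {α : Type w} [WTy N α]

theorem ip_tcl {F : α → TE N X} {x : α → X} (hF : IF N F) (hx : IF N x) :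
    IP N (fun a => x a ∈ tcl (F a)) := by
  have h : IP N (fun a => ∀ t, t ∈ F a → (t.2.1 : ℝ) ≤ t.1 (x a) ∧ t.1 (x a) ≤ (t.2.2 : ℝ)) := by
    simp (maxDischargeDepth := 99) [hF.comp, hx.comp]
  exact h

theorem ip_top {F : α → TE N X} {x : α → X} (hF : IF N F) (hx : IF N x) :
    IP N (fun a => x a ∈ top (F a)) := by
  have h : IP N (fun a => ∀ t, t ∈ F a → (t.2.1 : ℝ) < t.1 (x a) ∧ t.1 (x a) < (t.2.2 : ℝ)) := by
    simp (maxDischargeDepth := 99) [hF.comp, hx.comp]
  exact h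

theorem ip_Nk {c : α → KC N X} {g : α → CC N X} (hc : IF N c)
    (hg : IF N g) : IP N (fun a => g a ∈ Nk (c a)) := by
  have h0 : IP N (fun p : TE N X × X => p.2 ∈ tcl p.1) := ip_tcl IF.fst IF.snd
  have h : IP N (fun a => ∀ s, s ∈ c a → ∀ x, x ∈ tcl s.1 →
      (s.2.1 : ℝ) < g a x ∧ g a x < (s.2.2 : ℝ)) := by
    simp (maxDischargeDepth := 99) [hc.comp, hg.comp, h0.comp2 (P := fun F x => x ∈ tcl F)]
  exact h

theorem ip_ovT {T : α → St N (CC N X)} {F : α → TE N X} (hT : IF N T)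
    (hF : IF N F) : IP N (fun a => ovT (T a) (F a)) := by
  have h : IP N (fun a => ∀ t, t ∈ F a → t.1 ∈ T a) := by
    simp (maxDischargeDepth := 99) [hF.comp, hT.comp]
  exact h

theorem ip_ovK {T : α → St N (CC N X)} {c : α → KC N X}
    (hT : IF N T) (hc : IF N c) : IP N (fun a => ovK (T a) (c a)) := by
  have h : IP N (fun a => ∀ s, s ∈ c a → ∀ t, t ∈ s.1 → t.1 ∈ T a) := by
    simp (maxDischargeDepth := 99) [hc.comp, hT.comp]
  exact h

end

variable (N X) in
/-- a neighbourhood assignment with a Skolem function -/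
structure KD where
  /-- the neighbourhood assignment -/
  Φ : CC N X → List (X × ℚ × ℚ)
  Φi : IF N Φ
  mem : ∀ g, g.f ∈ Bv (Φ g)
  /-- the Skolem function -/
  h : KC N X → CC N X
  hi : IF N h
  sk : ∀ c g, (∀ g' ∈ Nk c, g'.f ∈ Bv (Φ g)) → ∀ g' ∈ Nk c, g'.f ∈ Bv (Φ (h c))

namespace KD

variable (D : KD N X)

/-- closed under the Skolem function -/
def Cl (T : St N (CC N X)) : Prop := ∀ c, ovK T c → D.h c ∈ T

theorem ip_Cl {α : Type w} [WTy N α] {T : α → St N (CC N X)} (hT : IF N T) :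
    IP N (fun a => D.Cl (T a)) := by
  have h0 : IP N (fun p : St N (CC N X) × KC N X => ovK p.1 p.2) := ip_ovK IF.fst IF.snd
  have h1 := D.hi
  have h : IP N (fun a => ∀ c, ovK (T a) c → D.h c ∈ T a) := by
    simp (maxDischargeDepth := 99) [hT.comp, h1.comp, h0.comp2 (P := fun T c => ovK T c)]
  exact h

theorem hull_int {α : Type w} [WTy N α] {S : α → St N (CC N X)} (hS : IF N S) :
    IP N (fun p : α × CC N X =>
      ∀ T : St N (CC N X), D.Cl T → (∀ g, g ∈ S p.1 → g ∈ T) → p.2 ∈ T) := by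
  have h0 : IP N (fun T : St N (CC N X) => D.Cl T) := D.ip_Cl IF.id
  simp (maxDischargeDepth := 99) [hS.comp, h0.comp]

/-- the least closed set which contains `S` -/
def hull (S : St N (CC N X)) : St N (CC N X) :=
  ⟨{g | ∀ T : St N (CC N X), D.Cl T → (∀ g, g ∈ S → g ∈ T) → g ∈ T},
    (D.hull_int (α := St N (CC N X)) IF.id).sec S⟩

theorem mem_hull {S : St N (CC N X)} {g : CC N X} : g ∈ D.hull S ↔
    ∀ T : St N (CC N X), D.Cl T → (∀ g, g ∈ S → g ∈ T) → g ∈ T := Iff.rfl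

end KD

section

variable {Θ : Type w} [WTy N Θ] [LinearOrder Θ]

theorem sg_int (hl : IP N (fun p : Θ × Θ => p.1 < p.2)) {d : Θ → CC N X} (hd : IF N d) :
    IP N (fun p : Θ × CC N X => ∃ a, a < p.1 ∧ d a = p.2) := by
  simp (maxDischargeDepth := 99) [hd.comp, hl.comp2 (P := fun a b => a < b)]

/-- the set of all `d a`, `a < b` -/
def sg (hl : IP N (fun p : Θ × Θ => p.1 < p.2)) {d : Θ → CC N X} (hd : IF N d) (b : Θ) :
    St N (CC N X) :=
  ⟨{g | ∃ a, a < b ∧ d a = g}, (sg_int hl hd).sec b⟩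

theorem mem_sg {hl : IP N (fun p : Θ × Θ => p.1 < p.2)} {d : Θ → CC N X} {hd : IF N d} {b : Θ}
    {g : CC N X} : g ∈ sg hl hd b ↔ ∃ a, a < b ∧ d a = g := Iff.rfl

end

end

end CPY
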