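import Pool.Agent.CPY.K0

/-! # E2: tube lemma and kernel lemma (package K1)

(problem MP_ba5606_gt, ARH Part II, block E2; architect helper79; automation: `WCal/Simp.lean`)

PROOFS.
* `tube`: let `K' := {x | x ∈ K ∧ ¬ U x}`, a closed internal set, and apply `WCpt.idxOn` to the
  index type
  `CC N X × ℚ × ℚ`, `P (d, p, q) := d ∈ E ∧ p < d x₀ ∧ d x₀ < q`,
  `V (d, p, q) x := d x < p ∨ q < d x` (open, internal: `IP.ltR`, `IR.evC`, `IR.rat`). It is a
  cover of `K'`: if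
  `x ∈ K'` is in none of these sets then `p ≤ d x ≤ q` for all `d ∈ E` and all rational
  `p < d x₀ < q`, so
  `d x = d x₀` for all `d ∈ E`, so `U x` by `h`, a contradiction. The finite list given by
  compactness is
  the test `F`: if `x ∈ K`, `x ∈ tcl F` and `¬ U x` then `x ∈ K'` is in some `V (d, p, q)`,
  `(d, p, q) ∈ F`, a
  contradiction.
* `KD.kernel`: for every `t ∈ D.Φ g` apply `tube` with `K = univ`, `x₀ = t.1`,
  `U x := t.2.1 < g x ∧ g x < t.2.2` (`g x = g t.1` if `d x = d t.1` for all `d ∈ E`, by `hg`;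
  `D.mem g`). By (native)
  induction on the list `v` one gets: if `t.2.1 < g t.1 < t.2.2` for all `t ∈ v` then there is a
  kernel code
  `c` with `ovK E c`, `g ∈ Nk c` and `g'.f ∈ Bv v` for all `g' ∈ Nk c` (for `t :: v` take
  `(F, t.2.1, t.2.2) :: c`; `t.1 ∈ tcl F`). For `v = D.Φ g` the Skolem property gives
  `g.f ∈ Bv (D.Φ (D.h c))`, and `D.h c ∈ E` since `E` is closed. -/

universe u v w

namespace CPY

open WCal WM

variable {N : Type u} [WM N] [Std N] {X : Type v} [WTy N X] [TopologicalSpace X] [WSp N X]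

theorem tube (hX : WCpt N X) {E : St N (CC N X)} {K : St N X} (hK : IsClosed K.s) {x₀ : X}
    {U : X → Prop} (hU : IP N U) (hUo : IsOpen {x | U x})
    (h : ∀ x, x ∈ K → (∀ d, d ∈ E → d x = d x₀) → U x) :
    ∃ F : TE N X, ovT E F ∧ x₀ ∈ top F ∧ ∀ x, x ∈ K → x ∈ tcl F → U x := by
  have hK' : IsClosed {x : X | x ∈ K ∧ ¬ U x} :=
    IsClosed.inter hK (isClosed_compl_iff.2 hUo)
  have hP : IP N (fun t : CC N X × ℚ × ℚ => t.1 ∈ E ∧
      ((t.2.1 : ℝ) < t.1 x₀ ∧ t.1 x₀ < (t.2.2 : ℝ))) :=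
    IP.and (IP.mem IF.fst (IF.const E)) (IP.and
      (IP.ltR (IR.rat (IF.comp IF.fst IF.snd)) (IR.evC IF.fst (IF.const x₀)))
      (IP.ltR (IR.evC IF.fst (IF.const x₀)) (IR.rat (IF.comp IF.snd IF.snd))))
  have h1 : IR N (fun p : (CC N X × ℚ × ℚ) × X => p.1.1 p.2) :=
    IR.evC (IF.comp IF.fst IF.fst) IF.snd
  have h2 : IR N (fun p : (CC N X × ℚ × ℚ) × X => ((p.1.2.1 : ℚ) : ℝ)) :=
    IR.rat (IF.comp (g := fun q : CC N X × ℚ × ℚ => q.2.1) (IF.comp IF.fst IF.snd) IF.fst)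
  have h3 : IR N (fun p : (CC N X × ℚ × ℚ) × X => ((p.1.2.2 : ℚ) : ℝ)) :=
    IR.rat (IF.comp (g := fun q : CC N X × ℚ × ℚ => q.2.2) (IF.comp IF.snd IF.snd) IF.fst)
  have hV : IP N (fun p : (CC N X × ℚ × ℚ) × X =>
      p.1.1 p.2 < (p.1.2.1 : ℝ) ∨ (p.1.2.2 : ℝ) < p.1.1 p.2) :=
    IP.or (IP.ltR h1 h2) (IP.ltR h3 h1)
  obtain ⟨l, hl, hl'⟩ := hX.idxOn (K := ⟨{x : X | x ∈ K ∧ ¬ U x},
      IP.and (IP.mem IF.id (IF.const K)) (IP.not hU)⟩) hK'
    (P := fun t : CC N X × ℚ × ℚ => t.1 ∈ E ∧ ((t.2.1 : ℝ) < t.1 x₀ ∧ t.1 x₀ < (t.2.2 : ℝ)))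
    (U := fun (t : CC N X × ℚ × ℚ) (x : X) => t.1 x < (t.2.1 : ℝ) ∨ (t.2.2 : ℝ) < t.1 x)
    hP hV (fun t _ => (isOpen_lt t.1.cont continuous_const).union
      (isOpen_lt continuous_const t.1.cont)) (fun x hx => by
      by_contra hcon
      push Not at hcon
      refine hx.2 (h x hx.1 fun d hd => ?_)
      rcases lt_trichotomy (d x) (d x₀) with hlt | heq | hgt
      · obtain ⟨p, hp, hp'⟩ := exists_rat_btwn hlt
        obtain ⟨q, hq⟩ := exists_rat_gt (d x₀)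
        exact absurd hp (not_lt.2 (hcon (d, p, q) ⟨hd, hp', hq⟩).1)
      · exact heq
      · obtain ⟨q, hq, hq'⟩ := exists_rat_btwn hgt
        obtain ⟨p, hp⟩ := exists_rat_lt (d x₀)
        exact absurd hq' (not_lt.2 (hcon (d, p, q) ⟨hd, hp, hq⟩).2))
  refine ⟨l, fun t ht => (hl t ht).1, fun t ht => (hl t ht).2, fun x hx hxF => ?_⟩
  by_contra hxU
  obtain ⟨t, ht, htx⟩ := hl' x ⟨hx, hxU⟩
  rcases htx with htx | htx
  · exact absurd htx (not_lt.2 (hxF t ht).1)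
  · exact absurd htx (not_lt.2 (hxF t ht).2)

theorem KD.kernel (D : KD N X) (hX : WCpt N X) {E : St N (CC N X)} (hE : D.Cl E) {g : CC N X}
    (hg : ∀ x y, (∀ d, d ∈ E → d x = d y) → g x = g y) : ∃ d, d ∈ E ∧ g.f ∈ Bv (D.Φ d) := by
  have key : ∀ v : List (X × ℚ × ℚ), (∀ t ∈ v, (t.2.1 : ℝ) < g t.1 ∧ g t.1 < (t.2.2 : ℝ)) →
      ∃ c : KC N X, ovK E c ∧ g ∈ Nk c ∧ ∀ g' ∈ Nk c, g'.f ∈ Bv v := by
    intro v
    induction v with
    | nil =>
      intro _
      exact ⟨[], fun s hs => absurd hs List.not_mem_nil, fun s hs => absurd hs List.not_mem_nil,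
        fun g' _ t ht => absurd ht List.not_mem_nil⟩
    | cons t v ih =>
      intro hv
      obtain ⟨c, hc, hgc, hcv⟩ := ih fun u hu => hv u (List.mem_cons_of_mem t hu)
      have ht := hv t List.mem_cons_self
      obtain ⟨F, hF, hF0, hF1⟩ := tube hX (E := E) (K := ⟨Set.univ, IP.const True⟩)
        isClosed_univ (x₀ := t.1) (U := fun x => (t.2.1 : ℝ) < g x ∧ g x < (t.2.2 : ℝ))
        (IP.and (IP.ltR (IR.rat (IF.const t.2.1)) (IR.evC (IF.const g) IF.id))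
          (IP.ltR (IR.evC (IF.const g) IF.id) (IR.rat (IF.const t.2.2))))
        ((isOpen_lt continuous_const g.cont).inter (isOpen_lt g.cont continuous_const))
        (fun x _ hx => by
          rw [hg x t.1 hx]
          exact ht)
      refine ⟨(F, t.2.1, t.2.2) :: c, ?_, ?_, ?_⟩
      · intro s hs
        rcases List.mem_cons.1 hs with rfl | hs
        · exact hF
        · exact hc s hs
      · intro s hs x hx
        rcases List.mem_cons.1 hs with rfl | hs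
        · exact hF1 x trivial hx
        · exact hgc s hs x hx
      · intro g' hg' u hu
        rcases List.mem_cons.1 hu with rfl | hu
        · exact hg' _ List.mem_cons_self u.1 (top_sub_tcl F hF0)
        · exact hcv g' (fun s hs => hg' s (List.mem_cons_of_mem _ hs)) u hu
  obtain ⟨c, hc, hgc, hcv⟩ := key (D.Φ g) (D.mem g)
  exact ⟨D.h c, hE c hc, D.sk c g hcv g hgc⟩

end CPY
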