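import Pool.Agent.CPY.HPr
import Pool.Agent.WCal.Simp

/-! # E2: pigeonhole principle (package K10)

(problem MP_ba5606_gt, ARH Part II, block E2; architect helper79; automation: `WCal/Simp.lean`)

PROOFS.
* `ip_nodup`: a list `l` has no duplicates iff for all `i`, `j`, `a`:
  `l[i]? = some a → l[j]? = some a → i = j`
  (`List.nodup_iff_injective_get` or `List.Nodup` through `getElem?`; `IP.eqSome`, `IF.getElem?`).
* `om_unctb`: no internal set which contains all elements of `Θ` is countable: otherwise it is not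
  empty, so
  it is enumerated by an internal `e : ℕ → Θ` (`Cnt.enum`), and `hΘ.bdd` gives `a` with `e n < a`
  for all `n`, but `a = e n`
  for some `n`.
* `exists_bounded`: suppose not. For `m : ℕ` let `S m := {a | |φ a| < m}` (an internal function of
  `m`:
  `IF.compr`, `IP.ltR`, `IR.abs`, `IR.nat`). `(S m).s` is finite: otherwise it contains a finite
  set with
  `m + 1` elements (`Set.Infinite.exists_subset_card_eq`), and its list (`Finset.toList`,
  `Finset.nodup_toList`) is a list as in the statement. So all `S m` are countable (`Cnt.finite`)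
  and their union,
  which is everything, is countable (`Cnt.iUnion`): a contradiction to `om_unctb`. -/

universe u v w

namespace CPY

open WCal WM

variable {N : Type u} [WM N] {Θ : Type w} [WTy N Θ]

theorem ip_nodup {α : Type v} [WTy N α] {l : α → List Θ} (hl : IF N l) :
    IP N (fun a => (l a).Nodup) := by
  have key : ∀ m : List Θ, (∀ (i j : ℕ) (b : Θ), m[i]? = some b → m[j]? = some b → i = j) ↔
      m.Nodup := by
    intro m
    constructor
    · intro h
      rw [List.nodup_iff_getElem?_ne_getElem?]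
      intro i j hij hj heq
      have h1 : m[j]? = some m[j] := List.getElem?_eq_getElem hj
      exact absurd (h i j _ (heq.trans h1) h1) hij.ne
    · intro h i j b hi hj
      obtain ⟨hi1, hi2⟩ := List.getElem?_eq_some_iff.1 hi
      obtain ⟨hj1, hj2⟩ := List.getElem?_eq_some_iff.1 hj
      exact (h.getElem_inj_iff).1 (hi2.trans hj2.symm)
  refine IP.congr (fun a => key (l a)) ?_
  refine IP.all (P := fun (a : α) (i : ℕ) => ∀ (j : ℕ) (b : Θ), (l a)[i]? = some b →
    (l a)[j]? = some b → i = j) ?_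
  refine IP.all (P := fun (p : α × ℕ) (j : ℕ) => ∀ (b : Θ), (l p.1)[p.2]? = some b →
    (l p.1)[j]? = some b → p.2 = j) ?_
  refine IP.all (P := fun (p : (α × ℕ) × ℕ) (b : Θ) => (l p.1.1)[p.1.2]? = some b →
    (l p.1.1)[p.2]? = some b → p.1.2 = p.2) ?_
  have h1 : IF N (fun p : ((α × ℕ) × ℕ) × Θ => p.1) := IF.fst
  have h2 : IF N (fun p : ((α × ℕ) × ℕ) × Θ => p.1.1) := IF.fst' h1
  have h3 : IF N (fun p : ((α × ℕ) × ℕ) × Θ => p.1.1.1) := IF.fst' h2
  have h4 : IF N (fun p : ((α × ℕ) × ℕ) × Θ => p.1.1.2) := IF.snd' h2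
  have h5 : IF N (fun p : ((α × ℕ) × ℕ) × Θ => p.1.2) := IF.snd' h1
  exact IP.imp (IP.eqSome (IF.getElem? (hl.comp h3) h4) IF.snd)
    (IP.imp (IP.eqSome (IF.getElem? (hl.comp h3) h5) IF.snd) (IP.eq h4 h5))

theorem om_unctb [LinearOrder Θ] [Nonempty Θ] (hΘ : OmO N Θ) {S : St N Θ} (hS : ∀ a, a ∈ S) :
    ¬ Cnt S := by
  intro h
  obtain ⟨e, he, he'⟩ := h.enum ⟨Classical.arbitrary Θ, hS _⟩
  obtain ⟨a, ha⟩ := hΘ.bdd e he
  obtain ⟨n, hn⟩ := (he' a).1 (hS a)
  exact absurd (ha n) (by rw [hn]; exact lt_irrefl a)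

theorem exists_bounded [LinearOrder Θ] [Nonempty Θ] [Std N] (hΘ : OmO N Θ) {φ : Θ → ℝ}
    (hφ : IR N φ) :
    ∃ (m : ℕ) (s : List Θ), s.Nodup ∧ s.length = m + 1 ∧ ∀ a ∈ s, |φ a| < m := by
  by_contra hcon
  have hP : IP N (fun p : ℕ × Θ => |φ p.2| < (p.1 : ℝ)) :=
    IP.ltR (IR.abs (IR.comp hφ IF.snd)) (IR.nat IF.fst)
  have hfin : ∀ m : ℕ, {a : Θ | |φ a| < (m : ℝ)}.Finite := by
    intro m
    by_contra hinf
    obtain ⟨t, ht, htc⟩ := Set.Infinite.exists_subset_card_eq hinf (m + 1)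
    refine hcon ⟨m, t.toList, t.nodup_toList, ?_, fun a ha => ?_⟩
    · rw [Finset.length_toList, htc]
    · exact ht (Finset.mem_coe.2 (Finset.mem_toList.1 ha))
  have hS : IF N (fun m : ℕ => (⟨{a : Θ | |φ a| < (m : ℝ)}, hP.sec m⟩ : St N Θ)) :=
    IF.compr (P := fun (m : ℕ) (a : Θ) => |φ a| < (m : ℝ)) hP
  refine om_unctb hΘ (S := ⟨Set.univ, IP.const True⟩) (fun a => trivial) ?_
  refine Cnt.iUnion hS (fun m => Cnt.finite (hfin m)) fun a _ => ?_
  obtain ⟨m, hm⟩ := exists_nat_gt |φ a|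
  exact ⟨m, hm⟩

end CPY
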