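import Pool.Agent.CPY.K0
import Pool.Agent.CPY.SimpC

/-! # E2: the neighbourhood assignment (package K11)

(problem MP_ba5606_gt, ARH Part II, block E2; architect helper79; automation: `WCal/Simp.lean`)

PROOF. Let `S` be an internal family of open sets of `CC N X` which covers it and has no countable
subcover.
The relation `g.f ∈ Bv v ∧ ∃ U, U ∈ S ∧ ∀ g' : CC N X, g'.f ∈ Bv v → g' ∈ U` between `g` and `v` is
internal (`ip_Bv`) and
total (`isOpen_CC_iff`): `choice` gives `Φ`. The relation `∀ g', g' ∈ Nk c → g'.f ∈ Bv (Φ g)`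
between `c` and `g` is
internal (`ip_Nk`, `ip_Bv`): `choice'` gives `h` (default value: the constant function `0`), with
the property `sk`.
Let `T` be countable and suppose that for every `g` there is `e ∈ T` with `g.f ∈ Bv (Φ e)`. The
relation
`U ∈ S ∧ ∀ g' : CC N X, g'.f ∈ Bv (Φ e) → g' ∈ U` between `e` and `U` is internal and total:
`choice` gives an internal
`u : CC N X → St N (CC N X)`. `{U | ∃ e, e ∈ T ∧ u e = U}` is countable (`Cnt.image`), contained in
`S`, and covers: a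
contradiction. -/

universe u v w

namespace CPY

open WCal WM

variable {N : Type u} [WM N] [Std N] {X : Type v} [WTy N X] [TopologicalSpace X] [WSp N X]

theorem exists_KD (h : ¬ WLin N (CC N X)) : ∃ D : KD N X,
    ∀ T : St N (CC N X), Cnt T → ∃ g : CC N X, ∀ e, e ∈ T → g.f ∉ Bv (D.Φ e) := by
  unfold WLin at h
  push Not at h
  obtain ⟨S, hSo, hSc, hno⟩ := h
  obtain ⟨Φ, hΦ, hΦ'⟩ := choice (N := N) (α := CC N X) (β := List (X × ℚ × ℚ))
    (P := fun g v => g.f ∈ Bv v ∧ ∃ U : St N (CC N X), U ∈ S ∧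
      ∀ g' : CC N X, g'.f ∈ Bv v → g' ∈ U)
    (by simp (maxDischargeDepth := 99)) (fun g => by
      obtain ⟨U, hU, hg⟩ := hSc g
      obtain ⟨v, hv, hv'⟩ := isOpen_CC_iff.1 (hSo U hU) g hg
      exact ⟨v, hv, U, hU, hv'⟩)
  obtain ⟨h, hh, hh'⟩ := choice' (N := N) (α := KC N X) (β := CC N X)
    (P := fun c g => ∀ g' : CC N X, g' ∈ Nk c → g'.f ∈ Bv (Φ g))
    (IP.all (P := fun (p : KC N X × CC N X) (g' : CC N X) => g' ∈ Nk p.1 → g'.f ∈ Bv (Φ p.2))
      (IP.imp (ip_Nk (IF.fst.comp IF.fst) IF.snd) (ip_Bv IF.snd (hΦ.comp (IF.snd.comp IF.fst)))))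
    (⟨fun _ => 0, by simp, continuous_const⟩ : CC N X)
  refine ⟨⟨Φ, hΦ, fun g => (hΦ' g).1, h, hh, fun c g hc => hh' c ⟨g, hc⟩⟩, fun T hT => ?_⟩
  by_contra hcon
  push Not at hcon
  obtain ⟨u, hu, hu'⟩ := choice (N := N) (α := CC N X) (β := St N (CC N X))
    (P := fun e U => U ∈ S ∧ ∀ g' : CC N X, g'.f ∈ Bv (Φ e) → g' ∈ U)
    (by simp (maxDischargeDepth := 99) [hΦ.comp]) (fun e => (hΦ' e).2)
  obtain ⟨x, hx⟩ := hno ⟨{U | ∃ e, e ∈ T ∧ u e = U}, by
      simp (maxDischargeDepth := 99) [hu.comp]⟩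
    (Cnt.image hu hT fun U hU => hU) (by
      rintro U ⟨e, -, rfl⟩
      exact (hu' e).1)
  obtain ⟨e, he, he'⟩ := hcon x
  exact hx (u e) ⟨e, he, rfl⟩ ((hu' e).2 x he')

end CPY
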