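import Pool.Agent.CPY.K1
import Pool.Agent.WCal.Simp

/-! # E2: the countable set of points (package K3)

(problem MP_ba5606_gt, ARH Part II, block E2; architect helper79; automation: `WCal/Simp.lean`)

PROOF. If `X` is empty take the empty set. Otherwise `choice'` gives an internal `pt : TE N X → X`
with
`pt F ∈ top F` for all `F` with `top F ≠ ∅` (`ip_top`). Let
`A := {y | (∃ F, ovT E F ∧ pt F = y) ∨ ∃ d, d ∈ E ∧ ∃ t, t ∈ D.Φ d ∧ t.1 = y}`. It is countable: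
the tests over `E`
(`Cnt.list`, `Cnt.prod`, `Cnt.image`); for the second part `Cnt.biUnion` over `d ∈ E` of the finite
sets
`{y | ∃ t ∈ D.Φ d, t.1 = y}` (`Cnt.finite`). For `x : X` suppose that no `y ∈ clo A` satisfies
`∀ d ∈ E, d y = d x`. Then `tube` with `K = clo A`, `x₀ = x`, `U := False` gives a test `F` over
`E` with `x ∈ top F`
and `y ∉ tcl F` for all `y ∈ clo A`. But `pt F ∈ top F ⊆ tcl F` and `pt F ∈ A ⊆ clo A`
(`subset_closure`). -/

universe u v w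

namespace CPY

open WCal WM

variable {N : Type u} [WM N] [Std N] {X : Type v} [WTy N X] [TopologicalSpace X] [WSp N X]

omit [Std N] in
private theorem cnt_q (T : St N ℚ) : Cnt T := by
  have h1 : IF N (fun n : ℕ => qe.symm n) := by
    obtain ⟨s, hs⟩ := (IF.id : IF N (fun n : ℕ => n))
    refine ⟨s, fun p => ?_⟩
    have h1 : qe.symm p.1 = p.2 ↔ p.1 = qe p.2 := Equiv.symm_apply_eq qe
    exact h1.trans (hs (p.1, qe p.2))
  exact Cnt.range h1 fun q _ => ⟨qe q, Equiv.symm_apply_apply _ _⟩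

omit [Std N] in
private theorem cnt_q2 (T : St N (ℚ × ℚ)) : Cnt T :=
  Cnt.prod (cnt_q ⟨{_q | True}, IP.const True⟩) (cnt_q ⟨{_q | True}, IP.const True⟩)
    fun _ _ => ⟨trivial, trivial⟩

theorem KD.exists_pts (D : KD N X) (hX : WCpt N X) {E : St N (CC N X)} (hE : Cnt E) :
    ∃ A : St N X, Cnt A ∧ (∀ d, d ∈ E → ∀ t ∈ D.Φ d, t.1 ∈ A) ∧
      ∀ x : X, ∃ y, y ∈ clo A ∧ ∀ d, d ∈ E → d y = d x := by
  rcases isEmpty_or_nonempty X with hem | ⟨⟨x0⟩⟩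
  · exact ⟨⟨{_x | False}, IP.const False⟩, Or.inl fun i hi => hi,
      fun d _ t _ => (hem.false t.1).elim, fun x => (hem.false x).elim⟩
  obtain ⟨pt, hpt, hpt'⟩ := choice' (N := N) (P := fun (F : TE N X) (y : X) => y ∈ top F)
    (ip_top IF.fst IF.snd) x0
  have h0 : IP N (fun F : TE N X => ovT E F) := ip_ovT (IF.const E) IF.id
  have hΦ := D.Φi
  have h1 : IP N (fun y : X => ∃ F : TE N X, ovT E F ∧ pt F = y) :=
    IP.ex (P := fun (y : X) (F : TE N X) => ovT E F ∧ pt F = y)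
      (IP.and (IP.comp h0 IF.snd) (IP.eq (hpt.comp IF.snd) IF.fst))
  have h2 : IP N (fun y : X => ∃ d, d ∈ E ∧ ∃ t, t ∈ D.Φ d ∧ t.1 = y) := by
    simp (maxDischargeDepth := 99) [hΦ.comp]
  have h3 : IF N (fun d : CC N X => (⟨{y | ∃ t, t ∈ D.Φ d ∧ t.1 = y}, by
      simp (maxDischargeDepth := 99)⟩ : St N X)) := by
    refine IF.compr (P := fun (d : CC N X) (y : X) => ∃ t, t ∈ D.Φ d ∧ t.1 = y) ?_
    simp (maxDischargeDepth := 99) [hΦ.comp]
  refine ⟨⟨{y | (∃ F : TE N X, ovT E F ∧ pt F = y) ∨ ∃ d, d ∈ E ∧ ∃ t, t ∈ D.Φ d ∧ t.1 = y},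
    h1.or h2⟩, ?_, fun d hd t ht => Or.inr ⟨d, hd, t, ht, rfl⟩, fun x => ?_⟩
  · have c1 : Cnt (⟨{t | t.1 ∈ E}, IP.mem IF.fst (IF.const E)⟩ : St N (CC N X × ℚ × ℚ)) :=
      Cnt.prod hE (cnt_q2 ⟨{_q | True}, IP.const True⟩) fun p hp => ⟨hp, trivial⟩
    have c2 : Cnt (⟨{F | ovT E F}, h0⟩ : St N (TE N X)) := Cnt.list c1 fun F hF t ht => hF t ht
    have c3 : Cnt (⟨{y | ∃ F : TE N X, ovT E F ∧ pt F = y}, h1⟩ : St N X) :=
      Cnt.image hpt c2 fun y hy => hy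
    have c4 : Cnt (⟨{y | ∃ d, d ∈ E ∧ ∃ t, t ∈ D.Φ d ∧ t.1 = y}, h2⟩ : St N X) := by
      refine Cnt.biUnion hE h3 (fun d _ => Cnt.finite ?_) fun y hy => hy
      refine ((List.finite_toSet (D.Φ d)).image fun t => t.1).subset ?_
      rintro y ⟨t, ht, rfl⟩
      exact ⟨t, ht, rfl⟩
    exact Cnt.union c3 c4 fun y hy => hy
  · set A : St N X := ⟨{y | (∃ F : TE N X, ovT E F ∧ pt F = y) ∨
      ∃ d, d ∈ E ∧ ∃ t, t ∈ D.Φ d ∧ t.1 = y}, h1.or h2⟩ with hA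
    by_contra hcon
    push Not at hcon
    obtain ⟨F, hF1, hF2, hF3⟩ := tube hX (E := E) (K := clo A) (isClosed_clo A) (x₀ := x)
      (U := fun _ => False) (IP.const False) (by simp) (fun y hy hd => by
        obtain ⟨d, hd1, hd2⟩ := hcon y hy
        exact hd2 (hd d hd1))
    have h5 : pt F ∈ top F := hpt' F ⟨x, hF2⟩
    exact hF3 (pt F) (subset_closure (Or.inl ⟨F, hF1, rfl⟩)) (top_sub_tcl F h5)

end CPY
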