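import Pool.Agent.CPY.K2
import Pool.Agent.CPY.HPr
import Pool.Agent.CPY.SimpC

/-! # E2: the recursion (package K5)

(problem MP_ba5606_gt, ARH Part II, block E2; architect helper79; automation: `WCal/Simp.lean`)

PROOF. `sg_cnt`: `sg hΘ.lt hd b` is the image of the countable set `{a | a < b}` (`hΘ.seg`,
`Cnt.range`,
`Cnt.image`). `exists_seq`: `wfChoice` (`WCal/Rec.lean`) for `r a b := a < b` and the relation
`R b S y`: for all
`T : St N (CC N X)`, if `∀ g, g ∈ T ↔ ∃ q, q ∈ S ∧ q.2 = g`, then `y.f ∉ Bv (D.Φ e)` for all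
`e ∈ D.hull T`. It is internal
(quantifiers, `ip_Bv`, `D.Φi`; `e ∈ D.hull T` is internal by `D.hull_int`). Totality: let `S` be a
history at
`b`; its set of values `T` (internal) is the image of `{a | a < b}` (the unique values give an
internal
partial function; or: `S` is countable since it is the image of `{a | a < b}`), so countable, so
`D.hull T` is
countable (`cnt_hull`) and `hnc` gives `y`. For the resulting `d` and `b` take
`S = {q | q.1 < b ∧ d q.1 = q.2}`,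
`T = sg hΘ.lt hd b`. -/

universe u v w

namespace CPY

open WCal WM

variable {N : Type u} [WM N] [Std N] {X : Type v} [WTy N X] [TopologicalSpace X] [WSp N X]
  {Θ : Type w} [WTy N Θ] [LinearOrder Θ]

theorem sg_cnt (hΘ : OmO N Θ) {d : Θ → CC N X} (hd : IF N d) (b : Θ) : Cnt (sg hΘ.lt hd b) := by
  obtain ⟨e, he, he'⟩ := hΘ.seg b
  refine Cnt.range (e := fun n => d (e n)) (hd.comp he) ?_
  rintro g ⟨a, ha, rfl⟩
  obtain ⟨n, rfl⟩ := he' a ha
  exact ⟨n, rfl⟩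

/-- the relation of the recursion -/
private def RR (D : KD N X) (S : St N (Θ × CC N X)) (y : CC N X) : Prop :=
  ∀ T : St N (CC N X), (∀ g, (g ∈ T ↔ ∃ q, q ∈ S ∧ q.2 = g)) →
    ∀ e, e ∈ D.hull T → y.f ∉ Bv (D.Φ e)

omit [LinearOrder Θ] in
private theorem ip_RR (D : KD N X) :
    IP N (fun p : Θ × St N (Θ × CC N X) × CC N X => RR D p.2.1 p.2.2) := by
  have hI : IP N (fun p : St N (CC N X) × CC N X => p.2 ∈ D.hull p.1) :=
    D.hull_int (α := St N (CC N X)) IF.id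
  have hI' : IP N (fun p : CC N X × St N (CC N X) => p.1 ∈ D.hull p.2) :=
    IP.comp (P := fun p : St N (CC N X) × CC N X => p.2 ∈ D.hull p.1)
      (f := fun p : CC N X × St N (CC N X) => (p.2, p.1)) hI (IF.snd.pair IF.fst)
  refine IP.all (P := fun (p : Θ × St N (Θ × CC N X) × CC N X) (T : St N (CC N X)) =>
    (∀ g, (g ∈ T ↔ ∃ q, q ∈ p.2.1 ∧ q.2 = g)) →
    ∀ e, e ∈ D.hull T → p.2.2.f ∉ Bv (D.Φ e)) ?_
  refine IP.imp (by simp (maxDischargeDepth := 99)) ?_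
  refine IP.all (P := fun (p : (Θ × St N (Θ × CC N X) × CC N X) × St N (CC N X)) (e : CC N X) =>
    e ∈ D.hull p.2 → p.1.2.2.f ∉ Bv (D.Φ e)) ?_
  refine IP.imp (IP.comp2 (P := fun (e : CC N X) (T : St N (CC N X)) => e ∈ D.hull T) hI' IF.snd
    (IF.snd.comp IF.fst)) ?_
  simp (maxDischargeDepth := 99) [D.Φi.comp]

theorem KD.exists_seq (D : KD N X) (hΘ : OmO N Θ)
    (hnc : ∀ T : St N (CC N X), Cnt T → ∃ g : CC N X, ∀ e, e ∈ T → g.f ∉ Bv (D.Φ e)) :
    ∃ (d : Θ → CC N X) (hd : IF N d),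
      ∀ b e, e ∈ D.hull (sg hΘ.lt hd b) → (d b).f ∉ Bv (D.Φ e) := by
  obtain ⟨d, hd, hd'⟩ := wfChoice (N := N) (r := fun a b : Θ => a < b) hΘ.wf
    (fun a b c => lt_trans) hΘ.lt (R := fun _ S y => RR D S y) (ip_RR D) (by
      intro b S hS1 hS2 _
      obtain ⟨e, he, he'⟩ := hΘ.seg b
      have hTi : IP N (fun g : CC N X => ∃ q, q ∈ S ∧ q.2 = g) := by
        simp (maxDischargeDepth := 99)
      obtain ⟨f, hf, hf'⟩ := choice' (N := N) (α := ℕ) (β := CC N X)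
        (P := fun n g => (e n, g) ∈ S) (by simp (maxDischargeDepth := 99) [he.comp])
        (⟨fun _ => 0, by simp, continuous_const⟩ : CC N X)
      have hT : Cnt (⟨{g | ∃ q, q ∈ S ∧ q.2 = g}, hTi⟩ : St N (CC N X)) := by
        refine Cnt.range (e := f) hf ?_
        rintro g ⟨⟨a, g'⟩, hq, rfl⟩
        have ha : a < b := hS1 _ hq
        obtain ⟨n, rfl⟩ := he' a ha
        exact ⟨n, (hS2 _ ha).unique (hf' n ⟨_, hq⟩) hq⟩
      obtain ⟨y, hy⟩ := hnc _ (D.cnt_hull hT)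
      refine ⟨y, fun T' hT' e he => ?_⟩
      have hTT : T' = (⟨{g | ∃ q, q ∈ S ∧ q.2 = g}, hTi⟩ : St N (CC N X)) :=
        St.ext (Set.ext hT')
      rw [hTT] at he
      exact hy e he)
  refine ⟨d, hd, fun b e he => ?_⟩
  have hSi : IP N (fun q : Θ × CC N X => q.1 < b ∧ d q.1 = q.2) := by
    refine IP.and (IP.comp2 (P := fun a b : Θ => a < b) hΘ.lt IF.fst (IF.const b)) ?_
    simp (maxDischargeDepth := 99) [hd.comp]
  refine hd' b ⟨{q | q.1 < b ∧ d q.1 = q.2}, hSi⟩ (fun q => Iff.rfl) (sg hΘ.lt hd b) (fun g => ?_)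
    e he
  constructor
  · rintro ⟨a, ha, rfl⟩
    exact ⟨(a, d a), ⟨ha, rfl⟩, rfl⟩
  · rintro ⟨⟨a, g'⟩, ⟨ha, hq⟩, rfl⟩
    exact ⟨a, ha, hq⟩

end CPY
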