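import Pool.Agent.CPY.K2
import Pool.Agent.CPY.HPr

/-! # E2: finite character of the hull (package K6)

(problem MP_ba5606_gt, ARH Part II, block E2; architect helper79; automation: `WCal/Simp.lean`)

PROOF. Let `T` be the set of all `e` with: `(∀ S, e ∈ D.hull S)` or
`∃ a < b, ∀ S, (∀ a' ≤ a, d a' ∈ S) → e ∈ D.hull S`. It is
internal (quantifiers over `St N (CC N X)` and `Θ`, `D.hull_int`, `hΘ.lt`). It contains all `d a`,
`a < b`
(`D.sub_hull`). It is closed: let `c` be over `T`. Claim: all functions in `c` are in `D.hull S`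
for all `S`, or there is
`a < b` such that all functions in `c` are in `D.hull S` for all `S` which contain all `d a'`,
`a' ≤ a`. This is
proved by induction on lists (first for a list of functions, apply it to the concatenation of the
tests of `c`; or twice): for two indices take the larger one. In both cases `ovK (D.hull S) c`, so
`D.h c ∈ D.hull S` by `D.cl_hull`. So `D.hull (sg hΘ.lt hd b) ⊆ T` (`D.hull_min`). -/

universe u v w

namespace CPY

open WCal WM

variable {N : Type u} [WM N] [Std N] {X : Type v} [WTy N X] [TopologicalSpace X] [WSp N X]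
  {Θ : Type w} [WTy N Θ] [LinearOrder Θ]

/-- the statement `R S` holds for all `S`, or for all `S` which contain an initial segment -/
private def K6G (N : Type u) [WM N] {Y : Type v} [WTy N Y] {Θ : Type w} [LinearOrder Θ]
    (d : Θ → Y) (b : Θ) (R : St N Y → Prop) : Prop :=
  (∀ S, R S) ∨ ∃ a, a < b ∧ ∀ S : St N Y, (∀ a', a' ≤ a → d a' ∈ S) → R S

private theorem k6_and {N : Type u} [WM N] {Y : Type v} [WTy N Y] {Θ : Type w} [LinearOrder Θ]
    {d : Θ → Y} {b : Θ} {R R' : St N Y → Prop} (h : K6G N d b R) (h' : K6G N d b R') :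
    K6G N d b fun S => R S ∧ R' S := by
  rcases h with h | ⟨a, ha, h⟩ <;> rcases h' with h' | ⟨a', ha', h'⟩
  · exact Or.inl fun S => ⟨h S, h' S⟩
  · exact Or.inr ⟨a', ha', fun S hS => ⟨h S, h' S hS⟩⟩
  · exact Or.inr ⟨a, ha, fun S hS => ⟨h S hS, h' S⟩⟩
  · refine Or.inr ⟨max a a', max_lt ha ha', fun S hS => ⟨h S fun c hc => hS c ?_,
      h' S fun c hc => hS c ?_⟩⟩
    · exact hc.trans (le_max_left _ _)
    · exact hc.trans (le_max_right _ _)

private theorem k6_list {N : Type u} [WM N] {Y : Type v} [WTy N Y] {Θ : Type w} [LinearOrder Θ]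
    {d : Θ → Y} {b : Θ} {Z : Type*} {R : Z → St N Y → Prop} (l : List Z)
    (h : ∀ t ∈ l, K6G N d b (R t)) : K6G N d b fun S => ∀ t ∈ l, R t S := by
  induction l with
  | nil => exact Or.inl fun S t ht => absurd ht List.not_mem_nil
  | cons x l ih =>
    have h1 := k6_and (h x List.mem_cons_self) (ih fun t ht => h t (List.mem_cons_of_mem _ ht))
    rcases h1 with h1 | ⟨a, ha, h1⟩
    · refine Or.inl fun S t ht => ?_
      rcases List.mem_cons.1 ht with rfl | ht
      · exact (h1 S).1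
      · exact (h1 S).2 t ht
    · refine Or.inr ⟨a, ha, fun S hS t ht => ?_⟩
      rcases List.mem_cons.1 ht with rfl | ht
      · exact (h1 S hS).1
      · exact (h1 S hS).2 t ht

theorem KD.hull_split (D : KD N X) (hΘ : OmO N Θ) {d : Θ → CC N X} (hd : IF N d) {b : Θ}
    {e : CC N X} (he : e ∈ D.hull (sg hΘ.lt hd b)) : (∀ S, e ∈ D.hull S) ∨
      ∃ a < b, ∀ S : St N (CC N X), (∀ a' ≤ a, d a' ∈ S) → e ∈ D.hull S := by
  have h1 : IP N (fun p : St N (CC N X) × CC N X => p.2 ∈ D.hull p.1) := D.hull_int IF.id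
  have hlt := hΘ.lt
  have hle : IP N (fun p : Θ × Θ => p.1 ≤ p.2) := by
    have h2 : IP N (fun p : Θ × Θ => ¬ p.2 < p.1) := by
      simp (maxDischargeDepth := 99) only [IP.not, hlt.comp2 (P := fun a b => a < b), IF.fst',
        IF.snd', IF.id]
    simpa only [not_lt] using h2
  have hint : IP N (fun e : CC N X => (∀ S, e ∈ D.hull S) ∨
      ∃ a, a < b ∧ ∀ S : St N (CC N X), (∀ a', a' ≤ a → d a' ∈ S) → e ∈ D.hull S) := by
    simp (maxDischargeDepth := 99) [hd.comp, hlt.comp2 (P := fun a b => a < b),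
      hle.comp2 (P := fun a b => a ≤ b), h1.comp2 (P := fun S e => e ∈ D.hull S)]
  let T : St N (CC N X) := ⟨{e | (∀ S, e ∈ D.hull S) ∨
      ∃ a, a < b ∧ ∀ S : St N (CC N X), (∀ a', a' ≤ a → d a' ∈ S) → e ∈ D.hull S}, hint⟩
  have hT : ∀ e, e ∈ T ↔ K6G N d b fun S => e ∈ D.hull S := fun e => Iff.rfl
  have hcl : D.Cl T := by
    intro c hc
    rw [hT]
    have h2 : K6G N d b fun S => ∀ s ∈ c, ∀ t ∈ s.1, t.1 ∈ D.hull S :=
      k6_list c fun s hs => k6_list s.1 fun t ht => (hT _).1 (hc s hs t ht)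
    rcases h2 with h2 | ⟨a, ha, h2⟩
    · exact Or.inl fun S => D.cl_hull c (h2 S)
    · exact Or.inr ⟨a, ha, fun S hS => D.cl_hull c (h2 S hS)⟩
  have hmem : e ∈ T := D.hull_min hcl (fun g hg => by
    obtain ⟨a, ha, rfl⟩ := mem_sg.1 hg
    exact Or.inr ⟨a, ha, fun S hS => D.sub_hull (hS a le_rfl)⟩) he
  exact hmem

end CPY
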