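import Pool.Agent.CPY.K4
import Pool.Agent.CPY.K6

/-! # E2: the local property (package K7)

(problem MP_ba5606_gt, ARH Part II, block E2; architect helper79; no internal constructions here)

Write `E b := D.hull (sg hΘ.lt hd b)` (increasing in `b`: `hull_mono`, `mem_sg`). If
`Adh A (E γ) g` fails then
there is a code `v` with points in `clo A`, `g.f ∈ Bv v`, and no `d ∈ E γ` is in `Bv v`; the `d a`,
`a < γ`, are in
`E γ` (`sub_hull`, `mem_sg`). Otherwise let `b` be the least element of `Θ` with `Adh A (E b) g`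
(`hΘ.wf`,
`WellFounded.min`), so `b ≤ γ`. The hypotheses `hA`, `h` hold for `E b ⊆ E γ`, so `transfer` (with
`cl_hull`) gives `e ∈ E b` with `g.f ∈ Bv (D.Φ e)`. Apply `hull_split` to `e`.
(1) `e ∈ D.hull S` for all `S`: then `d a ∉ Bv (D.Φ e)` for all `a` (`hs`); take `v = D.Φ e`
(points in `A ⊆ clo A`).
(2) `a < b` and `e ∈ D.hull S` for all `S` which contain all `d a'`, `a' ≤ a`: so `e ∈ E a''` for
all `a'' > a`, so
`d a'' ∉ Bv (D.Φ e)` for all `a'' > a` (`hs`). By minimality of `b`, `Adh A (E a) g` fails: there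
is a code `v'` with
points in `clo A`, `g.f ∈ Bv v'`, and no element of `E a`, in particular no `d a'`, `a' < a`, is in
`Bv v'`. Take
`v = D.Φ e ++ v'`: only `d a` can be in `Bv v`. -/

universe u v w

namespace CPY

open WCal WM

variable {N : Type u} [WM N] [Std N] {X : Type v} [WTy N X] [TopologicalSpace X] [WSp N X]
  {Θ : Type w} [WTy N Θ] [LinearOrder Θ]

theorem KD.local_one (D : KD N X) (hX : WCpt N X) (hΘ : OmO N Θ) {d : Θ → CC N X} (hd : IF N d)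
    (hs : ∀ b e, e ∈ D.hull (sg hΘ.lt hd b) → (d b).f ∉ Bv (D.Φ e)) (γ : Θ) {A : St N X}
    (hA : ∀ e, e ∈ D.hull (sg hΘ.lt hd γ) → ∀ t ∈ D.Φ e, t.1 ∈ A)
    (h : ∀ x : X, ∃ y, y ∈ clo A ∧ ∀ e, e ∈ D.hull (sg hΘ.lt hd γ) → e y = e x) (g : CC N X) :
    ∃ v : List (X × ℚ × ℚ), (∀ t ∈ v, t.1 ∈ clo A) ∧ g.f ∈ Bv v ∧
      ∀ a a', a < γ → a' < γ → (d a).f ∈ Bv v → (d a').f ∈ Bv v → a = a' := by
  have hin : ∀ a b, a < b → d a ∈ D.hull (sg hΘ.lt hd b) := fun a b hab =>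
    D.sub_hull (mem_sg.2 ⟨a, hab, rfl⟩)
  have hno : ∀ b, ¬ Adh A (D.hull (sg hΘ.lt hd b)) g → ∃ v : List (X × ℚ × ℚ),
      (∀ t ∈ v, t.1 ∈ clo A) ∧ g.f ∈ Bv v ∧ ∀ a, a < b → (d a).f ∉ Bv v := by
    intro b hb
    unfold Adh at hb
    push Not at hb
    obtain ⟨v, h1, h2, h3⟩ := hb
    exact ⟨v, h1, h2, fun a hab => h3 _ (hin a b hab)⟩
  by_cases hγ : Adh A (D.hull (sg hΘ.lt hd γ)) g
  · obtain ⟨b, hb, hmin⟩ : ∃ b, Adh A (D.hull (sg hΘ.lt hd b)) g ∧
        ∀ a, a < b → ¬ Adh A (D.hull (sg hΘ.lt hd a)) g := by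
      have hne : {b : Θ | Adh A (D.hull (sg hΘ.lt hd b)) g}.Nonempty := ⟨γ, hγ⟩
      refine ⟨hΘ.wf.min _ hne, hΘ.wf.min_mem _ hne, fun a ha h1 => ?_⟩
      exact hΘ.wf.not_lt_min _ (show a ∈ {b : Θ | Adh A (D.hull (sg hΘ.lt hd b)) g} from h1) ha
    have hbγ : b ≤ γ := by
      by_contra hcon
      exact hmin γ (not_le.1 hcon) hγ
    have hsub : ∀ e, e ∈ D.hull (sg hΘ.lt hd b) → e ∈ D.hull (sg hΘ.lt hd γ) := fun e he => by
      refine D.hull_mono (fun g' hg' => ?_) he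
      obtain ⟨a, ha, h1⟩ := mem_sg.1 hg'
      exact mem_sg.2 ⟨a, ha.trans_le hbγ, h1⟩
    obtain ⟨e, he, hge⟩ := D.transfer hX D.cl_hull (fun e he => hA e (hsub e he)) (fun x => by
      obtain ⟨y, hy, h1⟩ := h x
      exact ⟨y, hy, fun e he => h1 e (hsub e he)⟩) hb
    have hpts : ∀ t ∈ D.Φ e, t.1 ∈ clo A := fun t ht =>
      mem_clo.2 (subset_closure (hA e (hsub e he) t ht))
    rcases D.hull_split hΘ hd he with h1 | ⟨a, hab, h1⟩
    · refine ⟨D.Φ e, hpts, hge, fun a _ _ _ ha _ => ?_⟩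
      exact absurd ha (hs a e (h1 _))
    · obtain ⟨v', h2, h3, h4⟩ := hno a (hmin a hab)
      have happ : ∀ c : X → ℝ, c ∈ Bv (D.Φ e ++ v') ↔ c ∈ Bv (D.Φ e) ∧ c ∈ Bv v' := by
        intro c
        constructor
        · intro hc
          exact ⟨fun t ht => hc t (List.mem_append_left _ ht),
            fun t ht => hc t (List.mem_append_right _ ht)⟩
        · rintro ⟨hc1, hc2⟩ t ht
          rcases List.mem_append.1 ht with ht | ht
          · exact hc1 t ht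
          · exact hc2 t ht
      have key : ∀ a1, (d a1).f ∈ Bv (D.Φ e ++ v') → a1 = a := by
        intro a1 ha1
        obtain ⟨h5, h6⟩ := (happ _).1 ha1
        rcases lt_trichotomy a1 a with h7 | h7 | h7
        · exact absurd h6 (h4 a1 h7)
        · exact h7
        · refine absurd h5 (hs a1 e (h1 _ fun a' ha' => ?_))
          exact mem_sg.2 ⟨a', ha'.trans_lt h7, rfl⟩
      refine ⟨D.Φ e ++ v', fun t ht => ?_, (happ _).2 ⟨hge, h3⟩, fun a1 a2 _ _ h5 h6 =>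
        (key a1 h5).trans (key a2 h6).symm⟩
      rcases List.mem_append.1 ht with ht | ht
      · exact hpts t ht
      · exact h2 t ht
  · obtain ⟨v, h1, h2, h3⟩ := hno γ hγ
    exact ⟨v, h1, h2, fun a _ haγ _ ha _ => absurd ha (h3 a haγ)⟩

end CPY
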