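import Pool.Agent.CPY.K0
import Pool.Agent.WCal.Simp

/-! # E2: networks (package K8)

(problem MP_ba5606_gt, ARH Part II, block E2; architect helper79; automation: `WCal/Simp.lean`)

PROOF. Let `M : ℕ → St N X` be the network of `clo A` (`hnet`). Codes `k : List (ℕ × ℚ × ℚ)`,
`R k := {g : CC N X | ∀ s, s ∈ k → ∀ x, x ∈ M s.1 → x ∈ clo A → s.2.1 < g x ∧ g x < s.2.2}`
(internal in `(k, g)`). Let
`W k v := Q v ∧ ∀ g, g ∈ R k → g.f ∈ Bv v` (internal). `choice'` gives an internal `w` with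
`W k (w k)` for all `k` for
which some `v` satisfies `W k v`; for the other `k` the value is a fixed `v₀` with `Q v₀` (exists
by `hl` for
the constant function `0`, an element of `CC N X`: `IR.const`, `isR_rat`; define
`w' k := if ∃ v, W k v then w k else v₀`,
`IF.ite`). For every `g` let `v` be as in `hl`; for `t ∈ v` the set
`{x | t.2.1 < g x ∧ g x < t.2.2}` is an open set which
contains `t.1 ∈ clo A`, so there is `n` with `t.1 ∈ M n` and `t.2.1 < g x < t.2.2` for `x ∈ M n`,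
`x ∈ clo A`;
by (native) induction on the list `v` there is a code `k` with `g ∈ R k` and
`R k ⊆ {g' | g'.f ∈ Bv v}` (the item of
`t` is `(n, t.2.1, t.2.2)`, and `t.1 ∈ M n`, `t.1 ∈ clo A`). So `W k v`, and `g ∈ R k` gives
`g.f ∈ Bv (w' k)`. Finally the
set of all codes `List (ℕ × ℚ × ℚ)` is countable (`Cnt.list`, `Cnt.prod`), so it is enumerated by an
internal function `e : ℕ → List (ℕ × ℚ × ℚ)` (`Cnt.enum`); the sequence is `n ↦ w' (e n)`. -/

universe u v w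

namespace CPY

open WCal WM

variable {N : Type u} [WM N] [Std N] {X : Type v} [WTy N X] [TopologicalSpace X] [WSp N X]

omit [Std N] in
private theorem if_qe : IF N (fun n : ℕ => (qe.symm n : ℚ)) := by
  refine IP.of_sat (STP.Fml.ex (STP.fOP 1 0 0)) (fun _ => rg N ℚ) fun p => ?_
  simp only [STP.sat_ex, STP.sat_fOP, STP.cns_zero, STP.cns_one, isOP_iff]
  change qe.symm p.1 = p.2 ↔ ∃ x, op (cd N p.1) (cd N (qe p.2)) = op x x
  constructor
  · intro h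
    exact ⟨cd N p.1, by rw [← h, qe.apply_symm_apply]⟩
  · rintro ⟨x, hx⟩
    obtain ⟨h1, h2⟩ := op_inj.1 hx
    have h3 : p.1 = qe p.2 := cd_inj.1 (h1.trans h2.symm)
    rw [h3, qe.symm_apply_apply]

omit [Std N] in
private theorem exists_enum_codes :
    ∃ e : ℕ → List (ℕ × ℚ × ℚ), IF N e ∧ ∀ k, ∃ n, e n = k := by
  have h1 : Cnt (⟨Set.univ, IP.const True⟩ : St N ℚ) :=
    Cnt.range if_qe fun a _ => ⟨qe a, qe.symm_apply_apply a⟩
  have h2 : Cnt (⟨Set.univ, IP.const True⟩ : St N (ℚ × ℚ)) :=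
    Cnt.prod h1 h1 fun p _ => ⟨trivial, trivial⟩
  have h3 : Cnt (⟨Set.univ, IP.const True⟩ : St N (ℕ × ℚ × ℚ)) :=
    Cnt.prod (Cnt.nat ⟨Set.univ, IP.const True⟩) h2 fun p _ => ⟨trivial, trivial⟩
  have h4 : Cnt (⟨Set.univ, IP.const True⟩ : St N (List (ℕ × ℚ × ℚ))) :=
    Cnt.list h3 fun l _ a _ => trivial
  obtain ⟨e, he, he'⟩ := h4.enum ⟨[], trivial⟩
  exact ⟨e, he, fun k => (he' k).1 trivial⟩

theorem exists_cover {A : St N X} (hnet : WNet N (clo A)) {Q : List (X × ℚ × ℚ) → Prop}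
    (hQ : IP N Q) (hl : ∀ g : CC N X, ∃ v : List (X × ℚ × ℚ), (∀ t ∈ v, t.1 ∈ clo A) ∧
      g.f ∈ Bv v ∧ Q v) :
    ∃ v : ℕ → List (X × ℚ × ℚ), IF N v ∧ (∀ n, Q (v n)) ∧ ∀ g : CC N X, ∃ n, g.f ∈ Bv (v n) := by
  classical
  obtain ⟨M, hM, hM'⟩ := hnet
  have hW : IP N (fun p : List (ℕ × ℚ × ℚ) × List (X × ℚ × ℚ) => Q p.2 ∧ ∀ g : CC N X,
      (∀ s, s ∈ p.1 → ∀ x, x ∈ M s.1 → x ∈ clo A → (s.2.1 : ℝ) < g x ∧ g x < (s.2.2 : ℝ)) →
        g.f ∈ Bv p.2) := by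
    simp (maxDischargeDepth := 99) [hM.comp, hQ.comp]
  obtain ⟨v0, -, -, hv0⟩ := hl ⟨fun _ => 0, IR.const isR_zero, continuous_const⟩
  obtain ⟨w, hw, hw'⟩ := choice' (P := fun (k : List (ℕ × ℚ × ℚ)) (v : List (X × ℚ × ℚ)) =>
    Q v ∧ ∀ g : CC N X,
      (∀ s, s ∈ k → ∀ x, x ∈ M s.1 → x ∈ clo A → (s.2.1 : ℝ) < g x ∧ g x < (s.2.2 : ℝ)) →
        g.f ∈ Bv v) hW v0
  have hw2 : IF N (fun k => if Q (w k) then w k else v0) :=
    IF.ite (P := fun k => Q (w k)) (hQ.comp hw) hw (IF.const v0)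
  obtain ⟨e, he, he'⟩ := exists_enum_codes (N := N)
  have hcode : ∀ (g : CC N X) (v : List (X × ℚ × ℚ)), (∀ t ∈ v, t.1 ∈ clo A) → g.f ∈ Bv v →
      ∃ k : List (ℕ × ℚ × ℚ),
        (∀ s, s ∈ k → ∀ x, x ∈ M s.1 → x ∈ clo A → (s.2.1 : ℝ) < g x ∧ g x < (s.2.2 : ℝ)) ∧
        ∀ g' : CC N X, (∀ s, s ∈ k → ∀ x, x ∈ M s.1 → x ∈ clo A →
          (s.2.1 : ℝ) < g' x ∧ g' x < (s.2.2 : ℝ)) → g'.f ∈ Bv v := by
    intro g v
    induction v with
    | nil =>
      intro _ _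
      exact ⟨[], by simp, fun g' _ => by simp [Bv]⟩
    | cons t v ih =>
      intro h1 h2
      obtain ⟨k, hk1, hk2⟩ := ih (fun t' ht' => h1 t' (List.mem_cons_of_mem _ ht'))
        (fun t' ht' => h2 t' (List.mem_cons_of_mem _ ht'))
      have h3 := h2 t List.mem_cons_self
      have h4 : IsOpen {x : X | (t.2.1 : ℝ) < g x ∧ g x < (t.2.2 : ℝ)} :=
        (isOpen_lt continuous_const g.cont).inter (isOpen_lt g.cont continuous_const)
      obtain ⟨n, hn1, hn2⟩ := hM' t.1 (h1 t List.mem_cons_self) _ h4 h3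
      refine ⟨(n, t.2) :: k, ?_, ?_⟩
      · intro s hs x hx hxA
        rcases List.mem_cons.1 hs with rfl | hs
        · exact hn2 x hx hxA
        · exact hk1 s hs x hx hxA
      · intro g' hg' t' ht'
        rcases List.mem_cons.1 ht' with rfl | ht'
        · exact hg' (n, t'.2) List.mem_cons_self t'.1 hn1 (h1 t' List.mem_cons_self)
        · exact hk2 g' (fun s hs => hg' s (List.mem_cons_of_mem _ hs)) t' ht'
  refine ⟨fun n => if Q (w (e n)) then w (e n) else v0, IF.comp hw2 he, fun n => ?_, fun g => ?_⟩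
  · by_cases h : Q (w (e n))
    · simp only [if_pos h]
      exact h
    · simp only [if_neg h]
      exact hv0
  · obtain ⟨v, hv1, hv2, hv3⟩ := hl g
    obtain ⟨k, hk1, hk2⟩ := hcode g v hv1 hv2
    obtain ⟨n, rfl⟩ := he' k
    obtain ⟨h5, h6⟩ := hw' (e n) ⟨v, hv3, hk2⟩
    refine ⟨n, ?_⟩
    simp only [if_pos h5]
    exact h6 g hk1

end CPY
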