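import Pool.Agent.CPY.ThetaF
import Pool.Agent.CPY.K3
import Pool.Agent.CPY.K5
import Pool.Agent.CPY.K7
import Pool.Agent.CPY.K8
import Pool.Agent.CPY.K10
import Pool.Agent.CPY.K11

/-! # E2: the space of continuous functions is Lindelöf (assembly, package K12)

(problem MP_ba5606_gt, ARH Part II, block E2; architect helper79; automation: `WCal/Simp.lean`)

PROOF. Suppose not; `exists_KD` gives `D`, `hnc`, and `exists_seq` gives `d`, `hd`, `hs`. Index type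
`ι := ℕ × List Θ`, `P i := i.2.Nodup ∧ i.2.length = i.1 + 1` (`ip_nodup`),
`U i ψ := ∀ a ∈ i.2, |ψ (d a)| < i.1` for
`ψ : CC N (CC N X)` (internal: `IP.memList`, `IP.ltR`, `IR.abs`, `IR.evC`, `IR.nat`; open: finite
intersection of
preimages of open sets under the continuous evaluations `CC.continuous_eval`). By `exists_bounded`
for
`φ a = ψ (d a)` these sets cover. `hL.idx` gives a countable `J`. The set
`B := {a | ∃ i, i ∈ J ∧ a ∈ i.2}` is countable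
(`Cnt.biUnion` of finite sets), so there is `γ` with `a < γ` for all `a ∈ B` (`hΘ.bdd` for an
enumeration, `Cnt.enum`; if
`B` is empty any `γ`). Let `E := D.hull (sg hΘ.lt hd γ)` (countable: `sg_cnt`, `cnt_hull`), `A` as
in `exists_pts`.
`local_one` and `exists_cover` with
`Q v := ∀ a a', a < γ → a' < γ → (d a).f ∈ Bv v → (d a').f ∈ Bv v → a = a'` (`hnet A`) give a
sequence `v`, and
`exists_theta` gives `P₀ : CC N (CC N X)`. There is `(m, s) ∈ J` with `|P₀ (d a)| < m` for all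
`a ∈ s`, `s.Nodup`,
`s.length = m + 1`. So for every `a ∈ s` there is `n < m` with `(d a).f ∈ Bv (v n)`; by the
pigeonhole principle
(`Finset.exists_ne_map_eq_of_card_lt_of_maps_to` for `s.toFinset` (classical), with `m + 1`
elements, and
`Finset.range m`) there are different `a, a' ∈ s` with the same `n`; they are in `B`, so below `γ`,
a contradiction
to `Q (v n)`. -/

universe u v w

namespace CPY

open WCal WM

variable {N : Type u} [WM N] [Std N] {X : Type v} [WTy N X] [TopologicalSpace X] [WSp N X]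
  {Θ : Type w} [WTy N Θ] [LinearOrder Θ] [Nonempty Θ]

/-- block E2: if `X` is compact, `C_p(C_p(X))` is Lindelöf, and the closures of countable sets have
countable networks, then `C_p(X)` is Lindelöf -/
theorem wlin_CC (hX : WCpt N X) (hL : WLin N (CC N (CC N X)))
    (hnet : ∀ A : St N X, Cnt A → WNet N (clo A)) (hΘ : OmO N Θ) : WLin N (CC N X) := by
  classical
  by_contra hcon
  obtain ⟨D, hnc⟩ := exists_KD hcon
  obtain ⟨d, hd, hs⟩ := D.exists_seq hΘ hnc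
  have hP : IP N (fun i : ℕ × List Θ => i.2.Nodup ∧ i.2.length = i.1 + 1) :=
    IP.and (ip_nodup IF.snd) (IP.eq (IF.length IF.snd) (IF.succ IF.fst))
  have hU : IP N (fun p : (ℕ × List Θ) × CC N (CC N X) =>
      ∀ a, a ∈ p.1.2 → |p.2 (d a)| < (p.1.1 : ℝ)) := by
    refine IP.all (P := fun (p : (ℕ × List Θ) × CC N (CC N X)) (a : Θ) =>
      a ∈ p.1.2 → |p.2 (d a)| < (p.1.1 : ℝ)) ?_
    have h1 : IF N (fun z : ((ℕ × List Θ) × CC N (CC N X)) × Θ => z.1.1) := IF.fst' IF.fst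
    have h2 : IF N (fun z : ((ℕ × List Θ) × CC N (CC N X)) × Θ => z.1.2) := IF.snd' IF.fst
    refine IP.imp (IP.memList IF.snd (IF.snd' h1)) (IP.ltR (IR.abs ?_) (IR.nat (IF.fst' h1)))
    exact IR.evC h2 (IF.comp hd IF.snd)
  have ho : ∀ i : ℕ × List Θ, (i.2.Nodup ∧ i.2.length = i.1 + 1) →
      IsOpen {ψ : CC N (CC N X) | ∀ a, a ∈ i.2 → |ψ (d a)| < (i.1 : ℝ)} := by
    intro i _
    have h1 : {ψ : CC N (CC N X) | ∀ a, a ∈ i.2 → |ψ (d a)| < (i.1 : ℝ)} =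
        ⋂ a ∈ {a | a ∈ i.2}, {ψ : CC N (CC N X) | |ψ (d a)| < (i.1 : ℝ)} := by
      ext ψ
      simp
    rw [h1]
    refine Set.Finite.isOpen_biInter (List.finite_toSet i.2) fun a _ => ?_
    exact isOpen_lt (CC.continuous_eval (d a)).abs continuous_const
  have hc : ∀ ψ : CC N (CC N X), ∃ i : ℕ × List Θ, (i.2.Nodup ∧ i.2.length = i.1 + 1) ∧
      ∀ a, a ∈ i.2 → |ψ (d a)| < (i.1 : ℝ) := by
    intro ψ
    obtain ⟨m, s, h1, h2, h3⟩ := exists_bounded hΘ (φ := fun a => ψ (d a)) (IR.comp ψ.int hd)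
    exact ⟨(m, s), ⟨h1, h2⟩, h3⟩
  obtain ⟨J, hJ, hJP, hJc⟩ := hL.idx hP hU ho hc
  have hBi : IP N (fun a : Θ => ∃ i : ℕ × List Θ, (i ∈ J ∧ a ∈ i.2)) :=
    IP.ex (P := fun (a : Θ) (i : ℕ × List Θ) => i ∈ J ∧ a ∈ i.2)
      (IP.and (IP.mem IF.snd (IF.const J)) (IP.memList IF.fst (IF.snd' IF.snd)))
  have hB : Cnt (⟨{a | ∃ i : ℕ × List Θ, (i ∈ J ∧ a ∈ i.2)}, hBi⟩ : St N Θ) := by
    have hS : IP N (fun p : (ℕ × List Θ) × Θ => p.2 ∈ p.1.2) :=
      IP.memList IF.snd (IF.snd' IF.fst)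
    refine Cnt.biUnion hJ (IF.compr (P := fun (i : ℕ × List Θ) (a : Θ) => a ∈ i.2) hS)
      (fun i _ => ?_) fun a ha => ?_
    · exact Cnt.finite (List.finite_toSet i.2)
    · obtain ⟨i, hi, hai⟩ := ha
      exact ⟨i, hi, hai⟩
  obtain ⟨γ, hγ⟩ : ∃ γ : Θ, ∀ i : ℕ × List Θ, i ∈ J → ∀ a, a ∈ i.2 → a < γ := by
    by_cases hne : ∃ a, a ∈ (⟨{a | ∃ i : ℕ × List Θ, (i ∈ J ∧ a ∈ i.2)}, hBi⟩ : St N Θ)
    · obtain ⟨e, he, he'⟩ := hB.enum hne
      obtain ⟨γ, hγ⟩ := hΘ.bdd e he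
      refine ⟨γ, fun i hi a ha => ?_⟩
      obtain ⟨n, rfl⟩ := (he' a).1 ⟨i, hi, ha⟩
      exact hγ n
    · obtain ⟨γ⟩ := (inferInstance : Nonempty Θ)
      exact ⟨γ, fun i hi a ha => absurd ⟨a, i, hi, ha⟩ hne⟩
  have hE : Cnt (D.hull (sg hΘ.lt hd γ)) := D.cnt_hull (sg_cnt hΘ hd γ)
  obtain ⟨A, hA, hA1, hA2⟩ := D.exists_pts hX hE
  have hQ : IP N (fun v : List (X × ℚ × ℚ) => ∀ a a', a < γ → a' < γ → (d a).f ∈ Bv v →
      (d a').f ∈ Bv v → a = a') := by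
    refine IP.all (P := fun (v : List (X × ℚ × ℚ)) (a : Θ) => ∀ a', a < γ → a' < γ →
      (d a).f ∈ Bv v → (d a').f ∈ Bv v → a = a') ?_
    refine IP.all (P := fun (p : List (X × ℚ × ℚ) × Θ) (a' : Θ) => p.2 < γ → a' < γ →
      (d p.2).f ∈ Bv p.1 → (d a').f ∈ Bv p.1 → p.2 = a') ?_
    have h1 : IF N (fun z : (List (X × ℚ × ℚ) × Θ) × Θ => z.1.1) := IF.fst' IF.fst
    have h2 : IF N (fun z : (List (X × ℚ × ℚ) × Θ) × Θ => z.1.2) := IF.snd' IF.fst
    have h3 : IF N (fun z : (List (X × ℚ × ℚ) × Θ) × Θ => z.2) := IF.snd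
    refine IP.imp (IP.comp2 (P := fun a b : Θ => a < b) hΘ.lt h2 (IF.const γ)) ?_
    refine IP.imp (IP.comp2 (P := fun a b : Θ => a < b) hΘ.lt h3 (IF.const γ)) ?_
    exact IP.imp (ip_Bv (IF.comp hd h2) h1) (IP.imp (ip_Bv (IF.comp hd h3) h1) (IP.eq h2 h3))
  obtain ⟨v, hv, hQv, hvc⟩ := exists_cover (hnet A hA) hQ fun g =>
    D.local_one hX hΘ hd hs γ hA1 hA2 g
  obtain ⟨P₀, hP0, hP1⟩ := exists_theta hv hvc
  obtain ⟨i, hi, hi'⟩ := hJc P₀
  obtain ⟨hnd, hlen⟩ := hJP i hi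
  have h1 : ∀ a, ∃ n, a ∈ i.2 → n < i.1 ∧ (d a).f ∈ Bv (v n) := by
    intro a
    by_cases ha : a ∈ i.2
    · obtain ⟨n, hn, hn'⟩ := hP1 (d a) i.1 ((le_abs_self _).trans_lt (hi' a ha))
      exact ⟨n, fun _ => ⟨hn, hn'⟩⟩
    · exact ⟨0, fun h => absurd h ha⟩
  choose f hf using h1
  obtain ⟨a, ha, a', ha', hne, heq⟩ := Finset.exists_ne_map_eq_of_card_lt_of_maps_to
    (s := i.2.toFinset) (t := Finset.range i.1) (f := f) (by
      rw [List.toFinset_card_of_nodup hnd, hlen, Finset.card_range]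
      exact Nat.lt_succ_self _) (fun a ha => by
      exact Finset.mem_coe.2 (Finset.mem_range.2 (hf a (List.mem_toFinset.1 ha)).1))
  have ha1 := List.mem_toFinset.1 ha
  have ha2 := List.mem_toFinset.1 ha'
  refine hne (hQv (f a) a a' (hγ i hi a ha1) (hγ i hi a' ha2) (hf a ha1).2 ?_)
  rw [heq]
  exact (hf a' ha2).2

end CPY
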