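import Pool.Agent.CPY.K0
import Pool.Agent.WCal.Simp

/-! # E2: hulls (package K2)

(problem MP_ba5606_gt, ARH Part II, block E2; architect helper79; automation: `WCal/Simp.lean`)

PROOFS.
* `cl_hull`: if `c` is over `hull S` then it is over every closed `T ⊇ S`. `sub_hull`, `hull_min`,
  `hull_mono`: clear.
* `cnt_step`: if `T` is countable then so is `{h c | ovK T c}`: the set of all `t : CC N X × ℚ × ℚ`
  with
  `t.1 ∈ T` is countable (`Cnt.prod`, `ℚ` is countable: `Cnt.image` of `ℕ` under `qe.symm`, or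
  `Cnt.range`), so is the set of all tests over `T` (`Cnt.list`), again `Cnt.prod` and `Cnt.list`,
  and
  `Cnt.image` under `h`.
* `cnt_hull`: let `G T := {g | g ∈ T ∨ ∃ c, ovK T c ∧ h c = g}` (an internal function on
  `St N (CC N X)`:
  `IF.compr`, `ip_ovK`, `IP.mem`), `T n := G^[n] S` (`IF.iter`), all countable by native induction
  (`Cnt.union`, `cnt_step`), increasing. `Tω := {g | ∃ n, g ∈ T n}` is countable (`Cnt.iUnion`) and
  closed: a code `c` over `Tω` is over some `T n` (native induction on the two lists, the sets are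
  increasing), so `h c ∈ T (n + 1)`. So `hull S ⊆ Tω`: `Cnt.mono`. -/

universe u v w

namespace CPY

open WCal WM

variable {N : Type u} [WM N] [Std N] {X : Type v} [WTy N X] [TopologicalSpace X] [WSp N X]

omit [Std N] in
private theorem cnt_q (T : St N ℚ) : Cnt T := by
  have h1 : IF N (fun n : ℕ => (qe.symm n : ℚ)) := by
    refine IP.of_sat (STP.Fml.ex (STP.fOP 1 0 0)) (fun _ => emp) fun p => ?_
    simp only [STP.sat_ex, STP.sat_fOP, STP.cns_zero, STP.cns_one, isOP_iff]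
    change qe.symm p.1 = p.2 ↔ ∃ x, op (nt N p.1) (nt N (qe p.2)) = op x x
    constructor
    · intro h
      refine ⟨nt N p.1, ?_⟩
      rw [← h, Equiv.apply_symm_apply]
    · rintro ⟨x, hx⟩
      obtain ⟨h1, h2⟩ := op_inj.1 hx
      have h3 : p.1 = qe p.2 := nt_inj (h1.trans h2.symm)
      rw [h3, Equiv.symm_apply_apply]
  exact Cnt.range h1 fun q _ => ⟨qe q, Equiv.symm_apply_apply _ _⟩

omit [Std N] in
private theorem cnt_q2 (T : St N (ℚ × ℚ)) : Cnt T :=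
  Cnt.prod (cnt_q ⟨{_q | True}, IP.const True⟩) (cnt_q ⟨{_q | True}, IP.const True⟩)
    fun _ _ => ⟨trivial, trivial⟩

private theorem list_bd {A : Type*} (Q : ℕ → A → Prop) (hQ : ∀ n m a, n ≤ m → Q n a → Q m a)
    (l : List A) (h : ∀ a ∈ l, ∃ n, Q n a) : ∃ n, ∀ a ∈ l, Q n a := by
  induction l with
  | nil => exact ⟨0, fun a ha => absurd ha List.not_mem_nil⟩
  | cons a l ih =>
    obtain ⟨n, hn⟩ := h a (List.mem_cons_self)
    obtain ⟨m, hm⟩ := ih fun b hb => h b (List.mem_cons_of_mem _ hb)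
    refine ⟨max n m, fun b hb => ?_⟩
    rcases List.mem_cons.1 hb with rfl | hb
    · exact hQ _ _ _ (le_max_left _ _) hn
    · exact hQ _ _ _ (le_max_right _ _) (hm b hb)

namespace KD

variable (D : KD N X) {S S' T : St N (CC N X)} {g : CC N X}

theorem cl_hull : D.Cl (D.hull S) := by
  intro c hc T hT h
  exact hT c fun s hs t ht => hc s hs t ht T hT h

theorem sub_hull (h : g ∈ S) : g ∈ D.hull S := fun _ _ hS => hS g h

theorem hull_min (hT : D.Cl T) (h : ∀ g, g ∈ S → g ∈ T) (hg : g ∈ D.hull S) : g ∈ T :=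
  hg T hT h

theorem hull_mono (h : ∀ g, g ∈ S → g ∈ S') (hg : g ∈ D.hull S) : g ∈ D.hull S' :=
  fun T hT hS' => hg T hT fun g hg => hS' g (h g hg)

theorem cnt_step (hT : Cnt T) {T' : St N (CC N X)} (h : ∀ g, g ∈ T' → ∃ c, ovK T c ∧ D.h c = g) :
    Cnt T' := by
  have h1 : Cnt (⟨{t | t.1 ∈ T}, IP.mem IF.fst (IF.const T)⟩ : St N (CC N X × ℚ × ℚ)) :=
    Cnt.prod hT (cnt_q2 ⟨{_q | True}, IP.const True⟩) fun p hp => ⟨hp, trivial⟩
  have h2 : Cnt (⟨{F | ovT T F}, ip_ovT (IF.const T) IF.id⟩ : St N (TE N X)) :=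
    Cnt.list h1 fun F hF t ht => hF t ht
  have h3 : Cnt (⟨{s | ovT T s.1}, ip_ovT (IF.const T) IF.fst⟩ : St N (TE N X × ℚ × ℚ)) :=
    Cnt.prod h2 (cnt_q2 ⟨{_q | True}, IP.const True⟩) fun p hp => ⟨hp, trivial⟩
  have h4 : Cnt (⟨{c | ovK T c}, ip_ovK (IF.const T) IF.id⟩ : St N (KC N X)) :=
    Cnt.list h3 fun c hc s hs => hc s hs
  refine Cnt.image D.hi h4 fun g hg => ?_
  obtain ⟨c, hc, hc'⟩ := h g hg
  exact ⟨c, hc, hc'⟩

private theorem st_int : IP N (fun p : St N (CC N X) × CC N X =>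
    p.2 ∈ p.1 ∨ ∃ c, ovK p.1 c ∧ D.h c = p.2) := by
  refine IP.or (IP.mem IF.snd IF.fst) ?_
  refine IP.ex (P := fun (p : St N (CC N X) × CC N X) (c : KC N X) =>
    ovK p.1 c ∧ D.h c = p.2) ?_
  exact IP.and (ip_ovK (IF.comp IF.fst IF.fst) IF.snd)
    (IP.eq (IF.comp D.hi IF.snd) (IF.comp IF.snd IF.fst))

/-- one step towards the hull -/
private def stp (T : St N (CC N X)) : St N (CC N X) :=
  ⟨{g | g ∈ T ∨ ∃ c, ovK T c ∧ D.h c = g},
    (IP.sec (P := fun p : St N (CC N X) × CC N X =>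
      p.2 ∈ p.1 ∨ ∃ c, ovK p.1 c ∧ D.h c = p.2) D.st_int T)⟩

private theorem stp_if : IF N D.stp :=
  IF.compr (P := fun (T : St N (CC N X)) (g : CC N X) => g ∈ T ∨ ∃ c, ovK T c ∧ D.h c = g)
    D.st_int

private theorem stp_sub (n : ℕ) (hg : g ∈ D.stp^[n] S) : g ∈ D.stp^[n + 1] S := by
  rw [Function.iterate_succ_apply']
  exact Or.inl hg

private theorem stp_mono {n m : ℕ} (h : n ≤ m) (hg : g ∈ D.stp^[n] S) : g ∈ D.stp^[m] S := by
  induction m, h using Nat.le_induction with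
  | base => exact hg
  | succ m _ ih => exact D.stp_sub m ih

private theorem stp_cnt (hS : Cnt S) (n : ℕ) : Cnt (D.stp^[n] S) := by
  induction n with
  | zero => exact hS
  | succ n ih =>
    rw [Function.iterate_succ_apply']
    have h1 : IP N (fun g : CC N X => ∃ c, ovK (D.stp^[n] S) c ∧ D.h c = g) :=
      IP.ex (P := fun (g : CC N X) (c : KC N X) => ovK (D.stp^[n] S) c ∧ D.h c = g)
        (IP.and (ip_ovK (IF.const _) IF.snd) (IP.eq (IF.comp D.hi IF.snd) IF.fst))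
    exact Cnt.union ih (D.cnt_step ih (T' := ⟨{g | ∃ c, ovK (D.stp^[n] S) c ∧ D.h c = g}, h1⟩)
      fun g hg => hg) fun g hg => hg

theorem cnt_hull (hS : Cnt S) : Cnt (D.hull S) := by
  have hi : IF N (fun n : ℕ => D.stp^[n] S) := IF.iter D.stp_if S
  have h1 : IP N (fun g : CC N X => ∃ n : ℕ, g ∈ D.stp^[n] S) :=
    IP.ex (P := fun (g : CC N X) (n : ℕ) => g ∈ D.stp^[n] S)
      (IP.mem IF.fst (IF.comp (g := fun n : ℕ => D.stp^[n] S) hi IF.snd))
  have h2 : Cnt (⟨{g | ∃ n : ℕ, g ∈ D.stp^[n] S}, h1⟩ : St N (CC N X)) :=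
    Cnt.iUnion (S := fun n : ℕ => D.stp^[n] S) hi (D.stp_cnt hS) fun g hg => hg
  refine Cnt.mono (fun g hg => ?_) h2
  refine D.hull_min (T := ⟨{g | ∃ n : ℕ, g ∈ D.stp^[n] S}, h1⟩) (fun c hc => ?_)
    (fun g hg => ⟨0, hg⟩) hg
  have h3 : ∀ s ∈ c, ∃ n, ovT (D.stp^[n] S) s.1 := by
    intro s hs
    exact list_bd (fun n (t : CC N X × ℚ × ℚ) => t.1 ∈ D.stp^[n] S)
      (fun n m a h h' => D.stp_mono h h') s.1 fun t ht => hc s hs t ht
  obtain ⟨n, hn⟩ := list_bd (fun n (s : TE N X × ℚ × ℚ) => ovT (D.stp^[n] S) s.1)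
    (fun n m a h h' t ht => D.stp_mono h (h' t ht)) c h3
  refine ⟨n + 1, ?_⟩
  rw [Function.iterate_succ_apply']
  exact Or.inr ⟨c, hn, rfl⟩

end KD

end CPY
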