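import Pool.Agent.CPY.K1
import Pool.Agent.CPY.SimpC

/-! # E2: transfer (package K4)

(problem MP_ba5606_gt, ARH Part II, block E2; architect helper79; automation: `WCal/Simp.lean`)

`Adh A E g`: `g` is in the closure of `E` for the topology of pointwise convergence on `clo A`.

PROOFS.
* `adh_eq`: if `g y ≠ g y'` choose rational numbers `a < g y < b`, `a' < g y' < b'` with `b ≤ a'`
  or `b' ≤ a`; some
  `d ∈ E` is in `Bv [(y, a, b), (y', a', b')]`, so `d y ≠ d y'`.
* `exists_ext`: `choice` gives an internal `r : X → X` with `r x ∈ clo A`, `d (r x) = d x` for all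
  `d ∈ E`
  (internal relation: `IP.mem`, `IP.eqR`, `IR.evC`). `g' x := g (r x)` (`IR.comp`). For `y ∈ clo A`:
  `g (r y) = g y` by `adh_eq`; if `d x = d y` for all `d ∈ E` then `g (r x) = g (r y)` by `adh_eq`.
  Continuity
  (`cont_iff`): let `a < g' x₀`. `tube` with `K = clo A`, this `x₀`, `U y := a < g y` (if
  `y ∈ clo A` and
  `d y = d x₀ = d (r x₀)` for all `d ∈ E` then `g y = g (r x₀) = g' x₀` by `adh_eq`) gives a test
  `F` with
  `x₀ ∈ top F`; for `x ∈ top F`: `r x ∈ clo A` and `r x ∈ tcl F` (`d (r x) = d x` for the `d` in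
  `F`, which are in
  `E`), so `a < g (r x) = g' x`. `top F` is open (`isOpen_top`), so `{x | a < g' x}` is a
  neighbourhood of each of its
  points. The same for `g' x < a`.
* `transfer`: `kernel` for `g'` gives `d ∈ E` with `g'.f ∈ Bv (D.Φ d)`; the points of `D.Φ d` are in
  `A ⊆ clo A`, where `g' = g`. -/

universe u v w

namespace CPY

open WCal WM

variable {N : Type u} [WM N] [Std N] {X : Type v} [WTy N X] [TopologicalSpace X] [WSp N X]

/-- `g` is in the closure of `E` for the topology of pointwise convergence on `clo A` -/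
def Adh (A : St N X) (E : St N (CC N X)) (g : CC N X) : Prop :=
  ∀ v : List (X × ℚ × ℚ), (∀ t ∈ v, t.1 ∈ clo A) → g.f ∈ Bv v → ∃ d, d ∈ E ∧ d.f ∈ Bv v

variable {A : St N X} {E : St N (CC N X)} {g : CC N X}

theorem adh_eq (hg : Adh A E g) {y y' : X} (hy : y ∈ clo A) (hy' : y' ∈ clo A)
    (h : ∀ d, d ∈ E → d y = d y') : g y = g y' := by
  have key : ∀ {y y' : X}, y ∈ clo A → y' ∈ clo A → (∀ d, d ∈ E → d y = d y') →
      ¬ g y < g y' := by
    intro y y' hy hy' h hlt
    obtain ⟨m, hm1, hm2⟩ := exists_rat_btwn hlt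
    obtain ⟨a, ha⟩ := exists_rat_lt (g y)
    obtain ⟨b, hb⟩ := exists_rat_gt (g y')
    obtain ⟨d, hd, hdv⟩ := hg [(y, a, m), (y', m, b)] (by
      intro t ht
      rcases List.mem_cons.1 ht with rfl | ht
      · exact hy
      · rw [List.mem_singleton] at ht
        rw [ht]
        exact hy') (by
      intro t ht
      rcases List.mem_cons.1 ht with rfl | ht
      · exact ⟨ha, hm1⟩
      · rw [List.mem_singleton] at ht
        rw [ht]
        exact ⟨hm2, hb⟩)
    have h1 := (hdv (y, a, m) List.mem_cons_self).2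
    have h2 := (hdv (y', m, b) (List.mem_cons_of_mem _ List.mem_cons_self)).1
    have h3 : d.f y = d.f y' := h d hd
    have h4 : d.f y < (m : ℝ) := h1
    have h5 : (m : ℝ) < d.f y' := h2
    rw [h3] at h4
    exact absurd (h4.trans h5) (lt_irrefl _)
  rcases lt_trichotomy (g y) (g y') with h1 | h1 | h1
  · exact absurd h1 (key hy hy' h)
  · exact h1
  · exact absurd h1 (key hy' hy fun d hd => (h d hd).symm)

theorem exists_ext (hX : WCpt N X) (h : ∀ x : X, ∃ y, y ∈ clo A ∧ ∀ d, d ∈ E → d y = d x)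
    (hg : Adh A E g) : ∃ g' : CC N X, (∀ y, y ∈ clo A → g' y = g y) ∧
      ∀ x y, (∀ d, d ∈ E → d x = d y) → g' x = g' y := by
  have hP : IP N (fun p : X × X => p.2 ∈ clo A ∧ ∀ d : CC N X, d ∈ E → d p.2 = d p.1) := by
    simp (maxDischargeDepth := 99)
  obtain ⟨r, hr, hr2⟩ := choice (P := fun x y => y ∈ clo A ∧ ∀ d : CC N X, d ∈ E → d y = d x) hP h
  have key : ∀ V : X → Prop, IP N V → IsOpen {y | V y} → (∀ y y', y ∈ clo A → y' ∈ clo A →
      (∀ d, d ∈ E → d y = d y') → V y → V y') → IsOpen {x | V (r x)} := by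
    intro V hV hVo hVe
    rw [isOpen_iff_forall_mem_open]
    intro x₀ hx₀
    obtain ⟨F, hF1, hF2, hF3⟩ := tube hX (E := E) (K := clo A) (isClosed_clo A) (x₀ := x₀)
      (U := V) hV hVo (fun y hy hd => hVe (r x₀) y (hr2 x₀).1 hy
        (fun d hdE => ((hr2 x₀).2 d hdE).trans (hd d hdE).symm) hx₀)
    refine ⟨top F, fun x hx => hF3 (r x) (hr2 x).1 fun t ht => ?_, isOpen_top F, hF2⟩
    have h1 : t.1 (r x) = t.1 x := (hr2 x).2 t.1 (hF1 t ht)
    rw [h1]
    exact ⟨(hx t ht).1.le, (hx t ht).2.le⟩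
  have hin : IR N (fun x => g (r x)) := by
    simp (maxDischargeDepth := 99) [hr.comp]
  have hc : Continuous fun x => g (r x) := by
    rw [cont_iff]
    intro q
    constructor
    · refine key (fun y => (q : ℝ) < g y) ?_ (isOpen_lt continuous_const g.cont) ?_
      · exact IP.ltR (IR.const (isR_rat q)) g.int
      · intro y y' hy hy' hd h1
        rwa [← adh_eq hg hy hy' hd]
    · refine key (fun y => g y < (q : ℝ)) ?_ (isOpen_lt g.cont continuous_const) ?_
      · exact IP.ltR g.int (IR.const (isR_rat q))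
      · intro y y' hy hy' hd h1
        rwa [← adh_eq hg hy hy' hd]
  refine ⟨⟨fun x => g (r x), hin, hc⟩, ?_, ?_⟩
  · intro y hy
    exact adh_eq hg (hr2 y).1 hy (hr2 y).2
  · intro x y hxy
    exact adh_eq hg (hr2 x).1 (hr2 y).1 fun d hd =>
      ((hr2 x).2 d hd).trans ((hxy d hd).trans ((hr2 y).2 d hd).symm)

theorem KD.transfer (D : KD N X) (hX : WCpt N X) (hE : D.Cl E)
    (hA : ∀ d, d ∈ E → ∀ t ∈ D.Φ d, t.1 ∈ A)
    (h : ∀ x : X, ∃ y, y ∈ clo A ∧ ∀ d, d ∈ E → d y = d x) (hg : Adh A E g) :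
    ∃ d, d ∈ E ∧ g.f ∈ Bv (D.Φ d) := by
  obtain ⟨g', h1, h2⟩ := exists_ext hX h hg
  obtain ⟨d, hd, hd2⟩ := D.kernel hX hE h2
  refine ⟨d, hd, fun t ht => ?_⟩
  have h3 : t.1 ∈ clo A := subset_closure (hA d hd t ht)
  have h4 : g'.f t.1 = g.f t.1 := h1 t.1 h3
  rw [← h4]
  exact hd2 t ht

end CPY
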