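import Pool.Agent.CPI.Lang

/-! # The two questions inside a structure `(N, E)` (statements)

(problem MP_ba5606_gt, ARH Part II; definitions, no sorry in this file)

The notions `IsRL` (real line), `IsTop`, `IsHd`, `IsCpt`, `IsCp`, `IsLin`, `IsMono` are those of `CPI/Lang.lean`. -/

universe v

namespace CPY

open STP CPI

section

variable {N : Type v} (E : N → N → Prop)

/-- For every compact Hausdorff space `X` such that `C_p(C_p(X))` is Lindelof, `C_p(X)` is Lindelof. -/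
def PosQ1 : Prop :=
  ∃ R l, IsRL E R l ∧ ∀ X τ C σ D ρ, IsTop E X τ → IsHd E X τ → IsCpt E X τ →
    IsCp E R l X τ C σ → IsCp E R l C σ D ρ → IsLin E D ρ → IsLin E C σ

/-- There is a compact Hausdorff space `X` such that `C_p(C_p(X))` is Lindelof and `C_p(X)` is not
Lindelof. -/
def NegQ1 : Prop :=
  ∃ R l, IsRL E R l ∧ ∃ X τ C σ D ρ, IsTop E X τ ∧ IsHd E X τ ∧ IsCpt E X τ ∧
    IsCp E R l X τ C σ ∧ IsCp E R l C σ D ρ ∧ IsLin E D ρ ∧ ¬ IsLin E C σ

/-- Every compact Hausdorff space `X` such that `C_p(C_p(X))` is Lindelof is `ω`-monolithic. -/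
def PosQ2 : Prop :=
  ∃ R l, IsRL E R l ∧ ∀ X τ C σ D ρ, IsTop E X τ → IsHd E X τ → IsCpt E X τ →
    IsCp E R l X τ C σ → IsCp E R l C σ D ρ → IsLin E D ρ → IsMono E X τ

/-- There is a compact Hausdorff space `X` such that `C_p(C_p(X))` is Lindelof and `X` is not
`ω`-monolithic. -/
def NegQ2 : Prop :=
  ∃ R l, IsRL E R l ∧ ∃ X τ C σ D ρ, IsTop E X τ ∧ IsHd E X τ ∧ IsCpt E X τ ∧
    IsCp E R l X τ C σ ∧ IsCp E R l C σ D ρ ∧ IsLin E D ρ ∧ ¬ IsMono E X τ

end

end CPY
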