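import Pool.Agent.CPY.QGen
import Pool.Agent.CPY.HPr
import Pool.Agent.WCal.ZUb
import Pool.Agent.WCal.Br
import Pool.Agent.WCal.Simp

/-! # Block (C), typed form: the almost disjoint family

(problem MP_ba5606_gt, project CPY, block (C); no sorry in this file)

For reals `c a`, `a ∈ Θ`, the set `e_(a,k)` consists of all `(k, c a | n)`, `n ∈ ℕ`. -/

universe u v w

namespace CPQ

open WCal

section generic

variable {N : Type u} [WM N] {α : Type v} {β : Type w} [WTy N α] [WTy N β]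

theorem cd_pair (a : α) (b : β) : cd N (a, b) = ZU.op (cd N a) (cd N b) := op_eq _ _

theorem op_mem_cd {F : Fn N α β} {x y : N} :
    ZU.op x y ∈ cd N F ↔ ∃ a, x = cd N a ∧ y = cd N (F a) := by
  rw [← E_mem, cd_fn]
  simp only [op_eq, ZU.op_inj]

theorem ap_cd (F : Fn N α β) (a : α) : ZU.ap (cd N F) (cd N a) = cd N (F a) := by
  refine ZU.the_eq (op_mem_cd.2 ⟨a, rfl, rfl⟩) ?_
  intro y hy
  obtain ⟨b, h1, h2⟩ := op_mem_cd.1 hy
  rw [h2, cd_inj.1 h1]

theorem isF_cd (F : Fn N α β) : ZU.IsF (cd N F) (rg N α) := by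
  rw [ZU.isF_iff]
  refine ⟨fun p hp => ?_, fun x hx => ?_, fun x y z hy hz => ?_⟩
  · obtain ⟨a, rfl⟩ := (cd_fn N F p).1 hp
    exact ⟨cd N a, cd N (F a), cd_mem a, ZU.isOP_iff.2 (op_eq _ _)⟩
  · obtain ⟨a, rfl⟩ := E_rg.1 hx
    exact ⟨cd N (F a), ZU.val_iff.2 (op_mem_cd.2 ⟨a, rfl, rfl⟩)⟩
  · rw [ZU.val_iff, op_mem_cd] at hy hz
    obtain ⟨a, rfl, rfl⟩ := hy
    obtain ⟨b, h1, rfl⟩ := hz
    rw [cd_inj.1 h1]

theorem mem_cd_st {S : St N α} {x : N} : x ∈ cd N S ↔ ∃ a, a ∈ S ∧ cd N a = x := cd_st N S x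

theorem mem_rgN {x : N} : x ∈ rg N α ↔ ∃ a : α, cd N a = x := E_rg

theorem nt_eqN (n : ℕ) : WCal.nt N n = ZU.nt n := by
  induction n with
  | zero => exact emp_eq
  | succ n ih =>
    refine ZU.ext fun z => ?_
    rw [ZU.nt_succ, ZU.mem_sc, ← ih]
    exact E_sc

/-- a typed countable set is countable -/
theorem ctb_of_cnt {S : St N α} (h : Cnt S) {x : N}
    (hx : ∀ z, z ∈ x → ∃ a, a ∈ S ∧ cd N a = z) : ZU.Ctb x := by
  rcases h with h | ⟨e, he⟩
  · refine ZU.ctb_em.sub fun z hz => ?_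
    obtain ⟨a, ha, -⟩ := hx z hz
    exact absurd ha (h a)
  · obtain ⟨F, hF, h1⟩ := df_if e.int
    refine ZU.ctb_of_om hF fun z hz => ?_
    obtain ⟨a, ha, rfl⟩ := hx z hz
    obtain ⟨n, rfl⟩ := he a ha
    exact ⟨n, by rw [← h1 n]; exact congrArg F (nt_eqN n)⟩

end generic

section

variable {N : Type u} [WM N] {Θ : Type v} [WTy N Θ] {c : Θ → ℕ → Bool}

/-- `s` is an initial segment of `x` -/
def Ini (x : ℕ → Bool) (s : List Bool) : Prop := ∀ i, i < s.length → s[i]? = some (x i)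

theorem ini_getElem? (x : ℕ → Bool) {n i : ℕ} (h : i < n) : (ini x n)[i]? = some (x i) := by
  simp [ini, h]

theorem Ini_iff {x : ℕ → Bool} {s : List Bool} : Ini x s ↔ ∃ n, s = ini x n := by
  constructor
  · intro h
    refine ⟨s.length, List.ext_getElem? fun i => ?_⟩
    rcases lt_or_ge i s.length with hi | hi
    · rw [h i hi, ini_getElem? x hi]
    · rw [List.getElem?_eq_none hi, List.getElem?_eq_none]
      rw [ini_length]
      exact hi
  · rintro ⟨n, rfl⟩ i hi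
    rw [ini_length] at hi
    exact ini_getElem? x hi

variable (hc : IF N (fun p : Θ × ℕ => c p.1 p.2))
include hc

theorem ip_efam : IP N (fun p : (Θ × ℕ) × (ℕ × List Bool) => p.2.1 = p.1.2 ∧
    Ini (c p.1.1) p.2.2) := by
  unfold Ini
  simp (maxDischargeDepth := 99) [hc.comp2]

/-- the set `e_(a,k)` -/
def efs (a : Θ × ℕ) : St N (ℕ × List Bool) :=
  ⟨{x | x.1 = a.2 ∧ Ini (c a.1) x.2}, (ip_efam hc).sec a⟩

/-- the almost disjoint family -/
def efam : Fn N (Θ × ℕ) (St N (ℕ × List Bool)) :=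
  ⟨efs hc, IF.compr' (S := efs hc) (ip_efam hc)⟩

theorem mem_efam {a : Θ × ℕ} {x : ℕ × List Bool} :
    x ∈ efam hc a ↔ ∃ n, x = (a.2, ini (c a.1) n) := by
  have h1 : x ∈ efam hc a ↔ x.1 = a.2 ∧ Ini (c a.1) x.2 := Iff.rfl
  rw [h1, Ini_iff]
  constructor
  · rintro ⟨h2, n, h3⟩
    exact ⟨n, Prod.ext h2 h3⟩
  · rintro ⟨n, rfl⟩
    exact ⟨rfl, n, rfl⟩

theorem ad_efam (hinj : Function.Injective c) : AD (rg N (Θ × ℕ)) (cd N (efam hc)) := by
  refine ⟨isF_cd _, ?_⟩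
  intro i hi F hFI hF hiF E hE
  obtain ⟨⟨a, k⟩, rfl⟩ := mem_rgN.1 hi
  have hzi : Function.Injective fun n => cd N ((k, ini (c a) n) : ℕ × List Bool) := by
    intro m n h
    have h1 := cd_inj.1 h
    have h2 := congrArg (fun x : ℕ × List Bool => x.2.length) h1
    simpa using h2
  have hb1 : {n | cd N ((k, ini (c a) n) : ℕ × List Bool) ∈ E}.Finite :=
    (ZU.fi_iff.1 hE).preimage hzi.injOn
  have hb2 : ∀ j ∈ {j | j ∈ F}, {n | cd N ((k, ini (c a) n) : ℕ × List Bool) ∈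
      ZU.ap (cd N (efam hc)) j}.Finite := by
    intro j hj
    obtain ⟨⟨b, l⟩, rfl⟩ := mem_rgN.1 (hFI j hj)
    rw [ap_cd]
    by_cases hab : c a = c b
    · refine Set.Finite.subset (Set.finite_empty) ?_
      intro n hn
      obtain ⟨x, hx, h1⟩ := mem_cd_st.1 hn
      obtain ⟨m, rfl⟩ := (mem_efam hc).1 hx
      have h2 := cd_inj.1 h1
      have h3 : l = k := congrArg Prod.fst h2
      have h4 : b = a := hinj hab.symm
      rw [h3, h4] at hj
      exact hiF hj
    · obtain ⟨q, hq⟩ : ∃ q, c a q ≠ c b q := by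
        by_contra hcon
        push Not at hcon
        exact hab (funext hcon)
      refine (Set.finite_le_nat q).subset ?_
      intro n hn
      obtain ⟨x, hx, h1⟩ := mem_cd_st.1 hn
      obtain ⟨m, rfl⟩ := (mem_efam hc).1 hx
      have h2 := cd_inj.1 h1
      have h3 : ini (c b) m = ini (c a) n := congrArg Prod.snd h2
      have h4 : m = n := by
        have := congrArg List.length h3
        simpa using this
      subst h4
      show m ≤ q
      by_contra hlt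
      have h5 := congrArg (fun s : List Bool => s[q]?) h3
      simp only [ini_getElem? _ (not_le.1 hlt), Option.some_inj] at h5
      exact hq h5.symm
  have hfin := hb1.union ((ZU.fi_iff.1 hF).biUnion hb2)
  obtain ⟨n, hn⟩ := hfin.infinite_compl.nonempty
  rw [Set.mem_compl_iff, Set.mem_union, not_or, Set.mem_iUnion₂] at hn
  refine ⟨cd N ((k, ini (c a) n) : ℕ × List Bool), ?_, hn.1, fun j hj h => hn.2 ⟨j, hj, h⟩⟩
  rw [ap_cd]
  exact mem_cd_st.2 ⟨_, (mem_efam hc).2 ⟨n, rfl⟩, rfl⟩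

end

end CPQ
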