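import Pool.Agent.CPY.QBlk
import Pool.Agent.CPY.QAD
import Pool.Agent.CPY.TopDefs
import Pool.Agent.WCal.Tm

/-! # Block (C), typed form

(problem MP_ba5606_gt, project CPY, block (C); no sorry in this file)

The generic extension `W` of the countable transitive model `M` by the coding poset: `Θ` is still the
first uncountable ordinal, and every internal family `x` of reals indexed by `Θ` is coded by one real `d`
of `W` along the reals `c a` of `M`. -/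

universe u v w

namespace CPQ

open WCal

section generic

variable {N : Type u} [WM N] {α : Type v} [WTy N α] {Θ : Type w} [WTy N Θ] {c : Θ → ℕ → Bool}

theorem cnt_nodes (S : St N (ℕ × List Bool)) : Cnt S := by
  have h1 : Cnt (⟨Set.univ, IP.const True⟩ : St N Bool) := Cnt.finite (Set.toFinite _)
  have h2 : Cnt (⟨Set.univ, IP.const True⟩ : St N (List Bool)) :=
    Cnt.list h1 fun l _ a _ => trivial
  exact Cnt.prod (S := ⟨Set.univ, IP.const True⟩) (Cnt.nat _) h2 fun p _ => ⟨trivial, trivial⟩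

theorem ctb_OO (hc : IF N (fun p : Θ × ℕ => c p.1 p.2)) : ZU.Ctb (OO (cd N (efam hc))) := by
  refine ctb_of_cnt (α := ℕ × List Bool) (cnt_nodes ⟨Set.univ, IP.const True⟩) fun z hz => ?_
  obtain ⟨w, hw, hz⟩ := ZU.mem_uni.1 hz
  obtain ⟨i, hi⟩ := ZU.mem_rg.1 hw
  obtain ⟨a, rfl, rfl⟩ := op_mem_cd.1 hi
  obtain ⟨x, -, rfl⟩ := mem_cd_st.1 hz
  exact ⟨x, trivial, rfl⟩

/-- typed enumeration of a countable set -/
theorem exists_enum (a0 : α) {x : N} (h : ZU.Ctb x) :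
    ∃ e : ℕ → α, IF N e ∧ ∀ a, cd N a ∈ x → ∃ n, e n = a := by
  classical
  obtain ⟨f, hf, hx⟩ := h
  let e : ℕ → α := fun n => if h : ∃ a : α, cd N a = ZU.ap f (ZU.nt n) then h.choose else a0
  have he : ∀ n a, e n = a ↔ cd N a = ZU.ap f (cd N n) ∨
      (¬ ZU.ap f (cd N n) ∈ rg N α ∧ cd N a = cd N a0) := by
    intro n a
    have hn : cd N n = ZU.nt n := nt_eqN n
    rw [hn]
    by_cases h : ∃ a : α, cd N a = ZU.ap f (ZU.nt n)
    · have h1 : e n = h.choose := dif_pos h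
      rw [h1]
      constructor
      · rintro rfl
        exact Or.inl h.choose_spec
      · rintro (h2 | ⟨h2, -⟩)
        · exact cd_inj.1 (h.choose_spec.trans h2.symm)
        · exact absurd (mem_rgN.2 h) h2
    · have h1 : e n = a0 := dif_neg h
      rw [h1]
      constructor
      · rintro rfl
        exact Or.inr ⟨fun h2 => h (mem_rgN.1 h2), rfl⟩
      · rintro (h2 | ⟨-, h2⟩)
        · exact absurd ⟨a, h2⟩ h
        · exact (cd_inj.1 h2).symm
  refine ⟨e, ?_, fun a ha => ?_⟩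
  · refine IP.of_dfn2 (Q := fun n y => y = ZU.ap f n ∨ (¬ ZU.ap f n ∈ rg N α ∧ y = cd N a0)) ?_ ?_
    · simp (maxDischargeDepth := 99)
    · intro n a
      exact he n a
  · obtain ⟨m, hm, h1⟩ := hf.mem_rg.1 (hx _ ha)
    obtain ⟨n, rfl⟩ := ZU.mem_om.1 hm
    refine ⟨n, (he n a).2 (Or.inl ?_)⟩
    rw [h1]
    exact congrArg (ZU.ap f) (nt_eqN n).symm

/-- the limit form of the coding from two one-sided codings -/
theorem limit_code {x : Θ × ℕ → Bool} {d0 d1 : ℕ × List Bool → Prop} (h0 : IP N d0) (h1 : IP N d1)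
    (k0 : ∀ a k, x (a, k) = true ↔ {n | d0 (k, ini (c a) n)}.Finite)
    (k1 : ∀ a k, x (a, k) = false ↔ {n | d1 (k, ini (c a) n)}.Finite) :
    ∃ d : ℕ × List Bool → Bool, IF N d ∧
      ∀ a k, ∃ n₀, ∀ n ≥ n₀, d (k, ini (c a) n) = x (a, k) := by
  classical
  let P : ℕ × List Bool → Prop := fun p => ∃ n : ℕ, n ≤ p.2.length ∧ d1 (p.1, p.2.take n) ∧
    ∀ m : ℕ, n ≤ m → m ≤ p.2.length → ¬ d0 (p.1, p.2.take m)
  have hP : IP N P := by
    change IP N fun p : ℕ × List Bool => ∃ n : ℕ, n ≤ p.2.length ∧ d1 (p.1, p.2.take n) ∧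
      ∀ m : ℕ, n ≤ m → m ≤ p.2.length → ¬ d0 (p.1, p.2.take m)
    simp (maxDischargeDepth := 99) [h0.comp, h1.comp]
  have htake : ∀ (y : ℕ → Bool) (n k : ℕ), k ≤ n → (ini y n).take k = ini y k := by
    intro y n k hk
    simp [ini, ← List.map_take, List.take_range, hk]
  have hPi : ∀ a k n, P (k, ini (c a) n) ↔ ∃ i ≤ n, d1 (k, ini (c a) i) ∧
      ∀ m, i ≤ m → m ≤ n → ¬ d0 (k, ini (c a) m) := by
    intro a k n
    show (∃ i : ℕ, i ≤ (ini (c a) n).length ∧ d1 (k, (ini (c a) n).take i) ∧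
      ∀ m : ℕ, i ≤ m → m ≤ (ini (c a) n).length → ¬ d0 (k, (ini (c a) n).take m)) ↔ _
    rw [ini_length]
    refine exists_congr fun i => and_congr_right fun hi => ?_
    rw [htake _ _ _ hi]
    refine and_congr_right fun _ => ?_
    refine forall_congr' fun m => imp_congr_right fun _ => ?_
    constructor
    · intro h hm
      have := h hm
      rwa [htake _ _ _ hm] at this
    · intro h hm
      rw [htake _ _ _ hm]
      exact h hm
  refine ⟨fun p => @ite _ (P p) (Classical.propDecidable _) true false,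
    IF.ite hP (IF.const true) (IF.const false), ?_⟩
  intro a k
  cases hx : x (a, k) with
  | true =>
    have hf := (k0 a k).1 hx
    have hi : ¬ {n | d1 (k, ini (c a) n)}.Finite := by
      rw [← k1, hx]
      simp
    obtain ⟨b, hb⟩ := hf.bddAbove
    obtain ⟨i, hi1, hi2⟩ := (Set.Infinite.exists_gt (show Set.Infinite _ from hi) b)
    refine ⟨i, fun n hn => if_pos ((hPi a k n).2 ⟨i, hn, hi1, fun m hm _ h => ?_⟩)⟩
    exact absurd (hb h) (by omega)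
  | false =>
    have hf := (k1 a k).1 hx
    have hi : ¬ {n | d0 (k, ini (c a) n)}.Finite := by
      rw [← k0, hx]
      simp
    obtain ⟨b, hb⟩ := hf.bddAbove
    obtain ⟨i, hi1, hi2⟩ := (Set.Infinite.exists_gt (show Set.Infinite _ from hi) b)
    refine ⟨i, fun n hn => if_neg fun h => ?_⟩
    obtain ⟨m, hm, h3, h4⟩ := (hPi a k n).1 h
    exact h4 i ((hb h3).trans hi2.le) hn hi1

end generic

section

variable {M W : Set ZFSet.{0}} [hM : Fact (CPY.Mod M)] [hW : Fact (CPY.Mod W)] (h : M ⊆ W)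
  {Θ : Type v} [WTy M Θ]

/-- one-sided coding, from the untyped form -/
theorem one_side {c : Θ → ℕ → Bool} (hc : IF M (fun p : Θ × ℕ => c p.1 p.2))
    (hcod : ∀ r ∈ W, ∃ d ∈ W, ∀ a : Θ × ℕ, ((cd M a).1 ∈ r ↔
      {z | z ∈ d ∧ z ∈ (cd M (efam hc a)).1}.Finite)) (P : Θ × ℕ → Prop)
    (hP : @IP W _ (Θ × ℕ) (@instWTyProd W _ _ _ (lft (embOf h) Θ) _) P) :
    ∃ d : ℕ × List Bool → Prop, IP W d ∧
      ∀ a k, P (a, k) ↔ {n | d (k, ini (c a) n)}.Finite := by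
  obtain ⟨s, hs⟩ := hP
  obtain ⟨d, hd, h1⟩ := hcod s.1 s.2
  refine ⟨fun y => (cd W y).1 ∈ d, ⟨⟨d, hd⟩, fun y => Iff.rfl⟩, fun a k => ?_⟩
  have e1 : ∀ y : ℕ × List Bool, (cd W y).1 = (cd M y).1 := fun y =>
    congrArg Subtype.val (Cmp.eq (j := embOf h) y)
  have e2 : P (a, k) ↔ (cd M (a, k)).1 ∈ s.1 := by
    rw [hs]
    let _ := lft (embOf h) Θ
    have e3 : Cmp (embOf h) Θ := Cmp.lft _ _
    have e4 : cd W (a, k) = (embOf h).i (cd M (a, k)) := Cmp.eq (j := embOf h) (a, k)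
    rw [E_val]
    exact iff_of_eq (congrArg (fun x : W => x.1 ∈ s.1) e4)
  rw [e2, h1]
  have e5 : {z | z ∈ d ∧ z ∈ (cd M (efam hc (a, k))).1} =
      (fun n => (cd M ((k, ini (c a) n) : ℕ × List Bool)).1) '' {n | (cd W (k, ini (c a) n)).1 ∈ d} := by
    ext z
    constructor
    · rintro ⟨hz, hz'⟩
      have hzM : z ∈ M := hM.out.trans _ (cd M (efam hc (a, k))).2 z hz'
      obtain ⟨x, hx, h2⟩ := (cd_st M (efam hc (a, k)) ⟨z, hzM⟩).1 hz'
      obtain ⟨n, rfl⟩ := (mem_efam hc).1 hx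
      have h3 : (cd M ((k, ini (c a) n) : ℕ × List Bool)).1 = z := congrArg Subtype.val h2
      refine ⟨n, ?_, h3⟩
      show (cd W (k, ini (c a) n)).1 ∈ d
      rw [e1, h3]
      exact hz
    · rintro ⟨n, hn, rfl⟩
      refine ⟨?_, ?_⟩
      · show (cd M ((k, ini (c a) n) : ℕ × List Bool)).1 ∈ d
        rw [← e1]
        exact hn
      · exact (cd_st M (efam hc (a, k)) _).2 ⟨_, (mem_efam hc).2 ⟨n, rfl⟩, rfl⟩
  rw [e5]
  refine Set.finite_image_iff (Function.Injective.injOn ?_)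
  intro m n hmn
  have h2 := cd_inj.1 (Subtype.ext hmn : cd M ((k, ini (c a) m) : ℕ × List Bool) = _)
  have h3 := congrArg (fun x : ℕ × List Bool => x.2.length) h2
  simpa using h3

/-- the first uncountable ordinal is preserved -/
theorem omO_lift [LinearOrder Θ] (hΘ : CPY.OmO M Θ) (hWO : ZU.WO M)
    (happ : ∀ f ∈ W, ∀ A X : M, ∃ F : M → M, (ZU.DF fun v => F (v 0)) ∧ ∀ a, a ∈ A → F a ⊆ X ∧
      ZU.Ctb (F a) ∧
      ((∀ b c, b ∈ X.1 → c ∈ X.1 → ZFSet.pair a.1 b ∈ f → ZFSet.pair a.1 c ∈ f → b = c) →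
        ∀ b : M, b ∈ X → ZFSet.pair a.1 b.1 ∈ f → b ∈ F a)) :
    @CPY.OmO W _ Θ (lft (embOf h) Θ) _ := by
  let _ := lft (embOf h) Θ
  have e3 : Cmp (embOf h) Θ := Cmp.lft _ _
  refine ⟨hΘ.wf, IP.lift (embOf h) hΘ.lt, fun a => ?_, fun e he => ?_⟩
  · obtain ⟨e, he, h1⟩ := hΘ.seg a
    exact ⟨e, IF.lift (embOf h) he, h1⟩
  · obtain ⟨s, hs⟩ := he
    have hcd : ∀ (n : ℕ) (b : Θ), ZFSet.pair (ZU.nt n : M).1 (cd M b).1 ∈ s.1 ↔ e n = b := by
      intro n b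
      have h1 : (cd W (n, b)).1 = ZFSet.pair (ZU.nt n : M).1 (cd M b).1 := by
        have h2 : cd W (n, b) = WCal.op (cd W n) (cd W b) := rfl
        have h3 : (cd W n).1 = (cd M n).1 := congrArg Subtype.val (Cmp.eq (j := embOf h) n)
        have h4 : (cd M n : M) = ZU.nt n := nt_eqN n
        rw [h2, op_val, h3, h4]
        rfl
      rw [← h1]
      exact (hs (n, b)).symm
    obtain ⟨F, hF, h1⟩ := happ s.1 s.2 ZU.om (rg M Θ)
    have hS : ZU.Ctb (ZU.bU ZU.om F) := ZU.ctb_bU hWO hF ZU.ctb_om fun n hn => (h1 n hn).2.1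
    obtain ⟨e', he', h2⟩ := exists_enum (e 0) hS
    obtain ⟨a, ha⟩ := hΘ.bdd e' he'
    refine ⟨a, fun n => ?_⟩
    have h5 : cd M (e n) ∈ F (ZU.nt n) := by
      refine (h1 (ZU.nt n) (ZU.nt_mem_om n)).2.2 ?_ _ (cd_mem (e n)) ((hcd n (e n)).2 rfl)
      intro b c hb hc hb' hc'
      obtain ⟨b0, hb0⟩ := (mem_rgN (N := M) (α := Θ)).1
        (show (⟨b, hM.out.trans _ (rg M Θ).2 b hb⟩ : M) ∈ rg M Θ from hb)
      obtain ⟨c0, hc0⟩ := (mem_rgN (N := M) (α := Θ)).1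
        (show (⟨c, hM.out.trans _ (rg M Θ).2 c hc⟩ : M) ∈ rg M Θ from hc)
      have hb1 : (cd M b0).1 = b := congrArg Subtype.val hb0
      have hc1 : (cd M c0).1 = c := congrArg Subtype.val hc0
      rw [← hb1, hcd] at hb'
      rw [← hc1, hcd] at hc'
      rw [← hb1, ← hc1, ← hb', ← hc']
    obtain ⟨m, hm⟩ := h2 (e n) ((ZU.mem_bU hF).2 ⟨ZU.nt n, ZU.nt_mem_om n, h5⟩)
    rw [← hm]
    exact ha m

end

/-- **Block (C).** -/
theorem blockC (M : Set ZFSet.{0}) [hM : Fact (CPY.Mod M)] (Θ : Type v) [WTy M Θ] [LinearOrder Θ]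
    (c : Θ → ℕ → Bool) (hMc : M.Countable) (hΘ : CPY.OmO M Θ)
    (hc : IF M (fun p : Θ × ℕ => c p.1 p.2)) (hinj : Function.Injective c) :
    ∃ (W : Set ZFSet.{0}) (_ : Fact (CPY.Mod W)) (h : M ⊆ W), W.Countable ∧
      @CPY.OmO W _ Θ (lft (embOf h) Θ) _ ∧
      ∀ x : Θ × ℕ → Bool, @IF W _ (Θ × ℕ) Bool (@instWTyProd W _ _ _ (lft (embOf h) Θ) _) _ x →
        ∃ d : ℕ × List Bool → Bool, IF W d ∧
          ∀ a k, ∃ n₀, ∀ n ≥ n₀, d (k, ini (c a) n) = x (a, k) := by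
  have tM : ZU.TM M := hM.out.tm
  obtain ⟨W, hWc, hW, h, happ, hcod⟩ := block hM.out hMc (I := rg M (Θ × ℕ))
    (e := cd M (efam hc)) (ad_efam hc hinj) (ctb_OO hc)
  have iW : Fact (CPY.Mod W) := ⟨hW⟩
  refine ⟨W, iW, h, hWc, omO_lift h hΘ hM.out.woz happ, fun x hx => ?_⟩
  have hcod' : ∀ r ∈ W, ∃ d ∈ W, ∀ a : Θ × ℕ, ((cd M a).1 ∈ r ↔
      {z | z ∈ d ∧ z ∈ (cd M (efam hc a)).1}.Finite) := by
    intro r hr
    obtain ⟨d, hd, -, h1⟩ := hcod r hr
    refine ⟨d, hd, fun a => ?_⟩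
    have h2 := h1 (cd M a) (show WM.E (cd M a) (rg M (Θ × ℕ)) from cd_mem a)
    have h3 : @ZU.ap M (ZU.instZM M) (cd M (efam hc)) (cd M a) = cd M (efam hc a) :=
      ap_cd (efam hc) a
    rw [h3] at h2
    exact h2
  let _ := lft (embOf h) Θ
  obtain ⟨d0, h0, k0⟩ := one_side h hc hcod' (fun p => x p = true) (IP.eq hx (IF.const true))
  obtain ⟨d1, h1, k1⟩ := one_side h hc hcod' (fun p => x p = false) (IP.eq hx (IF.const false))
  exact limit_code h0 h1 k0 k1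

end CPQ

namespace CPY

/-- **Block (C)** in the form of `TopDefs.lean` -/
theorem blockC : BlockC := by
  intro M hM Θ i1 i2 c hMc hΘ hc hinj
  obtain ⟨W, hW, h, hWc, h1, h2⟩ := CPQ.blockC M Θ c hMc hΘ hc hinj
  exact ⟨W, hW, h, hWc, h1, h2⟩

end CPY
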