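import Pool.Agent.CPY.Top
import Pool.Agent.CPY.QTop
import Pool.Agent.CPY.DTop

/-! # A model of ZFC with positive answers

(problem MP_ba5606_gt, ARH Part II; no sorry in this file) -/

namespace CPY

open STP

/-- There is a model of `ZFC` in which, for every compact Hausdorff space `X` such that `C_p(C_p(X))` is Lindelof,
`C_p(X)` is Lindelof and `X` is `ω`-monolithic. -/
theorem main : ∃ (N : Type 1) (E : N → N → Prop), ZFC E ∧ PosArh E := by
  obtain ⟨W, -, hW, h⟩ := exists_posArh blockC blockD
  exact ⟨W, Em W, hW.zfc, h⟩

end CPY
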