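import Pool.Agent.CPY.QSet

/-! # Sets closed under small subsets (block (C))

(problem MP_ba5606_gt, project CPY, block (C); no sorry in this file)

`Cov H x`: the set `x` is covered by the range of a function on `H`. `hartogs`: the ordinals which are
covered by `H` form an ordinal. `exists_big`: for every `X` there is `K` with `Big X K`, a level `V_κ`,
where `κ` is the set of all ordinals covered by `H = (X')^om`, a set which covers its square. -/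

universe v

namespace CPQ

open ZU

variable {N : Type v} [ZM N]

/-- `x` is covered by the range of a function on `H` -/
def Cov (H x : N) : Prop := ∃ f, IsF f H ∧ x ⊆ rg f

@[simp] theorem dfn_cov {s t : (ℕ → N) → N} (hs : DF s) (ht : DF t) :
    Dfn fun v => Cov (s v) (t v) :=
  dfn2 (P := Cov) (by unfold Cov; simp (maxDischargeDepth := 99)) hs ht

theorem Cov.sub {H x y : N} (h : Cov H x) (hy : y ⊆ x) : Cov H y := by
  obtain ⟨f, hf, h1⟩ := h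
  exact ⟨f, hf, sub_trans hy h1⟩

theorem cov_of {H x : N} {F : N → N} (hF : DF fun v => F (v 0))
    (h : ∀ z, z ∈ x → ∃ y, y ∈ H ∧ z = F y) : Cov H x := by
  refine ⟨lam H F, isF_lam hF H, fun z hz => ?_⟩
  obtain ⟨y, hy, rfl⟩ := h z hz
  rw [(isF_lam hF H).mem_rg]
  exact ⟨y, hy, by rw [ap_lam hF hy]⟩

theorem Cov.comp {H x A : N} (h : Cov H x) {F : N → N} (hF : DF fun v => F (v 0))
    (hA : ∀ z, z ∈ A → ∃ y, y ∈ x ∧ z = F y) : Cov H A := by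
  obtain ⟨f, hf, h1⟩ := h
  refine cov_of (F := fun y => F (ap f y)) (df1 hF (df_ap (df_const f) (df_var 0))) fun z hz => ?_
  obtain ⟨y, hy, rfl⟩ := hA z hz
  obtain ⟨u, hu, rfl⟩ := hf.mem_rg.1 (h1 y hy)
  exact ⟨u, hu, rfl⟩

/-- uniqueness of the ordinal coded by a relation -/
theorem hartogs_aux {H E f g α β : N} (hα : Ord α) (hβ : Ord β) (hf : IsF f H) (hg : IsF g H)
    (hfα : α ⊆ rg f) (hgβ : β ⊆ rg g)
    (h1 : ∀ x y, op x y ∈ E ↔ x ∈ H ∧ y ∈ H ∧ ap f y ∈ α ∧ (ap f x ∈ ap f y ∨ x = y))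
    (h2 : ∀ x y, op x y ∈ E ↔ x ∈ H ∧ y ∈ H ∧ ap g y ∈ β ∧ (ap g x ∈ ap g y ∨ x = y)) :
    α ⊆ β := by
  have key : ∀ a : N, a ∈ α → ∀ y, y ∈ H → ap f y = a → ap g y ∈ β ∧ ap g y = a := by
    intro a
    refine ind (P := fun a => a ∈ α → ∀ y, y ∈ H → ap f y = a → ap g y ∈ β ∧ ap g y = a) ?_ a
    intro a ih ha y hy hya
    subst hya
    have hyb : ap g y ∈ β := ((h2 y y).1 ((h1 y y).2 ⟨hy, hy, ha, Or.inr rfl⟩)).2.2.1
    refine ⟨hyb, sub_antisymm ?_ ?_⟩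
    · intro c hc
      obtain ⟨x, hx, rfl⟩ := hg.mem_rg.1 (hgβ c (hβ.trans hyb hc))
      obtain ⟨-, -, -, h3⟩ := (h1 x y).1 ((h2 x y).2 ⟨hx, hy, hyb, Or.inl hc⟩)
      rcases h3 with h3 | rfl
      · rw [(ih _ h3 (hα.trans ha h3) x hx rfl).2]
        exact h3
      · exact absurd hc (not_mem_self _)
    · intro b hb
      obtain ⟨x, hx, rfl⟩ := hf.mem_rg.1 (hfα b (hα.trans ha hb))
      obtain ⟨-, -, -, h3⟩ := (h2 x y).1 ((h1 x y).2 ⟨hx, hy, ha, Or.inl hb⟩)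
      rcases h3 with h3 | rfl
      · rwa [(ih _ hb (hα.trans ha hb) x hx rfl).2] at h3
      · exact absurd hb (not_mem_self _)
  intro a ha
  obtain ⟨y, hy, rfl⟩ := hf.mem_rg.1 (hfα a ha)
  obtain ⟨h3, h4⟩ := key _ ha y hy rfl
  rwa [h4] at h3

/-- The ordinals which are covered by `H` form an ordinal. -/
theorem hartogs (H : N) : ∃ κ : N, Ord κ ∧ ∀ α : N, α ∈ κ ↔ Ord α ∧ Cov H α := by
  let Q : N → N → Prop := fun E α => Ord α ∧ ∃ f, IsF f H ∧ α ⊆ rg f ∧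
    ∀ x y, op x y ∈ E ↔ x ∈ H ∧ y ∈ H ∧ ap f y ∈ α ∧ (ap f x ∈ ap f y ∨ x = y)
  have hQ : Dfn fun v : ℕ → N => Q (v 1) (v 0) := by
    change Dfn fun v : ℕ → N => Ord (v 0) ∧ ∃ f, IsF f H ∧ v 0 ⊆ rg f ∧
      ∀ x y, op x y ∈ v 1 ↔ x ∈ H ∧ y ∈ H ∧ ap f y ∈ v 0 ∧ (ap f x ∈ ap f y ∨ x = y)
    simp (maxDischargeDepth := 99)
  have hT : DF fun v : ℕ → N => the fun α => Q (v 0) α :=
    df_the (R := fun α v => Q (v 0) α) hQ
  have hP : Dfn fun v : ℕ → N => Ord (v 0) ∧ Cov H (v 0) := by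
    simp (maxDischargeDepth := 99)
  have key : ∀ α, α ∈ sep (img (pw (prd H H)) fun E => the fun α => Q E α)
      (fun α => Ord α ∧ Cov H α) ↔ Ord α ∧ Cov H α := by
    intro α
    rw [mem_sep hP]
    refine and_iff_right_of_imp ?_
    rintro ⟨hα, f, hf, hfα⟩
    have hE : Dfn fun v : ℕ → N => ∃ x y, v 0 = op x y ∧ ap f y ∈ α ∧
        (ap f x ∈ ap f y ∨ x = y) := by
      simp (maxDischargeDepth := 99)
    let E : N := sep (prd H H) fun z => ∃ x y, z = op x y ∧ ap f y ∈ α ∧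
      (ap f x ∈ ap f y ∨ x = y)
    have h1 : ∀ x y, op x y ∈ E ↔ x ∈ H ∧ y ∈ H ∧ ap f y ∈ α ∧ (ap f x ∈ ap f y ∨ x = y) := by
      intro x y
      rw [mem_sep hE, op_mem_prd]
      constructor
      · rintro ⟨⟨hx, hy⟩, x', y', h2, h3⟩
        obtain ⟨rfl, rfl⟩ := op_inj.1 h2
        exact ⟨hx, hy, h3⟩
      · rintro ⟨hx, hy, h3⟩
        exact ⟨⟨hx, hy⟩, x, y, rfl, h3⟩
    refine (mem_img hT).2 ⟨E, mem_pw.2 fun z hz => ((mem_sep hE).1 hz).1, ?_⟩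
    refine (the_eq (P := fun α => Q E α) ⟨hα, f, hf, hfα, h1⟩ ?_).symm
    rintro β ⟨hβ, g, hg, hgβ, h2⟩
    exact sub_antisymm (hartogs_aux hβ hα hg hf hgβ hfα h2 h1)
      (hartogs_aux hα hβ hf hg hfα hgβ h1 h2)
  refine ⟨_, ⟨fun a ha z hz => ?_, fun a ha => ((key a).1 ha).1.1⟩, key⟩
  obtain ⟨h1, h2⟩ := (key a).1 ha
  exact (key z).2 ⟨h1.mem hz, h2.sub (h1.1 z hz)⟩

theorem VV_sub {x y : N} (h : x ⊆ y) : VV x ⊆ VV y := fun z hz => by
  obtain ⟨u, hu, h1⟩ := mem_VV.1 hz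
  exact mem_VV.2 ⟨u, h u hu, h1⟩

section
variable {H κ : N} (hW : WO N) (hH : Cov H (prd H H)) (h2 : ∃ a b, a ∈ H ∧ b ∈ H ∧ a ≠ b)
  (hk : ∀ α : N, α ∈ κ ↔ Ord α ∧ Cov H α)
include hH hk

section
include h2

theorem sc_mem_kap {α : N} (h : α ∈ κ) : sc α ∈ κ := by
  obtain ⟨h3, f, hf, h4⟩ := (hk α).1 h
  obtain ⟨a, b, ha, hb, hab⟩ := h2
  refine (hk _).2 ⟨⟨fun z hz => ?_, fun z hz => ?_⟩, ?_⟩
  · intro u hu
    rw [mem_sc] at hz ⊢
    rcases hz with hz | rfl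
    · exact Or.inl (h3.trans hz hu)
    · exact Or.inl hu
  · rcases mem_sc.1 hz with hz | rfl
    · exact h3.2 z hz
    · exact h3.1
  · refine hH.comp (F := fun p => ife (snd p = a) (ap f (fst p)) α)
      (by simp (maxDischargeDepth := 99)) fun z hz => ?_
    rcases mem_sc.1 hz with hz | rfl
    · obtain ⟨x, hx, rfl⟩ := hf.mem_rg.1 (h4 z hz)
      refine ⟨op x a, op_mem_prd.2 ⟨hx, ha⟩, ?_⟩
      rw [snd_op, fst_op, ife_pos rfl]
    · refine ⟨op a b, op_mem_prd.2 ⟨ha, hb⟩, ?_⟩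
      rw [snd_op, fst_op, ife_neg (Ne.symm hab)]

end

include hW

/-- every function from `H` to `κ` is bounded -/
theorem kap_reg {g : N → N} (hg : DF fun v => g (v 0)) (h : ∀ x, x ∈ H → g x ∈ κ) :
    bU H g ∈ κ := by
  obtain ⟨c, hc, h3⟩ := choice hW (R := fun x f => IsF f H ∧ g x ⊆ rg f) (A := H)
    (dfn_and (dfn_isF (df_var 1) (df_const _)) (dfn_sub hg (df_rg (df_var 1))))
    fun x hx => ((hk _).1 (h x hx)).2
  refine (hk _).2 ⟨⟨fun z hz => ?_, fun z hz => ?_⟩, ?_⟩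
  · obtain ⟨x, hx, hz⟩ := (mem_bU hg).1 hz
    intro u hu
    exact (mem_bU hg).2 ⟨x, hx, ((hk _).1 (h x hx)).1.trans hz hu⟩
  · obtain ⟨x, hx, hz⟩ := (mem_bU hg).1 hz
    exact ((hk _).1 (h x hx)).1.2 z hz
  · refine hH.comp (F := fun p => ap (c (fst p)) (snd p))
      (df_ap (df1 hc (df_fst (df_var 0))) (df_snd (df_var 0))) fun z hz => ?_
    obtain ⟨x, hx, hz⟩ := (mem_bU hg).1 hz
    obtain ⟨h4, h5⟩ := h3 x hx
    obtain ⟨y, hy, rfl⟩ := h4.mem_rg.1 (h5 z hz)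
    refine ⟨op x y, op_mem_prd.2 ⟨hx, hy⟩, ?_⟩
    rw [fst_op, snd_op]

include h2 in
/-- the level `V_κ` contains all its subsets which are covered by `H` -/
theorem VV_kap {A : N} (hA : A ⊆ VV κ) (h : Cov H A) : A ∈ VV κ := by
  obtain ⟨f, hf, h3⟩ := h
  have h0 : ∅ ∈ κ := (hk _).2 ⟨⟨fun z hz => absurd hz (not_mem_em z),
    fun z hz => absurd hz (not_mem_em z)⟩, f, hf, em_sub _⟩
  obtain ⟨g, hg, h4⟩ := choice hW (R := fun x y => y ∈ κ ∧ (ap f x ∈ VV κ → ap f x ⊆ VV y))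
    (A := H) (by simp (maxDischargeDepth := 99)) fun x hx => by
      by_cases hc : ap f x ∈ VV κ
      · obtain ⟨y, hy, h5⟩ := mem_VV.1 hc
        exact ⟨y, hy, fun _ => h5⟩
      · exact ⟨∅, h0, fun h => absurd h hc⟩
  have h5 := kap_reg hW hH hk hg fun x hx => (h4 x hx).1
  refine mem_VV.2 ⟨_, sc_mem_kap hH h2 hk h5, fun z hz => ?_⟩
  obtain ⟨x, hx, rfl⟩ := hf.mem_rg.1 (h3 z hz)
  refine mem_VV.2 ⟨bU H g, mem_sc.2 (Or.inr rfl), sub_trans ((h4 x hx).2 (hA _ hz)) (VV_sub ?_)⟩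
  exact fun u hu => (mem_bU hg).2 ⟨x, hx, hu⟩

end

/-- doubling of the natural numbers -/
noncomputable def dbl (x : N) : N := itr (fun _ y => sc (sc y)) ∅ x

theorem df_dblF : DF fun v : ℕ → N => (fun _ y => sc (sc y)) (v 0) (v 1) := by
  change DF fun v : ℕ → N => sc (sc (v 1))
  simp (maxDischargeDepth := 99)

@[simp] theorem df_dbl {s : (ℕ → N) → N} (hs : DF s) : DF fun v => dbl (s v) :=
  df1 (F := dbl) (by
    unfold dbl
    exact df_itr (F := fun _ y _ => sc (sc y)) (a := fun _ => ∅) df_dblF (df_const _)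
      (df_var 0)) hs

theorem dbl_nt (n : ℕ) : dbl (nt n : N) = nt (2 * n) := by
  induction n with
  | zero => exact itr_zero df_dblF _
  | succ n ih =>
    have h1 : dbl (nt (n + 1) : N) = sc (sc (dbl (nt n))) := itr_succ df_dblF _ n
    rw [h1, ih]
    rfl

/-- the set of sequences covers its square -/
theorem cov_seq (X : N) : Cov (fs om X) (prd (fs om X) (fs om X)) := by
  have hd : DF fun v : ℕ → N => op (lam om fun n => ap (v 0) (dbl n))
      (lam om fun n => ap (v 0) (sc (dbl n))) := by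
    simp (maxDischargeDepth := 99)
  refine cov_of (F := fun f => op (lam om fun n => ap f (dbl n))
    (lam om fun n => ap f (sc (dbl n)))) hd fun z hz => ?_
  obtain ⟨g, h, hg, hh, rfl⟩ := mem_prd.1 hz
  rw [mem_fs] at hg hh
  let T : N → N := fun m => the fun z => (∃ n, n ∈ (om : N) ∧ m = dbl n ∧ z = ap g n) ∨
    ∃ n, n ∈ (om : N) ∧ m = sc (dbl n) ∧ z = ap h n
  have hT : DF fun v : ℕ → N => T (v 0) := by
    change DF fun v : ℕ → N => the fun z => (∃ n, n ∈ (om : N) ∧ v 0 = dbl n ∧ z = ap g n) ∨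
      ∃ n, n ∈ (om : N) ∧ v 0 = sc (dbl n) ∧ z = ap h n
    simp (maxDischargeDepth := 99)
  have h1 : ∀ n : ℕ, T (nt (2 * n)) = ap g (nt n) := by
    intro n
    refine the_eq (Or.inl ⟨nt n, nt_mem_om n, (dbl_nt n).symm, rfl⟩) fun z hz => ?_
    rcases hz with ⟨m, hm, h3, rfl⟩ | ⟨m, hm, h3, rfl⟩
    · obtain ⟨k, rfl⟩ := mem_om.1 hm
      rw [dbl_nt, nt_inj] at h3
      have : k = n := by omega
      rw [this]
    · obtain ⟨k, rfl⟩ := mem_om.1 hm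
      rw [dbl_nt, ← nt_succ, nt_inj] at h3
      omega
  have h2 : ∀ n : ℕ, T (nt (2 * n + 1)) = ap h (nt n) := by
    intro n
    refine the_eq (Or.inr ⟨nt n, nt_mem_om n, by rw [dbl_nt]; rfl, rfl⟩) fun z hz => ?_
    rcases hz with ⟨m, hm, h3, rfl⟩ | ⟨m, hm, h3, rfl⟩
    · obtain ⟨k, rfl⟩ := mem_om.1 hm
      rw [dbl_nt, nt_inj] at h3
      omega
    · obtain ⟨k, rfl⟩ := mem_om.1 hm
      rw [dbl_nt, ← nt_succ, nt_inj] at h3
      have : k = n := by omega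
      rw [this]
  refine ⟨lam om T, mem_fs.2 ⟨isF_lam hT _, fun x hx => ?_⟩, ?_⟩
  · rw [ap_lam hT hx]
    obtain ⟨k, rfl⟩ := mem_om.1 hx
    rcases Nat.even_or_odd' k with ⟨m, rfl | rfl⟩
    · rw [h1]
      exact hg.2 _ (nt_mem_om m)
    · rw [h2]
      exact hh.2 _ (nt_mem_om m)
  · have e1 : ∀ n, n ∈ (om : N) → ap (lam om T) (dbl n) = ap g n := fun n hn => by
      obtain ⟨k, rfl⟩ := mem_om.1 hn
      rw [dbl_nt, ap_lam hT (nt_mem_om _), h1]
    have e2 : ∀ n, n ∈ (om : N) → ap (lam om T) (sc (dbl n)) = ap h n := fun n hn => by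
      obtain ⟨k, rfl⟩ := mem_om.1 hn
      rw [dbl_nt, ← nt_succ, ap_lam hT (nt_mem_om _), h2]
    rw [op_inj]
    constructor
    · refine (hg.1.ext (isF_lam (by simp (maxDischargeDepth := 99)) _) fun x hx => ?_)
      rw [ap_lam (by simp (maxDischargeDepth := 99)) hx, e1 x hx]
    · refine (hh.1.ext (isF_lam (by simp (maxDischargeDepth := 99)) _) fun x hx => ?_)
      rw [ap_lam (by simp (maxDischargeDepth := 99)) hx, e2 x hx]

/-- **Existence of closed sets.** -/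
theorem exists_big (hW : WO N) {X : N} (hX : X ≠ ∅) : ∃ K, Big X K := by
  let Y : N := cup (tcs X) om
  let H : N := fs om Y
  have hc : ∀ y, y ∈ Y → lam om (fun _ => y) ∈ H := fun y hy => by
    refine mem_fs.2 ⟨isF_lam (df_const y) _, fun x hx => ?_⟩
    rw [ap_lam (df_const y) hx]
    exact hy
  have hHY : Cov H Y := by
    refine cov_of (F := fun f => ap f ∅) (by simp (maxDischargeDepth := 99)) fun z hz => ?_
    refine ⟨lam om (fun _ => z), hc z hz, ?_⟩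
    rw [ap_lam (df_const z) ind_om.1]
  have hHH : Cov H (prd H H) := cov_seq Y
  have h2 : ∃ a b, a ∈ H ∧ b ∈ H ∧ a ≠ b := by
    refine ⟨_, _, hc (nt 0) (mem_cup.2 (Or.inr (nt_mem_om 0))),
      hc (nt 1) (mem_cup.2 (Or.inr (nt_mem_om 1))), fun h => ?_⟩
    have h3 : ap (lam om fun _ => (nt 0 : N)) ∅ = ap (lam om fun _ => (nt 1 : N)) ∅ := by rw [h]
    rw [ap_lam (df_const _) ind_om.1, ap_lam (df_const _) ind_om.1, nt_inj] at h3
    omega
  obtain ⟨κ, -, hk⟩ := hartogs H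
  have hcl : ∀ A, A ⊆ VV κ → Cov H A → A ∈ VV κ := fun A hA h => VV_kap hW hHH h2 hk hA h
  have htr : Tr (VV κ) := fun z hz => VV_tr hz
  have hXX : ∀ x, x ∈ tcs X → x ∈ VV κ := by
    intro x
    refine ind (P := fun x => x ∈ tcs X → x ∈ VV κ) ?_ x
    intro x ih hx
    have h3 : x ⊆ tcs X := tr_tcs X x hx
    exact hcl x (fun y hy => ih y hy (h3 y hy)) (hHY.sub fun y hy => mem_cup.2 (Or.inl (h3 y hy)))
  have hXt : X ⊆ tcs X := tr_tcs X X (self_mem_tcs X)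
  refine ⟨VV κ, htr, fun x hx => hXX x (hXt x hx), hX, fun A hA h => hcl A hA ?_⟩
  obtain ⟨f, hf, h3⟩ := h
  refine hHH.comp (F := fun p => ap f (op (ap (fst p) ∅) (ap (snd p) ∅)))
    (by simp (maxDischargeDepth := 99)) fun z hz => ?_
  obtain ⟨p, hp, rfl⟩ := hf.mem_rg.1 (h3 z hz)
  obtain ⟨x, n, hx, hn, rfl⟩ := mem_prd.1 hp
  refine ⟨op (lam om fun _ => x) (lam om fun _ => n), op_mem_prd.2 ⟨?_, ?_⟩, ?_⟩
  · exact hc x (mem_cup.2 (Or.inl (hXt x hx)))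
  · exact hc n (mem_cup.2 (Or.inr hn))
  · rw [fst_op, snd_op, ap_lam (df_const _) ind_om.1, ap_lam (df_const _) ind_om.1]

end CPQ
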