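import Pool.Agent.CPY.QGen
import Pool.Agent.CPY.B.Dfo

/-! # Block (C), untyped form: the generic extension by the coding poset

(problem MP_ba5606_gt, project CPY, block (C); no sorry in this file)

For a countable transitive model `M` and an almost disjoint family `e` on `I` in `M` whose union is
countable in `M` there is a countable transitive model `W ⊇ M` such that all functions of `W` are
covered by countable valued functions of `M`, and every subset `r ∈ W` of `I` is coded by some `d ∈ W`: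
`i ∈ r` if and only if `d ∩ e_i` is finite. -/

namespace CPQ

open STP ZU CPY

theorem block {M : Set ZFSet.{0}} [TM M] (hM : CPY.Mod M) (hc : M.Countable) {I e : M}
    (hAD : AD I e) (hC : Ctb (OO e)) : ∃ W : Set ZFSet.{0}, W.Countable ∧ CPY.Mod W ∧ M ⊆ W ∧
    (∀ f ∈ W, ∀ A X : M, ∃ F : M → M, (DF fun v => F (v 0)) ∧ ∀ a, a ∈ A → F a ⊆ X ∧ Ctb (F a) ∧
      ((∀ b c, b ∈ X.1 → c ∈ X.1 → ZFSet.pair a.1 b ∈ f → ZFSet.pair a.1 c ∈ f → b = c) →
        ∀ b : M, b ∈ X → ZFSet.pair a.1 b.1 ∈ f → b ∈ F a)) ∧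
    ∀ r ∈ W, ∃ d ∈ W, d ⊆ (OO e).1 ∧
      ∀ i : M, i ∈ I → (i.1 ∈ r ↔ {k | k ∈ d ∧ k ∈ (ap e i).1}.Finite) := by
  have hW : WO M := hM.woz
  let X : M := cup (cup I (OO e)) (sg ∅)
  have hX : X ≠ ∅ := ne_em.2 ⟨∅, mem_cup.2 (Or.inr (mem_sg.2 rfl))⟩
  obtain ⟨K, hK⟩ := exists_big hW hX
  have hI : I ⊆ X := fun z hz => mem_cup.2 (Or.inl (mem_cup.2 (Or.inl hz)))
  have hO : OO e ⊆ X := fun z hz => mem_cup.2 (Or.inl (mem_cup.2 (Or.inr hz)))
  have hQ : IsPo M (Qp I e K) := isPo_Qp hK hI hO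
  have hcc : Ccc M (Qp I e K) := cc_Qp hK hI hO hW hC
  have hD : DFo M (Qp I e K) := dfo hQ
  obtain ⟨G, hG, -⟩ := gen_exists hc hQ hQ.one_mem
  have hE : CPY.Mod (Ext M G) := hM.ext hQ hG
  have hT : TM (Ext M G) := hE.tm
  refine ⟨Ext M G, Ext_cnt hc, hE, sub_ext hG hD.ck, ?_, ?_⟩
  · rintro f ⟨x, hx, rfl⟩ A Y
    obtain ⟨F, hF, h1⟩ := approx hQ hD hW hcc ⟨x, hx⟩ A Y
    exact ⟨F, hF, fun a ha => ⟨(h1 a ha).1, (h1 a ha).2.1, (h1 a ha).2.2 G hG⟩⟩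
  · intro r hr
    exact coding hK hI hO hAD hW hC hD (CPY.gnm_mem hQ) hG hr

end CPQ
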