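import Pool.Agent.ZU.Emb
import Pool.Agent.ZU.Cho

/-! # The poset of the universal coding (block (C)): definitions and elementary lemmas

(problem MP_ba5606_gt, project CPY, block (C); no sorry in this file)

`N` is a well-founded model of ZF, `I : N` a set of indices and `e : N` a function on `I` whose values
`e_i = ap e i` are (in the applications) almost disjoint subsets of a countable set; `OO e` is the union
of all `e_i`.
A NAME is a set `n` of pairs `(i, w)`, `i ∈ I`, `w` a condition. A CONDITION is a finite function `p` on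
names, `p(n) = (stm p n, prm p n)`, where the stem `stm p n` is a finite subset of `OO e` and the promise
`prm p n` is a finite set of `i ∈ I`, each of them justified: there is `(i, w) ∈ n` with `LE e p w`.
Order: `LE e p q` (`p` is stronger): stems and promises grow, and the new elements of the stem of `n`
are not in `e_i`, `i ∈ prm q n`. -/

universe v

namespace CPQ

open ZU

variable {N : Type v} [ZM N]

/-- the union of all `e_i` -/
noncomputable def OO (e : N) : N := uni (rg e)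

@[simp] theorem df_OO {s : (ℕ → N) → N} (hs : DF s) : DF fun v => OO (s v) := df_uni (df_rg hs)

/-- the stem of the condition `p` at the name `n` -/
noncomputable def stm (p n : N) : N := fst (ap p n)

/-- the promise of the condition `p` at the name `n` -/
noncomputable def prm (p n : N) : N := snd (ap p n)

@[simp] theorem df_stm {s t : (ℕ → N) → N} (hs : DF s) (ht : DF t) :
    DF fun v => stm (s v) (t v) := df_fst (df_ap hs ht)

@[simp] theorem df_prm {s t : (ℕ → N) → N} (hs : DF s) (ht : DF t) :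
    DF fun v => prm (s v) (t v) := df_snd (df_ap hs ht)

/-- the order: `p` is stronger than `q` -/
def LE (e p q : N) : Prop :=
  ∀ n, n ∈ dm q → n ∈ dm p ∧ stm q n ⊆ stm p n ∧ prm q n ⊆ prm p n ∧
    ∀ i, i ∈ prm q n → ∀ k, k ∈ stm p n → k ∈ ap e i → k ∈ stm q n

@[simp] theorem dfn_le {s t r : (ℕ → N) → N} (hs : DF s) (ht : DF t) (hr : DF r) :
    Dfn fun v => LE (s v) (t v) (r v) :=
  dfn3 (P := LE) (by unfold LE; simp (maxDischargeDepth := 99)) hs ht hr

/-- local properties of a condition -/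
def Loc (I e p : N) : Prop :=
  IsF p (dm p) ∧ Fi (dm p) ∧ ∀ n, n ∈ dm p → ap p n = op (stm p n) (prm p n) ∧
    stm p n ⊆ OO e ∧ Fi (stm p n) ∧ Fi (prm p n) ∧
    (∀ i, i ∈ prm p n → ∃ w, op i w ∈ n ∧ LE e p w) ∧ ∀ z, z ∈ n → ∃ i w, i ∈ I ∧ z = op i w

@[simp] theorem dfn_loc {s t r : (ℕ → N) → N} (hs : DF s) (ht : DF t) (hr : DF r) :
    Dfn fun v => Loc (s v) (t v) (r v) :=
  dfn3 (P := Loc) (by unfold Loc; simp (maxDischargeDepth := 99)) hs ht hr

/-- the set of all `w` with `(i, w) ∈ n`, `n ∈ dm p` -/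
noncomputable def prq (p : N) : N := bU (dm p) fun n => rg n

@[simp] theorem df_prq {s : (ℕ → N) → N} (hs : DF s) : DF fun v => prq (s v) :=
  df1 (F := prq) (by unfold prq; simp (maxDischargeDepth := 99)) hs

theorem mem_prq {p w : N} : w ∈ prq p ↔ ∃ n i, n ∈ dm p ∧ op i w ∈ n := by
  unfold prq
  rw [mem_bU (by simp (maxDischargeDepth := 99))]
  constructor
  · rintro ⟨n, hn, hw⟩
    obtain ⟨i, hi⟩ := mem_rg.1 hw
    exact ⟨n, i, hn, hi⟩
  · rintro ⟨n, i, hn, hi⟩
    exact ⟨n, hn, mem_rg.2 ⟨i, hi⟩⟩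

theorem nrk_op_right (x y : N) : nrk y < nrk (op x y) :=
  (nrk_lt (by simp : y ∈ up x y)).trans (nrk_lt (by unfold op; simp : up x y ∈ op x y))

theorem nrk_op_left (x y : N) : nrk x < nrk (op x y) :=
  (nrk_lt (by simp : x ∈ up x y)).trans (nrk_lt (by unfold op; simp : up x y ∈ op x y))

theorem nrk_prq {p w : N} (h : w ∈ prq p) : nrk w < nrk p := by
  obtain ⟨n, i, hn, hw⟩ := mem_prq.1 h
  obtain ⟨y, hy⟩ := mem_dm.1 hn
  exact (nrk_op_right i w).trans ((nrk_lt hw).trans ((nrk_op_left n y).trans (nrk_lt hy)))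

theorem df_prq0 : DF fun v : ℕ → N => prq (v 0) := df_prq (df_var 0)

theorem indP_prq : IndP (prq : N → N) :=
  indP_of_wf (Subrelation.wf (fun h => nrk_prq h) (InvImage.wf nrk Ordinal.lt_wf))

/-- `p` is a condition -/
def Cond (I e p : N) : Prop := ∀ q, q ∈ clo prq p → Loc I e q

@[simp] theorem dfn_cond {s t r : (ℕ → N) → N} (hs : DF s) (ht : DF t) (hr : DF r) :
    Dfn fun v => Cond (s v) (t v) (r v) := by
  refine dfn3 (P := Cond) ?_ hs ht hr
  unfold Cond
  refine dfn_all (dfn_imp (dfn_mem (df_var 0) ?_) (dfn_loc (df_var 1) (df_var 2) (df_var 0)))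
  exact df_clo (pr := fun y _ => prq y) (x := fun v => v 3) df_prq0 (df_var 3)

/-- `n` is a name -/
def Nam (I e n : N) : Prop := ∀ z, z ∈ n → ∃ i w, i ∈ I ∧ Cond I e w ∧ z = op i w

@[simp] theorem dfn_nam {s t r : (ℕ → N) → N} (hs : DF s) (ht : DF t) (hr : DF r) :
    Dfn fun v => Nam (s v) (t v) (r v) :=
  dfn3 (P := Nam) (by unfold Nam; simp (maxDischargeDepth := 99)) hs ht hr

/-- The recursive characterization of conditions. -/
theorem cond_iff {I e p : N} : Cond I e p ↔ IsF p (dm p) ∧ Fi (dm p) ∧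
    ∀ n, n ∈ dm p → ap p n = op (stm p n) (prm p n) ∧ stm p n ⊆ OO e ∧ Fi (stm p n) ∧
      Fi (prm p n) ∧ (∀ i, i ∈ prm p n → ∃ w, op i w ∈ n ∧ LE e p w) ∧ Nam I e n := by
  have hc : DF fun v : ℕ → N => clo prq (v 0) :=
    df_clo (pr := fun y _ => prq y) df_prq0 (df_var 0)
  constructor
  · intro h
    have h1 := h p (self_mem_clo df_prq0 indP_prq p)
    refine ⟨h1.1, h1.2.1, fun n hn => ?_⟩
    obtain ⟨h2, h3, h4, h5, h6, h7⟩ := h1.2.2 n hn
    refine ⟨h2, h3, h4, h5, h6, fun z hz => ?_⟩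
    obtain ⟨i, w, hi, rfl⟩ := h7 z hz
    refine ⟨i, w, hi, fun q hq => h q ?_, rfl⟩
    refine clo_mono df_prq0 indP_prq ?_ q hq
    exact cl_clo df_prq0 indP_prq p p (self_mem_clo df_prq0 indP_prq p) w
      (mem_prq.2 ⟨n, i, hn, hz⟩)
  · rintro ⟨h1, h2, h3⟩ q hq
    rw [clo_eq df_prq0 indP_prq, mem_cup, mem_sg, mem_bU hc] at hq
    rcases hq with rfl | ⟨w, hw, hq⟩
    · refine ⟨h1, h2, fun n hn => ?_⟩
      obtain ⟨h4, h5, h6, h7, h8, h9⟩ := h3 n hn
      refine ⟨h4, h5, h6, h7, h8, fun z hz => ?_⟩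
      obtain ⟨i, w, hi, -, rfl⟩ := h9 z hz
      exact ⟨i, w, hi, rfl⟩
    · obtain ⟨n, i, hn, hw⟩ := mem_prq.1 hw
      obtain ⟨i', w', hi, h4, h5⟩ := (h3 n hn).2.2.2.2.2 _ hw
      obtain ⟨rfl, rfl⟩ := op_inj.1 h5
      exact h4 q hq

theorem LE.refl {e p : N} : LE e p p := fun n hn =>
  ⟨hn, sub_rfl _, sub_rfl _, fun _ _ _ hk _ => hk⟩

theorem LE.trans {e p q r : N} (h : LE e p q) (h' : LE e q r) : LE e p r := by
  intro n hn
  obtain ⟨h1, h2, h3, h4⟩ := h' n hn
  obtain ⟨h5, h6, h7, h8⟩ := h n h1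
  exact ⟨h5, sub_trans h2 h6, sub_trans h3 h7, fun i hi k hk hke =>
    h4 i hi k (h8 i (h3 i hi) k hk hke) hke⟩

/-- the function on `D` with the value `(S n, F n)` at `n` -/
noncomputable def mk (D : N) (S F : N → N) : N := lam D fun n => op (S n) (F n)

section
variable {D : N} {S F : N → N} (hS : DF fun v => S (v 0)) (hF : DF fun v => F (v 0))
include hS hF

theorem dm_mk : dm (mk D S F) = D := dm_lam (F := fun n => op (S n) (F n)) (df_op hS hF)

theorem ap_mk {n : N} (hn : n ∈ D) : ap (mk D S F) n = op (S n) (F n) :=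
  ap_lam (F := fun n => op (S n) (F n)) (df_op hS hF) hn

theorem stm_mk {n : N} (hn : n ∈ D) : stm (mk D S F) n = S n := by
  rw [stm, ap_mk hS hF hn, fst_op]

theorem prm_mk {n : N} (hn : n ∈ D) : prm (mk D S F) n = F n := by
  rw [prm, ap_mk hS hF hn, snd_op]

/-- The only way in which conditions are constructed. -/
theorem cond_mk {I e : N} (hD : Fi D) (h : ∀ n, n ∈ D → S n ⊆ OO e ∧ Fi (S n) ∧ Fi (F n) ∧
    (∀ i, i ∈ F n → ∃ w, op i w ∈ n ∧ LE e (mk D S F) w) ∧ Nam I e n) :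
    Cond I e (mk D S F) := by
  rw [cond_iff, dm_mk hS hF]
  refine ⟨isF_lam (F := fun n => op (S n) (F n)) (df_op hS hF) D, hD, fun n hn => ?_⟩
  rw [ap_mk hS hF hn, stm_mk hS hF hn, prm_mk hS hF hn]
  exact ⟨rfl, h n hn⟩

end

namespace Cond

variable {I e p n : N}

theorem isF (h : Cond I e p) : IsF p (dm p) := (cond_iff.1 h).1
theorem fi (h : Cond I e p) : Fi (dm p) := (cond_iff.1 h).2.1
theorem ap_eq (h : Cond I e p) (hn : n ∈ dm p) : ap p n = op (stm p n) (prm p n) :=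
  ((cond_iff.1 h).2.2 n hn).1
theorem stm_O (h : Cond I e p) (hn : n ∈ dm p) : stm p n ⊆ OO e :=
  ((cond_iff.1 h).2.2 n hn).2.1
theorem fi_stm (h : Cond I e p) (hn : n ∈ dm p) : Fi (stm p n) :=
  ((cond_iff.1 h).2.2 n hn).2.2.1
theorem fi_prm (h : Cond I e p) (hn : n ∈ dm p) : Fi (prm p n) :=
  ((cond_iff.1 h).2.2 n hn).2.2.2.1
theorem just (h : Cond I e p) (hn : n ∈ dm p) {i : N} (hi : i ∈ prm p n) :
    ∃ w, op i w ∈ n ∧ LE e p w := ((cond_iff.1 h).2.2 n hn).2.2.2.2.1 i hi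
theorem nam (h : Cond I e p) (hn : n ∈ dm p) : Nam I e n :=
  ((cond_iff.1 h).2.2 n hn).2.2.2.2.2

/-- promises are indices -/
theorem prm_I (h : Cond I e p) (hn : n ∈ dm p) {i : N} (hi : i ∈ prm p n) : i ∈ I := by
  obtain ⟨w, hw, -⟩ := h.just hn hi
  obtain ⟨i', w', hi', -, h1⟩ := h.nam hn _ hw
  rw [(op_inj.1 h1).1]
  exact hi'

end Cond

/-- the empty condition -/
theorem cond_em (I e : N) : Cond I e ∅ := by
  have h : dm (∅ : N) = ∅ := eq_em fun z hz => by
    obtain ⟨y, hy⟩ := mem_dm.1 hz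
    exact not_mem_em _ hy
  rw [cond_iff, h]
  refine ⟨?_, fi_em, fun n hn => absurd hn (not_mem_em n)⟩
  refine ext fun z => ?_
  rw [mem_lam (df_ap_c _)]
  constructor
  · intro hz
    exact absurd hz (not_mem_em z)
  · rintro ⟨x, hx, -⟩
    exact absurd hx (not_mem_em x)

theorem LE_em (e p : N) : LE e p ∅ := by
  intro n hn
  obtain ⟨y, hy⟩ := mem_dm.1 hn
  exact absurd hy (not_mem_em _)

/-! ### Extensions of conditions -/

section
variable {I e p : N} (hp : Cond I e p)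
include hp

/-- every name can be added to the domain -/
theorem ext_nam {n : N} (hn : Nam I e n) : ∃ q, Cond I e q ∧ LE e q p ∧ n ∈ dm q ∧
    dm q ⊆ cup (dm p) (sg n) := by
  by_cases hnp : n ∈ dm p
  · exact ⟨p, hp, LE.refl, hnp, fun z hz => mem_cup.2 (Or.inl hz)⟩
  have hS : DF fun v : ℕ → N => ife (v 0 = n) ∅ (stm p (v 0)) := by
    simp (maxDischargeDepth := 99)
  have hF : DF fun v : ℕ → N => ife (v 0 = n) ∅ (prm p (v 0)) := by
    simp (maxDischargeDepth := 99)
  have hne : ∀ m, m ∈ dm p → m ≠ n := fun m hm h => hnp (h ▸ hm)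
  have hle : LE e (mk (cup (dm p) (sg n)) (fun m => ife (m = n) ∅ (stm p m))
      (fun m => ife (m = n) ∅ (prm p m))) p := by
    intro m hm
    have hm' : m ∈ cup (dm p) (sg n) := mem_cup.2 (Or.inl hm)
    rw [dm_mk hS hF, stm_mk hS hF hm', prm_mk hS hF hm', ife_neg (hne m hm), ife_neg (hne m hm)]
    exact ⟨hm', sub_rfl _, sub_rfl _, fun _ _ _ hk _ => hk⟩
  refine ⟨_, cond_mk hS hF (hp.fi.cup (fi_sg n)) fun m hm => ?_, hle, ?_, ?_⟩
  · by_cases hmn : m = n
    · subst hmn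
      simp only [ife_pos]
      exact ⟨em_sub _, fi_em, fi_em, fun i hi => absurd hi (not_mem_em i), hn⟩
    · have hm' : m ∈ dm p := by
        rcases mem_cup.1 hm with h | h
        · exact h
        · exact absurd (mem_sg.1 h) hmn
      simp only [ife_neg hmn]
      refine ⟨hp.stm_O hm', hp.fi_stm hm', hp.fi_prm hm', fun i hi => ?_, hp.nam hm'⟩
      obtain ⟨w, hw, h1⟩ := hp.just hm' hi
      exact ⟨w, hw, hle.trans h1⟩
  · rw [dm_mk hS hF]
    exact mem_cup.2 (Or.inr (mem_sg.2 rfl))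
  · rw [dm_mk hS hF]
    exact sub_rfl _

/-- a promise can be added below a condition which justifies it -/
theorem ext_prm {n i w : N} (hn : n ∈ dm p) (hw : op i w ∈ n) (hpw : LE e p w) :
    ∃ q, Cond I e q ∧ LE e q p ∧ n ∈ dm q ∧ i ∈ prm q n ∧ dm q = dm p := by
  have hS : DF fun v : ℕ → N => stm p (v 0) := by simp (maxDischargeDepth := 99)
  have hF : DF fun v : ℕ → N => ife (v 0 = n) (cup (prm p (v 0)) (sg i)) (prm p (v 0)) := by
    simp (maxDischargeDepth := 99)
  have hsub : ∀ m, prm p m ⊆ ife (m = n) (cup (prm p m) (sg i)) (prm p m) := by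
    intro m
    by_cases hmn : m = n
    · rw [ife_pos hmn]
      exact fun z hz => mem_cup.2 (Or.inl hz)
    · rw [ife_neg hmn]
      exact sub_rfl _
  have hle : LE e (mk (dm p) (fun m => stm p m)
      (fun m => ife (m = n) (cup (prm p m) (sg i)) (prm p m))) p := by
    intro m hm
    rw [dm_mk hS hF, stm_mk hS hF hm, prm_mk hS hF hm]
    exact ⟨hm, sub_rfl _, hsub m, fun _ _ _ hk _ => hk⟩
  refine ⟨_, cond_mk hS hF hp.fi fun m hm => ?_, hle, ?_, ?_, dm_mk hS hF⟩
  · refine ⟨hp.stm_O hm, hp.fi_stm hm, ?_, fun k hk => ?_, hp.nam hm⟩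
    · by_cases hmn : m = n
      · rw [ife_pos hmn]
        exact (hp.fi_prm hm).cup (fi_sg i)
      · rw [ife_neg hmn]
        exact hp.fi_prm hm
    · by_cases hmn : m = n
      · subst hmn
        rw [ife_pos rfl] at hk
        rcases mem_cup.1 hk with hk | hk
        · obtain ⟨w, hw, h1⟩ := hp.just hm hk
          exact ⟨w, hw, hle.trans h1⟩
        · rw [mem_sg] at hk
          subst hk
          exact ⟨w, hw, hle.trans hpw⟩
      · rw [ife_neg hmn] at hk
        obtain ⟨w, hw, h1⟩ := hp.just hm hk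
        exact ⟨w, hw, hle.trans h1⟩
  · rw [dm_mk hS hF]
    exact hn
  · rw [prm_mk hS hF hn, ife_pos rfl]
    exact mem_cup.2 (Or.inr (mem_sg.2 rfl))

/-- a number which is in no `e_i`, `i ∈ prm p n`, can be added to the stem of `n` -/
theorem ext_stm {n k : N} (hn : n ∈ dm p) (hk : k ∈ OO e)
    (hke : ∀ i, i ∈ prm p n → ¬ k ∈ ap e i) :
    ∃ q, Cond I e q ∧ LE e q p ∧ n ∈ dm q ∧ k ∈ stm q n ∧ dm q = dm p := by
  have hS : DF fun v : ℕ → N => ife (v 0 = n) (cup (stm p (v 0)) (sg k)) (stm p (v 0)) := by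
    simp (maxDischargeDepth := 99)
  have hF : DF fun v : ℕ → N => prm p (v 0) := by simp (maxDischargeDepth := 99)
  have hle : LE e (mk (dm p) (fun m => ife (m = n) (cup (stm p m) (sg k)) (stm p m))
      (fun m => prm p m)) p := by
    intro m hm
    rw [dm_mk hS hF, stm_mk hS hF hm, prm_mk hS hF hm]
    by_cases hmn : m = n
    · subst hmn
      rw [ife_pos rfl]
      refine ⟨hm, fun z hz => mem_cup.2 (Or.inl hz), sub_rfl _, fun i hi u hu hue => ?_⟩
      rcases mem_cup.1 hu with hu | hu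
      · exact hu
      · rw [mem_sg] at hu
        subst hu
        exact absurd hue (hke i hi)
    · rw [ife_neg hmn]
      exact ⟨hm, sub_rfl _, sub_rfl _, fun _ _ _ hk _ => hk⟩
  refine ⟨_, cond_mk hS hF hp.fi fun m hm => ?_, hle, ?_, ?_, dm_mk hS hF⟩
  · refine ⟨?_, ?_, hp.fi_prm hm, fun i hi => ?_, hp.nam hm⟩
    · by_cases hmn : m = n
      · rw [ife_pos hmn]
        intro z hz
        rcases mem_cup.1 hz with hz | hz
        · exact hp.stm_O hm z hz
        · rw [mem_sg] at hz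
          rw [hz]
          exact hk
      · rw [ife_neg hmn]
        exact hp.stm_O hm
    · by_cases hmn : m = n
      · rw [ife_pos hmn]
        exact (hp.fi_stm hm).cup (fi_sg k)
      · rw [ife_neg hmn]
        exact hp.fi_stm hm
    · obtain ⟨w, hw, h1⟩ := hp.just hm hi
      exact ⟨w, hw, hle.trans h1⟩
  · rw [dm_mk hS hF]
    exact hn
  · rw [stm_mk hS hF hn, ife_pos rfl]
    exact mem_cup.2 (Or.inr (mem_sg.2 rfl))

end

/-- **Compatibility**: two conditions whose stems agree at the common names have a common extension,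
the union. -/
theorem ext_cup {I e p q : N} (hp : Cond I e p) (hq : Cond I e q)
    (h : ∀ n, n ∈ dm p → n ∈ dm q → stm p n = stm q n) :
    ∃ r, Cond I e r ∧ LE e r p ∧ LE e r q ∧ dm r = cup (dm p) (dm q) := by
  have hS : DF fun v : ℕ → N => ife (v 0 ∈ dm p) (stm p (v 0)) (stm q (v 0)) := by
    simp (maxDischargeDepth := 99)
  have hF : DF fun v : ℕ → N => cup (ife (v 0 ∈ dm p) (prm p (v 0)) ∅)
      (ife (v 0 ∈ dm q) (prm q (v 0)) ∅) := by
    simp (maxDischargeDepth := 99)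
  have hSq : ∀ n, n ∈ dm q → ife (n ∈ dm p) (stm p n) (stm q n) = stm q n := by
    intro n hn
    by_cases hnp : n ∈ dm p
    · rw [ife_pos hnp, h n hnp hn]
    · rw [ife_neg hnp]
  have hlp : LE e (mk (cup (dm p) (dm q)) (fun n => ife (n ∈ dm p) (stm p n) (stm q n))
      (fun n => cup (ife (n ∈ dm p) (prm p n) ∅) (ife (n ∈ dm q) (prm q n) ∅))) p := by
    intro n hn
    have hn' : n ∈ cup (dm p) (dm q) := mem_cup.2 (Or.inl hn)
    rw [dm_mk hS hF, stm_mk hS hF hn', prm_mk hS hF hn', ife_pos hn, ife_pos hn]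
    exact ⟨hn', sub_rfl _, fun z hz => mem_cup.2 (Or.inl hz), fun _ _ _ hk _ => hk⟩
  have hlq : LE e (mk (cup (dm p) (dm q)) (fun n => ife (n ∈ dm p) (stm p n) (stm q n))
      (fun n => cup (ife (n ∈ dm p) (prm p n) ∅) (ife (n ∈ dm q) (prm q n) ∅))) q := by
    intro n hn
    have hn' : n ∈ cup (dm p) (dm q) := mem_cup.2 (Or.inr hn)
    rw [dm_mk hS hF, stm_mk hS hF hn', prm_mk hS hF hn', hSq n hn, ife_pos hn]
    exact ⟨hn', sub_rfl _, fun z hz => mem_cup.2 (Or.inr hz), fun _ _ _ hk _ => hk⟩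
  refine ⟨_, cond_mk hS hF (hp.fi.cup hq.fi) fun n hn => ?_, hlp, hlq, dm_mk hS hF⟩
  have hcase : n ∈ dm p ∨ n ∈ dm q := mem_cup.1 hn
  refine ⟨?_, ?_, ?_, fun i hi => ?_, ?_⟩
  · by_cases hnp : n ∈ dm p
    · rw [ife_pos hnp]
      exact hp.stm_O hnp
    · rw [ife_neg hnp]
      exact hq.stm_O (hcase.resolve_left hnp)
  · by_cases hnp : n ∈ dm p
    · rw [ife_pos hnp]
      exact hp.fi_stm hnp
    · rw [ife_neg hnp]
      exact hq.fi_stm (hcase.resolve_left hnp)
  · refine Fi.cup ?_ ?_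
    · by_cases hnp : n ∈ dm p
      · rw [ife_pos hnp]
        exact hp.fi_prm hnp
      · rw [ife_neg hnp]
        exact fi_em
    · by_cases hnq : n ∈ dm q
      · rw [ife_pos hnq]
        exact hq.fi_prm hnq
      · rw [ife_neg hnq]
        exact fi_em
  · rcases mem_cup.1 hi with hi | hi
    · by_cases hnp : n ∈ dm p
      · rw [ife_pos hnp] at hi
        obtain ⟨w, hw, h1⟩ := hp.just hnp hi
        exact ⟨w, hw, hlp.trans h1⟩
      · rw [ife_neg hnp] at hi
        exact absurd hi (not_mem_em i)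
    · by_cases hnq : n ∈ dm q
      · rw [ife_pos hnq] at hi
        obtain ⟨w, hw, h1⟩ := hq.just hnq hi
        exact ⟨w, hw, hlq.trans h1⟩
      · rw [ife_neg hnq] at hi
        exact absurd hi (not_mem_em i)
  · rcases hcase with hnp | hnq
    · exact hp.nam hnp
    · exact hq.nam hnq

end CPQ
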