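import Pool.Agent.CPY.QBig
import Pool.Agent.CPY.B.Om

/-! # The universal coding in the generic extension (block (C))

(problem MP_ba5606_gt, project CPY, block (C); no sorry in this file)

`Qp I e K` is the poset of all conditions in `K` as a partial order of the transitive model `M`. Main
theorem `coding`: in the generic extension every subset `r` of `I` is coded by a subset `d` of the
countable set `OO e` (the union of all `e_i`): `i ∈ r` if and only if `d ∩ e_i` is finite. -/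

namespace CPQ

open STP ZU CPY

/-- The family `e_i`, `i ∈ I`, is almost disjoint in the following sense: no `e_i` is covered by
finitely many other `e_j` and a finite set. -/
def AD {N : Type*} [ZM N] (I e : N) : Prop :=
  IsF e I ∧ ∀ i : N, i ∈ I → ∀ F : N, F ⊆ I → Fi F → ¬ i ∈ F → ∀ E : N, Fi E →
    ∃ k : N, k ∈ ap e i ∧ ¬ k ∈ E ∧ ∀ j, j ∈ F → ¬ k ∈ ap e j

variable {M : Set ZFSet.{0}} [TM M]

/-- the order as a set of pairs -/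
noncomputable def LLs (I e K : M) : M :=
  sep (prd (PP I e K) (PP I e K)) fun z => LE e (fst z) (snd z)

theorem mem_LLs {I e K a b : M} : op a b ∈ LLs I e K ↔
    a ∈ PP I e K ∧ b ∈ PP I e K ∧ LE e a b := by
  unfold LLs
  rw [mem_sep (by simp (maxDischargeDepth := 99) [-Subtype.forall, -Subtype.exists]), op_mem_prd, fst_op, snd_op]
  tauto

/-- the poset -/
noncomputable def Qp (I e K : M) : Po := ⟨(PP I e K).1, (LLs I e K).1, (∅ : M).1⟩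

theorem Qp_le {I e K a b : M} : (Qp I e K).le a.1 b.1 ↔
    a ∈ PP I e K ∧ b ∈ PP I e K ∧ LE e a b := by
  rw [← mem_LLs, op_mem_val]
  rfl

theorem Qp_le' {I e K : M} {a b : ZFSet.{0}} (h : (Qp I e K).le a b) : ∃ a' b' : M, a'.1 = a ∧
    b'.1 = b ∧ a' ∈ PP I e K ∧ b' ∈ PP I e K ∧ LE e a' b' := by
  obtain ⟨a', b', rfl, rfl, h1⟩ := pair_mem_val.1 h
  exact ⟨a', b', rfl, rfl, mem_LLs.1 h1⟩

section
variable {I e X K : M} (hK : Big X K) (hI : I ⊆ X) (hO : OO e ⊆ X)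
include hK hI hO

theorem isPo_Qp : IsPo M (Qp I e K) where
  P_mem := (PP I e K).2
  L_mem := (LLs I e K).2
  one_mem := em_PP hK hI hO
  sub z hz := by
    obtain ⟨z, hz', rfl⟩ := ex_val hz
    have h1 : Dfn fun v : ℕ → M => LE e (fst (v 0)) (snd (v 0)) := by
      simp (maxDischargeDepth := 99) [-Subtype.forall, -Subtype.exists]
    obtain ⟨a, b, ha, hb, rfl⟩ := mem_prd.1 ((mem_sep h1).1 hz').1
    exact ⟨a.1, ha, b.1, hb, val_op⟩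
  refl p hp := by
    obtain ⟨p, hp', rfl⟩ := ex_val hp
    exact Qp_le.2 ⟨hp', hp', LE.refl⟩
  trans p q r h1 h2 := by
    obtain ⟨p, q, rfl, rfl, h3, h4, h5⟩ := Qp_le' h1
    obtain ⟨q', r, hq, rfl, h6, h7, h8⟩ := Qp_le' h2
    have hqq : q' = q := Subtype.ext hq
    subst hqq
    exact Qp_le.2 ⟨h3, h7, h5.trans h8⟩
  le_one p hp := by
    obtain ⟨p, hp', rfl⟩ := ex_val hp
    exact Qp_le.2 ⟨hp', em_PP hK hI hO, LE_em _ _⟩

theorem cc_Qp (hW : WO M) (hC : Ctb (OO e)) : Ccc M (Qp I e K) := by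
  intro A hA
  obtain ⟨B, h1, h2, h3⟩ := cc_PP hK hI hO hW hC (A := A) (fun z hz => hA hz)
  refine ⟨B, h1, h2, fun a ha => ?_⟩
  obtain ⟨b, hb, r, h4, h5, h6⟩ := h3 a ha
  exact ⟨b, hb, r.1, Qp_le.2 ⟨h4, hA ha, h5⟩, Qp_le.2 ⟨h4, hA (h1 b hb), h6⟩⟩

/-- the coding of a name -/
theorem code_iff (hAD : AD I e) {G : Set ZFSet.{0}} (hG : Gen M (Qp I e K) G) {n : M}
    (hn : Nam I e n) (hnK : n ∈ K) {i : M} (hi : i ∈ I) :
    (∃ w : M, w.1 ∈ G ∧ op i w ∈ n) ↔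
      {k : M | k ∈ ap e i ∧ ∃ p : M, p.1 ∈ G ∧ n ∈ ZU.dm p ∧ k ∈ stm p n}.Finite := by
  have hGP : ∀ p : M, p.1 ∈ G → p ∈ PP I e K := fun p hp => hG.sub p.1 hp
  have hG' : ∀ z ∈ G, ∃ p : M, p.1 = z := fun z hz => by
    obtain ⟨p, -, hp⟩ := ex_val (hG.sub z hz)
    exact ⟨p, hp⟩
  constructor
  · rintro ⟨w, hw, hiw⟩
    have hd : Dfn fun v : ℕ → M => (n ∈ ZU.dm (v 0) ∧ i ∈ prm (v 0) n) ∨
        ∀ r, r ∈ PP I e K → ¬ (LE e r (v 0) ∧ LE e r w) := by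
      simp (maxDischargeDepth := 99) [-Subtype.forall, -Subtype.exists]
    obtain ⟨z, hz, hzD⟩ := hG.gen (sep (PP I e K) fun p => (n ∈ ZU.dm p ∧ i ∈ prm p n) ∨
        ∀ r, r ∈ PP I e K → ¬ (LE e r p ∧ LE e r w)).1 (Subtype.property _) (by
      intro z hz
      obtain ⟨p, hp, rfl⟩ := ex_val hz
      have hp' : p ∈ PP I e K := hp
      by_cases hc : ∃ r, r ∈ PP I e K ∧ LE e r p ∧ LE e r w
      · obtain ⟨r, h1, h2, h3⟩ := hc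
        obtain ⟨q, h4, h5, h6⟩ := PP_nam hK hI hO h1 hn hnK
        obtain ⟨q', h7, h8, h9, h10⟩ := PP_prm hK hI hO h4 h6 hiw (h5.trans h3)
        exact ⟨q'.1, (mem_sep hd).2 ⟨h7, Or.inl ⟨h9, h10⟩⟩,
          Qp_le.2 ⟨h7, hp', h8.trans (h5.trans h2)⟩⟩
      · exact ⟨p.1, (mem_sep hd).2 ⟨hp', Or.inr fun r h1 h2 => hc ⟨r, h1, h2⟩⟩,
          Qp_le.2 ⟨hp', hp', LE.refl⟩⟩)
    obtain ⟨p, rfl⟩ := hG' z hz
    obtain ⟨hpP, hp⟩ := (mem_sep hd).1 (show p ∈ _ from hzD)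
    rcases hp with ⟨hnp, hip⟩ | hp
    · have hpc := (mem_PP.1 hpP).2
      refine (fi_iff.1 (hpc.fi_stm hnp)).subset ?_
      rintro k ⟨hk, q, hq, hnq, hkq⟩
      obtain ⟨r, hr, h1, h2⟩ := hG.dir p.1 hz q.1 hq
      obtain ⟨r, rfl⟩ := hG' r hr
      exact ((Qp_le.1 h1).2.2 n hnp).2.2.2 i hip k (((Qp_le.1 h2).2.2 n hnq).2.1 k hkq) hk
    · obtain ⟨r, hr, h1, h2⟩ := hG.dir p.1 hz w.1 hw
      obtain ⟨r, rfl⟩ := hG' r hr
      exact absurd ⟨(Qp_le.1 h1).2.2, (Qp_le.1 h2).2.2⟩ (hp r (hGP r hr))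
  · intro hf
    obtain ⟨E, hE⟩ := exists_of_finite hf
    have hd : Dfn fun v : ℕ → M => (∃ w, op i w ∈ n ∧ LE e (v 0) w) ∨
        (n ∈ ZU.dm (v 0) ∧ ∃ k, k ∈ stm (v 0) n ∧ k ∈ ap e i ∧ ¬ k ∈ E) := by
      simp (maxDischargeDepth := 99) [-Subtype.forall, -Subtype.exists]
    have hEf : Fi E := fi_iff.2 (hf.subset fun k hk => (hE k).1 hk)
    obtain ⟨z, hz, hzD⟩ := hG.gen (sep (PP I e K) fun p => (∃ w, op i w ∈ n ∧ LE e p w) ∨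
        (n ∈ ZU.dm p ∧ ∃ k, k ∈ stm p n ∧ k ∈ ap e i ∧ ¬ k ∈ E)).1 (Subtype.property _) (by
      intro z hz
      obtain ⟨p0, hp0, rfl⟩ := ex_val hz
      have hp0' : p0 ∈ PP I e K := hp0
      obtain ⟨p, hp, hpp, hnp⟩ := PP_nam hK hI hO hp0' hn hnK
      have hpc := (mem_PP.1 hp).2
      by_cases hc : i ∈ prm p n
      · obtain ⟨w, hw, h1⟩ := hpc.just hnp hc
        exact ⟨p.1, (mem_sep hd).2 ⟨hp, Or.inl ⟨w, hw, h1⟩⟩, Qp_le.2 ⟨hp, hp0', hpp⟩⟩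
      · obtain ⟨k, hk, hkE, hkF⟩ := hAD.2 i hi _ (fun j hj => hpc.prm_I hnp hj)
          (hpc.fi_prm hnp) hc E hEf
        have hkO : k ∈ OO e := mem_uni.2 ⟨ap e i, hAD.1.mem_rg.2 ⟨i, hi, rfl⟩, hk⟩
        obtain ⟨q, h1, h2, h3, h4⟩ := PP_stm hK hI hO hp hnp hkO hkF
        exact ⟨q.1, (mem_sep hd).2 ⟨h1, Or.inr ⟨h3, k, h4, hk, hkE⟩⟩,
          Qp_le.2 ⟨h1, hp0', h2.trans hpp⟩⟩)
    obtain ⟨p, rfl⟩ := hG' z hz
    obtain ⟨hpP, hp⟩ := (mem_sep hd).1 (show p ∈ _ from hzD)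
    rcases hp with ⟨w, hw, h1⟩ | ⟨hnp, k, hk, hki, hkE⟩
    · refine ⟨w, hG.up p.1 hz w.1 (Qp_le.2 ⟨hpP, ?_, h1⟩), hw⟩
      obtain ⟨i', w', -, h2, h3⟩ := hn _ hw
      obtain ⟨-, rfl⟩ := op_inj.1 h3
      exact mem_PP.2 ⟨(hK.of_op hnK hw).2, h2⟩
    · exact absurd ((hE k).2 ⟨hki, p, hz, hnp, hk⟩) hkE

/-- nice names are in `K` -/
theorem nice_name (hW : WO M) {F : M → M} (hF : DF fun v => F (v 0))
    (h : ∀ i, i ∈ I → F i ⊆ PP I e K ∧ Ctb (F i)) :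
    ∃ n : M, Nam I e n ∧ n ∈ K ∧ ∀ i w, op i w ∈ n ↔ i ∈ I ∧ w ∈ F i := by
  have h1 : DF fun v : ℕ → M => img (F (v 0)) fun w => op (v 0) w :=
    df_img hF (df_op (df_var 1) (df_var 0))
  have h2 : ∀ i : M, DF fun v : ℕ → M => op i (v 0) := fun i => df_op (df_const i) (df_var 0)
  have key : ∀ z, z ∈ bU I (fun i => img (F i) fun w => op i w) ↔
      ∃ i w, i ∈ I ∧ w ∈ F i ∧ z = op i w := by
    intro z
    rw [mem_bU h1]
    constructor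
    · rintro ⟨i, hi, hz⟩
      obtain ⟨w, hw, rfl⟩ := (mem_img (h2 i)).1 hz
      exact ⟨i, w, hi, hw, rfl⟩
    · rintro ⟨i, w, hi, hw, rfl⟩
      exact ⟨i, hi, (mem_img (h2 i)).2 ⟨w, hw, rfl⟩⟩
  refine ⟨bU I fun i => img (F i) fun w => op i w, fun z hz => ?_,
    hK.cl _ (fun z hz => ?_) ?_, fun i w => ?_⟩
  · obtain ⟨i, w, hi, hw, rfl⟩ := (key z).1 hz
    exact ⟨i, w, hi, (mem_PP.1 ((h i hi).1 w hw)).2, rfl⟩
  · obtain ⟨i, w, hi, hw, rfl⟩ := (key z).1 hz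
    exact hK.op (hK.sub i (hI i hi)) (mem_PP.1 ((h i hi).1 w hw)).1
  · obtain ⟨c, hc, h3⟩ := choice hW (R := fun i f => IsF f om ∧ F i ⊆ rg f) (A := I)
      (dfn_and (dfn_isF (df_var 1) (df_const _)) (dfn_sub hF (df_rg (df_var 1))))
      fun i hi => (h i hi).2
    have hd : DF fun v : ℕ → M => op (fst (v 0)) (ap (c (fst (v 0))) (snd (v 0))) :=
      df_op (df_fst (df_var 0)) (df_ap (df1 hc (df_fst (df_var 0))) (df_snd (df_var 0)))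
    refine ⟨lam (prd X om) fun z => op (fst z) (ap (c (fst z)) (snd z)),
      isF_lam (F := fun z => op (fst z) (ap (c (fst z)) (snd z))) hd _, fun z hz => ?_⟩
    obtain ⟨i, w, hi, hw, rfl⟩ := (key z).1 hz
    obtain ⟨h4, h5⟩ := h3 i hi
    obtain ⟨m, hm, rfl⟩ := h4.mem_rg.1 (h5 w hw)
    rw [(isF_lam (F := fun z => op (fst z) (ap (c (fst z)) (snd z))) hd _).mem_rg]
    refine ⟨op i m, op_mem_prd.2 ⟨hI i hi, hm⟩, ?_⟩
    rw [ap_lam (F := fun z => op (fst z) (ap (c (fst z)) (snd z))) hd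
      (op_mem_prd.2 ⟨hI i hi, hm⟩), fst_op, snd_op]
  · rw [key]
    constructor
    · rintro ⟨i', w', hi, hw, h3⟩
      obtain ⟨rfl, rfl⟩ := op_inj.1 h3
      exact ⟨hi, hw⟩
    · rintro ⟨hi, hw⟩
      exact ⟨i, w, hi, hw, rfl⟩

/-- **The universal coding.** Every subset of `I` (every element `r`) of the generic extension is coded
by a subset `d` of the countable set `OO e`. -/
theorem coding (hAD : AD I e) (hW : WO M) (hC : Ctb (OO e)) (hD : DFo M (Qp I e K))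
    (hgn : gnm (Qp I e K) ∈ M)
    {G : Set ZFSet.{0}} (hG : Gen M (Qp I e K) G) [TM (Ext M G)] {r : ZFSet.{0}}
    (hr : r ∈ Ext M G) : ∃ d ∈ Ext M G, d ⊆ (OO e).1 ∧
      ∀ i : M, i ∈ I → (i.1 ∈ r ↔ {k | k ∈ d ∧ k ∈ (ap e i).1}.Finite) := by
  obtain ⟨x, hx, rfl⟩ := hr
  obtain ⟨F, hF, h1⟩ := nice (isPo_Qp hK hI hO) hD hW (cc_Qp hK hI hO hW hC) ⟨x, hx⟩ I
  obtain ⟨n, hn, hnK, hnF⟩ := nice_name hK hI hO hW hF fun i hi =>
    ⟨fun w hw => (h1 i hi).1 w hw, (h1 i hi).2.1⟩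
  have hs : M ⊆ Ext M G := sub_ext hG hD.ck
  let j : M → Ext M G := Set.inclusion hs
  have hj : TrEmb j := emb_incl hs
  have hgs : gset (Qp I e K) G ∈ Ext M G := gset_ext hG hgn
  let g : Ext M G := ⟨gset (Qp I e K) G, hgs⟩
  have hg : ∀ z : Ext M G, z ∈ g ↔ z.1 ∈ G := fun z => mem_gset hG
  have hd : Dfn fun v : ℕ → Ext M G => ∃ p, p ∈ g ∧ j n ∈ ZU.dm p ∧ v 0 ∈ stm p (j n) := by
    simp (maxDischargeDepth := 99) [-Subtype.forall, -Subtype.exists]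
  let d : Ext M G := sep (j (OO e)) fun k => ∃ p, p ∈ g ∧ j n ∈ ZU.dm p ∧ k ∈ stm p (j n)
  have hdm : ∀ k : M, j k ∈ d ↔ k ∈ OO e ∧ ∃ p : M, p.1 ∈ G ∧ n ∈ ZU.dm p ∧ k ∈ stm p n := by
    intro k
    rw [mem_sep hd, hj.mem_iff]
    refine and_congr_right fun _ => ⟨?_, ?_⟩
    · rintro ⟨p, hp, h3, h4⟩
      obtain ⟨p, hp', rfl⟩ : ∃ p0 : M, p0.1 ∈ G ∧ p = j p0 := by
        have h5 := (hg p).1 hp
        obtain ⟨p0, -, h6⟩ := ex_val (hG.sub _ h5)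
        exact ⟨p0, h6 ▸ h5, Subtype.ext h6.symm⟩
      rw [← hj.dm, hj.mem_iff] at h3
      rw [stm, ← hj.ap, ← hj.fst, hj.mem_iff] at h4
      exact ⟨p, hp', h3, h4⟩
    · rintro ⟨p, hp, h3, h4⟩
      refine ⟨j p, (hg _).2 hp, ?_, ?_⟩
      · rw [← hj.dm, hj.mem_iff]
        exact h3
      · rw [stm, ← hj.ap, ← hj.fst, hj.mem_iff]
        exact h4
  have hdO : d.1 ⊆ (OO e).1 := fun z hz => by
    obtain ⟨z, hz', rfl⟩ := ex_val hz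
    exact ((mem_sep hd).1 hz').1
  refine ⟨d.1, d.2, hdO, fun i hi => ?_⟩
  rw [(h1 i hi).2.2 G hG]
  have h3 : (∃ b ∈ G, b ∈ (F i).1) ↔ ∃ w : M, w.1 ∈ G ∧ op i w ∈ n := by
    constructor
    · rintro ⟨b, hb, hbF⟩
      obtain ⟨b, hb', rfl⟩ := ex_val hbF
      exact ⟨b, hb, (hnF i b).2 ⟨hi, hb'⟩⟩
    · rintro ⟨w, hw, hwn⟩
      exact ⟨w.1, hw, ((hnF i w).1 hwn).2⟩
  rw [h3, code_iff hK hI hO hAD hG hn hnK hi]
  have h4 : {k : ZFSet.{0} | k ∈ d.1 ∧ k ∈ (ap e i).1} = Subtype.val ''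
      {k : M | k ∈ ap e i ∧ ∃ p : M, p.1 ∈ G ∧ n ∈ ZU.dm p ∧ k ∈ stm p n} := by
    ext z
    constructor
    · rintro ⟨hz, hz'⟩
      obtain ⟨k, hk, rfl⟩ := ex_val hz'
      exact ⟨k, ⟨hk, ((hdm k).1 hz).2⟩, rfl⟩
    · rintro ⟨k, ⟨hk, h5⟩, rfl⟩
      refine ⟨(hdm k).2 ⟨?_, h5⟩, hk⟩
      exact mem_uni.2 ⟨ap e i, hAD.1.mem_rg.2 ⟨i, hi, rfl⟩, hk⟩
  rw [h4]
  exact (Set.finite_image_iff Subtype.val_injective.injOn).symm

end

end CPQ
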