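import Pool.Agent.CPY.QDefs
import Pool.Agent.ZU.Ctb

/-! # The poset of the universal coding (block (C)): the set of conditions, countable chain condition

(problem MP_ba5606_gt, project CPY, block (C); no sorry in this file)

`Big X K`: the set `K` is transitive, contains the elements of `X`, and every subset of `K` which is
covered by the range of a function on `X × om` is an element of `K`. `PP I e K` is the set of all
conditions in `K`. `cc_PP`: every set of conditions has a countable predense subset. -/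

universe v

namespace CPQ

open ZU

variable {N : Type v} [ZM N]

/-- `K` is a transitive set, contains `X` and all its subsets of size at most `X × om` -/
structure Big (X K : N) : Prop where
  tr : Tr K
  sub : X ⊆ K
  ne : X ≠ ∅
  cl : ∀ A, A ⊆ K → (∃ f, IsF f (prd X om) ∧ A ⊆ rg f) → A ∈ K

namespace Big

variable {X K : N}

theorem ctb (h : Big X K) {A : N} (hA : A ⊆ K) (hc : Ctb A) : A ∈ K := by
  obtain ⟨f, hf, h1⟩ := hc
  obtain ⟨x, hx⟩ := ne_em.1 h.ne
  have hd : DF fun v : ℕ → N => ap f (snd (v 0)) := by simp (maxDischargeDepth := 99)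
  refine h.cl A hA ⟨lam (prd X om) fun z => ap f (snd z), isF_lam hd _, fun z hz => ?_⟩
  obtain ⟨n, hn, rfl⟩ := hf.mem_rg.1 (h1 z hz)
  rw [(isF_lam hd _).mem_rg]
  refine ⟨op x n, op_mem_prd.2 ⟨hx, hn⟩, ?_⟩
  rw [ap_lam hd (op_mem_prd.2 ⟨hx, hn⟩), snd_op]

end Big

theorem ctb_fi {x : N} (h : Fi x) : Ctb x := by
  have h1 := fi_iff.1 h
  have key : ∀ s : Finset N, ∀ y : N, (∀ z, z ∈ y ↔ z ∈ s) → Ctb y := by
    classical
    intro s
    induction s using Finset.induction_on with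
    | empty =>
      intro y hy
      refine ctb_em.sub fun z hz => ?_
      exact absurd ((hy z).1 hz) (Finset.notMem_empty z)
    | insert a s _ ih =>
      intro y hy
      obtain ⟨u, hu⟩ := exists_of_finset s
      refine ((ih u hu).cup (ctb_sg a)).sub fun z hz => ?_
      rw [mem_cup, mem_sg, hu]
      have := Finset.mem_insert.1 ((hy z).1 hz)
      tauto
  exact key h1.toFinset x fun z => by rw [Set.Finite.mem_toFinset]; rfl

namespace Big

variable {X K : N}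

theorem fi (h : Big X K) {A : N} (hA : A ⊆ K) (hc : Fi A) : A ∈ K := h.ctb hA (ctb_fi hc)

theorem em (h : Big X K) : (∅ : N) ∈ K := h.fi (em_sub _) fi_em

theorem up (h : Big X K) {x y : N} (hx : x ∈ K) (hy : y ∈ K) : up x y ∈ K := by
  refine h.fi (fun z hz => ?_) (fi_iff.2 ?_)
  · rcases mem_up.1 hz with rfl | rfl
    · exact hx
    · exact hy
  · refine (Set.toFinite {x, y}).subset fun z hz => ?_
    exact mem_up.1 hz

theorem op (h : Big X K) {x y : N} (hx : x ∈ K) (hy : y ∈ K) : op x y ∈ K :=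
  h.up (h.up hx hx) (h.up hx hy)

theorem of_op (h : Big X K) {x y z : N} (hz : z ∈ K) (hxy : ZU.op x y ∈ z) : x ∈ K ∧ y ∈ K := by
  have h1 : ZU.up x y ∈ K := h.tr _ (h.tr _ hz _ hxy) _ (by unfold ZU.op; simp)
  exact ⟨h.tr _ h1 _ (by simp), h.tr _ h1 _ (by simp)⟩

end Big

/-! ### The set of conditions -/

/-- the set of conditions in `K` -/
noncomputable def PP (I e K : N) : N := sep K fun p => Cond I e p

theorem mem_PP {I e K p : N} : p ∈ PP I e K ↔ p ∈ K ∧ Cond I e p :=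
  mem_sep (by simp (maxDischargeDepth := 99))

@[simp] theorem df_PP {s t r : (ℕ → N) → N} (hs : DF s) (ht : DF t) (hr : DF r) :
    DF fun v => PP (s v) (t v) (r v) :=
  df3 (F := PP) (by unfold PP; simp (maxDischargeDepth := 99)) hs ht hr

section
variable {I e X K : N} (hK : Big X K) (hI : I ⊆ X) (hO : OO e ⊆ X)
include hK

theorem dm_sub_K {p : N} (h : p ∈ K) : dm p ⊆ K := by
  intro n hn
  obtain ⟨y, hy⟩ := mem_dm.1 hn
  exact (hK.of_op h hy).1

include hI hO

/-- a condition whose domain is contained in `K` is an element of `K` -/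
theorem cond_mem_K {p : N} (h : Cond I e p) (hp : dm p ⊆ K) : p ∈ K := by
  have hd : DF fun v : ℕ → N => op (v 0) (ap p (v 0)) := by simp (maxDischargeDepth := 99)
  have he : p = img (dm p) fun n => op n (ap p n) := by
    refine ext fun z => ?_
    rw [mem_img hd, h.isF.mem_iff]
  refine hK.fi (fun z hz => ?_) ?_
  · obtain ⟨n, hn, rfl⟩ := h.isF.mem_iff.1 hz
    refine hK.op (hp n hn) ?_
    rw [h.ap_eq hn]
    refine hK.op ?_ ?_
    · exact hK.fi (sub_trans (h.stm_O hn) (sub_trans hO hK.sub)) (h.fi_stm hn)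
    · exact hK.fi (fun i hi => hK.sub i (hI i (h.prm_I hn hi))) (h.fi_prm hn)
  · rw [he]
    exact h.fi.img hd

theorem mem_PP_iff {p : N} : p ∈ PP I e K ↔ Cond I e p ∧ dm p ⊆ K := by
  rw [mem_PP]
  exact ⟨fun h => ⟨h.2, dm_sub_K hK h.1⟩, fun h => ⟨cond_mem_K hK hI hO h.1 h.2, h.1⟩⟩

theorem em_PP : (∅ : N) ∈ PP I e K := mem_PP.2 ⟨hK.em, cond_em I e⟩

/-- names in `K` can be added -/
theorem PP_nam {p n : N} (hp : p ∈ PP I e K) (hn : Nam I e n) (hnK : n ∈ K) :
    ∃ q, q ∈ PP I e K ∧ LE e q p ∧ n ∈ dm q := by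
  rw [mem_PP_iff hK hI hO] at hp
  obtain ⟨q, h1, h2, h3, h4⟩ := ext_nam hp.1 hn
  refine ⟨q, (mem_PP_iff hK hI hO).2 ⟨h1, fun m hm => ?_⟩, h2, h3⟩
  rcases mem_cup.1 (h4 m hm) with h5 | h5
  · exact hp.2 m h5
  · rw [mem_sg.1 h5]
    exact hnK

theorem PP_prm {p n i w : N} (hp : p ∈ PP I e K) (hn : n ∈ dm p) (hw : op i w ∈ n)
    (hpw : LE e p w) : ∃ q, q ∈ PP I e K ∧ LE e q p ∧ n ∈ dm q ∧ i ∈ prm q n := by
  rw [mem_PP_iff hK hI hO] at hp
  obtain ⟨q, h1, h2, h3, h4, h5⟩ := ext_prm hp.1 hn hw hpw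
  exact ⟨q, (mem_PP_iff hK hI hO).2 ⟨h1, h5 ▸ hp.2⟩, h2, h3, h4⟩

theorem PP_stm {p n k : N} (hp : p ∈ PP I e K) (hn : n ∈ dm p) (hk : k ∈ OO e)
    (hke : ∀ i, i ∈ prm p n → ¬ k ∈ ap e i) :
    ∃ q, q ∈ PP I e K ∧ LE e q p ∧ n ∈ dm q ∧ k ∈ stm q n := by
  rw [mem_PP_iff hK hI hO] at hp
  obtain ⟨q, h1, h2, h3, h4, h5⟩ := ext_stm hp.1 hn hk hke
  exact ⟨q, (mem_PP_iff hK hI hO).2 ⟨h1, h5 ▸ hp.2⟩, h2, h3, h4⟩

theorem PP_cup {p q : N} (hp : p ∈ PP I e K) (hq : q ∈ PP I e K)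
    (h : ∀ n, n ∈ dm p → n ∈ dm q → stm p n = stm q n) :
    ∃ r, r ∈ PP I e K ∧ LE e r p ∧ LE e r q := by
  rw [mem_PP_iff hK hI hO] at hp hq
  obtain ⟨r, h1, h2, h3, h4⟩ := ext_cup hp.1 hq.1 h
  refine ⟨r, (mem_PP_iff hK hI hO).2 ⟨h1, fun n hn => ?_⟩, h2, h3⟩
  rw [h4, mem_cup] at hn
  exact hn.elim (hp.2 n) (hq.2 n)

end

/-! ### Finite subsets of a countable set -/

/-- the set of finite subsets -/
noncomputable def fpw (x : N) : N := sep (pw x) fun s => Fi s

@[simp] theorem mem_fpw {x s : N} : s ∈ fpw x ↔ s ⊆ x ∧ Fi s := by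
  unfold fpw
  rw [mem_sep (by simp (maxDischargeDepth := 99)), mem_pw]

@[simp] theorem df_fpw {s : (ℕ → N) → N} (hs : DF s) : DF fun v => fpw (s v) :=
  df1 (F := fpw) (by unfold fpw; simp (maxDischargeDepth := 99)) hs

theorem ctb_fpw (hW : WO N) {x : N} (h : Ctb x) : Ctb (fpw x) := by
  let F : N → N → N := fun _ C => cup C (img (prd C x) fun p => cup (fst p) (sg (snd p)))
  have hF : DF fun v : ℕ → N => F (v 0) (v 1) := by
    change DF fun v : ℕ → N => cup (v 1) (img (prd (v 1) x) fun p => cup (fst p) (sg (snd p)))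
    simp (maxDischargeDepth := 99)
  have hd : DF fun v : ℕ → N => cup (fst (v 0)) (sg (snd (v 0))) := by
    simp (maxDischargeDepth := 99)
  have hC : DF fun v : ℕ → N => itr F (sg ∅) (v 0) :=
    df_itr (F := fun x y _ => F x y) (a := fun _ => sg ∅) hF (df_const _) (df_var 0)
  have h1 : ∀ n : ℕ, Ctb (itr F (sg ∅) (nt n)) := by
    intro n
    induction n with
    | zero =>
      rw [nt_zero, itr_zero hF]
      exact ctb_sg _
    | succ n ih =>
      rw [itr_succ hF]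
      exact ih.cup ((ctb_prd ih h).img hd)
  have h2 : ∀ s : Finset N, (∀ z ∈ s, z ∈ x) → ∀ y : N, (∀ z, z ∈ y ↔ z ∈ s) →
      ∃ n : ℕ, y ∈ itr F (sg ∅) (nt n) := by
    classical
    intro s
    induction s using Finset.induction_on with
    | empty =>
      intro _ y hy
      refine ⟨0, ?_⟩
      rw [nt_zero, itr_zero hF, mem_sg]
      exact eq_em fun z hz => Finset.notMem_empty z ((hy z).1 hz)
    | insert a s _ ih =>
      intro hs y hy
      obtain ⟨u, hu⟩ := exists_of_finset s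
      obtain ⟨n, hn⟩ := ih (fun z hz => hs z (Finset.mem_insert_of_mem hz)) u hu
      refine ⟨n + 1, ?_⟩
      rw [itr_succ hF]
      refine mem_cup.2 (Or.inr ((mem_img hd).2 ⟨op u a, op_mem_prd.2
        ⟨hn, hs a (Finset.mem_insert_self a s)⟩, ?_⟩))
      rw [fst_op, snd_op]
      refine ext fun z => ?_
      rw [hy, Finset.mem_insert, mem_cup, mem_sg, hu]
      tauto
  refine (ctb_bU hW hC ctb_om fun n hn => ?_).sub fun s hs => ?_
  · obtain ⟨k, rfl⟩ := mem_om.1 hn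
    exact h1 k
  · rw [mem_fpw] at hs
    obtain ⟨n, hn⟩ := h2 (fi_iff.1 hs.2).toFinset (fun z hz => hs.1 z (by
      rw [Set.Finite.mem_toFinset] at hz
      exact hz)) s fun z => by rw [Set.Finite.mem_toFinset]; rfl
    exact (mem_bU hC).2 ⟨nt n, nt_mem_om n, hn⟩

/-- a finite subset of the union of an increasing sequence is contained in a member -/
theorem fi_sub_om {C : N → N} (hC : DF fun v => C (v 0)) (hm : ∀ n : ℕ, C (nt n) ⊆ C (nt (n + 1)))
    {D : N} (hD : Fi D) (h : D ⊆ bU om C) : ∃ n : ℕ, D ⊆ C (nt n) := by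
  have hmm : ∀ n m : ℕ, C (nt n) ⊆ C (nt (n + m)) := by
    intro n m
    induction m with
    | zero => exact sub_rfl _
    | succ m ih => exact sub_trans ih (hm _)
  have h2 : ∀ s : Finset N, (∀ z ∈ s, z ∈ bU om C) → ∃ n : ℕ, ∀ z ∈ s, z ∈ C (nt n) := by
    classical
    intro s
    induction s using Finset.induction_on with
    | empty => exact fun _ => ⟨0, fun z hz => absurd hz (Finset.notMem_empty z)⟩
    | insert a s _ ih =>
      intro hs
      obtain ⟨n, hn⟩ := ih fun z hz => hs z (Finset.mem_insert_of_mem hz)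
      obtain ⟨k, hk, ha⟩ := (mem_bU hC).1 (hs a (Finset.mem_insert_self a s))
      obtain ⟨m, rfl⟩ := mem_om.1 hk
      refine ⟨n + m, fun z hz => ?_⟩
      rcases Finset.mem_insert.1 hz with rfl | hz
      · rw [Nat.add_comm]
        exact hmm m n _ ha
      · exact hmm n m _ (hn z hz)
  obtain ⟨n, hn⟩ := h2 (fi_iff.1 hD).toFinset fun z hz => h z (by
    rw [Set.Finite.mem_toFinset] at hz
    exact hz)
  exact ⟨n, fun z hz => hn z (by rw [Set.Finite.mem_toFinset]; exact hz)⟩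

/-! ### The countable chain condition -/

section
variable {I e X K : N} (hK : Big X K) (hI : I ⊆ X) (hO : OO e ⊆ X) (hW : WO N) (hC : Ctb (OO e))
include hK hI hO hW hC

/-- **The countable chain condition**: every set of conditions has a countable subset which is predense
in it. -/
theorem cc_PP {A : N} (hA : A ⊆ PP I e K) : ∃ B, B ⊆ A ∧ Ctb B ∧
    ∀ a, a ∈ A → ∃ b, b ∈ B ∧ ∃ r, r ∈ PP I e K ∧ LE e r a ∧ LE e r b := by
  let R : N → N → Prop := fun u a => a ∈ A ∧ dm u ⊆ dm a ∧ ∀ n s, op n s ∈ u → stm a n = s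
  have hR : Dfn fun v : ℕ → N => R (v 0) (v 1) := by
    change Dfn fun v : ℕ → N => v 1 ∈ A ∧ dm (v 0) ⊆ dm (v 1) ∧
      ∀ n s, op n s ∈ v 0 → stm (v 1) n = s
    simp (maxDischargeDepth := 99)
  have hRe : Dfn fun v : ℕ → N => ∃ a, R (v 0) a :=
    dfn_ex (R := fun a v => R (v 0) a) (dfn2 hR (df_var 1) (df_var 0))
  let W : N := fpw (OO e)
  have hWc : Ctb W := ctb_fpw hW hC
  -- the choice function
  obtain ⟨h, hh, h1⟩ := choice hW hR (A := sep (fpw (prd K W)) fun u => ∃ a, R u a)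
    fun u hu => ((mem_sep hRe).1 hu).2
  -- the sets of finite functions
  let U : N → N := fun C => sep (fpw (prd C W)) fun u => ∃ a, R u a
  have hU : DF fun v : ℕ → N => U (v 0) := by
    refine df_sep (df_fpw (df_prd (df_var 0) (df_const W))) ?_
    exact dfn_ex (R := fun a v => R (v 0) a) (dfn2 hR (df_var 1) (df_var 0))
  have hUc : ∀ C, Ctb C → Ctb (U C) := fun C hC' =>
    (ctb_fpw hW (ctb_prd hC' hWc)).sub fun z hz => ((mem_sep hRe).1 hz).1
  have hmU : ∀ {C u}, u ∈ U C ↔ (u ⊆ prd C W ∧ Fi u) ∧ ∃ a, R u a := fun {C u} => by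
    rw [← mem_fpw]
    exact mem_sep hRe
  let F : N → N → N := fun _ C => cup C (bU (U C) fun u => dm (h u))
  have hdh : DF fun v : ℕ → N => dm (h (v 0)) := df_dm hh
  have hF : DF fun v : ℕ → N => F (v 0) (v 1) :=
    df_cup (df_var 1) (df_bU (df1 hU (df_var 1)) hdh)
  let C : N → N := fun n => itr F ∅ n
  have hCd : DF fun v : ℕ → N => C (v 0) :=
    df_itr (F := fun x y _ => F x y) (a := fun _ => ∅) hF (df_const _) (df_var 0)
  have hC0 : C (nt 0) = ∅ := itr_zero hF _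
  have hCs : ∀ n : ℕ, C (nt (n + 1)) = cup (C (nt n)) (bU (U (C (nt n))) fun u => dm (h u)) :=
    fun n => itr_succ hF _ n
  have hCc : ∀ n : ℕ, Ctb (C (nt n)) ∧ C (nt n) ⊆ K := by
    intro n
    induction n with
    | zero =>
      rw [hC0]
      exact ⟨ctb_em, em_sub _⟩
    | succ n ih =>
      rw [hCs]
      have h5 : ∀ u, u ∈ U (C (nt n)) → R u (h u) := by
        intro u hu
        refine h1 u ((mem_sep hRe).2 ⟨?_, (hmU.1 hu).2⟩)
        refine mem_fpw.2 ⟨fun z hz => ?_, (hmU.1 hu).1.2⟩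
        obtain ⟨a, b, ha, hb, rfl⟩ := mem_prd.1 ((hmU.1 hu).1.1 z hz)
        exact op_mem_prd.2 ⟨ih.2 a ha, hb⟩
      refine ⟨ih.1.cup (ctb_bU hW hdh (hUc _ ih.1) fun u hu => ?_), fun z hz => ?_⟩
      · exact ctb_fi (mem_PP.1 (hA _ (h5 u hu).1)).2.fi
      · rcases mem_cup.1 hz with hz | hz
        · exact ih.2 z hz
        · obtain ⟨u, hu, hz⟩ := (mem_bU hdh).1 hz
          exact dm_sub_K hK (mem_PP.1 (hA _ (h5 u hu).1)).1 z hz
  have hmono : ∀ n : ℕ, C (nt n) ⊆ C (nt (n + 1)) := fun n z hz => by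
    rw [hCs]
    exact mem_cup.2 (Or.inl hz)
  let CC : N := bU om C
  have hCCc : Ctb CC := ctb_bU hW hCd ctb_om fun n hn => by
    obtain ⟨k, rfl⟩ := mem_om.1 hn
    exact (hCc k).1
  have hCCK : CC ⊆ K := fun z hz => by
    obtain ⟨n, hn, hz⟩ := (mem_bU hCd).1 hz
    obtain ⟨k, rfl⟩ := mem_om.1 hn
    exact (hCc k).2 z hz
  have h5 : ∀ u, u ∈ U CC → R u (h u) := by
    intro u hu
    refine h1 u ((mem_sep hRe).2 ⟨?_, (hmU.1 hu).2⟩)
    refine mem_fpw.2 ⟨fun z hz => ?_, (hmU.1 hu).1.2⟩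
    obtain ⟨a, b, ha, hb, rfl⟩ := mem_prd.1 ((hmU.1 hu).1.1 z hz)
    exact op_mem_prd.2 ⟨hCCK a ha, hb⟩
  refine ⟨img (U CC) h, fun z hz => ?_, (hUc _ hCCc).img hh, fun q hq => ?_⟩
  · obtain ⟨u, hu, rfl⟩ := (mem_img hh).1 hz
    exact (h5 u hu).1
  · have hqc := (mem_PP.1 (hA q hq)).2
    have hsd : DF fun v : ℕ → N => stm q (v 0) := df_stm (df_const q) (df_var 0)
    -- the restriction of the stems of `q` to the names in `CC`
    have hDf : Fi (cap (dm q) CC) := hqc.fi.sub fun z hz => (mem_cap.1 hz).1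
    have huR : R (lam (cap (dm q) CC) (stm q)) q := by
      refine ⟨hq, fun z hz => ?_, fun n s hns => ?_⟩
      · rw [dm_lam hsd] at hz
        exact (mem_cap.1 hz).1
      · exact ((op_mem_lam hsd).1 hns).2.symm
    have huU : ∀ D, cap (dm q) CC ⊆ D → lam (cap (dm q) CC) (stm q) ∈ U D := by
      intro D hD
      refine hmU.2 ⟨⟨fun z hz => ?_, ?_⟩, q, huR⟩
      · obtain ⟨n, hn, rfl⟩ := (mem_lam hsd).1 hz
        have hn' := (mem_cap.1 hn).1
        exact op_mem_prd.2 ⟨hD n hn, mem_fpw.2 ⟨hqc.stm_O hn', hqc.fi_stm hn'⟩⟩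
      · exact hDf.img (F := fun n => op n (stm q n)) (df_op (df_var 0) hsd)
    obtain ⟨k, hk⟩ := fi_sub_om hCd hmono hDf fun z hz => (mem_cap.1 hz).2
    have hu1 := huU (C (nt k)) hk
    have hu2 := huU CC fun z hz => (mem_cap.1 hz).2
    have hRu := h5 _ hu2
    refine ⟨h (lam (cap (dm q) CC) (stm q)), (mem_img hh).2 ⟨_, hu2, rfl⟩, ?_⟩
    have hdm : dm (h (lam (cap (dm q) CC) (stm q))) ⊆ CC := by
      intro z hz
      refine (mem_bU hCd).2 ⟨nt (k + 1), nt_mem_om _, ?_⟩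
      rw [hCs]
      exact mem_cup.2 (Or.inr ((mem_bU hdh).2 ⟨_, hu1, hz⟩))
    obtain ⟨r, h6, h7, h8⟩ := PP_cup hK hI hO (hA q hq) (hA _ hRu.1) fun n hn hn' => by
      have h9 : n ∈ cap (dm q) CC := mem_cap.2 ⟨hn, hdm n hn'⟩
      exact (hRu.2.2 n (stm q n) ((op_mem_lam hsd).2 ⟨h9, rfl⟩)).symm
    exact ⟨r, h6, h7, h8⟩

end

end CPQ
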