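import Pool.Agent.CPY.ITop

/-! # The function `Th` (native part, package ThetaN)

(problem MP_ba5606_gt, ARH Part II, blocks E1, E2; architect helper79)

`v n` (`n : ℕ`) are codes of basic open sets `Bv (v n)` of functions. `Bs ε v`: the basic set with
all
intervals shrunk by `ε`. `TS v c`: the real numbers `q > 0` such that `c ∈ Bs (1/q) (v n)` for some
`n < q`; `Th v c := inf (TS v c)`.

PROOFS.
* `TS_up`: `n < q ≤ q'` and `1/q' ≤ 1/q`, so the inequalities get weaker. `TS_ne`: if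
  `c ∈ Bv (v n)` then all
  the finitely many strict inequalities hold with some margin `ε > 0` (induction on the list `v n`,
  the
  minimum of finitely many positive numbers); take `q ≥ 1/ε`, `q > n`, `q > 0`.
* `Th_nonneg`: `Real.sInf_nonneg`. `Th_lt_iff`: for `TS v c` not empty (bounded below by `0`) and
  upwards
  closed: `Th v c < r ↔ ∃ q ∈ TS v c, q < r` (`csInf_lt_iff`).
* `lt_Th_iff`: `r < Th v c ↔ ∃ q : ℚ, r < q ∧ (q : ℝ) ∉ TS v c`: `→` a rational number between `r`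
  and
  `Th v c` (`notMem_of_lt_csInf`). `←`: every `x ∈ TS v c` satisfies `q ≤ x` (otherwise
  `q ∈ TS v c` by
  `TS_up`), so `r < q ≤ Th v c` (`le_csInf`).
* `Th_small`: `Th v c < m`: `q ∈ TS v c`, `q < m`, `n < q < m`, and `Bs ε v ⊆ Bv v` for `ε > 0`.
* `Th_cont`: `{z | Th v (g z) < r}` is open: the union over `q < r`, `0 < q`, `n < q` of the
  preimages of the open
  sets `Bs (1/q) (v n)` (`Bs` is a finite intersection of open sets). `{z | r < Th v (g z)}` is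
  open: let
  `z` be in it; if `r < 0` it is everything (`Th_nonneg`). Otherwise choose
  `r < r' < r'' < Th v (g z)`; so
  `r'' ∉ TS v (g z)`, `0 < r'`. For every `n < r'` (finitely many) `g z ∉ Bs (1/r'') (v n)`: there
  is `t ∈ v n` with
  `g z t.1 ≤ t.2.1 + 1/r''` or `t.2.2 - 1/r'' ≤ g z t.1`; as `1/r'' < 1/r'` the set
  `{z' | g z' t.1 < t.2.1 + 1/r' ∨ t.2.2 - 1/r' < g z' t.1}` is an open neighbourhood of `z` and
  for its points
  `g z' ∉ Bs (1/r') (v n)`. On the intersection of these finitely many neighbourhoods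
  `r' ∉ TS v (g z')`, so
  `r < r' ≤ Th v (g z')`. Then `OrderTopology.continuous_iff`. -/

universe v w

namespace CPY

variable {X : Type v}

/-- the shrunk basic set -/
def Bs (ε : ℝ) (v : List (X × ℚ × ℚ)) : Set (X → ℝ) :=
  {c | ∀ t ∈ v, (t.2.1 : ℝ) + ε < c t.1 ∧ c t.1 < (t.2.2 : ℝ) - ε}

/-- the admissible values -/
def TS (v : ℕ → List (X × ℚ × ℚ)) (c : X → ℝ) : Set ℝ :=
  {q | 0 < q ∧ ∃ n : ℕ, (n : ℝ) < q ∧ c ∈ Bs (1 / q) (v n)}

/-- a continuous function with `{Th v < m} ⊆ ⋃ n < m, Bv (v n)` -/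
noncomputable def Th (v : ℕ → List (X × ℚ × ℚ)) (c : X → ℝ) : ℝ := sInf (TS v c)

variable {v : ℕ → List (X × ℚ × ℚ)} {c : X → ℝ}

private theorem Bs_mono {ε ε' : ℝ} (h : ε' ≤ ε) {l : List (X × ℚ × ℚ)} (hc : c ∈ Bs ε l) :
    c ∈ Bs ε' l := by
  intro t ht
  obtain ⟨h1, h2⟩ := hc t ht
  exact ⟨by linarith, by linarith⟩

private theorem Bs_Bv {ε : ℝ} (h : 0 ≤ ε) {l : List (X × ℚ × ℚ)} (hc : c ∈ Bs ε l) :
    c ∈ Bv l := by
  intro t ht
  obtain ⟨h1, h2⟩ := hc t ht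
  exact ⟨by linarith, by linarith⟩

private theorem Bs_ex {l : List (X × ℚ × ℚ)} (hc : c ∈ Bv l) : ∃ ε : ℝ, 0 < ε ∧ c ∈ Bs ε l := by
  induction l with
  | nil => exact ⟨1, one_pos, fun t ht => absurd ht List.not_mem_nil⟩
  | cons a l ih =>
    obtain ⟨ε, h0, h1⟩ := ih fun t ht => hc t (List.mem_cons_of_mem _ ht)
    obtain ⟨h2, h3⟩ := hc a List.mem_cons_self
    obtain ⟨δ, h4, h5⟩ := exists_between (lt_min h0 (lt_min (sub_pos.2 h2) (sub_pos.2 h3)))
    obtain ⟨h6, h7, h8⟩ : δ < ε ∧ δ < c a.1 - (a.2.1 : ℝ) ∧ δ < (a.2.2 : ℝ) - c a.1 :=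
      ⟨h5.trans_le (min_le_left _ _),
        h5.trans_le ((min_le_right _ _).trans (min_le_left _ _)),
        h5.trans_le ((min_le_right _ _).trans (min_le_right _ _))⟩
    refine ⟨δ, h4, fun t ht => ?_⟩
    rcases List.mem_cons.1 ht with rfl | ht
    · exact ⟨by linarith, by linarith⟩
    · exact Bs_mono h6.le h1 t ht

private theorem TS_bdd : BddBelow (TS v c) := ⟨0, fun _ hx => hx.1.le⟩

theorem TS_up {q q' : ℝ} (h : q ∈ TS v c) (hq : q ≤ q') : q' ∈ TS v c := by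
  obtain ⟨h0, n, h1, h2⟩ := h
  exact ⟨h0.trans_le hq, n, h1.trans_le hq, Bs_mono (one_div_le_one_div_of_le h0 hq) h2⟩

theorem TS_ne {n : ℕ} (h : c ∈ Bv (v n)) : (TS v c).Nonempty := by
  obtain ⟨ε, h0, h1⟩ := Bs_ex h
  have h2 : (0 : ℝ) < max (1 / ε) ((n : ℝ) + 1) := lt_max_of_lt_left (one_div_pos.2 h0)
  refine ⟨max (1 / ε) ((n : ℝ) + 1), h2, n, (lt_add_one _).trans_le (le_max_right _ _),
    Bs_mono ?_ h1⟩
  rw [one_div_le h2 h0]
  exact le_max_left _ _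

theorem Th_nonneg : 0 ≤ Th v c := Real.sInf_nonneg fun _ hx => hx.1.le

private theorem le_Th (h : ∃ n, c ∈ Bv (v n)) {r : ℝ} (hr : r ∉ TS v c) : r ≤ Th v c := by
  obtain ⟨n, hn⟩ := h
  refine le_csInf (TS_ne hn) fun x hx => ?_
  by_contra h1
  exact hr (TS_up hx (not_le.1 h1).le)

theorem lt_Th_iff (h : ∃ n, c ∈ Bv (v n)) {r : ℝ} :
    r < Th v c ↔ ∃ q : ℚ, r < (q : ℝ) ∧ (q : ℝ) ∉ TS v c := by
  constructor
  · intro h1
    obtain ⟨q, h2, h3⟩ := exists_rat_btwn h1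
    exact ⟨q, h2, notMem_of_lt_csInf h3 TS_bdd⟩
  · rintro ⟨q, h2, h3⟩
    exact h2.trans_le (le_Th h h3)

theorem Th_small (h : ∃ n, c ∈ Bv (v n)) {m : ℕ} (hm : Th v c < m) :
    ∃ n < m, c ∈ Bv (v n) := by
  obtain ⟨n, hn⟩ := h
  obtain ⟨q, ⟨h0, k, h1, h2⟩, h3⟩ := (csInf_lt_iff TS_bdd (TS_ne hn)).1 hm
  exact ⟨k, by exact_mod_cast h1.trans h3, Bs_Bv (one_div_pos.2 h0).le h2⟩

private theorem Bs_nhds {Z : Type w} [TopologicalSpace Z] {g : Z → X → ℝ} (hg : Continuous g)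
    {ε : ℝ} {z : Z} {l : List (X × ℚ × ℚ)} (hz : g z ∈ Bs ε l) :
    ∀ᶠ z' in nhds z, g z' ∈ Bs ε l := by
  induction l with
  | nil => exact Filter.Eventually.of_forall fun _ t ht => absurd ht List.not_mem_nil
  | cons a l ih =>
    have h1 := ih fun t ht => hz t (List.mem_cons_of_mem _ ht)
    obtain ⟨h2, h3⟩ := hz a List.mem_cons_self
    have hc : Continuous fun z => g z a.1 := (continuous_apply a.1).comp hg
    filter_upwards [h1, hc.continuousAt.eventually (lt_mem_nhds h2),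
      hc.continuousAt.eventually (gt_mem_nhds h3)] with z' h4 h5 h6 t ht
    rcases List.mem_cons.1 ht with rfl | ht
    · exact ⟨h5, h6⟩
    · exact h4 t ht

private theorem not_Bs_nhds {Z : Type w} [TopologicalSpace Z] {g : Z → X → ℝ}
    (hg : Continuous g) {ε ε' : ℝ} (h : ε < ε') {z : Z} {l : List (X × ℚ × ℚ)}
    (hz : g z ∉ Bs ε l) : ∀ᶠ z' in nhds z, g z' ∉ Bs ε' l := by
  have h1 : ∃ t ∈ l, ¬ ((t.2.1 : ℝ) + ε < g z t.1 ∧ g z t.1 < (t.2.2 : ℝ) - ε) := by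
    by_contra h2
    push Not at h2
    exact hz fun t ht => h2 t ht
  obtain ⟨t, ht, h2⟩ := h1
  have hc : Continuous fun z => g z t.1 := (continuous_apply t.1).comp hg
  rcases not_and_or.1 h2 with h3 | h3
  · have h4 : g z t.1 < (t.2.1 : ℝ) + ε' := by linarith [not_lt.1 h3]
    filter_upwards [hc.continuousAt.eventually (gt_mem_nhds h4)] with z' h5 h6
    exact absurd (h6 t ht).1 (not_lt.2 (le_of_lt h5))
  · have h4 : (t.2.2 : ℝ) - ε' < g z t.1 := by linarith [not_lt.1 h3]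
    filter_upwards [hc.continuousAt.eventually (lt_mem_nhds h4)] with z' h5 h6
    exact absurd (h6 t ht).2 (not_lt.2 (le_of_lt h5))

theorem Th_cont {Z : Type w} [TopologicalSpace Z] {g : Z → X → ℝ} (hg : Continuous g)
    (h : ∀ z, ∃ n, g z ∈ Bv (v n)) : Continuous fun z => Th v (g z) := by
  refine continuous_iff_continuousAt.2 fun z => tendsto_order.2 ⟨fun r hr => ?_, fun r hr => ?_⟩
  · rcases lt_or_ge r 0 with h0 | h0
    · exact Filter.Eventually.of_forall fun _ => h0.trans_le Th_nonneg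
    · obtain ⟨r'', h1, h2⟩ := exists_between hr
      obtain ⟨r', h3, h4⟩ := exists_between h1
      have hr' : 0 < r' := h0.trans_lt h3
      have hr'' : 0 < r'' := hr'.trans h4
      have h5 : r'' ∉ TS v (g z) := notMem_of_lt_csInf h2 TS_bdd
      have h6 : ∀ᶠ z' in nhds z, ∀ n ∈ Finset.range (⌈r'⌉₊),
          g z' ∉ Bs (1 / r') (v n) := by
        rw [Filter.eventually_all_finset]
        intro n hn
        refine not_Bs_nhds hg (one_div_lt_one_div_of_lt hr' h4) fun h7 => h5 ⟨hr'', n, ?_, h7⟩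
        exact (Nat.lt_ceil.1 (Finset.mem_range.1 hn)).trans h4
      filter_upwards [h6] with z' h7
      refine h3.trans_le (le_Th (h z') ?_)
      rintro ⟨_, n, h8, h9⟩
      exact h7 n (Finset.mem_range.2 (Nat.lt_ceil.2 h8)) h9
  · obtain ⟨n, hn⟩ := h z
    obtain ⟨q, ⟨h0, k, h1, h2⟩, h3⟩ := (csInf_lt_iff TS_bdd (TS_ne hn)).1 hr
    filter_upwards [Bs_nhds hg h2] with z' h4
    exact (csInf_le TS_bdd ⟨h0, k, h1, h4⟩).trans_lt h3

end CPY
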