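import Pool.Agent.CPY.SimpC
import Pool.Agent.CPY.IIdx

/-! # Urysohn lemma in the model: compact Hausdorff spaces of the model are completely regular

(problem MP_ba5606_gt, ARH Part II; no sorry in this file)

`US` is an abstract scheme of pairs (closed set, open neighbourhood) with a left and a right half, `ulim`
its Urysohn function (as in Mathlib); in the model the halves are given by an internal choice of
neighbourhoods. -/

set_option autoImplicit false

universe u v w

namespace CPY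

open WCal WM

section native

variable {X : Type v} {κ : Type w}

/-- abstract Urysohn scheme -/
structure US [TopologicalSpace X] (C U : κ → Set X) (l r : κ → κ) (g : κ → Prop) : Prop where
  cl : ∀ c, g c → IsClosed (C c)
  op : ∀ c, g c → IsOpen (U c)
  sub : ∀ c, g c → C c ⊆ U c
  gl : ∀ c, g c → g (l c)
  gr : ∀ c, g c → g (r c)
  Cl : ∀ c, g c → C (l c) = C c
  Ur : ∀ c, g c → U (r c) = U c
  lr : ∀ c, g c → U (l c) ⊆ C (r c)

open Classical in
/-- approximations of the Urysohn function (`1` on `C`, `0` outside `U`) -/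
noncomputable def uap (U : κ → Set X) (l r : κ → κ) : ℕ → κ → X → ℝ
  | 0, c, x => if x ∈ U c then 1 else 0
  | n + 1, c, x => (uap U l r n (l c) x + uap U l r n (r c) x) / 2

/-- the Urysohn function -/
noncomputable def ulim (U : κ → Set X) (l r : κ → κ) (c : κ) (x : X) : ℝ := ⨅ n, uap U l r n c x

theorem uap_nonneg {U : κ → Set X} {l r : κ → κ} (n : ℕ) (c : κ) (x : X) : 0 ≤ uap U l r n c x := by
  induction n generalizing c with
  | zero =>
    rw [uap]
    split_ifs
    · exact zero_le_one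
    · exact le_refl _
  | succ n ih =>
    rw [uap]
    have h1 := ih (l c)
    have h2 := ih (r c)
    linarith

theorem uap_le_one {U : κ → Set X} {l r : κ → κ} (n : ℕ) (c : κ) (x : X) : uap U l r n c x ≤ 1 := by
  induction n generalizing c with
  | zero =>
    rw [uap]
    split_ifs
    · exact le_refl _
    · exact zero_le_one
  | succ n ih =>
    rw [uap]
    have h1 := ih (l c)
    have h2 := ih (r c)
    linarith

theorem uap_bdd {U : κ → Set X} {l r : κ → κ} (c : κ) (x : X) :
    BddBelow (Set.range fun n => uap U l r n c x) :=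
  ⟨0, by rintro _ ⟨n, rfl⟩; exact uap_nonneg n c x⟩

theorem ulim_nonneg {U : κ → Set X} {l r : κ → κ} (c : κ) (x : X) : 0 ≤ ulim U l r c x :=
  le_ciInf fun n => uap_nonneg n c x

theorem ulim_le_one {U : κ → Set X} {l r : κ → κ} (c : κ) (x : X) : ulim U l r c x ≤ 1 :=
  (ciInf_le (uap_bdd c x) 0).trans (uap_le_one 0 c x)

variable [TopologicalSpace X] {C U : κ → Set X} {l r : κ → κ} {g : κ → Prop} (h : US C U l r g)

include h

theorem US.lU {c : κ} (hc : g c) : U (l c) ⊆ U c := by
  rw [← h.Ur c hc]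
  exact (h.lr c hc).trans (h.sub _ (h.gr c hc))

theorem US.rC {c : κ} (hc : g c) : C c ⊆ C (r c) := by
  rw [← h.Cl c hc]
  exact (h.sub _ (h.gl c hc)).trans (h.lr c hc)

theorem US.ap_C {c : κ} (hc : g c) (n : ℕ) {x : X} (hx : x ∈ C c) : uap U l r n c x = 1 := by
  induction n generalizing c with
  | zero =>
    rw [uap, if_pos (h.sub c hc hx)]
  | succ n ih =>
    rw [uap, ih (h.gl c hc) (by rwa [h.Cl c hc]), ih (h.gr c hc) (h.rC hc hx)]
    norm_num

theorem US.ap_U {c : κ} (hc : g c) (n : ℕ) {x : X} (hx : x ∉ U c) : uap U l r n c x = 0 := by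
  induction n generalizing c with
  | zero =>
    rw [uap, if_neg hx]
  | succ n ih =>
    rw [uap, ih (h.gl c hc) (fun h1 => hx (h.lU hc h1)), ih (h.gr c hc) (by rwa [h.Ur c hc])]
    norm_num

theorem US.ap_le {c d : κ} (hc : g c) (hd : g d) (hcd : U c ⊆ C d) (m n : ℕ) (x : X) :
    uap U l r m c x ≤ uap U l r n d x := by
  by_cases hx : x ∈ U c
  · rw [h.ap_C hd n (hcd hx)]
    exact uap_le_one m c x
  · rw [h.ap_U hc m hx]
    exact uap_nonneg n d x

theorem US.ap_mem {c : κ} (hc : g c) (n : ℕ) (x : X) :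
    uap U l r n (l c) x ≤ uap U l r n c x ∧ uap U l r n c x ≤ uap U l r n (r c) x := by
  induction n generalizing c with
  | zero =>
    constructor
    · by_cases hx : x ∈ U (l c)
      · rw [uap, uap, if_pos hx, if_pos (h.lU hc hx)]
      · rw [h.ap_U (h.gl c hc) 0 hx]
        exact uap_nonneg 0 c x
    · rw [uap, uap, h.Ur c hc]
  | succ n ih =>
    have h1 := ih (h.gl c hc)
    have h2 := ih (h.gr c hc)
    have h3 : uap U l r n (r (l c)) x ≤ uap U l r n (r c) x :=
      h.ap_le (h.gr _ (h.gl c hc)) (h.gr c hc) (by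
        rw [h.Ur _ (h.gl c hc)]
        exact h.lr c hc) n n x
    have h4 : uap U l r n (l c) x ≤ uap U l r n (l (r c)) x :=
      h.ap_le (h.gl c hc) (h.gl _ (h.gr c hc)) (by
        rw [h.Cl _ (h.gr c hc)]
        exact h.lr c hc) n n x
    rw [uap, uap, uap]
    constructor
    · linarith [h1.1]
    · linarith [h2.2]

theorem US.ap_succ {c : κ} (hc : g c) (n : ℕ) (x : X) :
    uap U l r (n + 1) c x ≤ uap U l r n c x := by
  induction n generalizing c with
  | zero =>
    have h1 := (h.ap_mem hc 0 x).1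
    have h2 : uap U l r 0 (r c) x = uap U l r 0 c x := by
      rw [uap, uap, h.Ur c hc]
    have h3 : uap U l r (0 + 1) c x = (uap U l r 0 (l c) x + uap U l r 0 (r c) x) / 2 := rfl
    rw [h3, h2]
    linarith
  | succ n ih =>
    have h1 := ih (h.gl c hc)
    have h2 := ih (h.gr c hc)
    have h3 : uap U l r (n + 1 + 1) c x =
      (uap U l r (n + 1) (l c) x + uap U l r (n + 1) (r c) x) / 2 := rfl
    have h4 : uap U l r (n + 1) c x = (uap U l r n (l c) x + uap U l r n (r c) x) / 2 := rfl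
    rw [h3, h4]
    linarith

theorem US.tendsto {c : κ} (hc : g c) (x : X) :
    Filter.Tendsto (fun n => uap U l r n c x) Filter.atTop (nhds (ulim U l r c x)) :=
  tendsto_atTop_ciInf (antitone_nat_of_succ_le fun n => h.ap_succ hc n x) (uap_bdd c x)

theorem US.lim_eq {c : κ} (hc : g c) (x : X) :
    ulim U l r c x = (ulim U l r (l c) x + ulim U l r (r c) x) / 2 := by
  refine tendsto_nhds_unique (h.tendsto hc x) ((Filter.tendsto_add_atTop_iff_nat 1).1 ?_)
  exact ((h.tendsto (h.gl c hc) x).add (h.tendsto (h.gr c hc) x)).div_const 2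

theorem US.lim_C {c : κ} (hc : g c) {x : X} (hx : x ∈ C c) : ulim U l r c x = 1 := by
  have h1 : ∀ n, uap U l r n c x = 1 := fun n => h.ap_C hc n hx
  simp only [ulim, h1, ciInf_const]

theorem US.lim_U {c : κ} (hc : g c) {x : X} (hx : x ∉ U c) : ulim U l r c x = 0 := by
  have h1 : ∀ n, uap U l r n c x = 0 := fun n => h.ap_U hc n hx
  simp only [ulim, h1, ciInf_const]

theorem US.cont_aux (x : X) (n : ℕ) {c : κ} (hc : g c) :
    ∀ᶠ y in nhds x, |ulim U l r c y - ulim U l r c x| ≤ (3 / 4 : ℝ) ^ n := by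
  induction n generalizing c with
  | zero =>
    filter_upwards with y
    rw [pow_zero, abs_le]
    have h1 := ulim_nonneg (U := U) (l := l) (r := r) c x
    have h2 := ulim_nonneg (U := U) (l := l) (r := r) c y
    have h3 := ulim_le_one (U := U) (l := l) (r := r) c x
    have h4 := ulim_le_one (U := U) (l := l) (r := r) c y
    constructor <;> linarith
  | succ n ih =>
    have hp : (0 : ℝ) < (3 / 4 : ℝ) ^ n := by positivity
    by_cases hx : x ∈ U (l c)
    · filter_upwards [(h.op _ (h.gl c hc)).mem_nhds hx, ih (h.gl c hc)] with y hy1 hy2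
      rw [h.lim_eq hc, h.lim_eq hc, h.lim_C (h.gr c hc) (h.lr c hc hx),
        h.lim_C (h.gr c hc) (h.lr c hc hy1)]
      rw [pow_succ]
      rw [abs_le] at hy2 ⊢
      constructor <;> linarith [hy2.1, hy2.2]
    · have hgl := h.gl c hc
      have hglr := h.gr _ hgl
      have hgll := h.gl _ hgl
      have hx1 : x ∈ (C (r (l c)))ᶜ := by
        intro h1
        have h2 := h.sub _ hglr h1
        rw [h.Ur _ hgl] at h2
        exact hx h2
      filter_upwards [(h.cl _ hglr).isOpen_compl.mem_nhds hx1, ih hglr, ih (h.gr c hc)] with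
        y hy1 hy2 hy3
      have hx2 : x ∉ U (l (l c)) := fun h1 => hx1 (h.lr _ hgl h1)
      have hy4 : y ∉ U (l (l c)) := fun h1 => hy1 (h.lr _ hgl h1)
      rw [h.lim_eq hc, h.lim_eq hc, h.lim_eq hgl, h.lim_eq hgl, h.lim_U hgll hx2,
        h.lim_U hgll hy4, pow_succ]
      rw [abs_le] at hy2 hy3 ⊢
      constructor <;> linarith [hy2.1, hy2.2, hy3.1, hy3.2]

theorem US.continuous {c : κ} (hc : g c) : Continuous (ulim U l r c) := by
  rw [continuous_iff_continuousAt]
  intro x
  refine (Metric.nhds_basis_closedBall_pow (r := (3 / 4 : ℝ)) (by norm_num)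
    (by norm_num)).tendsto_right_iff.2 fun n _ => ?_
  filter_upwards [h.cont_aux x n hc] with y hy
  rw [Metric.mem_closedBall, Real.dist_eq]
  exact hy

end native

section model

variable {N : Type u} [WM N] {X : Type v} [WTy N X] [TopologicalSpace X]

/-- union of a list of internal sets -/
def lun (l : List (St N X)) : St N X :=
  ⟨{x | ∃ V : St N X, V ∈ l ∧ x ∈ V}, IP.ex (P := fun (x : X) (V : St N X) => V ∈ l ∧ x ∈ V)
    (IP.and (IP.memList IF.snd (IF.const l)) (IP.mem IF.fst IF.snd))⟩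

omit [TopologicalSpace X] in
theorem mem_lun {l : List (St N X)} {x : X} : x ∈ (lun l).s ↔ ∃ V : St N X, V ∈ l ∧ x ∈ V :=
  Iff.rfl

omit [TopologicalSpace X] in
theorem lun_eq (l : List (St N X)) : (lun l).s = ⋃ V ∈ {V : St N X | V ∈ l}, V.s := by
  ext x
  rw [mem_lun]
  simp only [Set.mem_ofPred_eq, Set.mem_iUnion, exists_prop]
  rfl

theorem isOpen_lun {l : List (St N X)} (h : ∀ V ∈ l, IsOpen V.s) : IsOpen (lun l).s := by
  rw [lun_eq]
  exact isOpen_biUnion h

theorem closure_lun (l : List (St N X)) {x : X} (hx : x ∈ closure (lun l).s) :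
    ∃ V ∈ l, x ∈ closure V.s := by
  rw [lun_eq, (List.finite_toSet l).closure_biUnion] at hx
  simp only [Set.mem_ofPred_eq, Set.mem_iUnion, exists_prop] at hx
  exact hx

variable [WSp N X]

/-- separation of a point and a closed set -/
theorem WCpt.sepPt [T2Space X] (hc : WCpt N X) (x : X) {F : St N X} (hF : IsClosed F.s)
    (hx : x ∉ F) : ∃ V : St N X, IsOpen V.s ∧ x ∈ V ∧ ∀ y, y ∈ closure V.s → y ∉ F := by
  have h1 : IP N (fun V : St N X => IsOpen V.s ∧ x ∉ closure V.s) := by
    refine IP.and WSp.fam (IP.not ?_)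
    have h2 := ip_closure (N := N) (α := St N X) (A := fun V y => y ∈ V) (IP.mem IF.snd IF.fst)
    exact IP.comp h2 (IF.pair IF.id (IF.const x))
  obtain ⟨l, hl, hl'⟩ := hc.idxOn (K := F) hF (P := fun V : St N X => IsOpen V.s ∧ x ∉ closure V.s)
    (U := fun (V : St N X) y => y ∈ V) h1 (IP.mem IF.snd IF.fst) (fun V hV => hV.1) (by
      intro y hy
      have hxy : x ≠ y := fun h => hx (h ▸ hy)
      obtain ⟨A, B, hA, hB, hxA, hyB, hAB⟩ := t2_separation hxy
      obtain ⟨V, hV, hyV, hVB⟩ := WSp.base (N := N) y B hB hyB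
      refine ⟨V, ⟨hV, fun h => ?_⟩, hyV⟩
      obtain ⟨z, hz, hz'⟩ := mem_closure_iff.1 h A hA hxA
      exact Set.disjoint_left.1 hAB hz (hVB hz'))
  have h2 : x ∉ closure (lun l).s := fun h => by
    obtain ⟨V, hV, hxV⟩ := closure_lun l h
    exact (hl V hV).2 hxV
  refine ⟨⟨{y | y ∉ closure (lun l).s}, IP.not (closure_int _)⟩,
    isClosed_closure.isOpen_compl, h2, fun y hy hyF => ?_⟩
  obtain ⟨V, hV, hyV⟩ := hl' y hyF
  have h3 : IsOpen (lun l).s := isOpen_lun fun V hV => (hl V hV).1
  obtain ⟨z, hz, hz'⟩ := mem_closure_iff.1 hy _ h3 ⟨V, hV, hyV⟩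
  exact hz' (subset_closure hz)

/-- normality in the model -/
theorem WCpt.nrm [T2Space X] (hc : WCpt N X) {K W : St N X} (hK : IsClosed K.s) (hW : IsOpen W.s)
    (hKW : ∀ y, y ∈ K → y ∈ W) :
    ∃ V : St N X, IsOpen V.s ∧ (∀ y, y ∈ K → y ∈ V) ∧ ∀ y, y ∈ closure V.s → y ∈ W := by
  have h1 : IP N (fun V : St N X => IsOpen V.s ∧ ∀ y, y ∈ closure V.s → y ∈ W) := by
    refine IP.and WSp.fam ?_
    have h2 := ip_closure (N := N) (α := St N X) (A := fun V y => y ∈ V) (IP.mem IF.snd IF.fst)
    exact IP.all (P := fun (V : St N X) (y : X) => y ∈ closure V.s → y ∈ W)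
      (IP.imp h2 (IP.mem IF.snd (IF.const W)))
  obtain ⟨l, hl, hl'⟩ := hc.idxOn (K := K) hK
    (P := fun V : St N X => IsOpen V.s ∧ ∀ y, y ∈ closure V.s → y ∈ W)
    (U := fun (V : St N X) y => y ∈ V) h1 (IP.mem IF.snd IF.fst) (fun V hV => hV.1) (by
      intro x hx
      obtain ⟨V, hV, hxV, hVF⟩ := hc.sepPt x (F := ⟨{y | y ∉ W}, IP.not W.int⟩)
        hW.isClosed_compl (fun h => h (hKW x hx))
      exact ⟨V, ⟨hV, fun y hy => Classical.not_not.1 (hVF y hy)⟩, hxV⟩)
  refine ⟨lun l, isOpen_lun fun V hV => (hl V hV).1, fun y hy => hl' y hy, fun y hy => ?_⟩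
  obtain ⟨V, hV, hyV⟩ := closure_lun l hy
  exact (hl V hV).2 y hyV

variable [Std N]

omit [TopologicalSpace X] [WSp N X] in
/-- one step of the recursion for the Urysohn function -/
private theorem step_int {κ : Type w} [WTy N κ] {l r : κ → κ} (hl : IF N l) (hr : IF N r)
    (F : RFn N (κ × X)) : IR N (fun p : κ × X => (F (l p.1, p.2) + F (r p.1, p.2)) / 2) := by
  simp (maxDischargeDepth := 99) [hl.comp, hr.comp]

theorem ty_of_cpt [T2Space X] (hc : WCpt N X) : Ty N X := by
  classical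
  have hcl : IP N (fun p : St N X × X => p.2 ∈ closure p.1.s) :=
    ip_closure (N := N) (α := St N X) (A := fun V y => y ∈ V) (IP.mem IF.snd IF.fst)
  have hclo : IF N (fun V : St N X => clo V) := IF.compr' hcl
  -- the internal choice of neighbourhoods
  have h1 : IP N (fun p : (St N X × St N X) × St N X => IsOpen p.2.s ∧
      (∀ y, y ∈ p.1.1 → y ∈ p.2) ∧ ∀ y, y ∈ closure p.2.s → y ∈ p.1.2) := by
    refine IP.and (IP.comp (P := fun U : St N X => IsOpen U.s) WSp.fam IF.snd) (IP.and ?_ ?_)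
    · simp (maxDischargeDepth := 99)
    · refine IP.all (P := fun (p : (St N X × St N X) × St N X) (y : X) =>
        y ∈ closure p.2.s → y ∈ p.1.2) (IP.imp ?_ ?_)
      · exact IP.comp hcl (IF.pair (IF.comp IF.snd IF.fst) IF.snd)
      · simp (maxDischargeDepth := 99)
  obtain ⟨V, hV, hV'⟩ := choice' (P := fun (c : St N X × St N X) (V : St N X) => IsOpen V.s ∧
      (∀ y, y ∈ c.1 → y ∈ V) ∧ ∀ y, y ∈ closure V.s → y ∈ c.2) h1 ⟨{x | True}, IP.const True⟩
  set g : St N X × St N X → Prop := fun c => IsClosed c.1.s ∧ IsOpen c.2.s ∧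
    ∀ y, y ∈ c.1 → y ∈ c.2 with hg
  set l : St N X × St N X → St N X × St N X := fun c => (c.1, V c) with hl
  set r : St N X × St N X → St N X × St N X := fun c => (clo (V c), c.2) with hr
  have hlI : IF N l := IF.pair IF.fst hV
  have hrI : IF N r := IF.pair (hclo.comp hV) IF.snd
  have hVg : ∀ c, g c → IsOpen (V c).s ∧ (∀ y, y ∈ c.1 → y ∈ V c) ∧
      ∀ y, y ∈ closure (V c).s → y ∈ c.2 := fun c hc' =>
    hV' c (hc.nrm hc'.1 hc'.2.1 hc'.2.2)
  have hUS : US (fun c : St N X × St N X => c.1.s) (fun c => c.2.s) l r g :=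
    { cl := fun c hc => hc.1
      op := fun c hc => hc.2.1
      sub := fun c hc => hc.2.2
      gl := fun c hc => ⟨hc.1, (hVg c hc).1, (hVg c hc).2.1⟩
      gr := fun c hc => ⟨isClosed_closure, hc.2.1, (hVg c hc).2.2⟩
      Cl := fun c hc => rfl
      Ur := fun c hc => rfl
      lr := fun c hc => subset_closure }
  -- the approximations are internal
  have hF0 : IR N (fun p : (St N X × St N X) × X => if p.2 ∈ p.1.2 then (1 : ℝ) else 0) := by
    simp (maxDischargeDepth := 99)
  let F0 : RFn N ((St N X × St N X) × X) := ⟨fun p => if p.2 ∈ p.1.2 then (1 : ℝ) else 0, hF0⟩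
  let st : RFn N ((St N X × St N X) × X) → RFn N ((St N X × St N X) × X) := fun F =>
    ⟨fun p => (F (l p.1, p.2) + F (r p.1, p.2)) / 2, step_int hlI hrI F⟩
  have hst : IF N st := by
    refine IR.lamR' ?_
    change IR N (fun q : RFn N ((St N X × St N X) × X) × ((St N X × St N X) × X) =>
      (q.1 (l q.2.1, q.2.2) + q.1 (r q.2.1, q.2.2)) / 2)
    simp (maxDischargeDepth := 99) [hlI.comp, hrI.comp]
  have hit : ∀ n c x, (st^[n] F0) (c, x) = uap (fun c : St N X × St N X => c.2.s) l r n c x := by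
    intro n
    induction n with
    | zero =>
      intro c x
      rw [uap]
      rfl
    | succ n ih =>
      intro c x
      rw [Function.iterate_succ_apply', uap, ← ih, ← ih]
  have hint : ∀ c, IR N (fun x => ulim (fun c : St N X × St N X => c.2.s) l r c x) := by
    intro c
    refine IR.iInf ?_ fun x => uap_bdd c x
    refine IR.congr (fun p : X × ℕ => hit p.2 c p.1) ?_
    exact IR.ev (IF.comp (IF.iter hst F0) IF.snd) (IF.pair (IF.const c) IF.fst)
  intro x U hU hxU
  obtain ⟨W, hW, hxW, hWU⟩ := WSp.base (N := N) x U hU hxU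
  have hxc : IP N (fun y : X => y = x) := IP.eq IF.id (IF.const x)
  have hgc : g (⟨{y | y = x}, hxc⟩, W) := by
    refine ⟨?_, hW, ?_⟩
    · exact isClosed_singleton
    · intro y hy
      have h2 : y = x := hy
      rw [h2]
      exact hxW
  refine ⟨⟨_, hint (⟨{y | y = x}, hxc⟩, W), hUS.continuous hgc⟩, fun y => ⟨ulim_nonneg _ _,
    ulim_le_one _ _⟩, hUS.lim_C hgc rfl, fun y hy => hUS.lim_U hgc fun h => hy (hWU h)⟩

end model

end CPY
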