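import Pool.Agent.CPY.TopDefs
import Pool.Agent.CPY.FFin
import Pool.Agent.CPY.Ury
import Pool.Agent.CPY.E.Q2
import Pool.Agent.CPY.K12
import Pool.Agent.LGr.Gm

/-! # A model with positive answers: assembly of the blocks

(problem MP_ba5606_gt, ARH Part II; helper78; no sorry in this file)

`tArh_of`: blocks E1, E2. `exists_posArh`: a countable transitive model of ZFC in which `PosArh` is
true, from the blocks C, D (`TopDefs.lean`), A (`LGr/Gm.lean`) and F (`FFin.lean`). -/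

set_option autoImplicit false

universe u v

namespace CPY

open STP WCal WM

/-- blocks E1 and E2 -/
theorem tArh_of {N : Type u} [WM N] [Std N] {Θ : Type v} [WTy N Θ] [LinearOrder Θ]
    (hΘ : OmO N Θ) (hH : HPr N Θ) : TArh N := by
  intro X _ _ _ _ hc hL
  have ht : Ty N X := ty_of_cpt hc
  have hne : Nonempty Θ := by
    by_contra he
    rw [not_nonempty_iff] at he
    have h0 : IsR N (0 : ℝ) := by
      have := isR_rat (N := N) 0
      rwa [Rat.cast_zero] at this
    obtain ⟨F, -, -, h1, -⟩ := hH (fun _ _ => 0) (IR.const h0)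
      (fun _ _ => ⟨le_rfl, zero_le_one⟩) (fun a => he.elim a)
    obtain ⟨a, -⟩ := h1 (fun _ => true) (IF.const _)
    exact he.elim a
  have h1 : ∀ A : St N X, Cnt A → WNet N (clo A) := fun A hA => mono_of hΘ hH hc ht hL A hA
  exact ⟨wlin_CC hc hL h1 hΘ, h1⟩

/-- a countable transitive model of ZFC in which both questions have a positive answer -/
theorem exists_posArh (hC : BlockC) (hD : BlockD) :
    ∃ W : Set ZFSet.{0}, W.Countable ∧ Mod W ∧ PosArh (Em W) := by
  obtain ⟨Φ, hΦ⟩ := hD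
  obtain ⟨δ, hδ, hω, hcnt, hM⟩ := LGr.exists_ground Φ
  obtain ⟨hstd, Θ, i1, i2, c, hΘ, hc, hinj, hH⟩ := hΦ δ ⟨hM⟩ hδ hω hcnt
  have i0 : Fact (Mod (LGr.U Φ δ)) := ⟨hM⟩
  obtain ⟨W, hW, h, hWc, hE⟩ := hC (LGr.U Φ δ) Θ c hcnt hΘ hc hinj
  have hstdW : Std W := Emb.std (embOf h)
  let _ := upT h Θ
  exact ⟨W, hWc, hW.out, posArh_of (N := W) (tArh_of (Θ := Θ) hE.1 (hH W hW h hWc hE))⟩

end CPY
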